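import Pool.Agent.Run7.h700.G.Ker

/-!
# The chain of lattices: the algorithm
-/

namespace Run7.h700.G

/-- Clamp. -/
def clamp (B : ℕ) (a : ℤ) : ℤ := if a.natAbs ≤ B then a else 0

/-- Bound for the denominators. -/
def BD (d K : ℕ) : ℕ := (16 ^ (d + 1) * d ^ 2 * (R.C1 d * K + 1) ^ 2) ^ (d + 1)

/-- Bound for the coordinates. -/
def BS (d K n : ℕ) : ℕ := R.C1 d * (K * (BD d K * BD d K * n))

/-- The loss of precision of a step. -/
def loss (d K n : ℕ) : ℕ := 2 * (BD d K * BD d K * n).size

/-- A start for the inverse of `z` modulo powers of `l`. -/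
def inv0 (l : ℕ) (z : ℤ) : ℕ :=
  (((List.range l).filter fun t : ℕ => decide ((z * (t : ℤ)) % (l : ℤ) = 1)).head?).getD 0

/-- The inverse of `z` modulo `Q = l ^ T`. -/
def invZ (l Q T : ℕ) (z : ℤ) : ℤ := (fun x : ℤ => (x * (2 - z * x)) % (Q : ℤ))^[T] (inv0 l z)

/-- Removal of a common factor. -/
def strip (r : ℕ) (s : ℤ × List ℤ) : ℤ × List ℤ :=
  if s.1 % (r : ℤ) = 0 then (s.1 / (r : ℤ), divL s.2 r) else s

/-- Division by an integer modulo a prime power. -/
def rdiv (r Q T : ℕ) (E : ℤ) (W : List ℤ) : List ℤ :=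
  modL Q (smulL (invZ r Q T ((strip r)^[T] (E, W)).1) ((strip r)^[T] (E, W)).2)

/-- A state of the chain: generators, denominator, norm factor. -/
abbrev StT := List (List ℤ) × ℤ × ℕ

/-- The norm of the generator. -/
def EE (st : StT) : ℤ := st.2.1 * st.2.1 * (st.2.2 : ℤ)

/-- A nonzero element of the list. -/
def pick (S : List (List ℤ)) : List ℤ :=
  ((S.filter fun s => decide ((s.map fun a => a * a).sum ≠ 0)).head?).getD []

/-- The chosen element. -/
def vv (st : StT) : List ℤ := pick st.1

/-- The norm of its cofactor. -/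
def hh (d : ℕ) (st : StT) : List ℤ := divL (mulL d (vv st) (conjL d (vv st))) (EE st)

/-- The cofactor of the norm. -/
def HH (d : ℕ) (st : StT) : List ℤ := adjL d (hh d st)

/-- The new denominator. -/
def NN (d K : ℕ) (st : StT) : ℤ := clamp (BD d K) ((mulL d (hh d st) (HH d st)).getD 0 0)

/-- Generators of the conjugate cofactor ideal, conjugated. -/
def ZZ (d : ℕ) (st : StT) : List (List ℤ) :=
  st.1.map fun s => divL (mulL d (vv st) (conjL d s)) (EE st)

/-- The factor for the bit. -/
def WW (d : ℕ) (S0 : List (List ℤ)) (bit : Bool) : List (List ℤ) := if bit = true then S0 else [intL d 1]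

/-- The multipliers defining the next lattice. -/
def mults (d : ℕ) (S0 : List (List ℤ)) (bit : Bool) (st : StT) : List (List ℤ) :=
  (ZZ d st).flatMap fun z => (ZZ d st).flatMap fun z' => (WW d S0 bit).map fun u =>
    mulL d (mulL d (mulL d z z') (HH d st)) (conjL d u)

/-- The new norm factor. -/
def pe' (n : ℕ) (bit : Bool) : ℕ := if bit = true then n else 1

/-- The new norm. -/
def newE (d K n : ℕ) (bit : Bool) (st : StT) : ℕ :=
  (NN d K st).natAbs * (NN d K st).natAbs * pe' n bit

/-- The new generators. -/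
def newS (d K n : ℕ) (S0 : List (List ℤ)) (bit : Bool) (st : StT) : List (List ℤ) :=
  ((kerM d (mults d S0 bit st) (max 1 (newE d K n bit st)) (betaE d (newE d K n bit st))).take d).map
    fun s => s.map (clamp (BS d K n))

/-- One step of the lattice chain. -/
def stepS (d K n : ℕ) (S0 : List (List ℤ)) (bit : Bool) (st : StT) : StT :=
  (newS d K n S0 bit st, NN d K st, pe' n bit)

/-- The new coefficient. -/
def newC (d n r Q T : ℕ) (bit : Bool) (st : StT) (c : List ℤ) : List ℤ :=
  rdiv r Q T (EE st * EE st) (modL Q (smulL (pe' n bit : ℤ)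
    (mulL d (mulL d c c) (mulL d (mulL d (vv st) (vv st)) (HH d st)))))

/-- The initial state. -/
def initSt (d : ℕ) : StT := ((List.range d).map fun i => zL d i, 1, 1)

/-- The chain for the exponent `k`. -/
def chain (d K n : ℕ) (S0 : List (List ℤ)) (r Q T k : ℕ) : StT × List ℤ :=
  k.bits.foldr (fun b s => (stepS d K n S0 b s.1, newC d n r Q T b s.1 s.2)) (initSt d, intL d 1)

/-- Modular exponentiation. -/
def powB (d Q k : ℕ) (x : List ℤ) : List ℤ :=
  k.bits.foldr (fun b y => modL Q (mulL d (modL Q (mulL d y y)) (if b = true then x else intL d 1)))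
    (intL d 1)

end Run7.h700.G
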