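import Pool.Agent.Run7.h700.G.Alg
import Pool.Agent.NPC.Num

/-!
# The chain of lattices: correctness
-/

set_option linter.unusedSectionVars false
set_option linter.style.haveILetI false
set_option linter.unusedVariables false

namespace Run7.h700.G

open Finset Pool.Agent.NPC

theorem clamp_eq {B : ℕ} {a : ℤ} (h : |a| ≤ B) : clamp B a = a := by
  rw [clamp, if_pos]
  rw [Int.abs_eq_natAbs] at h
  exact_mod_cast h

theorem natAbs_clamp_le (B : ℕ) (a : ℤ) : (clamp B a).natAbs ≤ B := by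
  rw [clamp]; split_ifs with h
  · exact h
  · simp

theorem invZ_spec {l : ℕ} (hl : l.Prime) {z : ℤ} (hz : ¬ (l : ℤ) ∣ z) (T : ℕ) :
    ((l ^ T : ℕ) : ℤ) ∣ z * invZ l (l ^ T) T z - 1 := by
  have h0 : (l : ℤ) ∣ 1 - z * (inv0 l z : ℤ) := by
    have hcop : IsCoprime (l : ℤ) z :=
      (Prime.coprime_iff_not_dvd (Nat.prime_iff_prime_int.1 hl)).2 hz
    obtain ⟨u, v, huv⟩ := hcop
    have hl0 : (0 : ℤ) < l := by exact_mod_cast hl.pos
    set t := (v % l).toNat with ht
    have ht' : (t : ℤ) = v % l := Int.toNat_of_nonneg (Int.emod_nonneg _ hl0.ne')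
    have htl : t < l := by
      have := Int.emod_lt_of_pos v hl0
      omega
    have hmem : t ∈ (List.range l).filter fun t : ℕ => decide ((z * (t : ℤ)) % (l : ℤ) = 1) := by
      rw [List.mem_filter]
      refine ⟨List.mem_range.2 htl, ?_⟩
      rw [decide_eq_true_eq, ht']
      have h1 : z * (v % l) = 1 + l * (-u - z * (v / l)) := by
        have := Int.emod_add_mul_ediv v l
        linear_combination z * this + huv
      rw [h1, Int.add_mul_emod_self_left]
      exact Int.emod_eq_of_lt (by norm_num) (by exact_mod_cast hl.one_lt)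
    have h2 : ∀ x ∈ (List.range l).filter (fun t : ℕ => decide ((z * t) % (l : ℤ) = 1)),
        (z * x) % (l : ℤ) = 1 := by
      intro x hx
      have := (List.mem_filter.1 hx).2
      simpa using this
    have h3 : inv0 l z ∈ (List.range l).filter fun t : ℕ => decide ((z * (t : ℤ)) % (l : ℤ) = 1) := by
      rw [inv0]
      cases h : (List.range l).filter fun t : ℕ => decide ((z * (t : ℤ)) % (l : ℤ) = 1) with
      | nil => rw [h] at hmem; simp at hmem
      | cons a b => simp
    have h4 := h2 _ h3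
    rw [← h4]
    have := Int.emod_add_mul_ediv (z * (inv0 l z : ℤ)) l
    exact ⟨-(z * (inv0 l z : ℤ) / l), by linear_combination this⟩
  have key : ∀ i, (l : ℤ) ^ (min (i + 1) T) ∣
      1 - z * ((fun x : ℤ => (x * (2 - z * x)) % ((l ^ T : ℕ) : ℤ))^[i] (inv0 l z)) := by
    intro i
    induction i with
    | zero =>
      refine dvd_trans (pow_dvd_pow _ (min_le_left _ _)) ?_
      simpa using h0
    | succ i ih =>
      rw [Function.iterate_succ_apply']
      set x := ((fun x : ℤ => (x * (2 - z * x)) % ((l ^ T : ℕ) : ℤ))^[i] (inv0 l z))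
      have h1 : (1 : ℤ) - z * ((x * (2 - z * x)) % ((l ^ T : ℕ) : ℤ)) =
          (1 - z * x) ^ 2 + (l : ℤ) ^ T * (z * ((x * (2 - z * x)) / ((l ^ T : ℕ) : ℤ))) := by
        have := Int.emod_add_mul_ediv (x * (2 - z * x)) ((l ^ T : ℕ) : ℤ)
        push_cast at this ⊢
        linear_combination -z * this
      rw [h1]
      refine dvd_add ?_ ?_
      · refine dvd_trans (pow_dvd_pow (l : ℤ) (n := 2 * min (i + 1) T) (by omega)) ?_
        rw [mul_comm, pow_mul]
        exact pow_dvd_pow_of_dvd ih 2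
      · exact Dvd.dvd.mul_right (pow_dvd_pow _ (min_le_right _ _)) _
  have h5 := key T
  rw [min_eq_right (by omega)] at h5
  rw [invZ]
  push_cast at h5 ⊢
  exact (dvd_sub_comm).1 h5

namespace R

variable {d : ℕ} [hd : NeZero d]

/-! ### Representatives modulo `Q` -/

/-- The list represents `x` modulo `Q`. -/
def Cg (Q : ℕ) (u : List ℤ) (x : R d) : Prop := ∃ y, u = L y ∧ (Q : R d) ∣ x - y

theorem Cg.refl {Q : ℕ} (x : R d) : Cg Q (L x) x := ⟨x, rfl, by simp⟩

theorem Cg.of_eq {Q : ℕ} {u : List ℤ} {x : R d} (h : u = L x) : Cg Q u x := ⟨x, h, by simp⟩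

theorem Cg.one {Q : ℕ} : Cg Q (intL d 1) (1 : R d) := Cg.of_eq (by rw [intL_eq, Int.cast_one])

theorem Cg.congr {Q : ℕ} {u : List ℤ} {x y : R d} (h : Cg Q u x) (hxy : (Q : R d) ∣ y - x) :
    Cg Q u y := by
  obtain ⟨w, rfl, h⟩ := h
  exact ⟨w, rfl, by have := dvd_add hxy h; rwa [sub_add_sub_cancel] at this⟩

theorem Cg.mod {Q Q' : ℕ} {u : List ℤ} {x : R d} (h : Cg Q u x) (hQ : Q ∣ Q') :
    Cg Q (modL Q' u) x := by
  obtain ⟨y, rfl, h⟩ := h
  obtain ⟨w, hw, h2⟩ := modL_eq (Q := Q') y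
  have h3 : (Q : R d) ∣ y - w := dvd_trans (Nat.cast_dvd_cast hQ) h2
  exact ⟨w, hw, by have := dvd_add h h3; rwa [sub_add_sub_cancel] at this⟩

theorem Cg.mul {Q : ℕ} {u v : List ℤ} {x y : R d} (h : Cg Q u x) (h' : Cg Q v y) :
    Cg Q (mulL d u v) (x * y) := by
  obtain ⟨x', rfl, h⟩ := h
  obtain ⟨y', rfl, h'⟩ := h'
  refine ⟨x' * y', mulL_eq _ _, ?_⟩
  have : x * y - x' * y' = (x - x') * y + x' * (y - y') := by ring
  rw [this]
  exact dvd_add (Dvd.dvd.mul_right h _) (Dvd.dvd.mul_left h' _)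

theorem Cg.smul {Q : ℕ} {u : List ℤ} {x : R d} (a : ℤ) (h : Cg Q u x) :
    Cg Q (smulL a u) ((a : R d) * x) := by
  obtain ⟨x', rfl, h⟩ := h
  refine ⟨a * x', smulL_eq _ _, ?_⟩
  rw [← mul_sub]
  exact Dvd.dvd.mul_left h _

theorem Cg.conj {Q : ℕ} {u : List ℤ} {x : R d} (h : Cg Q u x) :
    Cg Q (conjL d u) (R.conj x) := by
  obtain ⟨x', rfl, h⟩ := h
  refine ⟨R.conj x', conjL_eq _, ?_⟩
  obtain ⟨t, ht⟩ := h
  refine ⟨R.conj t, ?_⟩
  rw [← map_sub, ht, map_mul, map_natCast]

theorem Cg.sub {Q : ℕ} {u v : List ℤ} {x y : R d} (h : Cg Q u x) (h' : Cg Q v y) :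
    Cg Q (subL d u v) (x - y) := by
  obtain ⟨x', rfl, h⟩ := h
  obtain ⟨y', rfl, h'⟩ := h'
  refine ⟨x' - y', subL_eq _ _, ?_⟩
  have : x - y - (x' - y') = (x - x') - (y - y') := by ring
  rw [this]
  exact dvd_sub h h'

theorem Cg.of_dvd {Q Q' : ℕ} {u : List ℤ} {x : R d} (h : Cg Q' u x) (hQ : Q ∣ Q') : Cg Q u x := by
  obtain ⟨y, rfl, h⟩ := h
  exact ⟨y, rfl, dvd_trans (Nat.cast_dvd_cast hQ) h⟩

theorem Cg.cmod {Q : ℕ} {u : List ℤ} {x : R d} (h : Cg Q u x) (hx : ∀ i, 2 * |co x i| < Q) :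
    cmodL Q u = L x := by
  obtain ⟨y, rfl, h⟩ := h
  exact cmodL_eq (by have := (dvd_neg (a := (Q : R d))).2 h; rwa [neg_sub] at this) hx

theorem powB_cg {Q Q' k : ℕ} {u : List ℤ} {x : R d} (h : Cg Q u x) (hQ : Q ∣ Q') :
    Cg Q (powB d Q' k u) (x ^ k) := by
  rw [powB]
  have key : ∀ bl : List Bool, Cg Q (bl.foldr (fun b y => modL Q' (mulL d (modL Q' (mulL d y y))
      (if b = true then u else intL d 1))) (intL d 1)) (x ^ valB bl) := by
    intro bl
    induction bl with
    | nil => rw [valB, pow_zero]; exact Cg.one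
    | cons b bl ih =>
      rw [List.foldr_cons]
      have h1 := (ih.mul ih).mod hQ
      have h2 : Cg Q (if b = true then u else intL d 1) (x ^ b.toNat) := by
        cases b with
        | false => simpa using Cg.one
        | true => simpa using h
      have h3 := (h1.mul h2).mod hQ
      have e : x ^ valB bl * x ^ valB bl * x ^ b.toNat = x ^ valB (b :: bl) := by
        rw [← pow_add, ← pow_add]
        congr 1
        rw [valB]
        cases b <;> simp <;> ring
      rw [e] at h3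
      exact h3
  have := key k.bits
  rwa [valB_bits] at this

/-! ### Division modulo a prime power -/

theorem divL_nat {r : ℕ} (hr : r ≠ 0) (x : R d) : divL (L ((r : R d) * x)) r = L x := by
  have h := divL_eq (e := (r : ℤ)) (by exact_mod_cast hr) x
  simpa using h

theorem rdiv_spec {r : ℕ} (hr : r.Prime) {T c j : ℕ} {E : ℤ} (hE : E ≠ 0) (hEc : E.natAbs < 2 ^ c)
    (hT : c + j ≤ T) {W : List ℤ} {x : R d} (hW : Cg (r ^ (c + j)) W ((E : R d) * x)) :
    Cg (r ^ j) (rdiv r (r ^ T) T E W) x := by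
  have hr0 : (r : R d) ≠ 0 := by exact_mod_cast hr.ne_zero
  obtain ⟨w, rfl, hw⟩ := hW
  have hsmall : ∀ s : ℕ, (r : ℤ) ^ s ∣ E → s < c + 1 := by
    intro s hs
    have h1 := Int.natAbs_dvd_natAbs.2 hs
    rw [Int.natAbs_pow, Int.natAbs_natCast] at h1
    have h2 := Nat.le_of_dvd (Int.natAbs_pos.2 hE) h1
    have h3 : 2 ^ s ≤ r ^ s := Nat.pow_le_pow_left hr.two_le _
    have h4 : 2 ^ s < 2 ^ c := by omega
    have := (Nat.pow_lt_pow_iff_right (by norm_num : 1 < 2)).1 h4
    omega
  have key : ∀ i, ∃ (s : ℕ) (Ei : ℤ) (wi : R d), (strip r)^[i] (E, L w) = (Ei, L wi) ∧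
      E = (r : ℤ) ^ s * Ei ∧ s ≤ c ∧ ((r : R d) ^ (c + j - s) ∣ (Ei : R d) * x - wi) ∧
      (¬ (r : ℤ) ∣ Ei ∨ s = i) := by
    intro i
    induction i with
    | zero =>
      refine ⟨0, E, w, rfl, by simp, by omega, ?_, Or.inr rfl⟩
      rw [Nat.sub_zero]
      exact_mod_cast hw
    | succ i ih =>
      obtain ⟨s, Ei, wi, h1, h2, h3, h4, h5⟩ := ih
      rw [Function.iterate_succ_apply', h1, strip]
      split_ifs with h6
      · simp only at h6
        obtain ⟨E', hE'⟩ := Int.dvd_of_emod_eq_zero h6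
        have hs1 : s + 1 ≤ c := by
          have := hsmall (s + 1) ⟨E', by rw [h2, hE']; ring⟩
          omega
        have h7 : c + j - s = (c + j - (s + 1)) + 1 := by omega
        rw [h7, pow_succ'] at h4
        obtain ⟨t, ht⟩ := h4
        have h8 : wi = (r : R d) * ((E' : R d) * x - (r : R d) ^ (c + j - (s + 1)) * t) := by
          have h9 : (Ei : R d) = (r : R d) * (E' : R d) := by rw [hE']; push_cast; rfl
          rw [h9] at ht
          linear_combination -ht
        refine ⟨s + 1, E', (E' : R d) * x - (r : R d) ^ (c + j - (s + 1)) * t, ?_, ?_, hs1, ?_, ?_⟩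
        · have h9 : Ei / (r : ℤ) = E' := by
            rw [hE']; exact Int.mul_ediv_cancel_left _ (by exact_mod_cast hr.ne_zero)
          rw [h9]
          simp only
          rw [h8, divL_nat hr.ne_zero]
        · rw [h2, hE']; ring
        · exact ⟨t, by ring⟩
        · rcases h5 with h5 | h5
          · exact absurd (Int.dvd_of_emod_eq_zero h6) h5
          · right; omega
      · refine ⟨s, Ei, wi, rfl, h2, h3, h4, Or.inl fun h => h6 (Int.emod_eq_zero_of_dvd h)⟩
  obtain ⟨s, Ei, wi, h1, h2, h3, h4, h5⟩ := key T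
  have h6 : ¬ (r : ℤ) ∣ Ei := by
    rcases h5 with h5 | h5
    · exact h5
    · intro h7
      obtain ⟨E', hE'⟩ := h7
      have := hsmall (s + 1) ⟨E', by rw [h2, hE']; ring⟩
      omega
  have hinv := invZ_spec hr h6 T
  rw [rdiv, h1]
  simp only
  obtain ⟨t, ht⟩ := hinv
  have h7 : Cg (r ^ j) (smulL (invZ r (r ^ T) T Ei) (L wi)) x := by
    refine ⟨_, smulL_eq _ _, ?_⟩
    obtain ⟨u, hu⟩ := h4
    have hcast : (Ei : R d) * ((invZ r (r ^ T) T Ei : ℤ) : R d) - 1 = (r : R d) ^ T * (t : R d) := by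
      have := congrArg (Int.cast : ℤ → R d) ht
      push_cast at this
      exact this
    have e1 : c + j - s = j + (c - s) := by omega
    have e2 : (r : R d) ^ T = (r : R d) ^ j * (r : R d) ^ (T - j) := by
      rw [← pow_add]; congr 1; omega
    rw [e1, pow_add] at hu
    rw [e2] at hcast
    refine ⟨(r : R d) ^ (c - s) * u * ((invZ r (r ^ T) T Ei : ℤ) : R d) -
      (r : R d) ^ (T - j) * t * x, ?_⟩
    push_cast
    linear_combination ((invZ r (r ^ T) T Ei : ℤ) : R d) * hu - x * hcast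
  exact h7.mod (pow_dvd_pow r (by omega))

/-! ### One step of the lattice chain -/

/-- Induction over a generating set of the additive group. -/
theorem span_all {bs : List (R d)} (h : Submodule.span ℤ {b | b ∈ bs} = ⊤) {P : R d → Prop}
    (h0 : P 0) (hadd : ∀ x y, P x → P y → P (x + y)) (hsmul : ∀ (a : ℤ) x, P x → P (a • x))
    (hb : ∀ b ∈ bs, P b) (y : R d) : P y := by
  have hy : y ∈ Submodule.span ℤ {b | b ∈ bs} := by rw [h]; trivial
  refine Submodule.span_induction (p := fun y _ => P y) ?_ h0 ?_ ?_ hy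
  · intro x hx; exact hb x hx
  · intro x y _ _; exact hadd x y
  · intro a x _; exact hsmul a x

/-- The lattice part of the invariant. -/
structure GLat (K n : ℕ) (st : StT) (g : R d) (bs : List (R d)) : Prop where
  gens : st.1 = bs.map (fun b => L (g * b))
  span : Submodule.span ℤ {b | b ∈ bs} = ⊤
  bd : ∀ b ∈ bs, qf (g * b) ≤ K * EE st
  norm : g * conj g = (EE st : R d)
  len : bs.length ≤ d
  pos : 0 < EE st
  le : EE st ≤ (BD d K * BD d K * n : ℕ)

theorem L_zero : L (0 : R d) = List.replicate d 0 := by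
  rw [L_eq_map]
  apply List.ext_getElem (by simp)
  intro i h1 h2
  simp [co_zero]

theorem sq_sum_eq_zero (x : R d) : ((L x).map fun a => a * a).sum ≠ 0 ↔ x ≠ 0 := by
  rw [L_map, list_sum_range, not_iff_not]
  constructor
  · intro h
    apply ext_co
    intro i hi
    rw [co_zero]
    have h1 := (Finset.sum_eq_zero_iff_of_nonneg (fun i _ => mul_self_nonneg (co x i))).1 h i
      (mem_range.2 hi)
    exact mul_self_eq_zero.1 h1
  · rintro rfl
    exact Finset.sum_eq_zero fun i _ => by rw [co_zero, mul_zero]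

variable {K n : ℕ} {st : StT} {g : R d} {bs : List (R d)}

theorem GLat.g_ne (h : GLat K n st g bs) : g ≠ 0 := by
  intro h0
  have h1 := h.norm
  rw [h0, zero_mul] at h1
  exact h.pos.ne' (by exact_mod_cast h1.symm)

theorem pick_spec (h : GLat K n st g bs) : ∃ a ∈ bs, vv st = L (g * a) ∧ a ≠ 0 := by
  have hex : ∃ b ∈ bs, b ≠ 0 := by
    by_contra hcon
    push Not at hcon
    have h3 := span_all h.span (P := fun y => y = 0) rfl
      (fun x y hx hy => by rw [hx, hy, add_zero])
      (fun a x hx => by rw [hx, smul_zero]) hcon 1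
    exact one_ne_zero h3
  obtain ⟨b, hb, hb2⟩ := hex
  set F := st.1.filter fun s => decide ((s.map fun a => a * a).sum ≠ 0) with hF
  have hmem : L (g * b) ∈ F := by
    rw [hF, List.mem_filter]
    refine ⟨by rw [h.gens]; exact List.mem_map.2 ⟨b, hb, rfl⟩, ?_⟩
    rw [decide_eq_true_eq, sq_sum_eq_zero]
    exact mul_ne_zero h.g_ne hb2
  have hv : vv st ∈ F := by
    rw [vv, pick, ← hF]
    cases h : F with
    | nil => rw [h] at hmem; simp at hmem
    | cons x y => simp
  rw [hF, List.mem_filter, h.gens, List.mem_map] at hv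
  obtain ⟨⟨a, ha, hav⟩, h3⟩ := hv
  refine ⟨a, ha, hav.symm, ?_⟩
  rw [decide_eq_true_eq, ← hav, sq_sum_eq_zero] at h3
  exact right_ne_zero_of_mul h3

theorem qf_conj_bound {a : R d} (h : nsq a ≤ (C1 d * K : ℕ)) :
    Bd (a * conj a) (4 ^ (d + 1) * d * (C1 d * K + 1) ^ 2) := by
  have hBa : Bd a (C1 d * K + 1) := (Bd_of_nsq h).mono (by push_cast; linarith)
  have h1 := hBa.mul (hBa.aut coprime_pred)
  have e : (2 : ℤ) ^ (d + 1) * d * (C1 d * K + 1) * (2 ^ (d + 1) * (C1 d * K + 1)) =
      4 ^ (d + 1) * d * (C1 d * K + 1) ^ 2 := by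
    rw [show (4 : ℤ) = 2 * 2 by norm_num, mul_pow]; ring
  rw [e] at h1
  exact h1

/-- The data of a step. -/
theorem step_data (h : GLat K n st g bs) :
    ∃ (a y : R d) (N : ℤ), vv st = L (g * a) ∧ HH d st = L y ∧
      NN d K st = N ∧ (a * conj a) * y = (N : R d) ∧ conj y = y ∧ N ≠ 0 ∧ |N| ≤ BD d K ∧
      ZZ d st = bs.map fun b => L (a * conj b) := by
  obtain ⟨a, ha, hv, ha0⟩ := pick_spec h
  have key : ∀ b : R d, divL (mulL d (L (g * a)) (conjL d (L (g * b)))) (EE st) = L (a * conj b) := by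
    intro b
    rw [conjL_eq, mulL_eq]
    have : g * a * conj (g * b) = (EE st : R d) * (a * conj b) := by
      rw [map_mul, ← h.norm]; ring
    rw [this, divL_eq h.pos.ne']
  have hh1 : hh d st = L (a * conj a) := by rw [hh, hv, key]
  obtain ⟨y, hy1, hy2, hy3, hy4⟩ := adjL_eq (a * conj a)
  have hnm := nm_eq (a * conj a)
  have ha1 : nsq a ≤ (C1 d * K : ℕ) := by
    have e1 := h.bd a ha
    rw [qf_mul h.norm, mul_comm] at e1
    have e2 := le_of_mul_le_mul_right e1 h.pos
    refine (nsq_le_qf a).trans ?_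
    push_cast
    exact mul_le_mul_of_nonneg_left e2 (by positivity)
  have hBh := qf_conj_bound ha1
  have hd1 : (1 : ℤ) ≤ d := by exact_mod_cast dpos (d := d)
  have h41 : (1 : ℤ) ≤ 4 ^ (d + 1) := one_le_pow₀ (by norm_num)
  have hA1 : (1 : ℤ) ≤ 4 ^ (d + 1) * d * (C1 d * K + 1) ^ 2 := by
    have e3 : (1 : ℤ) ≤ (C1 d * K + 1) ^ 2 := by
      apply one_le_pow₀
      have : (0 : ℤ) ≤ C1 d * K := by positivity
      linarith
    have e4 : (1 : ℤ) ≤ 4 ^ (d + 1) * d := by nlinarith
    nlinarith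
  have hBy := hy4 _ hA1 hBh
  have hBN := hBh.mul hBy
  rw [hy2] at hBN
  have hle : |co (nm (a * conj a)) 0| ≤ BD d K := by
    refine (hBN 0).trans ?_
    set A : ℤ := 4 ^ (d + 1) * d * (C1 d * K + 1) ^ 2 with hA
    have e4 : ((BD d K : ℕ) : ℤ) = (4 ^ (d + 1) * d * A) ^ (d + 1) := by
      rw [BD, hA]; push_cast
      congr 1
      rw [show (16 : ℤ) = 4 * 4 by norm_num, mul_pow]; ring
    rw [e4, pow_succ (4 ^ (d + 1) * (d : ℤ) * A) d, mul_comm ((4 ^ (d + 1) * (d : ℤ) * A) ^ d)]
    refine mul_le_mul_of_nonneg_right ?_ (by positivity)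
    refine mul_le_mul_of_nonneg_right ?_ (by linarith)
    refine mul_le_mul_of_nonneg_right ?_ (by linarith)
    exact pow_le_pow_left₀ (by norm_num) (by norm_num) _
  refine ⟨a, y, co (nm (a * conj a)) 0, hv, by rw [HH, hh1, hy1], ?_, by rw [hy2]; exact hnm,
    hy3 (by rw [map_mul, conj_conj, mul_comm]), ?_, hle, ?_⟩
  · rw [NN, HH, hh1, hy1, mulL_eq, getD_L, hy2]
    exact clamp_eq hle
  · intro h0
    rw [h0, Int.cast_zero] at hnm
    refine nm_ne_zero (mul_ne_zero ha0 ?_) hnm
    intro h1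
    apply ha0
    rw [← conj_conj a, h1, map_zero]
  · rw [ZZ, hv, h.gens, List.map_map]
    refine List.map_congr_left fun b _ => ?_
    exact key b

theorem dvd_ind {Δ u : R d} {s : Set (R d)} {y : R d} (hy : y ∈ Submodule.span ℤ s)
    (h : ∀ w ∈ s, Δ ∣ u * conj w) : Δ ∣ u * conj y := by
  refine Submodule.span_induction (p := fun y _ => Δ ∣ u * conj y) h ?_ ?_ ?_ hy
  · rw [map_zero, mul_zero]; exact dvd_zero _
  · intro x y _ _ hx hy
    rw [map_add, mul_add]; exact dvd_add hx hy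
  · intro a x _ hx
    rw [zsmul_eq_mul, map_mul, map_intCast]
    have : u * ((a : R d) * conj x) = (a : R d) * (u * conj x) := by ring
    rw [this]; exact Dvd.dvd.mul_left hx _

/-- The list of multipliers. -/
noncomputable def msR (bs ws : List (R d)) (a y : R d) : List (R d) :=
  bs.flatMap fun b => bs.flatMap fun b' => ws.map fun w =>
    (a * conj b) * (a * conj b') * y * conj w

theorem mem_msR {bs ws : List (R d)} {a y m : R d} : m ∈ msR bs ws a y ↔
    ∃ b ∈ bs, ∃ b' ∈ bs, ∃ w ∈ ws, (a * conj b) * (a * conj b') * y * conj w = m := by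
  simp only [msR, List.mem_flatMap, List.mem_map]

theorem length_msR (bs ws : List (R d)) (a y : R d) :
    (msR bs ws a y).length = bs.length * (bs.length * ws.length) := by
  simp only [msR, List.length_flatMap, List.length_map]
  simp

theorem lattice_iff {ws : List (R d)} {a y A : R d} {N pe : ℤ}
    (h2 : Submodule.span ℤ {b | b ∈ bs} = ⊤) (hA : A ∈ Submodule.span ℤ {w | w ∈ ws})
    (hA2 : ∀ w ∈ ws, A ∣ w) (hA3 : A * conj A = (pe : R d)) (hN : (a * conj a) * y = (N : R d))
    (hN0 : N ≠ 0) (hpe : pe ≠ 0) (x : R d) :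
    (∀ m ∈ msR bs ws a y, ((N * N * pe : ℤ) : R d) ∣ x * m) ↔ (y * conj a * conj a * A) ∣ x := by
  have hN0' : (N : R d) ≠ 0 := by exact_mod_cast hN0
  have hpe' : (pe : R d) ≠ 0 := by exact_mod_cast hpe
  have ha0 : a ≠ 0 := by rintro rfl; apply hN0'; rw [← hN]; ring
  have hy0 : y ≠ 0 := by rintro rfl; apply hN0'; rw [← hN]; ring
  have hcA0 : conj A ≠ 0 := by intro h; apply hpe'; rw [← hA3, h, mul_zero]
  constructor
  · intro h
    have e1 : ∀ b ∈ bs, ∀ b' ∈ bs,
        ((N * N * pe : ℤ) : R d) ∣ (x * ((a * conj b) * (a * conj b') * y)) * conj A := by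
      intro b hb b' hb'
      refine dvd_ind hA fun w hw => ?_
      have := h _ (mem_msR.2 ⟨b, hb, b', hb', w, hw, rfl⟩)
      convert this using 1
      ring
    have e2 : ∀ b ∈ bs, ((N * N * pe : ℤ) : R d) ∣ (x * ((a * conj b) * a * y) * conj A) * conj 1 := by
      intro b hb
      refine dvd_ind (s := {b | b ∈ bs}) (by rw [h2]; trivial) fun b' hb' => ?_
      have := e1 b hb b' hb'
      convert this using 1
      ring
    have e3 : ((N * N * pe : ℤ) : R d) ∣ (x * (a * a * y) * conj A) * conj 1 := by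
      refine dvd_ind (s := {b | b ∈ bs}) (by rw [h2]; trivial) fun b hb => ?_
      have := e2 b hb
      rw [map_one, mul_one] at this
      convert this using 1
      ring
    obtain ⟨t, ht⟩ := e3
    rw [map_one, mul_one] at ht
    refine ⟨t, ?_⟩
    have hne : a * a * y * conj A ≠ 0 := by
      refine mul_ne_zero (mul_ne_zero (mul_ne_zero ha0 ha0) hy0) hcA0
    apply mul_right_cancel₀ hne
    calc x * (a * a * y * conj A) = x * (a * a * y) * conj A := by ring
      _ = ((N * N * pe : ℤ) : R d) * t := ht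
      _ = ((a * conj a) * y) * ((a * conj a) * y) * (A * conj A) * t := by
        rw [hN, hA3]; push_cast; ring
      _ = _ := by ring
  · rintro ⟨t, rfl⟩ m hm
    obtain ⟨b, hb, b', hb', w, hw, rfl⟩ := mem_msR.1 hm
    obtain ⟨c, rfl⟩ := hA2 w hw
    refine ⟨t * conj b * conj b' * conj c, ?_⟩
    have : ((N * N * pe : ℤ) : R d) = ((a * conj a) * y) * ((a * conj a) * y) * (A * conj A) := by
      rw [hN, hA3]; push_cast; ring
    rw [this, map_mul]
    ring

/-- The data of the generator whose powers are computed. -/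
structure Hyp (K n : ℕ) (α : R d) (S0 : List (List ℤ)) : Prop where
  n0 : 0 < n
  norm : α * conj α = (n : R d)
  K0 : Kr d (d ^ 4) ≤ K
  gens : ∃ b0 : List (R d), S0 = b0.map (fun b => L (α * b)) ∧
    Submodule.span ℤ {b | b ∈ b0} = ⊤ ∧ b0.length ≤ d

theorem WW_eq {α : R d} {S0 : List (List ℤ)} (h : Hyp K n α S0) (bit : Bool) :
    ∃ (ws : List (R d)) (A : R d), WW d S0 bit = ws.map L ∧ A = α ^ bit.toNat ∧
      A ∈ Submodule.span ℤ {w | w ∈ ws} ∧ (∀ w ∈ ws, A ∣ w) ∧
      A * conj A = ((pe' n bit : ℕ) : R d) ∧ ws.length ≤ d := by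
  cases bit with
  | false =>
    refine ⟨[1], 1, ?_, by simp, ?_, ?_, ?_, ?_⟩
    · simp only [WW, Bool.false_eq_true, if_false, List.map_cons, List.map_nil]
      rw [intL_eq, Int.cast_one]
    · exact Submodule.subset_span (by simp)
    · intro w _; exact one_dvd _
    · simp [pe']
    · have := dpos (d := d); simp; omega
  | true =>
    obtain ⟨b0, h1, h2, h3⟩ := h.gens
    refine ⟨b0.map (fun b => α * b), α, ?_, by simp, ?_, ?_, ?_, by simpa using h3⟩
    · simp only [WW, if_true]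
      rw [h1, List.map_map]; rfl
    · have h4 : (1 : R d) ∈ Submodule.span ℤ {b | b ∈ b0} := by rw [h2]; trivial
      have h5 := Submodule.mem_map_of_mem (f := LinearMap.mulLeft ℤ α) h4
      rw [Submodule.map_span, LinearMap.mulLeft_apply, mul_one] at h5
      refine Submodule.span_mono ?_ h5
      rintro _ ⟨b, hb, rfl⟩
      exact List.mem_map.2 ⟨b, hb, rfl⟩
    · intro w hw
      obtain ⟨b, _, rfl⟩ := List.mem_map.1 hw
      exact Dvd.intro _ rfl
    · simp [pe', h.norm]

theorem loss_spec (h : GLat K n st g bs) : (EE st * EE st).natAbs < 2 ^ loss d K n := by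
  have h1 : (EE st).natAbs ≤ BD d K * BD d K * n := by
    have := h.le
    have h2 := h.pos
    omega
  have h2 : (EE st).natAbs < 2 ^ (BD d K * BD d K * n).size :=
    lt_of_le_of_lt h1 (Nat.lt_size_self _)
  rw [Int.natAbs_mul, loss, two_mul, pow_add]
  exact Nat.mul_lt_mul'' h2 h2

theorem stepS_good {α : R d} {S0 : List (List ℤ)} (h : Hyp K n α S0) (hst : GLat K n st g bs)
    (bit : Bool) :
    ∃ (g' : R d) (bs' : List (R d)), GLat K n (stepS d K n S0 bit st) g' bs' ∧
      ∀ (r : ℕ), r.Prime → ∀ (T j : ℕ), loss d K n + j ≤ T → ∀ (X : R d) (c : List ℤ),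
        Cg (r ^ (loss d K n + j)) c (X * conj g) →
        Cg (r ^ j) (newC d n r (r ^ T) T bit st c) (X * X * α ^ bit.toNat * conj g') := by
  have hn0 : (0 : ℤ) < n := by exact_mod_cast h.n0
  obtain ⟨a, y, N, e1, e3, e4, e5, e6, hN0, e8, e10⟩ := step_data hst
  obtain ⟨ws, A, w1, w2, w3, w4, w5, w6⟩ := WW_eq h bit
  have hpe' : 0 < pe' n bit := by rw [pe']; split_ifs; exacts [h.n0, Nat.one_pos]
  set g' : R d := y * conj a * conj a * A with hg'
  set E' : ℕ := newE d K n bit st with hE'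
  have hE'2 : E' = N.natAbs * N.natAbs * pe' n bit := by rw [hE', newE, e4]
  have hE'0 : 0 < E' := by
    have : 0 < N.natAbs := Int.natAbs_pos.2 hN0
    rw [hE'2]; positivity
  have hE'c : ((E' : ℕ) : ℤ) = N * N * (pe' n bit : ℕ) := by
    rw [hE'2]; push_cast
    rw [abs_mul_abs_self]
  have hE'R : ((E' : ℕ) : R d) = ((N * N * (pe' n bit : ℕ) : ℤ) : R d) := by
    rw [← hE'c]; simp
  have hg'n : g' * conj g' = ((E' : ℕ) : R d) := by
    rw [hE'R, hg']
    simp only [map_mul, conj_conj, e6]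
    push_cast
    rw [← e5, ← w5]
    ring
  have hg'0 : g' ≠ 0 := by
    intro h0
    rw [h0, zero_mul] at hg'n
    exact hE'0.ne (by exact_mod_cast hg'n)
  have hmults : mults d S0 bit st = (msR bs ws a y).map L := by
    rw [mults, e10, e3, w1, msR, List.map_flatMap, List.flatMap_map]
    refine List.flatMap_congr fun b _ => ?_
    rw [List.map_flatMap, List.flatMap_map]
    refine List.flatMap_congr fun b' _ => ?_
    rw [List.map_map, List.map_map]
    refine List.map_congr_left fun w _ => ?_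
    simp only [Function.comp]
    rw [conjL_eq, mulL_eq, mulL_eq, mulL_eq]
  have hmslen : (msR bs ws a y).length * d ≤ d ^ 4 := by
    rw [length_msR]
    have h7 := hst.len
    calc bs.length * (bs.length * ws.length) * d ≤ d * (d * d) * d :=
          Nat.mul_le_mul_right _ (Nat.mul_le_mul h7 (Nat.mul_le_mul h7 w6))
      _ = d ^ 4 := by ring
  obtain ⟨bs', k1, k2, k4, k3⟩ := kerM_ideal (ms := msR bs ws a y) hE'0 hmslen hg'n hg'0
    (fun x => by
      rw [hE'R]
      exact lattice_iff hst.span w3 w4 (by rw [w5]; simp) e5 hN0 (by exact_mod_cast hpe'.ne') x)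
  have k3' : ∀ b ∈ bs', qf (g' * b) ≤ K * (E' : ℤ) := by
    intro b hb
    refine (k3 b hb).trans (mul_le_mul_of_nonneg_right ?_ (by positivity))
    exact_mod_cast h.K0
  have hBN : (N.natAbs : ℤ) ≤ BD d K := by rw [← Int.abs_eq_natAbs]; exact e8
  have hBN' : N.natAbs ≤ BD d K := by exact_mod_cast hBN
  have hE'le : E' ≤ BD d K * BD d K * n := by
    rw [hE'2]
    refine Nat.mul_le_mul (Nat.mul_le_mul hBN' hBN') ?_
    rw [pe']; split_ifs; exacts [le_rfl, h.n0]
  have hS' : newS d K n S0 bit st = bs'.map (fun b => L (g' * b)) := by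
    rw [newS, ← hE', hmults, max_eq_right (by omega), k1]
    rw [List.take_of_length_le (by simpa using k4), List.map_map]
    refine List.map_congr_left fun b hb => ?_
    simp only [Function.comp]
    rw [L_map]
    conv_rhs => rw [L_eq_map]
    refine List.map_congr_left fun i _ => ?_
    refine clamp_eq ?_
    have f1 : nsq (g' * b) ≤ (BS d K n : ℕ) := by
      refine (nsq_le_qf _).trans ?_
      rw [BS]; push_cast
      refine mul_le_mul_of_nonneg_left ((k3' b hb).trans ?_) (by positivity)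
      refine mul_le_mul_of_nonneg_left ?_ (by positivity)
      exact_mod_cast hE'le
    exact Bd_of_nsq f1 i
  have hEE' : EE (stepS d K n S0 bit st) = (E' : ℤ) := by
    rw [EE, stepS, hE'c, e4]
  refine ⟨g', bs', ⟨hS', k2, ?_, ?_, k4, ?_, ?_⟩, ?_⟩
  · intro b hb
    rw [hEE']; exact k3' b hb
  · rw [hEE', hg'n]; simp
  · rw [hEE']; exact_mod_cast hE'0
  · rw [hEE']; exact_mod_cast hE'le
  · intro r hr T j hT X c hc
    rw [newC]
    refine rdiv_spec hr (mul_ne_zero hst.pos.ne' hst.pos.ne') (loss_spec hst) hT ?_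
    refine Cg.mod ?_ (pow_dvd_pow r hT)
    have h1 : Cg (r ^ (loss d K n + j)) (mulL d (mulL d c c) (mulL d (mulL d (vv st) (vv st)) (HH d st)))
        ((X * conj g) * (X * conj g) * ((g * a) * (g * a) * y)) := by
      rw [e1, e3]
      exact (hc.mul hc).mul (((Cg.refl _).mul (Cg.refl _)).mul (Cg.refl _))
    have h2 := h1.smul (pe' n bit : ℤ)
    have h3 : ((pe' n bit : ℤ) : R d) * ((X * conj g) * (X * conj g) * ((g * a) * (g * a) * y)) =
        ((EE st * EE st : ℤ) : R d) * (X * X * α ^ bit.toNat * conj g') := by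
      rw [← w2, hg']
      simp only [map_mul, conj_conj, e6]
      push_cast
      rw [← hst.norm]
      have w5' : ((pe' n bit : ℕ) : R d) = A * conj A := w5.symm
      rw [w5']
      ring
    rw [h3] at h2
    exact h2

theorem init_good (hK : Kr d (d ^ 4) ≤ K) (hn : 0 < n) :
    GLat K n (initSt d) (1 : R d) ((List.range d).map fun i => z d ^ i) := by
  have hd0 := dpos (d := d)
  have hEE : EE (initSt d) = 1 := by simp [EE, initSt]
  refine ⟨?_, ?_, ?_, ?_, ?_, ?_, ?_⟩
  · rw [initSt, List.map_map]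
    refine List.map_congr_left fun i hi => ?_
    simp only [Function.comp, one_mul]
    exact zL_eq i
  · rw [eq_top_iff]
    rintro t -
    rw [← sum_co t]
    refine Submodule.sum_mem _ fun i hi => ?_
    have : (co t i : R d) * z d ^ i = (co t i) • (z d ^ i) := by rw [zsmul_eq_mul]
    rw [this]
    refine Submodule.smul_mem _ _ (Submodule.subset_span ?_)
    exact List.mem_map.2 ⟨i, by simpa using hi, rfl⟩
  · intro b hb
    obtain ⟨i, hi, rfl⟩ := List.mem_map.1 hb
    rw [hEE, mul_one]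
    have h1 := qf_mul_z (g := (1 : R d)) (E := 1) (by simp) i
    rw [h1, one_mul]
    have h3 : d ≤ Kr d (d ^ 4) := by
      rw [Kr]
      have e1 : d ≤ d ^ 4 := by
        calc d = d ^ 1 := (pow_one d).symm
          _ ≤ d ^ 4 := Nat.pow_le_pow_right hd0 (by norm_num)
      have e2 : 0 < C1 d * 16 ^ (d + d ^ 4) := by rw [C1]; positivity
      calc d ≤ d ^ 4 := e1
        _ ≤ d ^ 4 * (C1 d * 16 ^ (d + d ^ 4)) := Nat.le_mul_of_pos_right _ e2
        _ = _ := by ring
    refine totient_le_int.trans ?_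
    exact_mod_cast h3.trans hK
  · rw [hEE]; simp
  · simp
  · rw [hEE]; norm_num
  · rw [hEE]
    have e1 : 0 < BD d K := by rw [BD]; positivity
    have : 0 < BD d K * BD d K * n := by positivity
    exact_mod_cast this

/-- The chain computes powers. -/
theorem chain_good {α : R d} {S0 : List (List ℤ)} (h : Hyp K n α S0) (k : ℕ) :
    ∃ (st : StT) (g : R d) (bs : List (R d)), GLat K n st g bs ∧
      ∀ (r : ℕ), r.Prime → ∀ (T j : ℕ), k.size * loss d K n + j ≤ T →
        ∃ c : List ℤ, chain d K n S0 r (r ^ T) T k = (st, c) ∧ Cg (r ^ j) c (α ^ k * conj g) := by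
  have key : ∀ bl : List Bool, ∃ (st : StT) (g : R d) (bs : List (R d)), GLat K n st g bs ∧
      ∀ (r : ℕ), r.Prime → ∀ (T j : ℕ), bl.length * loss d K n + j ≤ T →
        ∃ c : List ℤ, bl.foldr (fun b s => (stepS d K n S0 b s.1, newC d n r (r ^ T) T b s.1 s.2))
          (initSt d, intL d 1) = (st, c) ∧ Cg (r ^ j) c (α ^ valB bl * conj g) := by
    intro bl
    induction bl with
    | nil =>
      refine ⟨_, _, _, init_good h.K0 h.n0, fun r hr T j hT => ⟨intL d 1, rfl, ?_⟩⟩
      rw [valB, pow_zero, map_one, mul_one]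
      exact Cg.one
    | cons b bl ih =>
      obtain ⟨st, g, bs, h1, h2⟩ := ih
      obtain ⟨g', bs', h3, h4⟩ := stepS_good h h1 b
      refine ⟨_, g', bs', h3, fun r hr T j hT => ?_⟩
      rw [List.length_cons, Nat.add_mul, one_mul] at hT
      obtain ⟨c, hc1, hc2⟩ := h2 r hr T (loss d K n + j) (by omega)
      refine ⟨newC d n r (r ^ T) T b st c, ?_, ?_⟩
      · rw [List.foldr_cons, hc1]
      · have h5 := h4 r hr T j (by omega) _ c hc2
        have e : α ^ valB bl * α ^ valB bl * α ^ b.toNat = α ^ valB (b :: bl) := by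
          rw [← pow_add, ← pow_add]
          congr 1
          rw [valB]
          cases b <;> simp <;> ring
        rw [e] at h5
        exact h5
  obtain ⟨st, g, bs, h1, h2⟩ := key k.bits
  refine ⟨st, g, bs, h1, fun r hr T j hT => ?_⟩
  have h3 : k.bits.length = k.size := by rw [Nat.size_eq_bits_len]
  obtain ⟨c, hc1, hc2⟩ := h2 r hr T j (by rw [h3]; exact hT)
  rw [valB_bits] at hc2
  exact ⟨c, hc1, hc2⟩

end R

end Run7.h700.G
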