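import Pool.Agent.Run7.h700.G.Root

/-!
# Jacobi sums of arbitrary order: norms and congruences
-/

set_option linter.unusedSectionVars false
set_option linter.style.haveILetI false
set_option linter.unusedVariables false

namespace Run7.h700.G

open Finset Polynomial

namespace R

/-- A character of exact order `d` with values in `ℤ[ζ_d]`. -/
structure CH {F : Type*} [Field F] {d : ℕ} (χ : MulChar F (R d)) : Prop where
  pow : χ ^ d = 1
  ord : ∀ k, χ ^ k = 1 → d ∣ k

variable {F : Type*} [Field F] [Fintype F] [DecidableEq F] {d : ℕ} [hd : NeZero d]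
  {χ : MulChar F (R d)}

/-- The Jacobi sums. -/
noncomputable def JJ (χ : MulChar F (R d)) (a b : ℕ) : R d := jacobiSum (χ ^ a) (χ ^ b)

theorem JJ_eq (a b : ℕ) : JJ χ a b = ∑ x : F, (χ ^ a) x * (χ ^ b) (1 - x) := rfl

theorem chi_pow_apply (a : ℕ) {x : F} (hx : x ≠ 0) : (χ ^ a) x = χ x ^ a := by
  have := MulChar.pow_apply_coe χ a (Units.mk0 x hx)
  simpa using this

theorem exists_ind (h : CH χ) {x : F} (hx : x ≠ 0) : ∃ i < d, z d ^ i = χ x := by
  have h1 : χ x ^ d = 1 := by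
    rw [← chi_pow_apply d hx, h.pow]
    exact MulChar.one_apply (isUnit_iff_ne_zero.2 hx)
  exact isPrimitiveRoot_z.eq_pow_of_pow_eq_one h1

open Classical in
/-- The index. -/
noncomputable def ind (χ : MulChar F (R d)) (x : F) : ℕ :=
  if h : ∃ i < d, z d ^ i = χ x then h.choose else 0

theorem ind_spec (h : CH χ) {x : F} (hx : x ≠ 0) : z d ^ ind χ x = χ x := by
  rw [ind, dif_pos (exists_ind h hx)]
  exact (exists_ind h hx).choose_spec.2

theorem ind_lt (x : F) : ind χ x < d := by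
  rw [ind]
  split_ifs with h
  · exact h.choose_spec.1
  · exact dpos

theorem z_pow_eq_iff {i j : ℕ} : z d ^ i = z d ^ j ↔ i ≡ j [MOD d] := by
  constructor
  · intro h
    rw [← z_pow_mod i, ← z_pow_mod j] at h
    exact isPrimitiveRoot_z.pow_inj (Nat.mod_lt _ dpos) (Nat.mod_lt _ dpos) h
  · exact z_pow_congr

theorem chi_pow_ind (h : CH χ) (a : ℕ) {x : F} (hx : x ≠ 0) : (χ ^ a) x = z d ^ (a * ind χ x) := by
  rw [chi_pow_apply a hx, ← ind_spec h hx, ← pow_mul, mul_comm]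

theorem chi_pow_congr (h : CH χ) {a b : ℕ} (hab : a ≡ b [MOD d]) : χ ^ a = χ ^ b := by
  have key : ∀ k, χ ^ (k % d) = χ ^ k := by
    intro k
    conv_rhs => rw [← Nat.div_add_mod k d, pow_add, pow_mul, h.pow, one_pow, one_mul]
  rw [← key a, ← key b, hab]

theorem JJ_congr (h : CH χ) {a b a' b' : ℕ} (ha : a ≡ a' [MOD d]) (hb : b ≡ b' [MOD d]) :
    JJ χ a b = JJ χ a' b' := by
  rw [JJ, JJ, chi_pow_congr h ha, chi_pow_congr h hb]

theorem aut_chi (h : CH χ) {c : ℕ} (hc : c.Coprime d) (a : ℕ) (x : F) :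
    aut c hc ((χ ^ a) x) = (χ ^ (c * a)) x := by
  rcases eq_or_ne x 0 with h0 | h0
  · rw [h0, MulChar.map_zero, map_zero, MulChar.map_zero]
  · rw [chi_pow_ind h a h0, chi_pow_ind h (c * a) h0, map_pow, aut_z, ← pow_mul]
    congr 1; ring

theorem aut_JJ (h : CH χ) {c : ℕ} (hc : c.Coprime d) (a b : ℕ) :
    aut c hc (JJ χ a b) = JJ χ (c * a) (c * b) := by
  rw [JJ_eq, JJ_eq, map_sum]
  refine Finset.sum_congr rfl fun x _ => ?_
  rw [map_mul, aut_chi h, aut_chi h]

/-- The norm of a Jacobi sum. -/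
theorem JJ_norm (h : CH χ) {a b : ℕ} (ha : ¬ d ∣ a) (hb : ¬ d ∣ b) (hab : ¬ d ∣ a + b) :
    JJ χ a b * conj (JJ χ a b) = ((Fintype.card F : ℕ) : R d) := by
  set K := FractionRing (R d)
  have hinj : Function.Injective (algebraMap (R d) K) := IsFractionRing.injective _ _
  haveI : CharZero K := charZero_of_injective_algebraMap hinj
  set f := algebraMap (R d) K
  have hmap : ∀ φ : MulChar F (R d), φ ≠ 1 → φ.ringHomComp f ≠ 1 := by
    intro φ h h'
    apply h
    ext x
    apply hinj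
    have := congrArg (fun ψ : MulChar F K => ψ x) h'
    simpa using this
  have hne : ∀ c, ¬ d ∣ c → χ ^ c ≠ 1 := fun c hc h1 => hc (h.ord c h1)
  have hconj : conj (JJ χ a b) = jacobiSum (χ ^ a)⁻¹ (χ ^ b)⁻¹ := by
    rw [conj, aut_JJ h, JJ]
    have e : ∀ c : ℕ, χ ^ ((d - 1) * c) = (χ ^ c)⁻¹ := by
      intro c
      apply eq_inv_of_mul_eq_one_left
      rw [← pow_add]
      have : (d - 1) * c + c = d * c := by
        obtain ⟨k, hk⟩ : ∃ k, d = k + 1 := ⟨d - 1, by have := dpos (d := d); omega⟩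
        rw [hk]; simp; ring
      rw [this, pow_mul, h.pow, one_pow]
    rw [e, e]
  rw [hconj]
  apply hinj
  rw [map_mul, JJ, ← jacobiSum_ringHomComp, ← jacobiSum_ringHomComp]
  have hinv : ∀ φ : MulChar F (R d), φ⁻¹.ringHomComp f = (φ.ringHomComp f)⁻¹ := by
    intro φ
    exact (MulChar.ringHomComp_inv φ f).symm
  rw [hinv, hinv]
  have h3 := jacobiSum_mul_jacobiSum_inv (F := F) (F' := K) (by
    rw [ringChar.eq_zero]
    exact (CharP.ringChar_ne_zero_of_finite F).symm)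
    (hmap _ (hne a ha)) (hmap _ (hne b hb)) (by
      rw [← MulChar.ringHomComp_mul, ← pow_add]
      exact hmap _ (hne _ hab))
  rw [h3]
  simp

theorem JJ_zero_zero : JJ χ 0 0 = ((Fintype.card F : ℕ) : R d) - 2 := by
  rw [JJ, pow_zero, jacobiSum_one_one]

theorem JJ_zero (h : CH χ) {b : ℕ} (hb : ¬ d ∣ b) : JJ χ 0 b = -1 := by
  rw [JJ, pow_zero, jacobiSum_one_nontrivial fun h1 => hb (h.ord b h1)]

theorem JJ_comm (a b : ℕ) : JJ χ a b = JJ χ b a := jacobiSum_comm _ _

theorem JJ_neg (h : CH χ) {a b : ℕ} (ha : ¬ d ∣ a) (hab : d ∣ a + b) :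
    JJ χ a b = -(z d ^ (a * ind χ (-1))) := by
  have h1 : χ ^ b = (χ ^ a)⁻¹ := by
    apply eq_inv_of_mul_eq_one_left
    rw [← pow_add, add_comm]
    obtain ⟨k, hk⟩ := hab
    rw [hk, pow_mul, h.pow, one_pow]
  rw [JJ, h1, jacobiSum_nontrivial_inv fun h1 => ha (h.ord a h1),
    chi_pow_ind h a (neg_ne_zero.2 one_ne_zero)]

/-! ### Congruences -/

theorem card_units_eq : Fintype.card Fˣ = Fintype.card F - 1 := Fintype.card_units F

theorem d_dvd (h : CH χ) : d ∣ Fintype.card F - 1 := by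
  apply h.ord
  ext x
  rw [MulChar.one_apply_coe, MulChar.pow_apply_coe]
  have h1 : (x : F) ^ (Fintype.card F - 1) = 1 := by
    rw [← card_units_eq (F := F)]
    have := congrArg Units.val (pow_card_eq_one (x := x))
    rwa [Units.val_pow_eq_pow_val, Units.val_one] at this
  rw [← map_pow, h1, map_one]

theorem z_cong {l a a' : ℕ} (hl : l.Prime) (hld : l ∣ d) (h : a ≡ a' [MOD d / pw d l]) :
    lam d l ∣ z d ^ a - z d ^ a' := by
  have key : ∀ a a' : ℕ, a ≤ a' → a ≡ a' [MOD d / pw d l] → lam d l ∣ z d ^ a - z d ^ a' := by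
    intro a a' hle h
    obtain ⟨k, hk⟩ := (Nat.modEq_iff_dvd' hle).1 h
    have h1 : a' = a + d / pw d l * k := by omega
    rw [h1, pow_add, pow_mul]
    have h2 : z d ^ a - z d ^ a * (z d ^ (d / pw d l)) ^ k =
        z d ^ a * (1 ^ k - (z d ^ (d / pw d l)) ^ k) := by ring
    rw [h2]
    exact Dvd.dvd.mul_left (sub_dvd_pow_sub_pow _ _ k) _
  rcases le_total a a' with h1 | h1
  · exact key a a' h1 h
  · have := key a' a h1 h.symm
    rw [← neg_sub, dvd_neg]; exact this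

theorem cong_JJ (h : CH χ) {l a b a' b' : ℕ} (hl : l.Prime) (hld : l ∣ d)
    (ha : a ≡ a' [MOD d / pw d l]) (hb : b ≡ b' [MOD d / pw d l]) :
    lam d l ∣ JJ χ a b - JJ χ a' b' := by
  have key : ∀ a a' : ℕ, a ≡ a' [MOD d / pw d l] → ∀ x : F,
      lam d l ∣ (χ ^ a) x - (χ ^ a') x := by
    intro a a' h1 x
    rcases eq_or_ne x 0 with h0 | h0
    · rw [h0, MulChar.map_zero, MulChar.map_zero, sub_self]; exact dvd_zero _
    · rw [chi_pow_ind h a h0, chi_pow_ind h a' h0]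
      exact z_cong hl hld (Nat.ModEq.mul_right _ h1)
  rw [JJ_eq, JJ_eq, ← Finset.sum_sub_distrib]
  refine Finset.dvd_sum fun x _ => ?_
  have h1 : (χ ^ a) x * (χ ^ b) (1 - x) - (χ ^ a') x * (χ ^ b') (1 - x) =
      ((χ ^ a) x - (χ ^ a') x) * (χ ^ b) (1 - x) + (χ ^ a') x * ((χ ^ b) (1 - x) - (χ ^ b') (1 - x)) := by
    ring
  rw [h1]
  exact dvd_add (Dvd.dvd.mul_right (key a a' ha x) _) (Dvd.dvd.mul_left (key b b' hb (1 - x)) _)

theorem cong_neg_one (h : CH χ) {l a b : ℕ} (hl : l.Prime) (hld : l ∣ d)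
    (ha : a ≡ 0 [MOD d / pw d l]) (hb : b ≡ 0 [MOD d / pw d l]) :
    lam d l ∣ JJ χ a b + 1 := by
  have h1 := cong_JJ h hl hld ha hb
  rw [JJ_zero_zero] at h1
  have h2 : lam d l ∣ ((Fintype.card F - 1 : ℕ) : R d) :=
    dvd_trans (lam_dvd_l hl hld) (Nat.cast_dvd_cast (dvd_trans hld (d_dvd h)))
  have h3 : 1 ≤ Fintype.card F := Fintype.card_pos
  rw [Nat.cast_sub h3] at h2
  have h4 := dvd_add h1 h2
  convert h4 using 1
  push_cast; ring

/-! ### The finer congruence -/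

theorem pow_sub_cong {l : ℕ} (hl : l.Prime) (w : R d) (k : ℕ) :
    (l : R d) ∣ (1 - w) ^ (l ^ k) - (1 - w ^ (l ^ k)) := by
  haveI : Fact l.Prime := ⟨hl⟩
  have h2 : (C (l : ℤ) : ℤ[X]) ∣ (1 - X) ^ (l ^ k) - (1 - X ^ (l ^ k)) := by
    rw [C_dvd_iff_dvd_coeff]
    intro i
    rw [← ZMod.intCast_zmod_eq_zero_iff_dvd]
    have h3 : ((1 - X : ℤ[X]) ^ (l ^ k) - (1 - X ^ (l ^ k))).map (Int.castRingHom (ZMod l)) = 0 := by
      simp only [Polynomial.map_sub, Polynomial.map_pow, Polynomial.map_X, Polynomial.map_one]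
      rw [sub_pow_char_pow, one_pow, sub_self]
    have h4 := congrArg (fun f => coeff f i) h3
    rw [coeff_map] at h4
    simpa using h4
  obtain ⟨g, hg⟩ := h2
  have h3 := congrArg (eval₂ (Int.castRingHom (R d)) w) hg
  simp only [eval₂_sub, eval₂_pow, eval₂_X, eval₂_one, eval₂_mul, eval₂_C] at h3
  rw [h3]
  refine ⟨eval₂ (Int.castRingHom (R d)) w g, ?_⟩
  simp

/-- `1 - ρ` for a root of unity `ρ` of order `l`. -/
theorem lam_pow_dvd_rho {l k : ℕ} (hl : l.Prime) (hld : l ∣ d) (hk : pw d l = l ^ (k + 1)) :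
    lam d l ^ (l ^ k) ∣ 1 - z d ^ (d / l) := by
  have h1 : pw d l ∣ d := by rw [pw_eq dpos hl]; exact Nat.ordProj_dvd d l
  have h2 : z d ^ (d / l) = (z d ^ (d / pw d l)) ^ (l ^ k) := by
    rw [← pow_mul]
    congr 1
    obtain ⟨m, hm⟩ := h1
    have e1 : d / pw d l = m := by
      rw [hm]
      have : 0 < pw (pw d l * m) l := by rw [← hm, hk]; exact pow_pos hl.pos _
      conv_lhs => rw [← hm]
      rw [← hm] at this
      exact Nat.div_eq_of_eq_mul_right this hm
    have e2 : d / l = m * l ^ k := by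
      apply Nat.div_eq_of_eq_mul_right hl.pos
      conv_lhs => rw [hm, hk]
      ring
    rw [e1, e2]
  rw [h2]
  have h3 := pow_sub_cong hl (z d ^ (d / pw d l)) k
  have h4 : lam d l ^ (l ^ k) ∣ (l : R d) := by
    refine dvd_trans (pow_dvd_pow _ ?_) (lam_pow_dvd_l hl hld)
    obtain ⟨k', hk', hf⟩ := pw_form hl hld
    have : k' = k := by
      have := Nat.pow_right_injective hl.two_le (hk'.symm.trans hk)
      omega
    subst this
    rw [hf]
    have := hl.two_le
    exact Nat.le_mul_of_pos_right _ (by omega)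
  have h5 := dvd_trans h4 h3
  have h6 : (1 : R d) - (z d ^ (d / pw d l)) ^ l ^ k = lam d l ^ (l ^ k) -
      ((1 - z d ^ (d / pw d l)) ^ (l ^ k) - (1 - (z d ^ (d / pw d l)) ^ (l ^ k))) := by
    rw [lam]; ring
  rw [h6]
  exact dvd_sub dvd_rfl h5

/-- The low part of the index. -/
noncomputable def uu (χ : MulChar F (R d)) (N : ℕ) (x : F) : ℕ := ind χ x % N

/-- The digit of the index. -/
noncomputable def ud (χ : MulChar F (R d)) (N l : ℕ) (x : F) : ℕ := ind χ x % (N * l) / N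

theorem ind_decomp {N l : ℕ} (hN : 0 < N) (x : F) :
    ind χ x ≡ uu χ N x + N * ud χ N l x [MOD N * l] := by
  rw [uu, ud]
  have h1 : ind χ x % (N * l) % N = ind χ x % N := Nat.mod_mul_right_mod _ _ _
  have h2 := Nat.mod_add_div (ind χ x % (N * l)) N
  rw [h1] at h2
  rw [h2]
  exact (Nat.mod_modEq _ _).symm

/-- The approximation of the Jacobi sum. -/
noncomputable def KK (χ : MulChar F (R d)) (N a b : ℕ) : R d :=
  ∑ x ∈ univ \ {0, 1}, z d ^ (a * uu χ N x) * z d ^ (b * uu χ N (1 - x))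

theorem exists_gen (h : CH χ) : ∃ g : F, g ≠ 0 ∧ χ g * z d = 1 := by
  obtain ⟨g, hg⟩ := IsCyclic.exists_generator (α := Fˣ)
  -- the value at the generator is primitive
  have h1 : IsPrimitiveRoot (χ g) d := by
    refine ⟨?_, ?_⟩
    · rw [← MulChar.pow_apply_coe, h.pow, MulChar.one_apply_coe]
    · intro k hk
      apply h.ord
      ext x
      obtain ⟨m, rfl⟩ := Subgroup.mem_zpowers_iff.1 (hg x)
      rw [MulChar.one_apply_coe, MulChar.pow_apply_coe]
      have h2 : χ ((g ^ m : Fˣ) : F) = ((Units.map (χ : F →* R d)) (g ^ m) : (R d)ˣ) := rfl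
      rw [h2, map_zpow, ← Units.val_pow_eq_pow_val, ← zpow_natCast, ← zpow_mul, mul_comm, zpow_mul,
        zpow_natCast]
      have h3 : (Units.map (χ : F →* R d)) g ^ k = 1 := by
        ext
        rw [Units.val_pow_eq_pow_val]
        exact hk
      rw [h3, one_zpow, Units.val_one]
  have h2 : (z d ^ (d - 1)) ^ d = 1 := by rw [← pow_mul, mul_comm, pow_mul, z_pow, one_pow]
  obtain ⟨i, _, hi⟩ := h1.eq_pow_of_pow_eq_one h2
  refine ⟨(g : F) ^ i, pow_ne_zero _ g.ne_zero, ?_⟩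
  rw [map_pow, hi, ← pow_succ, Nat.sub_add_cancel dpos, z_pow]

theorem ud_pair (h : CH χ) {N l : ℕ} (hl : 0 < l) (hN : 0 < N) (hNl : N * l ∣ d) {g x : F} (hg : g ≠ 0)
    (hgz : χ g * z d = 1) (hx : x ≠ 0) : ud χ N l x + ud χ N l (g * x⁻¹) = l - 1 := by
  have h1 : ind χ x + ind χ (g * x⁻¹) + 1 ≡ 0 [MOD d] := by
    rw [← z_pow_eq_iff, pow_zero, pow_add, pow_add, pow_one, ind_spec h hx,
      ind_spec h (mul_ne_zero hg (inv_ne_zero hx)), map_mul]
    have h2 : χ x * χ x⁻¹ = 1 := by rw [← map_mul, mul_inv_cancel₀ hx, map_one]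
    linear_combination h2 * (χ g * z d) + hgz
  have h2 : ind χ x + ind χ (g * x⁻¹) + 1 ≡ 0 [MOD N * l] := h1.of_dvd hNl
  set r := ind χ x % (N * l) with hr
  set s := ind χ (g * x⁻¹) % (N * l) with hs
  have hpos : 0 < N * l := Nat.mul_pos hN hl
  have hr1 : r < N * l := Nat.mod_lt _ hpos
  have hs1 : s < N * l := Nat.mod_lt _ hpos
  have h3 : (r + s + 1) % (N * l) = 0 := by
    have e1 : r + s + 1 ≡ ind χ x + ind χ (g * x⁻¹) + 1 [MOD N * l] :=
      Nat.ModEq.add_right 1 ((Nat.mod_modEq _ _).add (Nat.mod_modEq _ _))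
    exact e1.trans h2
  have h4 : r + s + 1 = N * l := by
    obtain ⟨k, hk⟩ := Nat.dvd_of_mod_eq_zero h3
    have : k = 1 := by
      rcases Nat.lt_trichotomy k 1 with h5 | h5 | h5
      · have : k = 0 := by omega
        subst this; omega
      · exact h5
      · have : N * l * 2 ≤ N * l * k := Nat.mul_le_mul_left _ h5
        omega
    rw [this, mul_one] at hk; exact hk
  rw [ud, ud, ← hr, ← hs]
  obtain ⟨l', rfl⟩ : ∃ l', l = l' + 1 := ⟨l - 1, by omega⟩
  have h5 : s = N * (l' + 1) - 1 - r := by omega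
  -- write r = N * q + t
  have h6 := Nat.div_add_mod r N
  have h7 := Nat.mod_lt r hN
  set q := r / N
  set t := r % N
  have h8 : q ≤ l' := by
    by_contra hcon
    push Not at hcon
    have : N * (l' + 1) ≤ N * q := Nat.mul_le_mul_left _ hcon
    omega
  have h9 : s = N * (l' - q) + (N - 1 - t) := by
    rw [h5, Nat.mul_sub]
    have : N * q ≤ N * l' := Nat.mul_le_mul_left _ h8
    have e : N * (l' + 1) = N * l' + N := by ring
    omega
  rw [h9, Nat.mul_add_div hN, Nat.div_eq_of_lt (by omega : N - 1 - t < N)]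
  omega

theorem sum_ud (h : CH χ) {N l : ℕ} (hl : l.Prime) (hN : 0 < N) (hNl : N * l ∣ d)
    (h2 : l = 2 → 2 ∣ N) : l ∣ ∑ x ∈ univ.filter (fun x : F => x ≠ 0), ud χ N l x := by
  obtain ⟨g, hg, hgz⟩ := exists_gen h
  set S := ∑ x ∈ univ.filter (fun x : F => x ≠ 0), ud χ N l x with hS
  have h3 : ∑ x ∈ univ.filter (fun x : F => x ≠ 0), ud χ N l (g * x⁻¹) = S := by
    rw [hS]
    refine Finset.sum_bij' (fun x _ => g * x⁻¹) (fun x _ => g * x⁻¹) ?_ ?_ ?_ ?_ ?_
    · intro x hx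
      rw [mem_filter] at hx ⊢
      exact ⟨mem_univ _, mul_ne_zero hg (inv_ne_zero hx.2)⟩
    · intro x hx
      rw [mem_filter] at hx ⊢
      exact ⟨mem_univ _, mul_ne_zero hg (inv_ne_zero hx.2)⟩
    · intro x hx
      have := (mem_filter.1 hx).2
      field_simp
    · intro x hx
      have := (mem_filter.1 hx).2
      field_simp
    · intro x _; rfl
  have hcard : (univ.filter (fun x : F => x ≠ 0)).card = Fintype.card F - 1 := by
    have e1 : univ.filter (fun x : F => x ≠ 0) = univ.erase 0 := by ext x; simp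
    rw [e1, Finset.card_erase_of_mem (mem_univ _), Finset.card_univ]
  have h4 : 2 * S = (Fintype.card F - 1) * (l - 1) := by
    have e1 : 2 * S = ∑ x ∈ univ.filter (fun x : F => x ≠ 0), (ud χ N l x + ud χ N l (g * x⁻¹)) := by
      rw [Finset.sum_add_distrib, h3, ← hS]; ring
    rw [e1, Finset.sum_congr rfl fun x hx =>
      ud_pair h hl.pos hN hNl hg hgz (mem_filter.1 hx).2, Finset.sum_const, hcard, smul_eq_mul]
  have hq := d_dvd h
  have hlq : l ∣ Fintype.card F - 1 := dvd_trans (dvd_trans (Dvd.intro_left N rfl) hNl) hq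
  rcases eq_or_ne l 2 with h5 | h5
  · subst h5
    obtain ⟨N', rfl⟩ := h2 rfl
    obtain ⟨m, hm⟩ := dvd_trans hNl hq
    rw [hm] at h4
    have : 2 * N' * 2 * m * (2 - 1) = 2 * (2 * (N' * m)) := by ring
    rw [this] at h4
    exact ⟨N' * m, by omega⟩
  · have h6 : l ∣ 2 * S := by rw [h4]; exact Dvd.dvd.mul_right hlq _
    rcases hl.dvd_mul.1 h6 with h7 | h7
    · exact absurd ((Nat.prime_dvd_prime_iff_eq hl Nat.prime_two).1 h7) h5
    · exact h7

theorem ind_one (h : CH χ) : ind χ (1 : F) = 0 := by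
  have h1 : z d ^ ind χ (1 : F) = z d ^ 0 := by rw [ind_spec h one_ne_zero, map_one, pow_zero]
  have h2 := z_pow_eq_iff.1 h1
  rw [Nat.ModEq, Nat.mod_eq_of_lt (ind_lt _), Nat.zero_mod] at h2
  exact h2

theorem sum_ud' (h : CH χ) {N l : ℕ} (hl : l.Prime) (hN : 0 < N) (hNl : N * l ∣ d)
    (h2 : l = 2 → 2 ∣ N) : l ∣ ∑ x ∈ (univ : Finset F) \ {0, 1}, ud χ N l x ∧
      l ∣ ∑ x ∈ (univ : Finset F) \ {0, 1}, ud χ N l (1 - x) := by
  have h3 := sum_ud h hl hN hNl h2
  have h4 : ∑ x ∈ univ.filter (fun x : F => x ≠ 0), ud χ N l x =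
      ∑ x ∈ (univ : Finset F) \ {0, 1}, ud χ N l x := by
    have e1 : univ.filter (fun x : F => x ≠ 0) = insert 1 ((univ : Finset F) \ {0, 1}) := by
      ext x; simp; by_cases hx : x = 1
      · subst hx; simp
      · simp [hx]
    rw [e1, Finset.sum_insert (by simp)]
    have e2 : ud χ N l (1 : F) = 0 := by rw [ud, ind_one h]; simp
    rw [e2, zero_add]
  have h5 : ∑ x ∈ (univ : Finset F) \ {0, 1}, ud χ N l (1 - x) =
      ∑ x ∈ (univ : Finset F) \ {0, 1}, ud χ N l x := by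
    refine Finset.sum_bij' (fun x _ => 1 - x) (fun x _ => 1 - x) ?_ ?_ ?_ ?_ ?_
    · intro x hx
      simp only [mem_sdiff, mem_univ, mem_insert, mem_singleton, not_or, true_and] at hx ⊢
      exact ⟨fun h => hx.2 (sub_eq_zero.1 h).symm, fun h => hx.1 (by simpa using h)⟩
    · intro x hx
      simp only [mem_sdiff, mem_univ, mem_insert, mem_singleton, not_or, true_and] at hx ⊢
      exact ⟨fun h => hx.2 (sub_eq_zero.1 h).symm, fun h => hx.1 (by simpa using h)⟩
    · intro x _; simp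
    · intro x _; simp
    · intro x _; rfl
  rw [h5, ← h4]
  exact ⟨h3, h3⟩

theorem rho_pow (ρ : R d) {lm : R d} (h : lm ∣ ρ - 1) (m : ℕ) :
    lm * (ρ - 1) ∣ ρ ^ m - 1 - m * (ρ - 1) := by
  have h1 : ρ ^ m - 1 - m * (ρ - 1) = (∑ i ∈ range m, (ρ ^ i - 1)) * (ρ - 1) := by
    have h2 := geom_sum_mul ρ m
    rw [Finset.sum_sub_distrib, sub_mul, h2]
    simp
  rw [h1]
  refine mul_dvd_mul (Finset.dvd_sum fun i _ => ?_) dvd_rfl
  have := sub_dvd_pow_sub_pow ρ 1 i
  rw [one_pow] at this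
  exact dvd_trans h this

theorem modEq_scale {d D M a x y : ℕ} (hD : d = D * M) (e : x ≡ y [MOD M]) :
    D * a * x ≡ D * a * y [MOD d] := by
  rw [hD, mul_assoc, mul_assoc]
  exact Nat.ModEq.mul_left' D (Nat.ModEq.mul_left a e)

/-- The finer congruence for Jacobi sums of prime power order. -/
theorem cong_KK (h : CH χ) {l k N D a b : ℕ} (hl : l.Prime) (hld : l ∣ d) (hk : pw d l = l ^ (k + 1))
    (hN : 0 < N) (hD : d = D * (N * l)) (hpow : N * l ∣ l ^ (k + 1)) (h2 : l = 2 → 2 ∣ N) :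
    lam d l ^ (l ^ k + 1) ∣ JJ χ (D * a) (D * b) - KK χ N (D * a) (D * b) := by
  have hNl : N * l ∣ d := ⟨D, by rw [hD]; ring⟩
  set ρ := z d ^ (d / l) with hρ
  have hDN : d / l = D * N := by
    apply Nat.div_eq_of_eq_mul_right hl.pos
    rw [hD]; ring
  have hlamρ : lam d l ^ (l ^ k) ∣ ρ - 1 := by
    rw [← neg_sub, dvd_neg]; exact lam_pow_dvd_rho hl hld hk
  have hlam1 : lam d l ∣ ρ - 1 :=
    dvd_trans (dvd_pow_self _ (pow_pos hl.pos k).ne') hlamρ
  -- `D` is divisible by `d / pw d l`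
  have hDdiv : d / pw d l ∣ D := by
    have h3 : pw d l ∣ d := by rw [pw_eq dpos hl]; exact Nat.ordProj_dvd d l
    obtain ⟨m, hm⟩ := hpow
    have h4 : 0 < pw d l := by rw [hk]; exact pow_pos hl.pos _
    refine ⟨m, ?_⟩
    have h5 : d / pw d l * pw d l = D * (N * l) := by rw [Nat.div_mul_cancel h3]; exact hD
    rw [hk, hm] at h5
    have h6 : 0 < N * l := Nat.mul_pos hN hl.pos
    have h7 : d / pw d l * m * (N * l) = D * (N * l) := by
      rw [← h5, hk, hm]; ring
    exact (Nat.eq_of_mul_eq_mul_right h6 h7).symm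
  -- each term
  have hterm : ∀ x ∈ (univ : Finset F) \ {0, 1},
      lam d l * (ρ - 1) ∣ ((χ ^ (D * a)) x * (χ ^ (D * b)) (1 - x) -
        z d ^ (D * a * uu χ N x) * z d ^ (D * b * uu χ N (1 - x))) -
        ((a * ud χ N l x + b * ud χ N l (1 - x) : ℕ) : R d) * (ρ - 1) := by
    intro x hx
    simp only [mem_sdiff, mem_univ, mem_insert, mem_singleton, not_or, true_and] at hx
    have hx0 : x ≠ 0 := hx.1
    have hx1 : 1 - x ≠ 0 := fun h => hx.2 (sub_eq_zero.1 h).symm
    have key : ∀ (a : ℕ) {y : F}, y ≠ 0 → (χ ^ (D * a)) y = z d ^ (D * a * uu χ N y) * ρ ^ (a * ud χ N l y) := by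
      intro a y hy
      rw [chi_pow_ind h _ hy, hρ, ← pow_mul, ← pow_add, hDN]
      apply z_pow_congr
      have e1 := ind_decomp (χ := χ) (l := l) hN y
      have e2 : D * a * ind χ y ≡ D * a * (uu χ N y + N * ud χ N l y) [MOD d] :=
        modEq_scale hD e1
      have e3 : D * a * (uu χ N y + N * ud χ N l y) = D * a * uu χ N y + D * N * (a * ud χ N l y) := by
        ring
      rw [e3] at e2
      exact e2
    rw [key a hx0, key b hx1]
    set X0 := z d ^ (D * a * uu χ N x)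
    set Y0 := z d ^ (D * b * uu χ N (1 - x))
    set m := a * ud χ N l x + b * ud χ N l (1 - x) with hm
    have e1 : X0 * ρ ^ (a * ud χ N l x) * (Y0 * ρ ^ (b * ud χ N l (1 - x))) - X0 * Y0 -
        (m : R d) * (ρ - 1) = (X0 * Y0 - 1) * (ρ ^ m - 1) + (ρ ^ m - 1 - m * (ρ - 1)) := by
      rw [hm, pow_add]; push_cast; ring
    rw [e1]
    refine dvd_add (mul_dvd_mul ?_ ?_) (rho_pow ρ hlam1 m)
    · have e2 : X0 * Y0 - 1 = z d ^ (D * a * uu χ N x + D * b * uu χ N (1 - x)) - z d ^ 0 := by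
        rw [pow_add, pow_zero]
      rw [e2]
      apply z_cong hl hld
      rw [Nat.modEq_zero_iff_dvd]
      refine dvd_trans hDdiv ?_
      exact ⟨a * uu χ N x + b * uu χ N (1 - x), by ring⟩
    · have := sub_dvd_pow_sub_pow ρ 1 m
      rw [one_pow] at this; exact this
  obtain ⟨s1, s2⟩ := sum_ud' h hl hN hNl h2
  have hsum : lam d l * (ρ - 1) ∣ ∑ x ∈ (univ : Finset F) \ {0, 1},
      ((a * ud χ N l x + b * ud χ N l (1 - x) : ℕ) : R d) * (ρ - 1) := by
    rw [← Finset.sum_mul, ← Nat.cast_sum]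
    refine mul_dvd_mul (dvd_trans (lam_dvd_l hl hld) (Nat.cast_dvd_cast ?_)) dvd_rfl
    rw [Finset.sum_add_distrib, ← Finset.mul_sum, ← Finset.mul_sum]
    exact dvd_add (Dvd.dvd.mul_left s1 _) (Dvd.dvd.mul_left s2 _)
  have h3 : lam d l * (ρ - 1) ∣ JJ χ (D * a) (D * b) - KK χ N (D * a) (D * b) := by
    have e1 : JJ χ (D * a) (D * b) = ∑ x ∈ (univ : Finset F) \ {0, 1},
        (χ ^ (D * a)) x * (χ ^ (D * b)) (1 - x) := jacobiSum_eq_sum_sdiff _ _
    rw [e1, KK, ← Finset.sum_sub_distrib]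
    have h4 := dvd_add (Finset.dvd_sum hterm) hsum
    rw [← Finset.sum_add_distrib] at h4
    refine dvd_trans h4 (dvd_of_eq ?_)
    refine Finset.sum_congr rfl fun x _ => ?_
    ring
  refine dvd_trans ?_ h3
  rw [pow_succ']
  exact mul_dvd_mul dvd_rfl hlamρ

/-- The Fourier expansion of the approximation. -/
theorem KK_fourier (h : CH χ) {N c0 : ℕ} (hN : 0 < N) (hc : c0 * N = d) (a b : ℕ) :
    ((N * N : ℕ) : R d) * KK χ N a b = ∑ i ∈ range N, ∑ j ∈ range N,
      (∑ u ∈ range N, z d ^ ((a + (d - c0 * i)) * u)) *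
      (∑ u ∈ range N, z d ^ ((b + (d - c0 * j)) * u)) * JJ χ (c0 * i) (c0 * j) := by
  have hprim : IsPrimitiveRoot (z d ^ c0) N := isPrimitiveRoot_z.pow dpos hc.symm
  have key : ∀ (a : ℕ) {x : F}, x ≠ 0 → (N : R d) * z d ^ (a * uu χ N x) =
      ∑ i ∈ range N, (∑ u ∈ range N, z d ^ ((a + (d - c0 * i)) * u)) * (χ ^ (c0 * i)) x := by
    intro a x hx
    have h1 : ∀ i ∈ range N, (∑ u ∈ range N, z d ^ ((a + (d - c0 * i)) * u)) * (χ ^ (c0 * i)) x =
        ∑ u ∈ range N, z d ^ (a * u) * (z d ^ (c0 * (ind χ x + (N - 1) * u))) ^ i := by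
      intro i hi
      rw [Finset.sum_mul]
      refine Finset.sum_congr rfl fun u hu => ?_
      rw [chi_pow_ind h _ hx, ← pow_add, ← pow_mul, ← pow_add]
      apply z_pow_congr
      have hi' := mem_range.1 hi
      have e0 : c0 * i ≤ d := by rw [← hc]; exact Nat.mul_le_mul_left _ hi'.le
      generalize ind χ x = v
      obtain ⟨e, he⟩ : ∃ e, d = c0 * i + e := ⟨d - c0 * i, by omega⟩
      have e1 : d - c0 * i = e := by omega
      obtain ⟨N', rfl⟩ : ∃ N', N = N' + 1 := ⟨N - 1, by omega⟩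
      rw [e1, Nat.add_sub_cancel]
      have e2 : (a + e) * u + c0 * i * v + c0 * i * (N' + 1) * u =
          a * u + c0 * (v + N' * u) * i + (c0 * i + e) * u := by
        ring
      have e3 : (a + e) * u + c0 * i * v ≡ (a + e) * u + c0 * i * v +
          c0 * i * (N' + 1) * u [MOD d] := by
        have : c0 * i * (N' + 1) * u = d * (i * u) := by rw [← hc]; ring
        rw [this, Nat.ModEq, Nat.add_mul_mod_self_left]
      refine e3.trans ?_
      rw [e2, ← he, Nat.ModEq, Nat.add_mul_mod_self_left]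
    rw [Finset.sum_congr rfl h1, Finset.sum_comm]
    rw [Finset.sum_eq_single (uu χ N x)]
    · have h2 : z d ^ (c0 * (ind χ x + (N - 1) * uu χ N x)) = 1 := by
        rw [← pow_zero (z d)]
        apply z_pow_congr
        rw [Nat.modEq_zero_iff_dvd]
        have e1 : ind χ x + (N - 1) * uu χ N x ≡ ind χ x + (N - 1) * ind χ x [MOD N] :=
          Nat.ModEq.add_left _ (Nat.ModEq.mul_left _ (Nat.mod_modEq _ _))
        have e2 : ind χ x + (N - 1) * ind χ x = N * ind χ x := by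
          obtain ⟨N', rfl⟩ : ∃ N', N = N' + 1 := ⟨N - 1, by omega⟩
          simp; ring
        rw [e2] at e1
        have e3 : N ∣ ind χ x + (N - 1) * uu χ N x := by
          rw [← Nat.modEq_zero_iff_dvd]
          refine e1.trans ?_
          rw [Nat.modEq_zero_iff_dvd]; exact Dvd.intro _ rfl
        have e4 := Nat.mul_dvd_mul_left c0 e3
        rw [hc] at e4
        exact e4
      rw [h2]
      simp only [one_pow, mul_one, Finset.sum_const, card_range, nsmul_eq_mul]
    · intro u hu hne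
      rw [← Finset.mul_sum]
      have h2 : (z d ^ (c0 * (ind χ x + (N - 1) * u))) ≠ 1 := by
        intro h3
        apply hne
        have h4' := isPrimitiveRoot_z.dvd_of_pow_eq_one _ h3
        have h4 : c0 * N ∣ c0 * (ind χ x + (N - 1) * u) := by rw [hc]; exact h4'
        have hc0 : 0 < c0 := by
          rcases Nat.eq_zero_or_pos c0 with h5 | h5
          · subst h5; rw [zero_mul] at hc; exact absurd hc.symm hd.out
          · exact h5
        have h5 := Nat.dvd_of_mul_dvd_mul_left hc0 h4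
        have h6 : ind χ x + (N - 1) * u ≡ 0 [MOD N] := (Nat.modEq_zero_iff_dvd).2 h5
        have h7 : u ≡ ind χ x [MOD N] := by
          have e1 : ind χ x + (N - 1) * u + u ≡ 0 + u [MOD N] := Nat.ModEq.add_right u h6
          have e2 : ind χ x + (N - 1) * u + u = ind χ x + N * u := by
            obtain ⟨N', rfl⟩ : ∃ N', N = N' + 1 := ⟨N - 1, by omega⟩
            simp; ring
          rw [e2, zero_add] at e1
          refine e1.symm.trans ?_
          rw [Nat.ModEq, Nat.add_mul_mod_self_left]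
        rw [uu, ← h7, Nat.mod_eq_of_lt (mem_range.1 hu)]
      have h3 := geom_sum_mul (z d ^ (c0 * (ind χ x + (N - 1) * u))) N
      have h4 : (z d ^ (c0 * (ind χ x + (N - 1) * u))) ^ N = 1 := by
        rw [← pow_mul, show c0 * (ind χ x + (N - 1) * u) * N = (c0 * N) * (ind χ x + (N - 1) * u) by ring,
          hc, pow_mul, z_pow, one_pow]
      rw [h4, sub_self] at h3
      rw [(mul_eq_zero.1 h3).resolve_right (sub_ne_zero.2 h2), mul_zero]
    · intro h2
      exact absurd (mem_range.2 (Nat.mod_lt _ hN)) h2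
  have h1 : ((N * N : ℕ) : R d) * KK χ N a b = ∑ x ∈ (univ : Finset F) \ {0, 1},
      ((N : R d) * z d ^ (a * uu χ N x)) * ((N : R d) * z d ^ (b * uu χ N (1 - x))) := by
    rw [KK, Finset.mul_sum]
    refine Finset.sum_congr rfl fun x _ => ?_
    push_cast; ring
  rw [h1]
  have h2 : ∀ x ∈ (univ : Finset F) \ {0, 1},
      ((N : R d) * z d ^ (a * uu χ N x)) * ((N : R d) * z d ^ (b * uu χ N (1 - x))) =
      ∑ i ∈ range N, ∑ j ∈ range N,
        (∑ u ∈ range N, z d ^ ((a + (d - c0 * i)) * u)) *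
        (∑ u ∈ range N, z d ^ ((b + (d - c0 * j)) * u)) * ((χ ^ (c0 * i)) x * (χ ^ (c0 * j)) (1 - x)) := by
    intro x hx
    simp only [mem_sdiff, mem_univ, mem_insert, mem_singleton, not_or, true_and] at hx
    rw [key a hx.1, key b (fun h => hx.2 (sub_eq_zero.1 h).symm), Finset.sum_mul_sum]
    refine Finset.sum_congr rfl fun i _ => Finset.sum_congr rfl fun j _ => ?_
    ring
  rw [Finset.sum_congr rfl h2, Finset.sum_comm]
  refine Finset.sum_congr rfl fun i _ => ?_
  rw [Finset.sum_comm]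
  refine Finset.sum_congr rfl fun j _ => ?_
  rw [← Finset.mul_sum, JJ, jacobiSum_eq_sum_sdiff]

end R

end Run7.h700.G
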