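import Pool.Agent.Run7.h700.G.Table

/-!
# Counting by convolution
-/

set_option linter.unusedSectionVars false
set_option linter.style.haveILetI false
set_option linter.unusedVariables false

namespace Run7.h700.G

open Finset

/-- A function on the field, by its coefficients and its value at zero. -/
abbrev Fn := List (List ℤ) × List ℤ

/-- The coefficients of a convolution. -/
def convC (d Q : ℕ) (tab : List (List ℤ)) (f g : Fn) (m : ℕ) : List ℤ :=
  modL Q (addL d (addL d (mulL d f.2 (g.1.getD m [])) (mulL d g.2 (f.1.getD m [])))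
    (sumL d ((List.range d).map fun i => mulL d (mulL d (f.1.getD i []) (g.1.getD ((m + (d - i)) % d) []))
      (tget d tab i (m + (d - i))))))

/-- The value at zero of a convolution. -/
def convZ (d Q n ι : ℕ) (f g : Fn) : List ℤ :=
  modL Q (addL d (mulL d f.2 g.2) (smulL ((n : ℤ) - 1)
    (sumL d ((List.range d).map fun i => mulL d (mulL d (f.1.getD i []) (g.1.getD ((0 + (d - i)) % d) []))
      (zL d ((0 + (d - i)) % d * ι))))))

/-- The convolution. -/
def convF (d Q n ι : ℕ) (tab : List (List ℤ)) (f g : Fn) : Fn :=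
  ((List.range d).map (convC d Q tab f g), convZ d Q n ι f g)

/-- The indicator function of zero. -/
def oneF (d : ℕ) : Fn := ((List.range d).map fun _ => intL d 0, intL d 1)

/-- The convolution of a list of functions. -/
def convs (d Q n ι : ℕ) (tab : List (List ℤ)) (fs : List Fn) : Fn :=
  fs.foldr (convF d Q n ι tab) (oneF d)

/-- The value at a nonzero point of index `i`. -/
def valF (d : ℕ) (f : Fn) (i : ℕ) : List ℤ :=
  sumL d ((List.range d).map fun j => mulL d (f.1.getD j []) (zL d (j * i)))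

/-- The number of solutions of `a x ^ k = u`; `i` is the index of `a`. -/
def powF (d k i : ℕ) : Fn :=
  ((List.range d).map fun j => if (k * j) % d = 0 then zL d ((d - j) * i) else intL d 0, intL d 1)

/-- The integer represented. -/
def readL (Q : ℕ) (u : List ℤ) : ℕ := (u.getD 0 0 % (Q : ℤ)).toNat

namespace R

variable {F : Type*} [Field F] [Fintype F] [DecidableEq F] {d : ℕ} [hd : NeZero d]
  {χ : MulChar F (R d)}

/-- `f` is given by the coefficients `c` and the value `w` at zero. -/
def Rep (χ : MulChar F (R d)) (f : F → R d) (c : ℕ → R d) (w : R d) : Prop :=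
  ∀ y, f y = ∑ j ∈ range d, c j * (χ ^ j) y + if y = 0 then w else 0

/-- The list data represent the function modulo `Q`. -/
def RL (χ : MulChar F (R d)) (Q : ℕ) (G : Fn) (f : F → R d) : Prop :=
  ∃ (c : ℕ → R d) (w : R d), Rep χ f c w ∧ (∀ j < d, Cg Q (G.1.getD j []) (c j)) ∧ Cg Q G.2 w

theorem sum_char_sub {i j : ℕ} {y : F} (hy : y ≠ 0) :
    ∑ u : F, (χ ^ i) u * (χ ^ j) (y - u) = (χ ^ (i + j)) y * JJ χ i j := by
  rw [JJ, jacobiSum, Finset.mul_sum]
  refine (Fintype.sum_equiv (Equiv.mulLeft₀ y hy) _ _ fun t => ?_).symm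
  rw [Equiv.mulLeft₀_apply]
  have h1 : y - y * t = y * (1 - t) := by ring
  rw [h1, map_mul, map_mul, pow_add, MulChar.mul_apply]
  ring

theorem sum_char_neg (h : CH χ) {i j : ℕ} :
    ∑ u : F, (χ ^ i) u * (χ ^ j) (0 - u) =
      (χ ^ j) (-1) * if (i + j) % d = 0 then ((Fintype.card F : R d) - 1) else 0 := by
  have h1 : ∀ u : F, (χ ^ i) u * (χ ^ j) (0 - u) = (χ ^ j) (-1) * (χ ^ (i + j)) u := by
    intro u
    have : (0 : F) - u = (-1) * u := by ring
    rw [this, map_mul, pow_add, MulChar.mul_apply]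
    ring
  rw [Finset.sum_congr rfl fun u _ => h1 u, ← Finset.mul_sum]
  congr 1
  split_ifs with h3
  · have h2 : χ ^ (i + j) = 1 := by
      obtain ⟨k, hk⟩ := Nat.dvd_of_mod_eq_zero h3
      rw [hk, pow_mul, h.pow, one_pow]
    rw [h2, MulChar.sum_one_eq_card_units]
    rw [Fintype.card_eq_card_units_add_one (α := F)]
    push_cast; ring
  · exact MulChar.sum_eq_zero_of_ne_one fun h2 => h3 (Nat.mod_eq_zero_of_dvd (h.ord _ h2))

theorem rep_conv (h : CH χ) {f g : F → R d} {c e : ℕ → R d} {z0 w0 : R d} (hf : Rep χ f c z0)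
    (hg : Rep χ g e w0) : Rep χ (fun y => ∑ u, f u * g (y - u))
      (fun m => z0 * e m + w0 * c m +
        ∑ i ∈ range d, c i * e ((m + (d - i)) % d) * JJ χ i ((m + (d - i)) % d))
      (z0 * w0 + ((Fintype.card F : R d) - 1) *
        ∑ i ∈ range d, c i * e ((0 + (d - i)) % d) * (χ ^ ((0 + (d - i)) % d)) (-1)) := by
  intro y
  set Ff : F → R d := fun y => ∑ j ∈ range d, c j * (χ ^ j) y
  set Gg : F → R d := fun y => ∑ j ∈ range d, e j * (χ ^ j) y
  have h0 : ∀ j, (χ ^ j) (0 : F) = 0 := fun j => MulChar.map_zero _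
  have h1 : ∑ u, f u * g (y - u) = ∑ u, Ff u * Gg (y - u) + z0 * Gg y + w0 * Ff y +
      if y = 0 then z0 * w0 else 0 := by
    have e1 : ∀ u, f u * g (y - u) = Ff u * Gg (y - u) + (if u = 0 then z0 * Gg y else 0) +
        (if u = y then w0 * Ff y else 0) + if u = 0 ∧ y = 0 then z0 * w0 else 0 := by
      intro u
      rw [hf u, hg (y - u)]
      change (Ff u + _) * (Gg (y - u) + _) = _
      by_cases h1 : u = 0
      · subst h1
        have : Ff 0 = 0 := by simp [Ff, h0]
        by_cases h2 : y = 0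
        · subst h2
          have : Gg 0 = 0 := by simp [Gg, h0]
          simp [*]
        · have h3 : ¬ (0 : F) = y := fun h => h2 h.symm
          simp [*]
      · by_cases h2 : u = y
        · subst h2
          have : Gg 0 = 0 := by simp [Gg, h0]
          simp [*]; ring
        · have h3 : ¬ y - u = 0 := fun h => h2 (sub_eq_zero.1 h).symm
          simp [*]
    rw [Finset.sum_congr rfl fun u _ => e1 u]
    rw [Finset.sum_add_distrib, Finset.sum_add_distrib, Finset.sum_add_distrib]
    congr 1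
    · congr 1
      · congr 1
        simp
      · simp
    · by_cases h2 : y = 0 <;> simp [h2]
  change ∑ u, f u * g (y - u) = _
  rw [h1]
  have h2 : ∑ u, Ff u * Gg (y - u) = ∑ i ∈ range d, ∑ j ∈ range d, c i * e j *
      ∑ u, (χ ^ i) u * (χ ^ j) (y - u) := by
    simp only [Ff, Gg, Finset.sum_mul_sum]
    rw [Finset.sum_comm]
    refine Finset.sum_congr rfl fun i _ => ?_
    rw [Finset.sum_comm]
    refine Finset.sum_congr rfl fun j _ => ?_
    rw [Finset.mul_sum]
    refine Finset.sum_congr rfl fun u _ => ?_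
    ring
  rw [h2]
  by_cases hy : y = 0
  · subst hy
    have e1 : Ff 0 = 0 := by simp [Ff, h0]
    have e2 : Gg 0 = 0 := by simp [Gg, h0]
    rw [e1, e2]
    simp only [h0, mul_zero, Finset.sum_const_zero, if_true, add_zero, zero_add]
    rw [add_comm]
    congr 1
    rw [Finset.mul_sum]
    refine Finset.sum_congr rfl fun i hi => ?_
    have hi' := mem_range.1 hi
    rw [Finset.sum_eq_single ((d - i) % d)]
    · rw [sum_char_neg h, if_pos]
      · ring
      · rw [Nat.add_mod_mod, Nat.add_sub_cancel' hi'.le, Nat.mod_self]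
    · intro j hj hne
      rw [sum_char_neg h, if_neg, mul_zero, mul_zero]
      intro h3
      apply hne
      have hj' := mem_range.1 hj
      obtain ⟨k, hk⟩ := Nat.dvd_of_mod_eq_zero h3
      rcases Nat.eq_zero_or_pos i with h4 | h4
      · subst h4
        rw [Nat.sub_zero, Nat.mod_self]
        rcases Nat.eq_zero_or_pos k with h5 | h5
        · subst h5; omega
        · have : d * 1 ≤ d * k := Nat.mul_le_mul_left _ h5
          omega
      · rw [Nat.mod_eq_of_lt (by omega)]
        have : k = 1 := by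
          rcases Nat.lt_trichotomy k 1 with h9 | h9 | h9
          · have : k = 0 := by omega
            subst this; omega
          · exact h9
          · have : d * 2 ≤ d * k := Nat.mul_le_mul_left _ h9
            omega
        subst this; omega
    · intro h3; exact absurd (mem_range.2 (Nat.mod_lt _ dpos)) h3
  · rw [if_neg hy, if_neg hy, add_zero, add_zero]
    have e3 : ∑ i ∈ range d, ∑ j ∈ range d, c i * e j * ∑ u, (χ ^ i) u * (χ ^ j) (y - u) =
        ∑ m ∈ range d, (∑ i ∈ range d, c i * e ((m + (d - i)) % d) *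
          JJ χ i ((m + (d - i)) % d)) * (χ ^ m) y := by
      simp only [Finset.sum_mul]
      conv_rhs => rw [Finset.sum_comm]
      refine Finset.sum_congr rfl fun i hi => ?_
      have hi' := mem_range.1 hi
      rw [← sum_add_mod (fun j => c i * e j * ∑ u, (χ ^ i) u * (χ ^ j) (y - u)) (d - i)]
      refine Finset.sum_congr rfl fun m hm => ?_
      rw [sum_char_sub hy]
      have e4 : χ ^ (i + (m + (d - i)) % d) = χ ^ m := by
        apply chi_pow_congr h
        have e5 : i + (m + (d - i)) % d ≡ i + (m + (d - i)) [MOD d] :=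
          Nat.ModEq.add_left _ (Nat.mod_modEq _ _)
        refine e5.trans ?_
        rw [show i + (m + (d - i)) = m + d by omega, Nat.ModEq, Nat.add_mod_right]
      rw [e4]; ring
    rw [e3]
    simp only [add_mul, Finset.sum_add_distrib, Finset.mul_sum, Ff, Gg]
    have e4 : ∀ j, z0 * e j * (χ ^ j) y = z0 * (e j * (χ ^ j) y) := fun j => by ring
    have e5 : ∀ j, w0 * c j * (χ ^ j) y = w0 * (c j * (χ ^ j) y) := fun j => by ring
    simp only [e4, e5]
    ring

theorem Cg.add {Q : ℕ} {u v : List ℤ} {x y : R d} (h : Cg Q u x) (h' : Cg Q v y) :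
    Cg Q (addL d u v) (x + y) := by
  obtain ⟨x', rfl, h⟩ := h
  obtain ⟨y', rfl, h'⟩ := h'
  refine ⟨x' + y', addL_eq _ _, ?_⟩
  have : x + y - (x' + y') = (x - x') + (y - y') := by ring
  rw [this]
  exact dvd_add h h'

theorem Cg.sum {Q : ℕ} {k : ℕ} {u : ℕ → List ℤ} {x : ℕ → R d} (h : ∀ i < k, Cg Q (u i) (x i)) :
    Cg Q (sumL d ((List.range k).map u)) (∑ i ∈ range k, x i) := by
  have key : ∀ k, (∀ i < k, Cg Q (u i) (x i)) →
      Cg Q (sumL d ((List.range k).map u)) (∑ i ∈ range k, x i) := by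
    intro k
    induction k with
    | zero =>
      intro _
      rw [Finset.range_zero, Finset.sum_empty]
      refine Cg.of_eq ?_
      change intL d 0 = _
      rw [intL_eq, Int.cast_zero]
    | succ k ih =>
      intro h
      have h1 := ih fun i hi => h i (by omega)
      rw [List.range_succ, List.map_append, sumL, List.foldl_append, Finset.sum_range_succ]
      exact h1.add (h k (by omega))
  exact key k h

theorem Cg.int {Q : ℕ} (a : ℤ) : Cg Q (intL d a) (a : R d) := Cg.of_eq (intL_eq a)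

theorem RL_conv (h : CH χ) {Q ι : ℕ} {tab : List (List ℤ)}
    (htab : ∀ a b, tget d tab a b = L (JJ χ a b)) (hι : χ (-1) = z d ^ ι) {G1 G2 : Fn}
    {f g : F → R d} (hf : RL χ Q G1 f) (hg : RL χ Q G2 g) :
    RL χ Q (convF d Q (Fintype.card F) ι tab G1 G2) (fun y => ∑ u, f u * g (y - u)) := by
  obtain ⟨c, z0, f1, f2, f3⟩ := hf
  obtain ⟨e, w0, g1, g2, g3⟩ := hg
  refine ⟨_, _, rep_conv h f1 g1, ?_, ?_⟩
  · intro m hm
    rw [convF]
    simp only
    rw [getD_range_map _ _ hm, convC]
    refine Cg.mod ?_ dvd_rfl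
    refine ((f3.mul (g2 m hm)).add (g3.mul (f2 m hm))).add (Cg.sum fun i hi => ?_)
    refine ((f2 i hi).mul (g2 _ (Nat.mod_lt _ dpos))).mul ?_
    rw [htab]
    refine Cg.of_eq ?_
    congr 1
    exact JJ_congr h rfl (Nat.mod_modEq _ _).symm
  · rw [convF, convZ]
    refine Cg.mod ?_ dvd_rfl
    refine (f3.mul g3).add ?_
    have h1 : ((Fintype.card F : R d) - 1) = (((Fintype.card F : ℤ) - 1 : ℤ) : R d) := by push_cast; rfl
    rw [h1]
    refine Cg.smul _ (Cg.sum fun i hi => ?_)
    refine ((f2 i hi).mul (g2 _ (Nat.mod_lt _ dpos))).mul ?_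
    refine Cg.of_eq ?_
    have e1 : ∀ c : ℕ, z d ^ (c * ind χ (-1)) = z d ^ (c * ι) := by
      intro c
      rw [mul_comm, pow_mul, ind_spec h (neg_ne_zero.2 one_ne_zero), hι, ← pow_mul, mul_comm]
    rw [zL_eq, chi_pow_ind h _ (neg_ne_zero.2 one_ne_zero), e1]

theorem RL_one {Q : ℕ} : RL χ Q (oneF d) (fun y => if y = 0 then 1 else 0) := by
  refine ⟨fun _ => 0, 1, ?_, ?_, ?_⟩
  · intro y; simp
  · intro j hj
    rw [oneF]
    simp only
    rw [getD_range_map _ _ hj]
    have := Cg.int (d := d) (Q := Q) 0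
    rwa [Int.cast_zero] at this
  · exact Cg.one

/-- The iterated convolution. -/
noncomputable def cvs (fs : List (F → R d)) : F → R d :=
  fs.foldr (fun f g y => ∑ u, f u * g (y - u)) (fun y => if y = 0 then 1 else 0)

theorem RL_convs (h : CH χ) {Q ι : ℕ} {tab : List (List ℤ)}
    (htab : ∀ a b, tget d tab a b = L (JJ χ a b)) (hι : χ (-1) = z d ^ ι) :
    ∀ {Gs : List Fn} {fs : List (F → R d)}, List.Forall₂ (RL χ Q) Gs fs →
      RL χ Q (convs d Q (Fintype.card F) ι tab Gs) (cvs fs) := by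
  intro Gs fs hG
  induction hG with
  | nil => exact RL_one
  | cons h1 _ ih =>
    rw [convs, List.foldr_cons, cvs, List.foldr_cons]
    exact RL_conv h htab hι h1 ih

theorem RL_val (h : CH χ) {Q : ℕ} {G : Fn} {f : F → R d} (hf : RL χ Q G f) {b : F} (hb : b ≠ 0)
    {i : ℕ} (hi : χ b = z d ^ i) : Cg Q (valF d G i) (f b) := by
  obtain ⟨c, z0, f1, f2, f3⟩ := hf
  rw [f1 b, if_neg hb, add_zero, valF]
  refine Cg.sum fun j hj => (f2 j hj).mul (Cg.of_eq ?_)
  rw [zL_eq, chi_pow_apply j hb, hi, ← pow_mul, mul_comm]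

theorem RL_zero {Q : ℕ} {G : Fn} {f : F → R d} (hf : RL χ Q G f) : Cg Q G.2 (f 0) := by
  obtain ⟨c, z0, f1, f2, f3⟩ := hf
  rw [f1 0, if_pos rfl]
  have : ∑ j ∈ range d, c j * (χ ^ j) (0 : F) = 0 :=
    Finset.sum_eq_zero fun j _ => by rw [MulChar.map_zero, mul_zero]
  rw [this, zero_add]; exact f3

theorem readL_eq {Q N : ℕ} {u : List ℤ} (h : Cg Q u ((N : ℕ) : R d)) (hN : N < Q) : readL Q u = N := by
  obtain ⟨y, rfl, h⟩ := h
  have h1 : ((Q : ℤ) : R d) ∣ ((N : ℤ) : R d) - y := by simpa using h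
  have h2 := int_dvd_iff.1 h1 0 dpos
  rw [co_sub, co_int, if_pos rfl] at h2
  rw [readL, getD_L]
  have h3 : co y 0 % (Q : ℤ) = N := by
    have h4 : co y 0 % (Q : ℤ) = (N : ℤ) % (Q : ℤ) :=
      (Int.emod_emod_of_dvd _ dvd_rfl ▸ (Int.emod_eq_emod_iff_emod_sub_eq_zero.2
        (Int.emod_eq_zero_of_dvd h2)).symm)
    rw [h4]
    exact Int.emod_eq_of_lt (by positivity) (by exact_mod_cast hN)
  rw [h3]; simp

/-! ### Numbers of roots -/

theorem exists_gen0 (h : CH χ) : ∃ g : Fˣ, (∀ x, x ∈ Subgroup.zpowers g) ∧ IsPrimitiveRoot (χ g) d := by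
  obtain ⟨g, hg⟩ := IsCyclic.exists_generator (α := Fˣ)
  refine ⟨g, hg, ?_, ?_⟩
  · rw [← MulChar.pow_apply_coe, h.pow, MulChar.one_apply_coe]
  · intro k hk
    apply h.ord
    ext x
    obtain ⟨m, rfl⟩ := Subgroup.mem_zpowers_iff.1 (hg x)
    rw [MulChar.one_apply_coe, MulChar.pow_apply_coe]
    have h2 : χ ((g ^ m : Fˣ) : F) = ((Units.map (χ : F →* R d)) (g ^ m) : (R d)ˣ) := rfl
    rw [h2, map_zpow, ← Units.val_pow_eq_pow_val, ← zpow_natCast, ← zpow_mul, mul_comm, zpow_mul,
      zpow_natCast]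
    have h3 : (Units.map (χ : F →* R d)) g ^ k = 1 := by
      ext
      rw [Units.val_pow_eq_pow_val]
      exact hk
    rw [h3, one_zpow, Units.val_one]

theorem sum_range_ite_eq (a m : ℕ) (h0 : 0 < a) (f : ℕ → R d) :
    ∑ j ∈ range (a * m), (if a ∣ j then f j else 0) = ∑ i ∈ range m, f (a * i) := by
  rw [← Finset.sum_filter]
  refine (Finset.sum_bij' (fun i _ => a * i) (fun j _ => j / a) ?_ ?_ ?_ ?_ ?_).symm
  · intro i hi
    rw [mem_range] at hi
    rw [mem_filter, mem_range]
    exact ⟨Nat.mul_lt_mul_of_pos_left hi h0, Dvd.intro _ rfl⟩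
  · intro j hj
    rw [mem_filter, mem_range] at hj
    rw [mem_range]
    exact Nat.div_lt_of_lt_mul hj.1
  · intro i _; exact Nat.mul_div_cancel_left _ h0
  · intro j hj
    rw [mem_filter] at hj
    exact Nat.mul_div_cancel' hj.2
  · intro i _; rfl

/-- The number of `k`-th roots. -/
theorem card_roots (h : CH χ) {k : ℕ} (hk : Nat.gcd (Fintype.card F - 1) k ∣ d) (hk0 : 0 < k) {u : F}
    (hu : u ≠ 0) : (((univ.filter fun x : F => x ^ k = u).card : ℕ) : R d) =
      ∑ j ∈ range d, if d ∣ k * j then (χ ^ j) u else 0 := by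
  obtain ⟨g, hg, hprim⟩ := exists_gen0 h
  set q := Fintype.card F with hq
  set e := Nat.gcd (q - 1) k with he
  have hdq := d_dvd h
  rw [← hq] at hdq
  have he0 : 0 < e := Nat.gcd_pos_of_pos_right _ hk0
  obtain ⟨a, ha⟩ := hk
  have ha0 : 0 < a := by
    rcases Nat.eq_zero_or_pos a with h0 | h0
    · subst h0; rw [mul_zero] at ha; exact absurd ha hd.out
    · exact h0
  have hcardG : Nat.card Fˣ = q - 1 := by
    rw [Nat.card_eq_fintype_card, Fintype.card_units]
  -- the condition on the exponents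
  have hcond : ∀ j, d ∣ k * j ↔ a ∣ j := by
    intro j
    constructor
    · intro h1
      have h2 : d ∣ (q - 1) * j := Dvd.dvd.mul_right hdq _
      have h3 : d ∣ e * j := by
        rw [he, ← Nat.gcd_mul_right]
        exact Nat.dvd_gcd h2 h1
      rw [ha] at h3
      exact Nat.dvd_of_mul_dvd_mul_left he0 h3
    · rintro ⟨i, rfl⟩
      obtain ⟨k', hk'⟩ := Nat.gcd_dvd_right (q - 1) k
      rw [← he] at hk'
      rw [hk', ha]
      exact ⟨k' * i, by ring⟩
  simp only [hcond]
  have hda : range d = range (a * e) := by rw [ha, mul_comm]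
  rw [hda, sum_range_ite_eq a e ha0]
  -- the character `χ ^ a`
  set v := (χ ^ a) u with hv
  have hsum : ∑ i ∈ range e, (χ ^ (a * i)) u = ∑ i ∈ range e, v ^ i := by
    refine Finset.sum_congr rfl fun i _ => ?_
    rw [hv, chi_pow_apply _ hu, chi_pow_apply _ hu, pow_mul]
  rw [hsum]
  have hve : v ^ e = 1 := by
    rw [hv, chi_pow_apply _ hu, ← pow_mul, mul_comm a e, ← ha, ← chi_pow_apply _ hu, h.pow]
    exact MulChar.one_apply (isUnit_iff_ne_zero.2 hu)
  -- the fibres of the power map
  have hfib : ∀ y : Fˣ, (univ.filter fun x : F => x ^ k = (y : F) ^ k).card = e := by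
    intro y
    have h1 := IsCyclic.card_powMonoidHom_ker (G := Fˣ) k
    rw [hcardG, ← he] at h1
    rw [← h1, Nat.card_eq_fintype_card, ← Fintype.card_coe]
    refine Fintype.card_congr ?_
    refine Equiv.symm (Equiv.ofBijective (fun s : (powMonoidHom k : Fˣ →* Fˣ).ker =>
      (⟨((s : Fˣ) * y : Fˣ), ?_⟩ : {x : F // x ∈ univ.filter fun x : F => x ^ k = (y : F) ^ k})) ⟨?_, ?_⟩)
    · rw [mem_filter]
      refine ⟨mem_univ _, ?_⟩
      have h2 : ((s : Fˣ)) ^ k = 1 := s.2
      rw [Units.val_mul, mul_pow, ← Units.val_pow_eq_pow_val, h2, Units.val_one, one_mul]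
    · intro s s' hs
      simp only [Subtype.mk.injEq] at hs
      have h3 := Units.ext_iff.2 hs
      exact Subtype.ext (mul_right_cancel h3)
    · rintro ⟨x, hx⟩
      rw [mem_filter] at hx
      have hx0 : x ≠ 0 := by
        rintro rfl
        rw [zero_pow hk0.ne'] at hx
        exact pow_ne_zero k y.ne_zero hx.2.symm
      refine ⟨⟨Units.mk0 x hx0 * y⁻¹, ?_⟩, ?_⟩
      · rw [MonoidHom.mem_ker, powMonoidHom_apply, mul_pow, inv_pow, mul_inv_eq_one]
        ext
        rw [Units.val_pow_eq_pow_val, Units.val_pow_eq_pow_val, Units.val_mk0]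
        exact hx.2
      · simp
  by_cases hex : ∃ y : Fˣ, (y : F) ^ k = u
  · obtain ⟨y, rfl⟩ := hex
    rw [hfib y]
    have hv1 : v = 1 := by
      rw [hv, map_pow]
      have h1 : (χ ^ a) (y : F) ^ k = 1 := by
        rw [chi_pow_apply _ y.ne_zero, ← pow_mul]
        obtain ⟨k', hk'⟩ := Nat.gcd_dvd_right (q - 1) k
        rw [← he] at hk'
        rw [hk', show a * (e * k') = (e * a) * k' by ring, ← ha, pow_mul, ← chi_pow_apply _ y.ne_zero,
          h.pow, MulChar.one_apply_coe, one_pow]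
      exact h1
    rw [hv1]; simp
  · have hempty : (univ.filter fun x : F => x ^ k = u) = ∅ := by
      rw [Finset.filter_eq_empty_iff]
      intro x _ hx
      have hx0 : x ≠ 0 := by
        rintro rfl
        rw [zero_pow hk0.ne'] at hx
        exact hu hx.symm
      exact hex ⟨Units.mk0 x hx0, hx⟩
    rw [hempty, Finset.card_empty, Nat.cast_zero]
    have hv1 : v ≠ 1 := by
      intro hv1
      apply hex
      obtain ⟨m, hm⟩ := Subgroup.mem_zpowers_iff.1 (hg (Units.mk0 u hu))
      -- write `m` as a natural number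
      obtain ⟨m', hm'⟩ : ∃ m' : ℕ, g ^ m' = Units.mk0 u hu := by
        have := (mem_powers_iff_mem_zpowers).2 (hg (Units.mk0 u hu))
        obtain ⟨m', hm'⟩ := Submonoid.mem_powers_iff _ _ |>.1 this
        exact ⟨m', hm'⟩
      have hum : u = (g : F) ^ m' := by
        have := congrArg Units.val hm'
        rw [Units.val_pow_eq_pow_val, Units.val_mk0] at this
        exact this.symm
      rw [hv, chi_pow_apply _ hu, hum, map_pow, ← pow_mul] at hv1
      have h1 := hprim.dvd_of_pow_eq_one _ hv1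
      rw [ha, mul_comm e a, mul_comm m' a] at h1
      obtain ⟨t, rfl⟩ := Nat.dvd_of_mul_dvd_mul_left ha0 h1
      -- Bezout
      have hbez := Nat.gcd_eq_gcd_ab (q - 1) k
      rw [← he] at hbez
      refine ⟨(g ^ t) ^ (Nat.gcdB (q - 1) k), ?_⟩
      rw [hum, ← Units.val_pow_eq_pow_val, ← Units.val_pow_eq_pow_val]
      congr 1
      have hgq : g ^ (q - 1) = 1 := by rw [← hcardG]; exact pow_card_eq_one'
      have h3 : g ^ (e * t) = (g ^ t) ^ ((e : ℕ) : ℤ) := by
        rw [zpow_natCast, ← pow_mul, mul_comm]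
      rw [h3, hbez, zpow_add, zpow_mul, zpow_natCast, ← pow_mul, mul_comm t (q - 1), pow_mul, hgq,
        one_pow, one_zpow, one_mul, mul_comm (k : ℤ), zpow_mul, zpow_natCast]
    have h1 := geom_sum_mul v e
    rw [hve, sub_self] at h1
    exact ((mul_eq_zero.1 h1).resolve_right (sub_ne_zero.2 hv1)).symm

/-- The distribution of `a x ^ k`. -/
theorem RL_pow (h : CH χ) {Q k i : ℕ} (hk : Nat.gcd (Fintype.card F - 1) k ∣ d) (hk0 : 0 < k) {a : F}
    (ha : a ≠ 0) (hi : χ a = z d ^ i) :
    RL χ Q (powF d k i) (fun u => ((univ.filter fun x : F => a * x ^ k = u).card : R d)) := by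
  refine ⟨fun j => if d ∣ k * j then z d ^ ((d - j) * i) else 0, 1, ?_, ?_, ?_⟩
  · intro y
    beta_reduce
    rcases eq_or_ne y 0 with h0 | h0
    · subst h0
      have h1 : (univ.filter fun x : F => a * x ^ k = 0) = {0} := by
        ext x
        simp only [mem_filter, mem_univ, true_and, mem_singleton, mul_eq_zero, ha, false_or]
        exact pow_eq_zero_iff hk0.ne'
      rw [h1, if_pos rfl, Finset.card_singleton, Nat.cast_one]
      have h2 : ∑ j ∈ range d, (if d ∣ k * j then z d ^ ((d - j) * i) else 0) * (χ ^ j) (0 : F) = 0 :=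
        Finset.sum_eq_zero fun j _ => by rw [MulChar.map_zero, mul_zero]
      rw [h2, zero_add]
    · have h1 : (univ.filter fun x : F => a * x ^ k = y) = univ.filter fun x : F => x ^ k = y / a := by
        ext x
        simp only [mem_filter, mem_univ, true_and]
        rw [eq_div_iff ha, mul_comm]
      rw [h1, card_roots h hk hk0 (div_ne_zero h0 ha), if_neg h0, add_zero]
      refine Finset.sum_congr rfl fun j hj => ?_
      have hj' := mem_range.1 hj
      split_ifs with h2
      · have h3 : (χ ^ j) y = (χ ^ j) (y / a) * (χ ^ j) a := by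
          rw [← map_mul, div_mul_cancel₀ _ ha]
        rw [h3, chi_pow_apply j ha, hi, ← pow_mul, mul_comm ((χ ^ j) (y / a)), ← mul_assoc, ← pow_add]
        have h4 : z d ^ ((d - j) * i + i * j) = 1 := by
          rw [← pow_zero (z d)]
          apply z_pow_congr
          rw [Nat.modEq_zero_iff_dvd]
          refine ⟨i, ?_⟩
          rw [Nat.sub_mul]
          have : j * i ≤ d * i := Nat.mul_le_mul_right _ hj'.le
          rw [mul_comm i j]; omega
        rw [h4, one_mul]
      · rw [zero_mul]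
  · intro j hj
    rw [powF]
    simp only
    rw [getD_range_map _ _ hj]
    by_cases h1 : d ∣ k * j
    · rw [if_pos (Nat.mod_eq_zero_of_dvd h1), if_pos h1]
      exact Cg.of_eq (zL_eq _)
    · rw [if_neg (fun h2 => h1 (Nat.dvd_of_mod_eq_zero h2)), if_neg h1]
      have := Cg.int (d := d) (Q := Q) 0
      rwa [Int.cast_zero] at this
  · exact Cg.one

end R

end Run7.h700.G
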