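import Pool.Agent.Run7.h700.G.Count

/-!
# Diagonal equations
-/

set_option linter.unusedSectionVars false
set_option linter.style.haveILetI false
set_option linter.unusedVariables false

namespace Run7.h700.G

open Finset

/-- A constant multiple of the indicator function of zero. -/
def cstF (d : ℕ) (v : ℤ) : Fn := ((List.range d).map fun _ => intL d 0, intL d v)

namespace R

variable {F : Type*} [Field F] [Fintype F] [DecidableEq F] {d : ℕ} [hd : NeZero d]
  {χ : MulChar F (R d)}

theorem RL_cst {Q : ℕ} (v : ℤ) : RL χ Q (cstF d v) (fun y => if y = 0 then (v : R d) else 0) := by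
  refine ⟨fun _ => 0, v, ?_, ?_, ?_⟩
  · intro y; simp
  · intro j hj
    rw [cstF]
    simp only
    rw [getD_range_map _ _ hj]
    have := Cg.int (d := d) (Q := Q) 0
    rwa [Int.cast_zero] at this
  · exact Cg.int v

/-- The number of solutions, recursively. -/
def cntL : List (F × ℕ) → F → ℕ
  | [], b => if b = 0 then 1 else 0
  | t :: l, b => ∑ x : F, cntL l (b - t.1 * x ^ t.2)

/-- The distribution of `a x ^ k`. -/
noncomputable def dist (t : F × ℕ) (u : F) : R d := ((univ.filter fun x : F => t.1 * x ^ t.2 = u).card : R d)

theorem cvs_eq (l : List (F × ℕ)) (b : F) :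
    cvs (l.map (dist (d := d))) b = (cntL l b : R d) := by
  induction l generalizing b with
  | nil => simp [cvs, cntL]
  | cons t l ih =>
    rw [List.map_cons, cvs, List.foldr_cons, cntL, Nat.cast_sum]
    have h1 : ∀ u : F, dist t u * (List.foldr (fun f g y => ∑ u, f u * g (y - u))
        (fun y => if y = 0 then 1 else 0) (l.map (dist (d := d)))) (b - u) =
        ∑ x ∈ univ.filter (fun x : F => t.1 * x ^ t.2 = u), (cntL l (b - t.1 * x ^ t.2) : R d) := by
      intro u
      have h2 := ih (b - u)
      rw [cvs] at h2
      rw [h2, dist, ← nsmul_eq_mul, ← Finset.sum_const]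
      refine Finset.sum_congr rfl fun x hx => ?_
      rw [(mem_filter.1 hx).2]
    rw [Finset.sum_congr rfl fun u _ => h1 u]
    exact Finset.sum_fiberwise _ _ _

omit hd in
theorem cntL_card (l : List (F × ℕ)) (b : F) : cntL l b =
    Fintype.card {x : Fin l.length → F // ∑ i, (l.get i).1 * x i ^ (l.get i).2 = b} := by
  induction l generalizing b with
  | nil =>
    rw [cntL]
    simp only [List.length_nil, univ_eq_empty, sum_empty]
    by_cases h : b = 0
    · subst h; simp
    · rw [if_neg h]
      symm
      rw [Fintype.card_eq_zero_iff]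
      exact ⟨fun x => h x.2.symm⟩
  | cons t l ih =>
    rw [cntL]
    simp only [ih]
    rw [← Fintype.card_sigma]
    refine Fintype.card_congr ?_
    refine {
      toFun := fun s => ⟨Fin.cons s.1 s.2.1, ?_⟩
      invFun := fun x => ⟨x.1 0, ⟨fun i => x.1 i.succ, ?_⟩⟩
      left_inv := ?_
      right_inv := ?_ }
    · have h1 := s.2.2
      refine (Fin.sum_univ_succ (n := l.length) _).trans ?_
      simp only [List.get_eq_getElem, Fin.val_zero, List.getElem_cons_zero, Fin.cons_zero,
        Fin.val_succ, List.getElem_cons_succ, Fin.cons_succ]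
      simp only [List.get_eq_getElem] at h1
      rw [h1]; ring
    · have h1 := x.2
      simp only [List.length_cons, Fin.sum_univ_succ, List.get_eq_getElem, Fin.val_zero,
        List.getElem_cons_zero, Fin.val_succ, List.getElem_cons_succ] at h1
      simp only [List.get_eq_getElem]
      exact eq_sub_of_add_eq' h1
    · intro s
      simp only [Fin.cons_succ]
      rfl
    · intro x
      apply Subtype.ext
      exact Fin.cons_self_tail x.1

theorem cntL_le (l : List (F × ℕ)) (b : F) : cntL l b ≤ Fintype.card F ^ l.length := by
  induction l generalizing b with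
  | nil => rw [cntL]; split_ifs <;> simp
  | cons t l ih =>
    rw [cntL, List.length_cons, pow_succ']
    refine (Finset.sum_le_card_nsmul _ _ _ fun x _ => ih _).trans ?_
    rw [Finset.card_univ, smul_eq_mul]

end R

end Run7.h700.G
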