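import Pool.Agent.Run7.h700.G.Root

/-!
# Recovery of the generator
-/

set_option linter.unusedSectionVars false
set_option linter.style.haveILetI false
set_option linter.unusedVariables false

namespace Run7.h700.G

open Finset

/-- Twice the bound for the coordinates. -/
def Gb (d K n : ℕ) : ℕ := 2 * (R.C1 d * (d * (BD d K * BD d K * n)))

/-- Precision. -/
def Mx (d K n : ℕ) : ℕ := (Gb d K n).size

/-- The exponent of the chain is the `mx`-th power of the prime. -/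
def mx (d K n : ℕ) : ℕ := d * Mx d K n

/-- The working precision needed for the precision `j` at the end of the chain. -/
def TT (d K n l j : ℕ) : ℕ := (l ^ mx d K n).size * loss d K n + j

/-- The chain at the prime `l`, with coefficients at the prime `r`. -/
def chl (d K n : ℕ) (S0 : List (List ℤ)) (l r j : ℕ) : StT × List ℤ :=
  chain d K n S0 r (r ^ TT d K n l j) (TT d K n l j) (l ^ mx d K n)

/-- The conjugate of the generator at the end of the chain. -/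
def gL (d K n : ℕ) (S0 : List (List ℤ)) (l : ℕ) (B : List ℤ) : List ℤ :=
  cmodL (l ^ Mx d K n) (mulL d (powB d (l ^ Mx d K n) (l ^ mx d K n) B)
    (chl d K n S0 l l (Mx d K n)).2)

/-- The power `α ^ (l ^ mx)` modulo `r ^ j`. -/
def powA (d K n : ℕ) (S0 : List (List ℤ)) (l : ℕ) (B : List ℤ) (r j : ℕ) : List ℤ :=
  rdiv r (r ^ TT d K n l (loss d K n + j)) (TT d K n l (loss d K n + j))
    (EE (chl d K n S0 l r (loss d K n + j)).1)
    (mulL d (chl d K n S0 l r (loss d K n + j)).2 (conjL d (gL d K n S0 l B)))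

/-- The inverse modulo `r ^ M` of an element with integral square absolute value. -/
def invL (d r M : ℕ) (b : List ℤ) : List ℤ :=
  smulL (invZ r (r ^ M) M ((mulL d b (conjL d b)).getD 0 0)) (conjL d b)

/-- The exponent used in the case of two primes. -/
def y0 (l1 l2 m1 m2 : ℕ) : ℕ := (invZ l1 (l1 ^ m1) m1 ((l2 ^ m2 : ℕ) : ℤ)).toNat

/-- The generator, from approximations at two primes. -/
def twoP (d K n : ℕ) (S0 : List (List ℤ)) (l1 l2 : ℕ) (b1 b2 : List ℤ) : List ℤ :=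
  cmodL (l1 ^ Mx d K n) (mulL d b1 (powB d (l1 ^ Mx d K n) (y0 l1 l2 (mx d K n) (mx d K n))
    (mulL d (powA d K n S0 l2 (invL d l2 (Mx d K n) b2) l1 (Mx d K n))
      (powB d (l1 ^ Mx d K n) (l2 ^ mx d K n) (invL d l1 (Mx d K n) b1)))))

/-- One step of the root extraction. -/
def rstep (d Q l m : ℕ) (B y : List ℤ) : List ℤ :=
  modL Q (subL d y (mulL d y (divL (subL d (modL Q (mulL d B (powB d Q (l ^ m) y))) (intL d 1))
    ((l ^ m : ℕ) : ℤ))))

/-- Root extraction. -/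
def rootL (d Q l m N : ℕ) (B : List ℤ) : List ℤ := (rstep d Q l m B)^[N] (intL d 1)

/-- The correction factor. -/
def corr (d n l M : ℕ) (κ : List ℤ) : List ℤ := smulL (invZ l (l ^ M) M (n : ℤ)) (conjL d κ)

/-- The generator, from a good approximation at one prime. -/
def oneP (d K n : ℕ) (S0 : List (List ℤ)) (l : ℕ) (κ : List ℤ) : List ℤ :=
  cmodL (l ^ Mx d K n) (smulL (n : ℤ) (conjL d (mulL d
    (rootL d (l ^ (Mx d K n + mx d K n)) l (mx d K n) (d * Mx d K n)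
      (mulL d (powA d K n S0 l (intL d (-1)) l (Mx d K n + mx d K n))
        (powB d (l ^ (Mx d K n + mx d K n)) (l ^ mx d K n) (corr d n l (Mx d K n + mx d K n) κ))))
    (corr d n l (Mx d K n + mx d K n) κ))))

namespace R

variable {d : ℕ} [hd : NeZero d] {K n : ℕ} {α : R d} {S0 : List (List ℤ)}

theorem one_le_BD (d K : ℕ) [NeZero d] : 1 ≤ BD d K := by
  rw [BD]
  have := dpos (d := d)
  exact Nat.succ_le_of_lt (by positivity)

theorem lt_l_Mx {l : ℕ} (hl : l.Prime) {x : R d} (h : nsq x ≤ (C1 d * (d * (BD d K * BD d K * n)) : ℕ))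
    (i : ℕ) : 2 * |co x i| < ((l ^ Mx d K n : ℕ) : ℤ) := by
  have h1 := Bd_of_nsq h i
  have h2 : Gb d K n < 2 ^ Mx d K n := Nat.lt_size_self _
  have h3 : 2 ^ Mx d K n ≤ l ^ Mx d K n := Nat.pow_le_pow_left hl.two_le _
  have h4 : (Gb d K n : ℤ) < ((l ^ Mx d K n : ℕ) : ℤ) := by exact_mod_cast h2.trans_le h3
  rw [Gb] at h4
  push_cast at h4 h1 ⊢
  linarith

theorem qf_conj {g : R d} {E : ℤ} (hg : g * conj g = (E : R d)) : qf (conj g) = E * d.totient := by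
  rw [qf, conj_conj, mul_comm, hg, tr_int]

theorem bound_g {g : R d} {bs : List (R d)} {st : StT} (h : GLat K n st g bs) :
    nsq (conj g) ≤ (C1 d * (d * (BD d K * BD d K * n)) : ℕ) := by
  refine (nsq_le_qf _).trans ?_
  rw [qf_conj h.norm]
  push_cast
  refine mul_le_mul_of_nonneg_left ?_ (by positivity)
  have h1 := h.le
  push_cast at h1
  calc EE st * d.totient ≤ EE st * d := mul_le_mul_of_nonneg_left totient_le_int h.pos.le
    _ = d * EE st := mul_comm _ _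
    _ ≤ _ := mul_le_mul_of_nonneg_left h1 (by positivity)

theorem bound_alpha (h : Hyp K n α S0) : nsq α ≤ (C1 d * (d * (BD d K * BD d K * n)) : ℕ) := by
  refine (nsq_le_qf _).trans ?_
  have h1 : qf α = n * d.totient := by
    rw [qf, h.norm]
    have := tr_int (d := d) n
    rwa [Int.cast_natCast] at this
  rw [h1]
  push_cast
  refine mul_le_mul_of_nonneg_left ?_ (by positivity)
  have h2 := one_le_BD d K
  have h3 : (1 : ℤ) ≤ (BD d K : ℤ) * BD d K := by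
    have : (1 : ℤ) ≤ BD d K := by exact_mod_cast h2
    nlinarith
  calc (n : ℤ) * d.totient ≤ n * d := mul_le_mul_of_nonneg_left totient_le_int (by positivity)
    _ = d * (1 * n) := by ring
    _ ≤ _ := by
      refine mul_le_mul_of_nonneg_left ?_ (by positivity)
      exact mul_le_mul_of_nonneg_right h3 (by positivity)

theorem Mx_pos (h : Hyp K n α S0) : 0 < Mx d K n := by
  have hd0 := dpos (d := d)
  have h2 := one_le_BD d K
  have h3 := h.n0
  rw [Mx, Nat.size_pos, Gb, C1]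
  positivity

theorem pow_natCast_dvd {l M : ℕ} {x : R d} : ((l ^ M : ℕ) : R d) ∣ x ↔ (l : R d) ^ M ∣ x := by
  push_cast; rfl

theorem gL_spec (h : Hyp K n α S0) {l : ℕ} (hl : l.Prime) (hld : l ∣ d) {β y : R d}
    (hβ : lam d l ∣ α - β) {B : List ℤ} (hB : B = L y) (hy : (l : R d) ^ Mx d K n ∣ y * β - 1)
    {st : StT} {g : R d} {bs : List (R d)} (hst : GLat K n st g bs)
    (hc : ∀ (r : ℕ), r.Prime → ∀ (T j : ℕ), (l ^ mx d K n).size * loss d K n + j ≤ T →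
        ∃ c : List ℤ, chain d K n S0 r (r ^ T) T (l ^ mx d K n) = (st, c) ∧
          Cg (r ^ j) c (α ^ (l ^ mx d K n) * conj g)) :
    gL d K n S0 l B = L (conj g) := by
  obtain ⟨c, hc1, hc2⟩ := hc l hl (TT d K n l (Mx d K n)) (Mx d K n) le_rfl
  rw [gL, chl, hc1]
  refine Cg.cmod ?_ (lt_l_Mx hl (bound_g hst))
  have h1 : Cg (l ^ Mx d K n) (powB d (l ^ Mx d K n) (l ^ mx d K n) B) (y ^ (l ^ mx d K n)) :=
    powB_cg (Cg.of_eq hB) dvd_rfl
  refine (h1.mul hc2).congr ?_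
  rw [pow_natCast_dvd]
  have h2 := pow_cong_l hl hld hβ (M := Mx d K n) (m := mx d K n) (by rw [mx]; omega)
  have h3 : (l : R d) ^ Mx d K n ∣ (y * β) ^ (l ^ mx d K n) - 1 := by
    have := sub_dvd_pow_sub_pow (y * β) 1 (l ^ mx d K n)
    rw [one_pow] at this
    exact dvd_trans hy this
  obtain ⟨t2, h2⟩ := h2
  obtain ⟨t3, h3⟩ := h3
  rw [mul_pow] at h3
  exact ⟨-(conj g) * (t3 + y ^ (l ^ mx d K n) * t2), by
    linear_combination (-(conj g)) * h3 - (conj g) * y ^ (l ^ mx d K n) * h2⟩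

theorem powA_spec (h : Hyp K n α S0) {l : ℕ} (hl : l.Prime) (hld : l ∣ d) {β y : R d}
    (hβ : lam d l ∣ α - β) {B : List ℤ} (hB : B = L y) (hy : (l : R d) ^ Mx d K n ∣ y * β - 1)
    {r : ℕ} (hr : r.Prime) (j : ℕ) :
    Cg (r ^ j) (powA d K n S0 l B r j) (α ^ (l ^ mx d K n)) := by
  obtain ⟨st, g, bs, hst, hc⟩ := chain_good h (l ^ mx d K n)
  have hg := gL_spec h hl hld hβ hB hy hst hc
  obtain ⟨c, hc1, hc2⟩ := hc r hr (TT d K n l (loss d K n + j)) (loss d K n + j) le_rfl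
  rw [powA, chl, hc1, hg, conjL_eq, conj_conj]
  simp only
  refine rdiv_spec (c := loss d K n) hr hst.pos.ne' ?_ ?_ ?_
  · have h1 := loss_spec hst
    rw [Int.natAbs_mul] at h1
    have h2 : 0 < (EE st).natAbs := Int.natAbs_pos.2 hst.pos.ne'
    nlinarith
  · rw [TT]; omega
  · have h1 := hc2.mul (Cg.refl (Q := r ^ (loss d K n + j)) g)
    have h2 : α ^ (l ^ mx d K n) * conj g * g = ((EE st : ℤ) : R d) * α ^ (l ^ mx d K n) := by
      rw [← hst.norm]; ring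
    rw [h2] at h1
    exact h1

theorem intCast_dvd {a b : ℤ} (h : a ∣ b) : (a : R d) ∣ (b : R d) := by
  obtain ⟨c, rfl⟩ := h
  exact ⟨(c : R d), by push_cast; ring⟩

theorem invL_spec {β : R d} {N : ℤ} (hN : β * conj β = (N : R d)) {r : ℕ} (hr : r.Prime)
    (hrN : ¬ (r : ℤ) ∣ N) (M : ℕ) :
    ∃ y : R d, invL d r M (L β) = L y ∧ (r : R d) ^ M ∣ y * β - 1 := by
  have h1 : (mulL d (L β) (conjL d (L β))).getD 0 0 = N := by
    rw [conjL_eq, mulL_eq, hN, getD_L, co_int]; simp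
  refine ⟨(invZ r (r ^ M) M N : ℤ) * conj β, ?_, ?_⟩
  · rw [invL, h1, conjL_eq, smulL_eq]
  · have h2 := intCast_dvd (d := d) (invZ_spec hr hrN M)
    push_cast at h2
    have h3 : ((invZ r (r ^ M) M N : ℤ) : R d) * conj β * β - 1 =
        (N : R d) * ((invZ r (r ^ M) M N : ℤ) : R d) - 1 := by
      rw [← hN]; ring
    rw [h3]; exact h2

theorem y0_spec {l1 l2 m1 m2 : ℕ} (h1 : l1.Prime) (h2 : l2.Prime) (hne : l1 ≠ l2) (hm : 0 < m1) :
    ∃ x : ℕ, l2 ^ m2 * y0 l1 l2 m1 m2 = 1 + l1 ^ m1 * x := by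
  have h3 : ¬ (l1 : ℤ) ∣ ((l2 ^ m2 : ℕ) : ℤ) := by
    intro h
    have h4 : l1 ∣ l2 ^ m2 := by exact_mod_cast h
    have h5 := h1.dvd_of_dvd_pow h4
    exact hne ((Nat.prime_dvd_prime_iff_eq h1 h2).1 h5)
  have h4 := invZ_spec h1 h3 m1
  have h5 : 0 ≤ invZ l1 (l1 ^ m1) m1 ((l2 ^ m2 : ℕ) : ℤ) := by
    obtain ⟨k, hk⟩ : ∃ k, m1 = k + 1 := ⟨m1 - 1, by omega⟩
    rw [invZ, hk, Function.iterate_succ_apply']
    have := h1.pos
    exact Int.emod_nonneg _ (by positivity)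
  have h6 : ((y0 l1 l2 m1 m2 : ℕ) : ℤ) = invZ l1 (l1 ^ m1) m1 ((l2 ^ m2 : ℕ) : ℤ) :=
    Int.toNat_of_nonneg h5
  rw [← h6] at h4
  obtain ⟨x, hx⟩ := h4
  have hx0 : 0 ≤ x := by
    by_contra hneg
    push Not at hneg
    have h7 : (0 : ℤ) < ((l1 ^ m1 : ℕ) : ℤ) := by exact_mod_cast pow_pos h1.pos m1
    have h8 : ((l1 ^ m1 : ℕ) : ℤ) * x ≤ -((l1 ^ m1 : ℕ) : ℤ) := by nlinarith
    have h9 : (2 : ℤ) ≤ ((l1 ^ m1 : ℕ) : ℤ) := by
      have : 2 ≤ l1 ^ m1 := h1.two_le.trans (Nat.le_self_pow hm.ne' l1)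
      exact_mod_cast this
    have h10 : (0 : ℤ) ≤ ((l2 ^ m2 : ℕ) : ℤ) * (y0 l1 l2 m1 m2 : ℤ) := by positivity
    linarith
  refine ⟨x.toNat, ?_⟩
  have h7 : ((x.toNat : ℕ) : ℤ) = x := Int.toNat_of_nonneg hx0
  zify
  rw [h7]
  push_cast at hx
  linear_combination hx

/-- The case of two primes. -/
theorem twoP_spec (h : Hyp K n α S0) {l1 l2 : ℕ} (h1 : l1.Prime) (h2 : l2.Prime) (hne : l1 ≠ l2)
    (hd1 : l1 ∣ d) (hd2 : l2 ∣ d) {β1 β2 : R d} {N1 N2 : ℤ} (hb1 : lam d l1 ∣ α - β1)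
    (hb2 : lam d l2 ∣ α - β2) (hN1 : β1 * conj β1 = (N1 : R d)) (hN2 : β2 * conj β2 = (N2 : R d))
    (hi1 : ¬ (l1 : ℤ) ∣ N1) (hi2 : ¬ (l2 : ℤ) ∣ N2) :
    twoP d K n S0 l1 l2 (L β1) (L β2) = L α := by
  obtain ⟨y1, e1, e2⟩ := invL_spec hN1 h1 hi1 (Mx d K n)
  obtain ⟨y2, e3, e4⟩ := invL_spec hN2 h2 hi2 (Mx d K n)
  have hM := Mx_pos h
  have hm : 0 < mx d K n := Nat.mul_pos dpos hM
  have hA := powA_spec h h2 hd2 hb2 e3 e4 h1 (Mx d K n)
  have hP : Cg (l1 ^ Mx d K n) (powB d (l1 ^ Mx d K n) (l2 ^ mx d K n) (invL d l1 (Mx d K n) (L β1)))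
      (y1 ^ (l2 ^ mx d K n)) := powB_cg (Cg.of_eq e1) dvd_rfl
  rw [twoP]
  refine Cg.cmod ?_ (lt_l_Mx h1 (bound_alpha h))
  refine ((Cg.refl β1).mul (powB_cg (hA.mul hP) dvd_rfl)).congr ?_
  rw [pow_natCast_dvd]
  obtain ⟨x, hx⟩ := y0_spec (m2 := mx d K n) h1 h2 hne hm
  set u := α * y1 with hu
  have hu1 : lam d l1 ∣ u - 1 := by
    have e5 : lam d l1 ∣ (l1 : R d) ^ Mx d K n :=
      dvd_trans (lam_dvd_l h1 hd1) (dvd_pow_self _ hM.ne')
    have e6 : u - 1 = (α - β1) * y1 + (y1 * β1 - 1) := by rw [hu]; ring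
    rw [e6]
    exact dvd_add (Dvd.dvd.mul_right hb1 _) (dvd_trans e5 e2)
  have hu2 := pow_cong_l h1 hd1 hu1 (M := Mx d K n) (m := mx d K n) (by rw [mx]; omega)
  rw [one_pow] at hu2
  have hu3 : (l1 : R d) ^ Mx d K n ∣ (u ^ (l1 ^ mx d K n)) ^ x - 1 := by
    have := sub_dvd_pow_sub_pow (u ^ (l1 ^ mx d K n)) 1 x
    rw [one_pow] at this
    exact dvd_trans hu2 this
  have e7 : (α ^ (l2 ^ mx d K n) * y1 ^ (l2 ^ mx d K n)) ^ y0 l1 l2 (mx d K n) (mx d K n) =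
      u * (u ^ (l1 ^ mx d K n)) ^ x := by
    rw [← mul_pow, ← hu, ← pow_mul, hx, pow_add, pow_one, pow_mul]
  rw [e7]
  obtain ⟨t1, ht1⟩ := e2
  obtain ⟨t2, ht2⟩ := hu3
  exact ⟨-(α * t1) - β1 * u * t2, by
    rw [hu] at ht2 ⊢
    linear_combination (-α) * ht1 - β1 * (α * y1) * ht2⟩

theorem conj_lam {l : ℕ} (hl : l.Prime) (hld : l ∣ d) : lam d l ∣ conj (lam d l) := by
  set w := z d ^ (d / pw d l) with hw
  have h1 : conj w * w = 1 := conj_z_pow _
  have h2 : lam d l = 1 - w := rfl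
  rw [h2, map_sub, map_one]
  exact ⟨-conj w, by linear_combination -h1⟩

theorem rootL_spec {l : ℕ} (hl : l.Prime) (hld : l ∣ d) {u : R d} {j0 M m N : ℕ}
    (hj0 : fi d l + 1 ≤ (l - 1) * j0) (hM : 0 < M) (hu : lam d l ^ j0 ∣ 1 - u)
    (hMj : j0 ≤ fi d l * M) (hN : fi d l * M ≤ N)
    {B : List ℤ} (hB : Cg (l ^ (M + m)) B (u ^ (l ^ m))) :
    ∃ y : R d, rootL d (l ^ (M + m)) l m N B = L y ∧ (l : R d) ^ M ∣ y * u - 1 := by
  have hl1 := lam_pow_dvd_l hl hld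
  have hl2 := l_dvd_lam_pow hl hld
  have hl0 : (l : R d) ≠ 0 := by exact_mod_cast hl.ne_zero
  have key : ∀ t, ∃ y : R d, (rstep d (l ^ (M + m)) l m B)^[t] (intL d 1) = L y ∧
      lam d l ^ (min (j0 + t) (fi d l * M)) ∣ y * u - 1 := by
    intro t
    induction t with
    | zero =>
      refine ⟨1, ?_, ?_⟩
      · rw [Function.iterate_zero, id, intL_eq, Int.cast_one]
      · refine dvd_trans (pow_dvd_pow _ (min_le_left _ _)) ?_
        rw [show (1 : R d) * u - 1 = -(1 - u) by ring, dvd_neg]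
        exact hu
    | succ t ih =>
      obtain ⟨y, hy1, hy2⟩ := ih
      have hj : fi d l + 1 ≤ (l - 1) * min (j0 + t) (fi d l * M) := by
        refine hj0.trans (Nat.mul_le_mul_left _ ?_)
        exact le_min (Nat.le_add_right _ _) hMj
      rw [Function.iterate_succ_apply', hy1, rstep]
      obtain ⟨b, rfl, hb⟩ := hB
      obtain ⟨pw, hpw1, hpw2⟩ := powB_cg (Q := l ^ (M + m)) (k := l ^ m) (Cg.refl y) dvd_rfl
      have hw : Cg (l ^ (M + m)) (modL (l ^ (M + m)) (mulL d (L b) (powB d (l ^ (M + m)) (l ^ m) (L y))))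
          (b * y ^ l ^ m) := ((Cg.refl b).mul ⟨pw, hpw1, hpw2⟩).mod dvd_rfl
      obtain ⟨w, hw1, hw2⟩ := hw
      rw [hw1, intL_eq, subL_eq, Int.cast_one]
      rw [pow_natCast_dvd] at hb hw2
      have hE : ∃ E, w - 1 = (l : R d) ^ m * E := by
        obtain ⟨e', _, h4⟩ := root_iter hl hl1 hl2 hj hy2 m
        have h5 : (1 + (y * u - 1)) ^ (l ^ m) = y ^ (l ^ m) * u ^ (l ^ m) := by
          rw [← mul_pow]; ring
        obtain ⟨t1, ht1⟩ := hb
        obtain ⟨t2, ht2⟩ := hw2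
        rw [pow_add] at ht1 ht2
        refine ⟨(y * u - 1 + e') - (l : R d) ^ M * (y ^ (l ^ m) * t1) - (l : R d) ^ M * t2, ?_⟩
        linear_combination h4 - h5 - y ^ (l ^ m) * ht1 - ht2
      obtain ⟨E, hE⟩ := hE
      have hdiv : divL (L (w - 1)) ((l ^ m : ℕ) : ℤ) = L E := by
        rw [hE]
        have h6 : (l : R d) ^ m = (((l ^ m : ℕ) : ℤ) : R d) := by push_cast; rfl
        rw [h6]
        exact divL_eq (by
          have := hl.ne_zero
          positivity) E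
      rw [hdiv, mulL_eq, subL_eq]
      obtain ⟨y', hy'1, hy'2⟩ := modL_eq (Q := l ^ (M + m)) (y - y * E)
      refine ⟨y', hy'1, ?_⟩
      rw [pow_natCast_dvd] at hy'2
      have h7 := newton_step hl hl1 hl2 hl0 (u := u) (B := b) hj (by
        rw [← dvd_neg]; convert hb using 1; ring) hy2 hw2 hE hy'2
      exact dvd_trans (pow_dvd_pow _ (by omega)) h7
  obtain ⟨y, hy1, hy2⟩ := key N
  refine ⟨y, hy1, l_pow_dvd_of_lam hl2 ?_⟩
  rw [min_eq_right (by omega)] at hy2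
  exact hy2

/-- The case of one prime. -/
theorem oneP_spec (h : Hyp K n α S0) {l : ℕ} (hl : l.Prime) (hld : l ∣ d) (hln : ¬ (l : ℤ) ∣ n)
    (hα : lam d l ∣ α + 1) {j0 : ℕ} (hj0 : fi d l + 1 ≤ (l - 1) * j0) (hj0' : j0 ≤ fi d l * Mx d K n)
    {κ : R d} (hκ : lam d l ^ j0 ∣ α - κ) : oneP d K n S0 l (L κ) = L α := by
  have hM := Mx_pos h
  set M := Mx d K n with hMd
  set m := mx d K n with hmd
  have hA := powA_spec h hl hld (β := -1) (y := -1) (B := intL d (-1)) (by simpa using hα)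
    (by rw [intL_eq]; push_cast; rfl) (by simp) hl (M + m)
  rw [← hmd] at hA
  set ni := invZ l (l ^ (M + m)) (M + m) (n : ℤ) with hni
  have hni1 := intCast_dvd (d := d) (invZ_spec hl hln (M + m))
  rw [← hni] at hni1
  have hcorr : corr d n l (M + m) (L κ) = L ((ni : R d) * conj κ) := by
    rw [corr, ← hni, conjL_eq, smulL_eq]
  set c := (ni : R d) * conj κ with hc
  have hB : Cg (l ^ (M + m)) (mulL d (powA d K n S0 l (intL d (-1)) l (M + m))
      (powB d (l ^ (M + m)) (l ^ m) (corr d n l (M + m) (L κ)))) ((α * c) ^ (l ^ m)) := by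
    rw [mul_pow, hcorr]
    exact hA.mul (powB_cg (Cg.refl c) dvd_rfl)
  have hu : lam d l ^ j0 ∣ 1 - α * c := by
    -- reduce to the conjugate congruence
    have e1 : lam d l ^ j0 ∣ conj α - conj κ := by
      obtain ⟨t, ht⟩ := hκ
      rw [← map_sub, ht, map_mul, map_pow]
      exact Dvd.dvd.mul_right (pow_dvd_pow_of_dvd (conj_lam hl hld) _) _
    have e2 : lam d l ^ j0 ∣ (n : R d) * (ni : R d) - 1 := by
      refine dvd_trans ?_ (by push_cast at hni1; exact hni1)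
      rw [pow_add]
      refine Dvd.dvd.mul_right ?_ _
      refine dvd_trans (pow_dvd_pow _ hj0') ?_
      rw [pow_mul]
      exact pow_dvd_pow_of_dvd (lam_pow_dvd_l hl hld) _
    have e3 : 1 - α * c = -((n : R d) * (ni : R d) - 1) + α * ni * (conj α - conj κ) := by
      rw [hc, ← h.norm]; ring
    rw [e3]
    exact dvd_add ((dvd_neg).2 e2) (Dvd.dvd.mul_left e1 _)
  clear_value c
  obtain ⟨y, hy1, hy2⟩ := rootL_spec hl hld (N := d * M) hj0 hM hu hj0'
    (Nat.mul_le_mul_right _ (fi_le hl hld)) hB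
  rw [oneP, ← hMd, ← hmd, hy1, hcorr, mulL_eq, conjL_eq, smulL_eq]
  refine cmodL_eq ?_ (lt_l_Mx hl (bound_alpha h))
  rw [pow_natCast_dvd]
  obtain ⟨s, hs⟩ := hy2
  have h3 := congrArg conj hs
  rw [map_sub, map_mul, map_one, map_mul, map_mul, map_pow, map_natCast] at h3
  refine ⟨α * conj s, ?_⟩
  rw [map_mul, Int.cast_natCast, ← h.norm]
  linear_combination α * h3

end R

end Run7.h700.G
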