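import Pool.Agent.Run7.h700.G.Table

/-!
# The ideals generated by the Jacobi sums of a prime field
-/

set_option linter.unusedSectionVars false
set_option linter.style.haveILetI false
set_option linter.unusedVariables false

namespace Run7.h700.G

open Finset Polynomial

/-- The half system. -/
def TL (d a b : ℕ) : List ℕ := (ul d).filter fun t => decide ((t * a) % d + (t * b) % d < d)

/-- The matrix of the reductions. -/
def redMat (d w a b : ℕ) : List (List ℤ) :=
  (List.range d).map fun i => (TL d a b).map fun t => ((w ^ (i * t) : ℕ) : ℤ)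

/-- Short generators of the ideal of the Jacobi sum. -/
def sgen (d p w a b : ℕ) : List (List ℤ) :=
  kerG d (TL d a b).length (redMat d w a b) p (betaE d p)

/-- The quality constant. -/
def KP (d : ℕ) : ℕ := Kr d (d ^ 4)

/-- All generators. -/
def sgP (d p w : ℕ) : List (List (List ℤ)) :=
  (List.range (d * d)).map fun i => sgen d p w (i / d) (i % d)

namespace R

variable {d : ℕ} [hd : NeZero d] {p : ℕ} [hp : Fact p.Prime] {ω : ZMod p}

/-- Reduction modulo a prime above `p`. -/
noncomputable def red (hω : IsPrimitiveRoot ω d) (t : ℕ) (ht : t.Coprime d) : R d →+* ZMod p :=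
  lift (ω ^ t) (hω.pow_of_coprime t ht)

theorem red_z (hω : IsPrimitiveRoot ω d) {t : ℕ} (ht : t.Coprime d) :
    red hω t ht (z d) = ω ^ t := lift_z _ _

theorem red_apply (hω : IsPrimitiveRoot ω d) {t : ℕ} (ht : t.Coprime d) (c : ℕ → ℤ) :
    red hω t ht (∑ i ∈ range d, (c i : R d) * z d ^ i) = ∑ i ∈ range d, (c i : ZMod p) * ω ^ (i * t) := by
  rw [map_sum]
  refine Finset.sum_congr rfl fun i _ => ?_
  rw [map_mul, map_intCast, map_pow, red_z, ← pow_mul, mul_comm t i]

theorem red_conj (hω : IsPrimitiveRoot ω d) {t : ℕ} (ht : t.Coprime d)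
    (ht' : ((d - 1) * t).Coprime d) (x : R d) : red hω t ht (conj x) = red hω ((d - 1) * t) ht' x := by
  have : (red hω t ht).comp conj = red hω ((d - 1) * t) ht' := by
    apply hom_ext
    rw [RingHom.comp_apply, conj, aut_z, map_pow, red_z, red_z, ← pow_mul, mul_comm]
  exact RingHom.congr_fun this x

/-- An element in all primes above `p` is divisible by `p`. -/
theorem p_dvd_of_red (hω : IsPrimitiveRoot ω d) {x : R d}
    (h : ∀ (t : ℕ) (ht : t.Coprime d), t < d → red hω t ht x = 0) : (p : R d) ∣ x := by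
  classical
  have hred : ∀ (t : ℕ) (ht : t.Coprime d) (f : ℤ[X]),
      red hω t ht (mk d f) = (f.map (Int.castRingHom (ZMod p))).eval (ω ^ t) := by
    intro t ht f
    have : (red hω t ht).comp (mk d) = (evalRingHom (ω ^ t)).comp (mapRingHom (Int.castRingHom (ZMod p))) := by
      apply Polynomial.ringHom_ext'
      · exact RingHom.ext_int _ _
      · rw [RingHom.comp_apply, RingHom.comp_apply, coe_mapRingHom, map_X, coe_evalRingHom, eval_X]
        exact red_z hω ht
    exact RingHom.congr_fun this f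
  set f := rep d x with hf
  set g := f.map (Int.castRingHom (ZMod p)) with hg
  have hdeg : f.degree < d.totient := by
    have h1 : f = f %ₘ cyclotomic d ℤ := by
      conv_lhs => rw [hf, ← mk_rep d x, rep_mk]
    rw [h1]
    have h2 := degree_modByMonic_lt f (cyclotomic.monic d ℤ)
    rwa [degree_cyclotomic] at h2
  have hg0 : g = 0 := by
    apply eq_zero_of_degree_lt_of_eval_finset_eq_zero
      (((range d).filter fun t => t.Coprime d).image fun t => ω ^ t)
    · rw [Finset.card_image_of_injOn]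
      · have h1 : ((range d).filter fun t => t.Coprime d).card = d.totient := by
          rw [Nat.totient_eq_card_coprime]
          congr 1
          ext t; simp [Nat.coprime_comm]
        rw [h1]
        exact lt_of_le_of_lt degree_map_le hdeg
      · intro s hs t ht hst
        rw [Finset.mem_coe, mem_filter, mem_range] at hs ht
        exact hω.pow_inj hs.1 ht.1 hst
    · intro y hy
      rw [Finset.mem_image] at hy
      obtain ⟨t, ht, rfl⟩ := hy
      rw [mem_filter, mem_range] at ht
      have h3 := h t ht.2 ht.1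
      rw [← mk_rep d x, hred] at h3
      exact h3
  have h4 : (C (p : ℤ)) ∣ f := by
    rw [C_dvd_iff_dvd_coeff]
    intro i
    rw [← ZMod.intCast_zmod_eq_zero_iff_dvd]
    have h5 := congrArg (fun q => coeff q i) hg0
    rw [hg] at h5
    simpa using h5
  obtain ⟨q, hq⟩ := h4
  refine ⟨mk d q, ?_⟩
  rw [← mk_rep d x, ← hf, hq, map_mul]
  congr 1

/-- The multiplicative character attached to `ω`. -/
theorem exists_char (hω : IsPrimitiveRoot ω d) (hdvd : d ∣ p - 1) :
    ∃ χ : MulChar (ZMod p) (R d), CH χ ∧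
      ∀ x, x ≠ 0 → red hω 1 (Nat.coprime_one_left d) (χ x) = x ^ ((p - 1) / d) := by
  have hex : ∀ x : (ZMod p)ˣ, ∃ i, i < d ∧ ω ^ i = (x : ZMod p) ^ ((p - 1) / d) := by
    intro x
    have h3 : ((x : ZMod p) ^ ((p - 1) / d)) ^ d = 1 := by
      rw [← pow_mul, Nat.div_mul_cancel hdvd]
      exact ZMod.pow_card_sub_one_eq_one x.ne_zero
    exact hω.eq_pow_of_pow_eq_one h3
  choose i hi1 hi2 using hex
  have h1 : ω ^ d = 1 := hω.pow_eq_one
  have hz : ∀ n m : ℕ, ω ^ n = ω ^ m → z d ^ n = z d ^ m := by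
    intro n m h
    have hmod : ∀ k : ℕ, ω ^ (k % d) = ω ^ k := by
      intro k
      conv_rhs => rw [← Nat.div_add_mod k d, pow_add, pow_mul, h1, one_pow, one_mul]
    have h3 : n % d = m % d := hω.pow_inj (Nat.mod_lt _ dpos)
      (Nat.mod_lt _ dpos) (by rw [hmod, hmod, h])
    rw [← z_pow_mod n, ← z_pow_mod m, h3]
  have hzu : IsUnit (z d) := IsUnit.of_pow_eq_one z_pow hd.out
  set f : (ZMod p)ˣ →* (R d)ˣ := {
    toFun := fun x => hzu.unit ^ (i x)
    map_one' := by
      ext
      rw [Units.val_pow_eq_pow_val, IsUnit.unit_spec, Units.val_one, ← pow_zero (z d)]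
      apply hz
      rw [hi2]; simp
    map_mul' := by
      intro x y
      ext
      rw [Units.val_mul, Units.val_pow_eq_pow_val, Units.val_pow_eq_pow_val,
        Units.val_pow_eq_pow_val, IsUnit.unit_spec, ← pow_add]
      apply hz
      rw [hi2, pow_add, hi2, hi2, Units.val_mul, mul_pow] } with hf
  have hval : ∀ x : (ZMod p)ˣ, MulChar.ofUnitHom f (x : ZMod p) = z d ^ i x := by
    intro x
    rw [MulChar.ofUnitHom_coe, hf]
    simp only [MonoidHom.coe_mk, OneHom.coe_mk, Units.val_pow_eq_pow_val, IsUnit.unit_spec]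
  have hred : ∀ x : (ZMod p)ˣ, red hω 1 (Nat.coprime_one_left d) (MulChar.ofUnitHom f (x : ZMod p)) =
      (x : ZMod p) ^ ((p - 1) / d) := by
    intro x
    rw [hval, map_pow, red_z, pow_one, hi2]
  refine ⟨MulChar.ofUnitHom f, ⟨?_, ?_⟩, ?_⟩
  · ext x
    rw [MulChar.pow_apply_coe, hval, ← pow_mul, mul_comm, pow_mul, z_pow, one_pow,
      MulChar.one_apply_coe]
  · intro k hk
    obtain ⟨g, hg⟩ := IsCyclic.exists_generator (α := (ZMod p)ˣ)
    have h3 := congrArg (red hω 1 (Nat.coprime_one_left d))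
      (congrArg (fun ψ : MulChar (ZMod p) (R d) => ψ (g : ZMod p)) hk)
    rw [MulChar.pow_apply_coe, MulChar.one_apply_coe, map_pow, map_one, hred, ← pow_mul] at h3
    have h4 : g ^ ((p - 1) / d * k) = 1 := by
      ext; rw [Units.val_pow_eq_pow_val, Units.val_one, h3]
    have h5 : orderOf g = p - 1 := by
      rw [orderOf_eq_card_of_forall_mem_zpowers hg, Nat.card_eq_fintype_card, ZMod.card_units]
    have h6 := orderOf_dvd_of_pow_eq_one h4
    rw [h5] at h6
    have h7 : 0 < (p - 1) / d :=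
      Nat.div_pos (Nat.le_of_dvd (by have := hp.out.one_lt; omega) hdvd) dpos
    have h8 : (p - 1) / d * d ∣ (p - 1) / d * k := by rwa [Nat.div_mul_cancel hdvd]
    exact Nat.dvd_of_mul_dvd_mul_left h7 h8
  · intro x hx
    have := hred (Units.mk0 x hx)
    simpa using this

section Char

variable {χ : MulChar (ZMod p) (R d)} (hχ : CH χ) (hω : IsPrimitiveRoot ω d)
  (hr : ∀ x, x ≠ 0 → red hω 1 (Nat.coprime_one_left d) (χ x) = x ^ ((p - 1) / d))
  (hdvd : d ∣ p - 1)

include hχ hr in
theorem red_chi {t : ℕ} (ht : t.Coprime d) (a : ℕ) {x : ZMod p} (hx : x ≠ 0) :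
    red hω t ht ((χ ^ a) x) = x ^ ((p - 1) / d * (t * a)) := by
  have h3 := hr x hx
  rw [← ind_spec hχ hx, map_pow, red_z, pow_one] at h3
  rw [chi_pow_ind hχ a hx, map_pow, red_z, pow_mul x, ← h3, ← pow_mul, ← pow_mul]
  congr 1; ring

/-- The elementary half of Stickelberger's theorem. -/
theorem sum_pow_mul {a c : ℕ} (h : a + c < p - 1) : ∑ x : ZMod p, x ^ a * (1 - x) ^ c = 0 := by
  have h3 : ∀ x : ZMod p, x ^ a * (1 - x) ^ c =
      ∑ j ∈ range (c + 1), ((-1) ^ j * (c.choose j : ZMod p)) * x ^ (a + j) := by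
    intro x
    rw [sub_eq_neg_add, add_pow, Finset.mul_sum]
    refine Finset.sum_congr rfl fun j _ => ?_
    rw [neg_pow, pow_add]; ring
  simp only [h3]
  rw [Finset.sum_comm]
  refine Finset.sum_eq_zero fun j hj => ?_
  rw [← Finset.mul_sum, FiniteField.sum_pow_lt_card_sub_one, mul_zero]
  rw [ZMod.card]
  have := mem_range.1 hj
  omega

include hdvd in
theorem q_pos : 0 < (p - 1) / d :=
  Nat.div_pos (Nat.le_of_dvd (by have := hp.out.one_lt; omega) hdvd) dpos

include hdvd in
theorem pow_mod_d (c : ℕ) {x : ZMod p} (hx : x ≠ 0) :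
    x ^ ((p - 1) / d * c) = x ^ ((p - 1) / d * (c % d)) := by
  have h4 : (p - 1) / d * c = (p - 1) / d * (c % d) + (p - 1) * (c / d) := by
    have e1 := Nat.div_add_mod c d
    have e2 := Nat.div_mul_cancel hdvd
    calc (p - 1) / d * c = (p - 1) / d * (d * (c / d) + c % d) := by rw [e1]
      _ = (p - 1) / d * (c % d) + ((p - 1) / d * d) * (c / d) := by ring
      _ = _ := by rw [e2]
  rw [h4, pow_add, pow_mul _ (p - 1), ZMod.pow_card_sub_one_eq_one hx, one_pow, mul_one]

include hχ hr hdvd in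
theorem red_JJ {a b t : ℕ} (ht : t.Coprime d) (ha : ¬ d ∣ a) (hb : ¬ d ∣ b)
    (h : (t * a) % d + (t * b) % d < d) : red hω t ht (JJ χ a b) = 0 := by
  have hq := q_pos (d := d) hdvd
  have hne : ∀ c, ¬ d ∣ c → 0 < (t * c) % d := by
    intro c hc
    refine Nat.pos_of_ne_zero fun h0 => hc ?_
    exact (Nat.Coprime.symm ht).dvd_of_dvd_mul_left (Nat.dvd_of_mod_eq_zero h0)
  rw [JJ_eq, map_sum]
  have h3 : ∀ x : ZMod p, red hω t ht ((χ ^ a) x * (χ ^ b) (1 - x)) =
      x ^ ((p - 1) / d * ((t * a) % d)) * (1 - x) ^ ((p - 1) / d * ((t * b) % d)) := by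
    intro x
    rw [map_mul]
    have key : ∀ (c : ℕ) (_ : ¬ d ∣ c) (y : ZMod p),
        red hω t ht ((χ ^ c) y) = y ^ ((p - 1) / d * ((t * c) % d)) := by
      intro c hc y
      rcases eq_or_ne y 0 with h0 | h0
      · rw [h0, MulChar.map_zero, map_zero, zero_pow]
        exact (Nat.mul_pos hq (hne c hc)).ne'
      · rw [red_chi hχ hω hr ht c h0, pow_mod_d hdvd _ h0]
    rw [key a ha, key b hb]
  rw [Finset.sum_congr rfl fun x _ => h3 x]
  apply sum_pow_mul
  calc (p - 1) / d * ((t * a) % d) + (p - 1) / d * ((t * b) % d) =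
        (p - 1) / d * ((t * a) % d + (t * b) % d) := by ring
    _ < (p - 1) / d * d := Nat.mul_lt_mul_of_pos_left h hq
    _ = p - 1 := Nat.div_mul_cancel hdvd

theorem mem_TL {a b t : ℕ} : t ∈ TL d a b ↔ (t < d ∧ t.Coprime d) ∧ (t * a) % d + (t * b) % d < d := by
  rw [TL, List.mem_filter, mem_ul dpos, decide_eq_true_eq]

theorem neg_mod {c : ℕ} (hc : c % d ≠ 0) : ((d - 1) * c) % d = d - c % d := by
  have hd0 := dpos (d := d)
  have h1 : ((d - 1) * c + c) % d = 0 := by
    have : (d - 1) * c + c = d * c := by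
      obtain ⟨k, hk⟩ : ∃ k, d = k + 1 := ⟨d - 1, by omega⟩
      rw [hk]; simp; ring
    rw [this, Nat.mul_mod_right]
  have h2 := Nat.mod_lt ((d - 1) * c) hd0
  have h3 := Nat.mod_lt c hd0
  rw [Nat.add_mod] at h1
  obtain ⟨k, hk⟩ := Nat.dvd_of_mod_eq_zero h1
  have : k = 1 := by
    rcases Nat.lt_trichotomy k 1 with h9 | h9 | h9
    · have : k = 0 := by omega
      subst this; omega
    · exact h9
    · have : d * 2 ≤ d * k := Nat.mul_le_mul_left _ h9
      omega
  subst this; omega

include hχ hr hdvd in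
/-- The Jacobi sum generates the intersection of half of the primes above `p`. -/
theorem JJ_dvd_iff {a b : ℕ} (ha : ¬ d ∣ a) (hb : ¬ d ∣ b) (hab : ¬ d ∣ a + b) (x : R d) :
    JJ χ a b ∣ x ↔ ∀ (t : ℕ) (ht : t.Coprime d), t ∈ TL d a b → red hω t ht x = 0 := by
  have hd0 := dpos (d := d)
  constructor
  · rintro ⟨y, rfl⟩ t ht hT
    rw [map_mul, red_JJ hχ hω hr hdvd ht ha hb (mem_TL.1 hT).2, zero_mul]
  · intro h
    have h3 : (p : R d) ∣ x * conj (JJ χ a b) := by
      apply p_dvd_of_red hω
      intro t ht htl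
      rw [map_mul]
      have hne : ∀ c, ¬ d ∣ c → (t * c) % d ≠ 0 := by
        intro c hc h0
        exact hc ((Nat.Coprime.symm ht).dvd_of_dvd_mul_left (Nat.dvd_of_mod_eq_zero h0))
      by_cases h4 : (t * a) % d + (t * b) % d < d
      · rw [h t ht (mem_TL.2 ⟨⟨htl, ht⟩, h4⟩), zero_mul]
      · have ht' : ((d - 1) * t).Coprime d := Nat.Coprime.mul_left coprime_pred ht
        rw [red_conj hω ht ht', red_JJ hχ hω hr hdvd ht' ha hb, mul_zero]
        rw [mul_assoc, mul_assoc, neg_mod (hne a ha), neg_mod (hne b hb)]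
        have h5 := hne (a + b) hab
        have h6 := Nat.mod_lt (t * a) hd0
        have h7 := Nat.mod_lt (t * b) hd0
        rw [mul_add, Nat.add_mod] at h5
        have h8 : (t * a) % d + (t * b) % d ≠ d := by
          intro h9; rw [h9, Nat.mod_self] at h5; exact h5 rfl
        omega
    obtain ⟨y, hy⟩ := h3
    have h4 := JJ_norm hχ ha hb hab
    rw [ZMod.card] at h4
    refine ⟨y, ?_⟩
    have hp0 : (p : R d) ≠ 0 := by exact_mod_cast hp.out.ne_zero
    have hc0 : conj (JJ χ a b) ≠ 0 := by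
      intro h0
      rw [h0, mul_zero] at h4
      exact hp0 h4.symm
    apply mul_right_cancel₀ hc0
    rw [hy, ← h4]
    ring

end Char

/-- The generators of the ideals, prime field case. -/
theorem genHyp_P {w : ℕ} (hω : IsPrimitiveRoot ((w : ℕ) : ZMod p) d) {χ : MulChar (ZMod p) (R d)}
    (hχ : CH χ) (hr : ∀ x, x ≠ 0 → red hω 1 (Nat.coprime_one_left d) (χ x) = x ^ ((p - 1) / d)) :
    GenHyp χ (KP d) (sgP d p w) := by
  have hd0 := dpos (d := d)
  have hdvd : d ∣ p - 1 := by
    have := d_dvd hχ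
    rwa [ZMod.card] at this
  intro a ha b hb ha0 hb0 hab
  have hnorm := JJ_norm hχ ha0 hb0 hab
  have hp0 : (p : R d) ≠ 0 := by exact_mod_cast hp.out.ne_zero
  have hα0 : JJ χ a b ≠ 0 := by
    intro h0
    rw [h0, zero_mul, ZMod.card] at hnorm
    exact hp0 hnorm.symm
  have hlen : (TL d a b).length ≤ d ^ 4 := by
    have e1 : (TL d a b).length ≤ d := by
      rw [TL, ul]
      refine (List.length_filter_le _ _).trans ((List.length_filter_le _ _).trans ?_)
      simp
    refine e1.trans ?_
    calc d = d ^ 1 := (pow_one _).symm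
      _ ≤ d ^ 4 := Nat.pow_le_pow_right hd0 (by norm_num)
  have hsg : (sgP d p w).getD (a * d + b) [] = sgen d p w a b := by
    have e1 : (a * d + b) / d = a := by
      rw [Nat.mul_comm, Nat.mul_add_div hd0, Nat.div_eq_of_lt hb, add_zero]
    have e2 : (a * d + b) % d = b := by
      rw [Nat.mul_comm, Nat.mul_add_mod, Nat.mod_eq_of_lt hb]
    rw [sgP, getD_range_map _ _ (by nlinarith), e1, e2]
  rw [hsg]
  refine ⟨?_, hnorm, le_rfl, ?_⟩
  · rw [ZMod.card]; exact hp.out.pos
  · obtain ⟨bs, g1, g2, g3, g4⟩ := kerG_ideal (d := d) (r := (TL d a b).length) (ρ := d ^ 4) (Δ := p)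
      (E' := p) (Φ := redMat d w a b) (g' := JJ χ a b) hp.out.pos hlen (fun c => by
        rw [JJ_dvd_iff hχ hω hr hdvd ha0 hb0 hab]
        have key : ∀ (t : ℕ) (ht : t.Coprime d),
            red hω t ht (∑ i ∈ range d, (c i : R d) * z d ^ i) = 0 ↔
            (p : ℤ) ∣ ∑ i ∈ range d, c i * ((w ^ (i * t) : ℕ) : ℤ) := by
          intro t ht
          rw [red_apply, ← ZMod.intCast_zmod_eq_zero_iff_dvd]
          push_cast
          rfl
        have hform : ∀ j (hj : j < (TL d a b).length), ∑ i ∈ range d, c i *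
            ((redMat d w a b).getD i []).getD j 0 =
            ∑ i ∈ range d, c i * ((w ^ (i * (TL d a b)[j]) : ℕ) : ℤ) := by
          intro j hj
          refine Finset.sum_congr rfl fun i hi => ?_
          rw [redMat, getD_range_map _ _ (mem_range.1 hi),
            List.getD_eq_getElem ((TL d a b).map _) _ (by simpa using hj), List.getElem_map]
        constructor
        · intro h t ht hT
          obtain ⟨j, hj, rfl⟩ := List.getElem_of_mem hT
          rw [key, ← hform j hj]
          exact h j hj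
        · intro h j hj
          have hT := List.getElem_mem hj
          obtain ⟨⟨e1, e2⟩, e3⟩ := mem_TL.1 hT
          rw [hform j hj]
          exact (key _ e2).1 (h _ e2 hT))
      (by have h9 := hnorm; rw [ZMod.card] at h9; exact h9) hα0
    exact ⟨bs, g1, g2, g3⟩

end R

end Run7.h700.G
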