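import Pool.Agent.Run7.h700.G.ListOps
import Pool.Agent.Run7.h700.KerShort

/-!
# Lattices in the cyclotomic ring given by congruences
-/

set_option linter.unusedSectionVars false
set_option linter.style.haveILetI false
set_option linter.unusedVariables false

namespace Run7.h700.G

open Finset

/-- The matrix of the multiplications by the elements of a list. -/
def mulMat (d : ℕ) (ms : List (List ℤ)) : List (List ℤ) :=
  (List.range d).map fun i => (List.range (ms.length * d)).map fun j =>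
    (mulL d (zL d i) (ms.getD (j / d) [])).getD (j % d) 0

/-- Short elements satisfying congruences. -/
def kerG (d r : ℕ) (Φ : List (List ℤ)) (Δ β : ℕ) : List (List ℤ) :=
  (kerShort d r Φ Δ β).map (nfl d)

/-- Short elements `x` with `x * m` divisible by `Δ`, for all `m` in the list. -/
def kerM (d : ℕ) (ms : List (List ℤ)) (Δ β : ℕ) : List (List ℤ) :=
  kerG d (ms.length * d) (mulMat d ms) Δ β

/-- The constant for the quality of the reduction. -/
def Kr (d ρ : ℕ) : ℕ := d ^ 4 * R.C1 d * 16 ^ (d + ρ)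

/-- The length bound handed to the reduction. -/
def betaE (d E : ℕ) : ℕ := R.C1 d * d * E

theorem exists_map_of_forall {α β : Type*} {f : α → β} {P : α → Prop} :
    ∀ {S : List β}, (∀ u ∈ S, ∃ x, u = f x ∧ P x) → ∃ xs : List α, S = xs.map f ∧ ∀ x ∈ xs, P x := by
  intro S
  induction S with
  | nil => intro _; exact ⟨[], rfl, by simp⟩
  | cons a S ih =>
    intro h
    obtain ⟨x, hx, hx2⟩ := h a (by simp)
    obtain ⟨xs, hxs, hxs2⟩ := ih fun u hu => h u (by simp [hu])
    refine ⟨x :: xs, by rw [hxs, List.map_cons, hx], ?_⟩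
    intro y hy
    rcases List.mem_cons.1 hy with rfl | hy
    · exact hx2
    · exact hxs2 y hy

theorem pow_bound (n r ρ : ℕ) (h : r ≤ ρ) : 4 ^ (n + r) * (1 + n * r) ≤ 16 ^ (n + ρ) := by
  have h1 : 1 + n * r ≤ 4 ^ (n + r) := by
    have e1 : 1 + n ≤ 2 ^ n := by have := Nat.lt_two_pow_self (n := n); omega
    have e2 : 1 + r ≤ 2 ^ r := by have := Nat.lt_two_pow_self (n := r); omega
    calc 1 + n * r ≤ (1 + n) * (1 + r) := by nlinarith
      _ ≤ 2 ^ n * 2 ^ r := Nat.mul_le_mul e1 e2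
      _ = 2 ^ (n + r) := by rw [pow_add]
      _ ≤ 4 ^ (n + r) := Nat.pow_le_pow_left (by norm_num) _
  calc 4 ^ (n + r) * (1 + n * r) ≤ 4 ^ (n + r) * 4 ^ (n + r) := Nat.mul_le_mul_left _ h1
    _ = 16 ^ (n + r) := by rw [← mul_pow]; norm_num
    _ ≤ 16 ^ (n + ρ) := Nat.pow_le_pow_right (by norm_num) (by omega)

namespace R

variable {d : ℕ} [hd : NeZero d]

theorem qf_le_sum (c : ℕ → ℤ) : qf (∑ i ∈ range d, (c i : R d) * z d ^ i) ≤
    (d : ℤ) ^ 3 * ∑ i ∈ range d, c i ^ 2 := by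
  have hd0 : (0 : ℤ) < d := by exact_mod_cast dpos (d := d)
  set x := ∑ i ∈ range d, (c i : R d) * z d ^ i with hx
  have h1 : ∀ j ∈ range d, TV x j ^ 2 ≤ (d : ℤ) ^ 3 * ∑ i ∈ range d, c i ^ 2 := by
    intro j _
    have h2 : TV x j = ∑ i ∈ range d, c i * tr (z d ^ (i + (d - j))) := by
      rw [TV, hx, Finset.sum_mul, tr_sum]
      refine Finset.sum_congr rfl fun i _ => ?_
      rw [mul_assoc, tr_int_mul, ← pow_add]
    have h3 : |TV x j| ≤ d * ∑ i ∈ range d, |c i| := by
      rw [h2, Finset.mul_sum]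
      refine (Finset.abs_sum_le_sum_abs _ _).trans (Finset.sum_le_sum fun i _ => ?_)
      rw [abs_mul, mul_comm]
      exact mul_le_mul_of_nonneg_right (tr_z_abs _) (abs_nonneg _)
    have h4 : (∑ i ∈ range d, |c i|) ^ 2 ≤ d * ∑ i ∈ range d, c i ^ 2 := by
      have := sq_sum_le_card_mul_sum_sq (s := range d) (f := fun i => |c i|)
      simp only [sq_abs, card_range] at this
      exact this
    calc TV x j ^ 2 = |TV x j| ^ 2 := (sq_abs _).symm
      _ ≤ (d * ∑ i ∈ range d, |c i|) ^ 2 := pow_le_pow_left₀ (abs_nonneg _) h3 2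
      _ = (d : ℤ) ^ 2 * (∑ i ∈ range d, |c i|) ^ 2 := by ring
      _ ≤ (d : ℤ) ^ 2 * (d * ∑ i ∈ range d, c i ^ 2) := mul_le_mul_of_nonneg_left h4 (by positivity)
      _ = _ := by ring
  have h2 : (d : ℤ) * qf x ≤ d * ((d : ℤ) ^ 3 * ∑ i ∈ range d, c i ^ 2) := by
    rw [← sum_TV_sq]
    refine (Finset.sum_le_sum h1).trans ?_
    simp
  exact le_of_mul_le_mul_left h2 hd0

/-- The element with given coefficients, as a linear map. -/
noncomputable def evF (d : ℕ) : (Fin d → ℤ) →ₗ[ℤ] R d where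
  toFun c := ∑ i : Fin d, (c i : R d) * z d ^ (i : ℕ)
  map_add' c e := by
    rw [← Finset.sum_add_distrib]
    refine Finset.sum_congr rfl fun i _ => ?_
    simp; ring
  map_smul' a c := by
    simp only [eq_intCast, Int.cast_id, Pi.smul_apply, smul_eq_mul, zsmul_eq_mul, Finset.mul_sum]
    refine Finset.sum_congr rfl fun i _ => ?_
    push_cast; ring

theorem evF_apply (c : ℕ → ℤ) : evF d (fun i : Fin d => c i) = ∑ i ∈ range d, (c i : R d) * z d ^ i := by
  simp only [evF, LinearMap.coe_mk, AddHom.coe_mk]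
  rw [← Fin.sum_univ_eq_sum_range (fun i => (c i : R d) * z d ^ i)]

/-- The reduced generators of a principal ideal given by congruences. -/
theorem kerG_ideal {r ρ Δ E' : ℕ} {Φ : List (List ℤ)} {g' : R d} (hΔ : 0 < Δ) (hr : r ≤ ρ)
    (hP : ∀ c : ℕ → ℤ, (∀ j < r, (Δ : ℤ) ∣ ∑ i ∈ range d, c i * (Φ.getD i []).getD j 0) ↔
      g' ∣ ∑ i ∈ range d, (c i : R d) * z d ^ i)
    (hg' : g' * conj g' = (E' : R d)) (hg0 : g' ≠ 0) :
    ∃ bs : List (R d), kerG d r Φ Δ (betaE d E') = bs.map (fun b => L (g' * b)) ∧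
      Submodule.span ℤ {b | b ∈ bs} = ⊤ ∧ bs.length ≤ d ∧
      (∀ b ∈ bs, qf (g' * b) ≤ Kr d ρ * E') := by
  have h3 : (kerG d r Φ Δ (betaE d E')).length ≤ d := by
    rw [kerG, List.length_map]; exact kerShort_length hΔ
  have h4 : ∀ u ∈ kerG d r Φ Δ (betaE d E'), ∃ b : R d, u = L (g' * b) ∧
      qf (g' * b) ≤ Kr d ρ * E' := by
    intro u hu
    rw [kerG, List.mem_map] at hu
    obtain ⟨v, hv, rfl⟩ := hu
    obtain ⟨e1, e2, e3⟩ := kerShort_mem hv
    obtain ⟨b, hb⟩ := (hP fun i => v.getD i 0).1 e2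
    refine ⟨b, ?_, ?_⟩
    · rw [nfl_eq v e1, ← hb]; rfl
    · rw [← hb]
      refine (qf_le_sum _).trans ?_
      have e4 := pow_bound d r ρ hr
      have e5 : d ^ 3 * (4 ^ (d + r) * (betaE d E' * (1 + d * r))) ≤ Kr d ρ * E' := by
        calc _ = (4 ^ (d + r) * (1 + d * r)) * (d ^ 3 * betaE d E') := by ring
          _ ≤ 16 ^ (d + ρ) * (d ^ 3 * betaE d E') := Nat.mul_le_mul_right _ e4
          _ = Kr d ρ * E' := by rw [Kr, betaE]; ring
      refine (mul_le_mul_of_nonneg_left e3 (by positivity)).trans ?_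
      exact_mod_cast e5
  obtain ⟨bs, hbs, hbs2⟩ := exists_map_of_forall (f := fun b => L (g' * b))
    (P := fun b => qf (g' * b) ≤ Kr d ρ * E') h4
  refine ⟨bs, hbs, ?_, by rw [hbs, List.length_map] at h3; exact h3, hbs2⟩
  rw [eq_top_iff]
  rintro t -
  have h5 : ∀ t : R d, g' * t ∈ Submodule.span ℤ
      {y : R d | L y ∈ kerG d r Φ Δ (betaE d E')} := by
    intro t
    rw [← sum_co t, Finset.mul_sum]
    refine Submodule.sum_mem _ fun i _ => ?_
    have : g' * ((co t i : R d) * z d ^ i) = (co t i) • (g' * z d ^ i) := by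
      rw [zsmul_eq_mul]; ring
    rw [this]
    refine Submodule.smul_mem _ _ ?_
    set x := g' * z d ^ i with hx
    have hns : nsq x ≤ (betaE d E' : ℕ) := by
      refine (nsq_le_qf x).trans ?_
      have e1 := qf_mul_z (E := E') (by exact_mod_cast hg') i
      rw [hx, e1, betaE]
      have e2 : (E' : ℤ) * d.totient ≤ E' * d := mul_le_mul_of_nonneg_left totient_le_int (by positivity)
      push_cast
      calc (C1 d : ℤ) * (E' * d.totient) ≤ C1 d * (E' * d) :=
            mul_le_mul_of_nonneg_left e2 (by positivity)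
        _ = _ := by ring
    have h6 := kerShort_span (n := d) (r := r) (Φ := Φ) (β := betaE d E') hΔ (fun i => co x i)
      ((hP _).2 (by rw [sum_co]; exact Dvd.intro _ rfl)) hns
    have h7 := Submodule.mem_map_of_mem (f := evF d) h6
    rw [evF_apply, sum_co, Submodule.map_span] at h7
    refine Submodule.span_mono ?_ h7
    rintro _ ⟨y, ⟨u, hu, rfl⟩, rfl⟩
    obtain ⟨e1, _, _⟩ := kerShort_mem hu
    have h8 : evF d (fun i : Fin d => u.getD i 0) = ev d u := evF_apply (fun i => u.getD i 0)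
    rw [Set.mem_ofPred_eq, h8, ← nfl_eq u e1, kerG]
    exact List.mem_map_of_mem hu
  have h6 : ∀ y ∈ Submodule.span ℤ {y : R d | L y ∈ kerG d r Φ Δ (betaE d E')},
      ∃ t ∈ Submodule.span ℤ {b | b ∈ bs}, y = g' * t := by
    intro y hy
    refine Submodule.span_induction (p := fun y _ => ∃ t ∈ Submodule.span ℤ {b | b ∈ bs},
      y = g' * t) ?_ ?_ ?_ ?_ hy
    · intro y hy
      rw [Set.mem_ofPred_eq, hbs, List.mem_map] at hy
      obtain ⟨b, hb, hb2⟩ := hy
      exact ⟨b, Submodule.subset_span hb, (L_inj hb2).symm⟩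
    · exact ⟨0, Submodule.zero_mem _, by ring⟩
    · rintro x y _ _ ⟨t, ht, rfl⟩ ⟨t', ht', rfl⟩
      exact ⟨t + t', Submodule.add_mem _ ht ht', by ring⟩
    · rintro c x _ ⟨t, ht, rfl⟩
      exact ⟨c • t, Submodule.smul_mem _ _ ht, by rw [zsmul_eq_mul, zsmul_eq_mul]; ring⟩
  obtain ⟨t', ht', he⟩ := h6 _ (h5 t)
  rw [mul_left_cancel₀ hg0 he]
  exact ht'

theorem co_mul_lin (c : ℕ → ℤ) (m : R d) (k : ℕ) :
    co ((∑ i ∈ range d, (c i : R d) * z d ^ i) * m) k = ∑ i ∈ range d, c i * co (z d ^ i * m) k := by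
  rw [Finset.sum_mul, co_finsum]
  refine Finset.sum_congr rfl fun i _ => ?_
  rw [mul_assoc, co_mul_int]

/-- the lattice of elements `x` with `x * m` divisible by `Δ` -/
theorem kerM_ideal {g' : R d} {ms : List (R d)} {ρ Δ E' : ℕ} (hΔ : 0 < Δ)
    (hms : ms.length * d ≤ ρ) (hg' : g' * conj g' = (E' : R d)) (hg0 : g' ≠ 0)
    (hiff : ∀ x, (∀ m ∈ ms, (Δ : R d) ∣ x * m) ↔ g' ∣ x) :
    ∃ bs : List (R d), kerM d (ms.map L) Δ (betaE d E') = bs.map (fun b => L (g' * b)) ∧
      Submodule.span ℤ {b | b ∈ bs} = ⊤ ∧ bs.length ≤ d ∧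
      (∀ b ∈ bs, qf (g' * b) ≤ Kr d ρ * E') := by
  have hd0 := dpos (d := d)
  rw [kerM]
  refine kerG_ideal hΔ (by rwa [List.length_map]) ?_ hg' hg0
  intro c
  set x := ∑ i ∈ range d, (c i : R d) * z d ^ i with hx
  rw [← hiff x, List.length_map]
  have key : ∀ j < ms.length * d, ∑ i ∈ range d, c i * ((mulMat d (ms.map L)).getD i []).getD j 0 =
      co (x * ms.getD (j / d) 0) (j % d) := by
    intro j hj
    rw [hx, co_mul_lin]
    refine Finset.sum_congr rfl fun i hi => ?_
    have hi' := mem_range.1 hi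
    congr 1
    have hq : j / d < ms.length := (Nat.div_lt_iff_lt_mul hd0).2 hj
    rw [mulMat, getD_range_map _ _ hi', getD_range_map _ _ (by rw [List.length_map]; exact hj),
      zL_eq, List.getD_eq_getElem (ms.map L) _ (by simpa using hq), List.getElem_map,
      mulL_eq, getD_L, List.getD_eq_getElem _ _ hq]
  constructor
  · intro h m hm
    obtain ⟨q, hq, rfl⟩ := List.getElem_of_mem hm
    have : ((Δ : ℤ) : R d) ∣ x * ms[q] := by
      rw [int_dvd_iff]
      intro k hk
      have hj : q * d + k < ms.length * d := by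
        calc q * d + k < q * d + d := by omega
          _ = (q + 1) * d := by ring
          _ ≤ ms.length * d := Nat.mul_le_mul_right _ hq
      have h1 := h (q * d + k) hj
      rw [key _ hj] at h1
      have h2 : (q * d + k) / d = q := by
        rw [Nat.mul_comm, Nat.mul_add_div hd0, Nat.div_eq_of_lt hk, add_zero]
      have h3 : (q * d + k) % d = k := by
        rw [Nat.mul_comm, Nat.mul_add_mod, Nat.mod_eq_of_lt hk]
      rw [h2, h3, List.getD_eq_getElem _ _ hq] at h1
      exact h1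
    simpa using this
  · intro h j hj
    rw [key j hj]
    have hq : j / d < ms.length := (Nat.div_lt_iff_lt_mul hd0).2 hj
    rw [List.getD_eq_getElem _ _ hq]
    have h1 : ((Δ : ℤ) : R d) ∣ x * ms[j / d] := by
      simpa using h _ (List.getElem_mem hq)
    exact int_dvd_iff.1 h1 _ (Nat.mod_lt _ hd0)

end R

end Run7.h700.G
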