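import Pool.Agent.Run7.h700.G.Ring

/-!
# Arithmetic of the cyclotomic ring on lists of coordinates
-/

set_option linter.unusedSectionVars false
set_option linter.style.haveILetI false
set_option linter.unusedVariables false

namespace Run7.h700.G

open Finset

/-- Product. -/
def mulL (d : ℕ) (x y : List ℤ) : List ℤ :=
  nf d fun k => ((List.range d).map fun i => x.getD i 0 * y.getD ((k + (d - i)) % d) 0).sum

/-- Automorphism. -/
def sigL (d c : ℕ) (x : List ℤ) : List ℤ := nf d fun k => x.getD ((c * k) % d) 0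

/-- Complex conjugation. -/
def conjL (d : ℕ) (x : List ℤ) : List ℤ := sigL d (d - 1) x

/-- Exact division by an integer. -/
def divL (x : List ℤ) (e : ℤ) : List ℤ := x.map fun a => a / e

/-- Reduction modulo an integer. -/
def modL (Q : ℕ) (x : List ℤ) : List ℤ := x.map fun a => a % (Q : ℤ)

/-- Centered remainder. -/
def cmod (Q : ℕ) (a : ℤ) : ℤ := if 2 * (a % (Q : ℤ)) < Q then a % (Q : ℤ) else a % (Q : ℤ) - Q

/-- Centered reduction modulo an integer. -/
def cmodL (Q : ℕ) (x : List ℤ) : List ℤ := x.map fun a => cmod Q a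

/-- Multiplication by an integer. -/
def smulL (e : ℤ) (x : List ℤ) : List ℤ := x.map fun a => e * a

/-- An integer. -/
def intL (d : ℕ) (a : ℤ) : List ℤ := nf d fun k => if k = 0 then a else 0

/-- A power of the root of unity. -/
def zL (d m : ℕ) : List ℤ := nf d fun k => if k = m % d then 1 else 0

/-- Difference. -/
def subL (d : ℕ) (x y : List ℤ) : List ℤ := nf d fun k => x.getD k 0 - y.getD k 0

/-- Sum. -/
def addL (d : ℕ) (x y : List ℤ) : List ℤ := nf d fun k => x.getD k 0 + y.getD k 0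

/-- Coprimality, tested. -/
def cop (d c : ℕ) : Bool := (prs d).all fun r => decide (c % r ≠ 0)

/-- The units. -/
def ul (d : ℕ) : List ℕ := (List.range d).filter (cop d)

/-- The product of the conjugates other than the element itself. -/
def adjL (d : ℕ) (x : List ℤ) : List ℤ :=
  (((ul d).filter fun c => decide (c ≠ 1 % d)).map fun c => sigL d c x).foldl (mulL d) (intL d 1)

theorem cop_iff {d c : ℕ} (hd : 0 < d) : cop d c = true ↔ c.Coprime d := by
  rw [cop, List.all_eq_true]
  simp only [ne_eq, decide_eq_true_eq]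
  constructor
  · intro h
    refine Nat.Coprime.symm (Nat.coprime_of_dvd fun r hr h1 h2 => ?_)
    exact h r ((mem_prs hd).2 ⟨hr, h1⟩) (Nat.mod_eq_zero_of_dvd h2)
  · intro h r hr h1
    obtain ⟨h2, h3⟩ := (mem_prs hd).1 hr
    have h4 := Nat.dvd_gcd (Nat.dvd_of_mod_eq_zero h1) h3
    rw [Nat.Coprime] at h
    rw [h] at h4
    exact h2.one_lt.ne' (Nat.eq_one_of_dvd_one h4)

theorem mem_ul {d c : ℕ} (hd : 0 < d) : c ∈ ul d ↔ c < d ∧ c.Coprime d := by
  rw [ul, List.mem_filter, List.mem_range, cop_iff hd]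

namespace R

variable {d : ℕ} [hd : NeZero d]

theorem mulL_eq (x y : R d) : mulL d (L x) (L y) = L (x * y) := by
  rw [mulL, nf_eq]
  congr 1
  have h1 : ∀ k ∈ range d, ((((List.range d).map fun i => (L x).getD i 0 *
      (L y).getD ((k + (d - i)) % d) 0).sum : ℤ) : R d) * z d ^ k =
      ∑ i ∈ range d, (co x i : R d) * (co y ((k + (d - i)) % d) : R d) * z d ^ k := by
    intro k _
    rw [list_sum_range]
    push_cast
    rw [Finset.sum_mul]
    refine Finset.sum_congr rfl fun i _ => ?_
    rw [getD_L, getD_L]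
  rw [Finset.sum_congr rfl h1, Finset.sum_comm]
  conv_rhs => rw [← sum_co x, Finset.sum_mul]
  refine Finset.sum_congr rfl fun i hi => ?_
  have hi' := mem_range.1 hi
  conv_rhs => rw [← sum_co y, Finset.mul_sum]
  rw [← sum_add_mod (fun j => (co x i : R d) * z d ^ i * ((co y j : R d) * z d ^ j)) (d - i)]
  refine Finset.sum_congr rfl fun k hk => ?_
  have h3 : z d ^ k = z d ^ i * z d ^ ((k + (d - i)) % d) := by
    rw [z_pow_mod, ← pow_add, show i + (k + (d - i)) = k + d by omega, pow_add, z_pow, mul_one]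
  rw [h3]; ring

theorem sigL_eq {c e : ℕ} (hc : c.Coprime d) (he : e.Coprime d) (h : (e * c) % d = 1 % d) (x : R d) :
    sigL d c (L x) = L (aut e he x) := by
  rw [sigL, nf_eq]
  congr 1
  rw [aut_apply, ← sum_mul_mod (fun i => (co x i : R d) * z d ^ (e * i)) hc]
  refine Finset.sum_congr rfl fun k _ => ?_
  rw [getD_L]
  congr 1
  apply z_pow_congr
  have h1 : e * (c * k % d) ≡ e * (c * k) [MOD d] := Nat.ModEq.mul_left e (Nat.mod_modEq _ _)
  have h2 : e * (c * k) ≡ 1 * k [MOD d] := by
    rw [← mul_assoc]; exact Nat.ModEq.mul_right k h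
  rw [one_mul] at h2
  exact (h1.trans h2).symm

theorem exists_inv {c : ℕ} (hc : c.Coprime d) :
    ∃ e : ℕ, e.Coprime d ∧ (e * c) % d = 1 % d := by
  refine ⟨((ZMod.unitOfCoprime c hc)⁻¹ : (ZMod d)ˣ).val.val, ZMod.val_coe_unit_coprime _, ?_⟩
  have h6 : ((((ZMod.unitOfCoprime c hc)⁻¹ : (ZMod d)ˣ).val.val * c : ℕ) : ZMod d) = (1 : ℕ) := by
    rw [Nat.cast_mul, ZMod.natCast_zmod_val]
    conv_lhs => rw [← ZMod.coe_unitOfCoprime c hc]
    rw [Units.inv_mul, Nat.cast_one]
  exact (ZMod.natCast_eq_natCast_iff _ _ _).1 h6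

theorem conjL_eq (x : R d) : conjL d (L x) = L (conj x) := by
  rw [conjL, sigL_eq coprime_pred coprime_pred pred_mul_pred]; rfl

theorem L_eq_map (x : R d) : L x = (List.range d).map fun i => co x i := by
  apply List.ext_getElem (by simp)
  intro j h1 h2
  rw [List.getElem_map, List.getElem_range, co, List.getD_eq_getElem _ _ h1]

theorem L_map (x : R d) (f : ℤ → ℤ) : (L x).map f = (List.range d).map fun i => f (co x i) := by
  rw [L_eq_map, List.map_map]; rfl

theorem divL_eq {e : ℤ} (he : e ≠ 0) (x : R d) : divL (L ((e : R d) * x)) e = L x := by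
  rw [divL, L_map, L_eq_map]
  refine List.map_congr_left fun i _ => ?_
  rw [co_mul_int, Int.mul_ediv_cancel_left _ he]

theorem smulL_eq (e : ℤ) (x : R d) : smulL e (L x) = L ((e : R d) * x) := by
  rw [smulL, L_map, L_eq_map]
  refine List.map_congr_left fun i _ => ?_
  rw [co_mul_int]

theorem zL_eq (m : ℕ) : zL d m = L (z d ^ m) := by
  rw [zL, nf_eq, ← z_pow_mod m]
  congr 1
  rw [Finset.sum_eq_single (m % d)]
  · simp
  · intro b _ hb; simp [hb]
  · intro h; exact absurd (mem_range.2 (Nat.mod_lt m dpos)) h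

theorem nf_z (i : ℕ) (hi : i < d) : nf d (fun k => if k = i then 1 else 0) = L (z d ^ i) := by
  rw [← zL_eq, zL, Nat.mod_eq_of_lt hi]

theorem intL_eq (a : ℤ) : intL d a = L (a : R d) := by
  rw [intL, nf_eq]
  congr 1
  rw [Finset.sum_eq_single 0]
  · simp
  · intro b _ hb; simp [hb]
  · intro h; exact absurd (mem_range.2 dpos) h

theorem subL_eq (x y : R d) : subL d (L x) (L y) = L (x - y) := by
  rw [subL, nf_eq]
  congr 1
  conv_rhs => rw [← sum_co x, ← sum_co y, ← Finset.sum_sub_distrib]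
  refine Finset.sum_congr rfl fun i _ => ?_
  rw [getD_L, getD_L]; push_cast; ring

theorem addL_eq (x y : R d) : addL d (L x) (L y) = L (x + y) := by
  rw [addL, nf_eq]
  congr 1
  conv_rhs => rw [← sum_co x, ← sum_co y, ← Finset.sum_add_distrib]
  refine Finset.sum_congr rfl fun i _ => ?_
  rw [getD_L, getD_L]; push_cast; ring

/-- The element with given coordinates -/
theorem eq_L_of_bs {u : List ℤ} (hu : Bs d u) : u = L (ev d u) := (L_unique hu rfl).symm

theorem bs_map {x : R d} {f : ℤ → ℤ} (hf : f 0 = 0) : Bs d ((L x).map f) := by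
  refine ⟨by simp, fun r hr j hj h => ?_⟩
  have h1 := (bs_L x).2 r hr j hj h
  rw [getD_L] at h1
  rw [L_map, getD_range_map _ _ hj, h1, hf]

theorem map_eq_L {x : R d} {f : ℤ → ℤ} (hf : f 0 = 0) :
    ∃ y : R d, (L x).map f = L y ∧ ∀ i, co y i = f (co x i) := by
  refine ⟨ev d ((L x).map f), eq_L_of_bs (bs_map hf), fun i => ?_⟩
  rcases Nat.lt_or_ge i d with h | h
  · rw [co, ← eq_L_of_bs (bs_map hf), L_map, getD_range_map _ _ h]
  · rw [co_eq_zero _ h, co_eq_zero _ h, hf]

theorem modL_eq {Q : ℕ} (x : R d) : ∃ y : R d, modL Q (L x) = L y ∧ (Q : R d) ∣ x - y := by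
  obtain ⟨y, hy, hy2⟩ := map_eq_L (x := x) (f := fun a => a % (Q : ℤ)) (by simp)
  refine ⟨y, hy, ?_⟩
  have h : ((Q : ℤ) : R d) ∣ x - y := by
    rw [int_dvd_iff]
    intro i hi
    rw [co_sub, hy2]
    exact Int.dvd_self_sub_emod
  simpa using h

theorem cmod_eq {Q : ℕ} {a b : ℤ} (h : (Q : ℤ) ∣ a - b) (hb : 2 * |b| < Q) : cmod Q a = b := by
  have hQ : (0 : ℤ) < Q := lt_of_le_of_lt (by positivity) hb
  have h1 : a % Q = b % Q :=
    Int.emod_eq_emod_iff_emod_sub_eq_zero.2 (Int.emod_eq_zero_of_dvd h)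
  rw [cmod, h1]
  rcases abs_cases b with ⟨h2, h3⟩ | ⟨h2, h3⟩
  · rw [Int.emod_eq_of_lt h3 (by omega), if_pos (by omega)]
  · have h4 : b % Q = b + Q := by
      rw [← Int.add_emod_right, Int.emod_eq_of_lt (by omega) (by omega)]
    rw [h4, if_neg (by omega)]; ring

theorem cmodL_eq {Q : ℕ} {x y : R d} (h : (Q : R d) ∣ x - y) (hy : ∀ i, 2 * |co y i| < Q) :
    cmodL Q (L x) = L y := by
  have h' : ((Q : ℤ) : R d) ∣ x - y := by simpa using h
  rw [cmodL, L_map, L_eq_map]
  refine List.map_congr_left fun i hi => ?_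
  refine cmod_eq ?_ (hy i)
  rw [← co_sub]
  exact int_dvd_iff.1 h' i (List.mem_range.1 hi)

/-- Bound for the coordinates. -/
def Bd (x : R d) (A : ℤ) : Prop := ∀ i, |co x i| ≤ A

theorem Bd.nonneg {x : R d} {A : ℤ} (h : Bd x A) : 0 ≤ A := (abs_nonneg _).trans (h 0)

theorem Bd.mono {x : R d} {A B : ℤ} (h : Bd x A) (hAB : A ≤ B) : Bd x B := fun i => (h i).trans hAB

theorem Bd.mul {x y : R d} {A B : ℤ} (hx : Bd x A) (hy : Bd y B) :
    Bd (x * y) (2 ^ (d + 1) * d * A * B) := by
  have hA := hx.nonneg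
  have hB := hy.nonneg
  intro k
  rw [← getD_L (x * y), ← mulL_eq, mulL]
  have key : ∀ k < d, |((List.range d).map fun i => (L x).getD i 0 * (L y).getD ((k + (d - i)) % d) 0).sum|
      ≤ d * (A * B) := by
    intro k _
    rw [list_sum_range]
    refine (Finset.abs_sum_le_sum_abs _ _).trans ?_
    have : ∀ i ∈ range d, |(L x).getD i 0 * (L y).getD ((k + (d - i)) % d) 0| ≤ A * B := by
      intro i _
      rw [getD_L, getD_L, abs_mul]
      exact mul_le_mul (hx _) (hy _) (abs_nonneg _) hA
    refine (Finset.sum_le_sum this).trans ?_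
    simp
  refine (bound_nf dpos key (by positivity) k).trans (le_of_eq (by ring))

theorem Bd.aut {x : R d} {A : ℤ} (hx : Bd x A) {e : ℕ} (he : e.Coprime d) :
    Bd (aut e he x) (2 ^ (d + 1) * A) := by
  have hA := hx.nonneg
  obtain ⟨c, hc, h⟩ := exists_inv he
  have h1 := sigL_eq hc he (by rw [mul_comm]; exact h) x
  intro k
  rw [← getD_L, ← h1, sigL]
  exact bound_nf dpos (fun j _ => by rw [getD_L]; exact hx _) hA k

theorem Bd.one : Bd (1 : R d) 1 := by
  intro i
  have := co_int (d := d) 1 i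
  rw [Int.cast_one] at this
  rw [this]
  split_ifs <;> simp

/-- The norm. -/
noncomputable def nm (x : R d) : R d :=
  ∏ u : (ZMod d)ˣ, aut (u : ZMod d).val (ZMod.val_coe_unit_coprime u) x

theorem aut_nm (x : R d) {e : ℕ} (he : e.Coprime d) : aut e he (nm x) = nm x := by
  rw [nm, map_prod]
  refine Fintype.prod_equiv (Equiv.mulLeft (ZMod.unitOfCoprime e he)) _ _ fun u => ?_
  rw [aut_aut]
  congr 1
  apply aut_congr
  rw [Equiv.coe_mulLeft, Units.val_mul, ZMod.coe_unitOfCoprime, ZMod.val_mul, Nat.mod_mod,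
    ZMod.val_natCast, Nat.mod_mul_mod]

theorem nm_eq (x : R d) : nm x = (co (nm x) 0 : R d) :=
  eq_int_of_fixed fun _ hc => aut_nm x hc

theorem aut_inj {e : ℕ} (he : e.Coprime d) {x : R d} (h : aut e he x = 0) : x = 0 := by
  obtain ⟨c, hc, hce⟩ := exists_inv he
  have h1 := congrArg (aut c hc) h
  rw [aut_aut, map_zero, aut_congr _ (Nat.coprime_one_left d) hce, aut_one] at h1
  exact h1

theorem nm_ne_zero {x : R d} (hx : x ≠ 0) : nm x ≠ 0 := by
  rw [nm, Finset.prod_ne_zero_iff]
  intro u _ h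
  exact hx (aut_inj _ h)

theorem prod_filter_range {M : Type*} [CommMonoid M] (n : ℕ) (p : ℕ → Bool) (g : ℕ → M) :
    (((List.range n).filter p).map g).prod = ∏ c ∈ (range n).filter (fun c => p c = true), g c := by
  induction n with
  | zero => simp
  | succ n ih =>
    rw [List.range_succ, List.filter_append, List.map_append, List.prod_append, ih,
      Finset.range_add_one, Finset.filter_insert]
    by_cases h : p n = true
    · rw [List.filter_cons_of_pos (by simpa using h), if_pos h, Finset.prod_insert (by simp)]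
      simp [mul_comm]
    · rw [List.filter_cons_of_neg (by simpa using h), if_neg h]
      simp

theorem prod_units {M : Type*} [CommMonoid M] (g : ℕ → M) :
    ∏ u : (ZMod d)ˣ, g (u : ZMod d).val = ∏ c ∈ (range d).filter (fun c => c.Coprime d), g c := by
  symm
  refine Finset.prod_bij' (fun c hc => ZMod.unitOfCoprime c (mem_filter.1 hc).2)
    (fun u _ => (u : ZMod d).val) ?_ ?_ ?_ ?_ ?_
  · intro c _; exact mem_univ _
  · intro u _
    rw [mem_filter, mem_range]
    exact ⟨ZMod.val_lt _, ZMod.val_coe_unit_coprime u⟩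
  · intro c hc
    rw [ZMod.coe_unitOfCoprime, ZMod.val_cast_of_lt (mem_range.1 (mem_filter.1 hc).1)]
  · intro u _
    ext
    rw [ZMod.coe_unitOfCoprime, ZMod.natCast_zmod_val]
  · intro c hc
    rw [ZMod.coe_unitOfCoprime, ZMod.val_cast_of_lt (mem_range.1 (mem_filter.1 hc).1)]

theorem cop_one_mod : (1 % d).Coprime d := by
  have h := dpos (d := d)
  rcases Nat.lt_or_ge 1 d with h1 | h1
  · rw [Nat.mod_eq_of_lt h1]; exact Nat.coprime_one_left d
  · have : d = 1 := by omega
    rw [this]; decide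

theorem foldl_mulL (xs : List (R d)) : ∀ w : R d,
    (xs.map L).foldl (mulL d) (L w) = L (w * xs.prod) := by
  induction xs with
  | nil => intro w; simp
  | cons a xs ih => intro w; rw [List.map_cons, List.foldl_cons, mulL_eq, ih, List.prod_cons, mul_assoc]

theorem Bd.prod {xs : List (R d)} {A : ℤ} (hx : ∀ x ∈ xs, Bd x A) :
    Bd xs.prod ((2 ^ (d + 1) * d * A) ^ xs.length) := by
  induction xs with
  | nil => simpa using Bd.one
  | cons a xs ih =>
    rw [List.prod_cons, List.length_cons, pow_succ']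
    have h := (hx a (by simp)).mul (ih fun x h => hx x (by simp [h]))
    convert h using 1

/-- The product of the nontrivial conjugates -/
theorem adjL_eq (x : R d) : ∃ y : R d, adjL d (L x) = L y ∧
    x * y = nm x ∧ (conj x = x → conj y = y) ∧
    ∀ A, 1 ≤ A → Bd x A → Bd y ((4 ^ (d + 1) * d * A) ^ d) := by
  have hd0 := dpos (d := d)
  have h1 : ∀ c : ℕ, ∃ e : ℕ, e.Coprime d ∧ (c.Coprime d → (e * c) % d = 1 % d) := by
    intro c
    by_cases hc : c.Coprime d
    · obtain ⟨e, he, h⟩ := exists_inv hc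
      exact ⟨e, he, fun _ => h⟩
    · exact ⟨1, Nat.coprime_one_left d, fun h => absurd h hc⟩
  choose e he h using h1
  set cs := (ul d).filter fun c => decide (c ≠ 1 % d) with hcs
  have hcop : ∀ c ∈ cs, c.Coprime d := fun c hc => ((mem_ul hd0).1 (List.mem_filter.1 hc).1).2
  have h4 : cs.map (fun c => sigL d c (L x)) = (cs.map fun c => aut (e c) (he _) x).map L := by
    rw [List.map_map]
    refine List.map_congr_left fun c hc => ?_
    exact sigL_eq (hcop c hc) (he _) (h _ (hcop c hc)) x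
  refine ⟨(cs.map fun c => aut (e c) (he _) x).prod, ?_, ?_, ?_, ?_⟩
  · rw [adjL, ← hcs, h4, intL_eq, foldl_mulL]; simp
  · have h5 : x = aut (e (1 % d)) (he _) x := by
      have h6 := h (1 % d) cop_one_mod
      have h7 : e (1 % d) * (1 % d) ≡ e (1 % d) * 1 [MOD d] :=
        Nat.ModEq.mul_left _ (Nat.mod_modEq 1 d)
      rw [mul_one] at h7
      rw [aut_congr (he _) (Nat.coprime_one_left d) (h7.symm.trans h6), aut_one]
    have h7 : nm x = ∏ u : (ZMod d)ˣ, aut (e (u : ZMod d).val) (he _) x := by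
      rw [nm]
      refine Fintype.prod_equiv (Equiv.inv _) _ _ fun u => ?_
      congr 1
      apply aut_congr
      have h8 := h _ (ZMod.val_coe_unit_coprime u⁻¹)
      have h9 : ((e ((u⁻¹ : (ZMod d)ˣ) : ZMod d).val * ((u⁻¹ : (ZMod d)ˣ) : ZMod d).val : ℕ) : ZMod d) =
          (1 : ℕ) := (ZMod.natCast_eq_natCast_iff _ _ _).2 h8
      rw [Nat.cast_mul, ZMod.natCast_zmod_val, Nat.cast_one] at h9
      have h10 : ((e ((u⁻¹ : (ZMod d)ˣ) : ZMod d).val : ℕ) : ZMod d) = (u : ZMod d) := by
        have h11 := congrArg (· * (u : ZMod d)) h9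
        simp only [mul_assoc, Units.inv_mul, mul_one, one_mul] at h11
        exact h11
      have h12 := congrArg ZMod.val h10
      rw [ZMod.val_natCast] at h12
      rw [Equiv.inv_apply, h12, Nat.mod_eq_of_lt (ZMod.val_lt _)]
    have h8 : (cs.map fun c => aut (e c) (he _) x).prod =
        ∏ c ∈ ((range d).filter (fun c => c.Coprime d)).erase (1 % d), aut (e c) (he _) x := by
      rw [hcs, ul, List.filter_filter, prod_filter_range]
      refine Finset.prod_congr ?_ fun _ _ => rfl
      ext c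
      simp only [Finset.mem_filter, Finset.mem_erase, ne_eq, decide_not, Bool.and_eq_true,
        Bool.not_eq_true', decide_eq_false_iff_not, cop_iff hd0]
      tauto
    rw [h7, prod_units (fun c => aut (e c) (he c) x), h8]
    have h9 : 1 % d ∈ (range d).filter (fun c => c.Coprime d) := by
      rw [mem_filter, mem_range]
      exact ⟨Nat.mod_lt _ hd0, cop_one_mod⟩
    rw [← Finset.mul_prod_erase _ (fun c => aut (e c) (he c) x) h9]
    rw [← h5]
  · intro hx
    rw [map_list_prod, List.map_map]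
    congr 1
    refine List.map_congr_left fun c _ => ?_
    simp only [Function.comp]
    rw [conj_aut, hx]
  · intro A hA1 hA
    have h5 := Bd.prod (xs := cs.map fun c => aut (e c) (he _) x)
      (A := 2 ^ (d + 1) * A) (by
        intro w hw
        obtain ⟨c, _, rfl⟩ := List.mem_map.1 hw
        exact hA.aut _)
    rw [List.length_map] at h5
    refine h5.mono ?_
    have e1 : (2 : ℤ) ^ (d + 1) * d * (2 ^ (d + 1) * A) = 4 ^ (d + 1) * d * A := by
      rw [show (4 : ℤ) = 2 * 2 by norm_num, mul_pow]; ring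
    rw [e1]
    apply pow_le_pow_right₀
    · have e2 : (1 : ℤ) ≤ 4 ^ (d + 1) := one_le_pow₀ (by norm_num)
      have e3 : (1 : ℤ) ≤ d := by exact_mod_cast hd0
      have e4 : (1 : ℤ) ≤ 4 ^ (d + 1) * d := by nlinarith
      nlinarith
    · rw [hcs, ul]
      refine (List.length_filter_le _ _).trans ((List.length_filter_le _ _).trans ?_)
      simp

theorem Bd_of_nsq {x : R d} {A : ℤ} (h : nsq x ≤ A) : Bd x A := by
  intro i
  have h1 := co_sq_le x i
  have h2 : |co x i| ≤ co x i ^ 2 := by
    rw [← sq_abs]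
    have := abs_nonneg (co x i)
    rcases this.eq_or_lt with h | h
    · rw [← h]; norm_num
    · have : 1 ≤ |co x i| := h
      nlinarith
  linarith

end R

end Run7.h700.G
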