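import Mathlib

/-!
# Normal forms for the elements of the cyclotomic ring `ℤ[ζ_d]`: combinatorics
-/

set_option linter.unusedSectionVars false
set_option linter.style.haveILetI false
set_option linter.unusedVariables false

namespace Run7.h700.G

open Polynomial Finset

/-- Primality, tested. -/
def isP (r : ℕ) : Bool :=
  decide (2 ≤ r) && (List.range r).all fun m => decide (m < 2) || decide (r % m ≠ 0)

theorem isP_iff (r : ℕ) : isP r = true ↔ r.Prime := by
  rw [isP, Nat.prime_def_lt']
  simp only [ne_eq, Bool.and_eq_true, decide_eq_true_eq, List.all_eq_true, List.mem_range,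
    Bool.or_eq_true]
  constructor
  · rintro ⟨h1, h2⟩
    refine ⟨h1, fun m hm hm2 hd => ?_⟩
    rcases h2 m hm2 with h | h
    · omega
    · exact h (Nat.mod_eq_zero_of_dvd hd)
  · rintro ⟨h1, h2⟩
    refine ⟨h1, fun m hm => ?_⟩
    by_cases h : m < 2
    · left; exact h
    · right; intro h3; exact h2 m (by omega) hm (Nat.dvd_of_mod_eq_zero h3)

/-- The prime divisors. -/
def prs (d : ℕ) : List ℕ := (List.range (d + 1)).filter fun r => isP r && decide (d % r = 0)

theorem mem_prs {d r : ℕ} (hd : 0 < d) : r ∈ prs d ↔ r.Prime ∧ r ∣ d := by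
  rw [prs, List.mem_filter, List.mem_range]
  simp only [Bool.and_eq_true, decide_eq_true_eq, isP_iff]
  constructor
  · rintro ⟨_, h1, h2⟩
    exact ⟨h1, Nat.dvd_of_mod_eq_zero h2⟩
  · rintro ⟨h1, h2⟩
    exact ⟨by have := Nat.le_of_dvd hd h2; omega, h1, Nat.mod_eq_zero_of_dvd h2⟩

theorem length_prs (d : ℕ) : (prs d).length ≤ d + 1 := by
  rw [prs]
  refine (List.length_filter_le _ _).trans ?_
  simp

/-- The power of `r` dividing `d` exactly. -/
def pw (d r : ℕ) : ℕ :=
  (((List.range d).filter fun m => decide (d % (m + 1) = 0) && decide (d / (m + 1) % r ≠ 0)).head?).getD 0 + 1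

theorem pw_eq {d r : ℕ} (hd : 0 < d) (hr : r.Prime) : pw d r = r ^ d.factorization r := by
  set q := r ^ d.factorization r with hq
  have hqd : q ∣ d := Nat.ordProj_dvd d r
  have hq0 : 0 < q := pow_pos hr.pos _
  have hqle : q ≤ d := Nat.le_of_dvd hd hqd
  have h1 : (List.range d).find? (fun m => decide (d % (m + 1) = 0) && decide (d / (m + 1) % r ≠ 0)) =
      some (q - 1) := by
    rw [List.find?_range_eq_some]
    refine ⟨?_, ?_, ?_⟩
    · rw [Nat.sub_add_cancel hq0]
      simp only [ne_eq, Bool.and_eq_true, decide_eq_true_eq]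
      refine ⟨Nat.mod_eq_zero_of_dvd hqd, fun h => ?_⟩
      exact Nat.not_dvd_ordCompl hr hd.ne' (Nat.dvd_of_mod_eq_zero h)
    · rw [List.mem_range]; omega
    · intro j hj
      simp only [ne_eq, Bool.not_eq_true', Bool.and_eq_false_iff, decide_eq_false_iff_not, not_not]
      by_contra h
      push Not at h
      obtain ⟨h2, h3⟩ := h
      have h4 : (j + 1) ∣ d := Nat.dvd_of_mod_eq_zero h2
      have h5 : q ∣ (j + 1) := by
        obtain ⟨e, he⟩ := h4
        have h6 : d / (j + 1) = e := by rw [he, Nat.mul_div_cancel_left _ (Nat.succ_pos j)]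
        rw [h6] at h3
        have h7 : Nat.Coprime q e := by
          refine Nat.Coprime.pow_left _ ((Nat.Prime.coprime_iff_not_dvd hr).2 fun h => h3 ?_)
          exact Nat.mod_eq_zero_of_dvd h
        exact h7.dvd_of_dvd_mul_right (he ▸ hqd)
      have := Nat.le_of_dvd (Nat.succ_pos j) h5
      omega
  rw [pw, List.head?_filter, h1]
  simp only [Option.getD_some]
  omega

/-- Membership in the transversal. -/
def inF (d r i : ℕ) : Bool := decide (pw d r - pw d r / r ≤ i % pw d r)

/-- Subtraction of the value on the transversal. -/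
def Pl (d r : ℕ) (x : List ℤ) : List ℤ := (List.range d).map fun j =>
  x.getD j 0 - ((List.range r).map fun k =>
    if inF d r ((j + k * (d / r)) % d) = true then x.getD ((j + k * (d / r)) % d) 0 else 0).sum

/-- Normal form. -/
def nfl (d : ℕ) (x : List ℤ) : List ℤ := (prs d).foldr (Pl d) x

/-- Normal form of a function. -/
def nf (d : ℕ) (c : ℕ → ℤ) : List ℤ := nfl d ((List.range d).map c)

theorem list_sum_range (n : ℕ) (f : ℕ → ℤ) : ((List.range n).map f).sum = ∑ i ∈ range n, f i := by
  induction n with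
  | zero => simp
  | succ n ih => rw [List.range_succ, List.map_append, List.sum_append, ih, Finset.sum_range_succ]; simp

theorem length_Pl (d r : ℕ) (x : List ℤ) : (Pl d r x).length = d := by simp [Pl]

theorem getD_range_map {γ : Type*} (f : ℕ → γ) (e : γ) {i n : ℕ} (h : i < n) :
    ((List.range n).map f).getD i e = f i := by
  rw [List.getD_eq_getElem _ _ (by simpa using h)]; simp

theorem getD_Pl {d r : ℕ} {x : List ℤ} {j : ℕ} (hj : j < d) : (Pl d r x).getD j 0 =
    x.getD j 0 - ∑ k ∈ range r,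
      if inF d r ((j + k * (d / r)) % d) = true then x.getD ((j + k * (d / r)) % d) 0 else 0 := by
  rw [Pl, getD_range_map _ _ hj, list_sum_range]

theorem length_nfl_aux (d : ℕ) (x : List ℤ) (hx : x.length = d) (ps : List ℕ) :
    (ps.foldr (Pl d) x).length = d := by
  cases ps with
  | nil => exact hx
  | cons r ps => exact length_Pl _ _ _

theorem length_nf (d : ℕ) (c : ℕ → ℤ) : (nf d c).length = d := length_nfl_aux d _ (by simp) _

section Prime

variable {d r : ℕ} (hd : 0 < d) (hr : r.Prime) (hrd : r ∣ d)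

include hd hr hrd in
theorem fac_pos : 0 < d.factorization r := hr.factorization_pos_of_dvd hd.ne' hrd

include hd hr hrd in
/-- decomposition of `d` -/
theorem decomp : ∃ m q' : ℕ, pw d r = q' * r ∧ d = m * (q' * r) ∧ d / r = m * q' ∧ 0 < q' ∧
    m.Coprime (q' * r) := by
  have h1 := fac_pos hd hr hrd
  obtain ⟨k, hk⟩ : ∃ k, d.factorization r = k + 1 := ⟨d.factorization r - 1, by omega⟩
  refine ⟨d / r ^ (k + 1), r ^ k, ?_, ?_, ?_, pow_pos hr.pos _, ?_⟩
  · rw [pw_eq hd hr, hk, pow_succ]
  · rw [← pow_succ]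
    have := Nat.ordProj_dvd d r
    rw [hk] at this
    exact (Nat.div_mul_cancel this).symm
  · have h2 : r ^ (k + 1) ∣ d := hk ▸ Nat.ordProj_dvd d r
    obtain ⟨m, hm⟩ := h2
    have h3 : d / r ^ (k + 1) = m := by
      rw [hm]; exact Nat.mul_div_cancel_left _ (pow_pos hr.pos _)
    rw [h3, hm, pow_succ]
    rw [show r ^ k * r * m = m * r ^ k * r by ring, Nat.mul_div_cancel _ hr.pos]
  · rw [← pow_succ]
    have h2 := Nat.not_dvd_ordCompl hr hd.ne'
    rw [hk] at h2
    exact (Nat.Coprime.pow_left _ ((Nat.Prime.coprime_iff_not_dvd hr).2 h2)).symm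

include hd hr hrd in
theorem inF_unique {i j : ℕ} (hi : i < d) (hj : j < d) (h : i % (d / r) = j % (d / r))
    (h1 : inF d r i = true) (h2 : inF d r j = true) : i = j := by
  obtain ⟨m, q', e1, e2, e3, e4, e5⟩ := decomp hd hr hrd
  rw [inF, decide_eq_true_eq, e1, Nat.mul_div_cancel _ hr.pos] at h1 h2
  have hr1 : 1 ≤ r := hr.pos
  have h3 : i % q' = j % q' := by
    have h4 : i ≡ j [MOD (d / r)] := h
    rw [e3] at h4
    exact h4.of_mul_left m
  -- the residues modulo `q' * r`
  have h5 : i % (q' * r) = j % (q' * r) := by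
    have a1 : i % (q' * r) < q' * r := Nat.mod_lt _ (by positivity)
    have a2 : j % (q' * r) < q' * r := Nat.mod_lt _ (by positivity)
    have a3 : i % (q' * r) % q' = i % q' := Nat.mod_mul_right_mod _ _ _
    have a4 : j % (q' * r) % q' = j % q' := Nat.mod_mul_right_mod _ _ _
    obtain ⟨s, rfl⟩ : ∃ s, r = s + 1 := ⟨r - 1, by omega⟩
    have a5 : q' * (s + 1) - q' = q' * s := by rw [mul_add, mul_one]; omega
    rw [a5] at h1 h2
    have a6 : i % (q' * (s + 1)) / q' = s := by
      apply le_antisymm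
      · have := (Nat.div_lt_iff_lt_mul e4).2 (by rw [mul_comm (s + 1) q']; exact a1)
        omega
      · exact (Nat.le_div_iff_mul_le e4).2 (by rw [mul_comm]; exact h1)
    have a7 : j % (q' * (s + 1)) / q' = s := by
      apply le_antisymm
      · have := (Nat.div_lt_iff_lt_mul e4).2 (by rw [mul_comm (s + 1) q']; exact a2)
        omega
      · exact (Nat.le_div_iff_mul_le e4).2 (by rw [mul_comm]; exact h2)
    have a8 := Nat.div_add_mod (i % (q' * (s + 1))) q'
    have a9 := Nat.div_add_mod (j % (q' * (s + 1))) q'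
    rw [a6, a3] at a8
    rw [a7, a4] at a9
    omega
  have h6 : i ≡ j [MOD m] := by
    have h4 : i ≡ j [MOD (d / r)] := h
    rw [e3] at h4
    exact h4.of_mul_right q'
  have h7 : i ≡ j [MOD d] := by
    rw [e2]
    exact (Nat.modEq_and_modEq_iff_modEq_mul e5).1 ⟨h6, h5⟩
  rwa [Nat.ModEq, Nat.mod_eq_of_lt hi, Nat.mod_eq_of_lt hj] at h7

include hd hr hrd in
/-- translates are distinct -/
theorem shift_mod (j k : ℕ) : (j + k * (d / r)) % d % (d / r) = j % (d / r) := by
  have h1 : d = d / r * r := (Nat.div_mul_cancel hrd).symm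
  have h2 : (j + k * (d / r)) % d % (d / r) = (j + k * (d / r)) % (d / r) := by
    conv_lhs => rw [h1]
    have h3 : d / r * r / r = d / r := Nat.mul_div_cancel _ hr.pos
    rw [h3]
    exact Nat.mod_mul_right_mod _ _ _
  rw [h2, Nat.add_mul_mod_self_right]

include hd hr hrd in
theorem shift_inj {j k k' : ℕ} (hk : k < r) (hk' : k' < r)
    (h : (j + k * (d / r)) % d = (j + k' * (d / r)) % d) : k = k' := by
  have h0 : 0 < d / r := Nat.div_pos (Nat.le_of_dvd hd hrd) hr.pos
  have h1 : j + k * (d / r) ≡ j + k' * (d / r) [MOD d] := h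
  have h2 : k * (d / r) ≡ k' * (d / r) [MOD d] := Nat.ModEq.add_left_cancel' j h1
  have h3 : d = r * (d / r) := (Nat.mul_div_cancel' hrd).symm
  have h4 : k * (d / r) < d := by
    conv_rhs => rw [h3]
    exact Nat.mul_lt_mul_of_pos_right hk h0
  have h5 : k' * (d / r) < d := by
    conv_rhs => rw [h3]
    exact Nat.mul_lt_mul_of_pos_right hk' h0
  rw [Nat.ModEq, Nat.mod_eq_of_lt h4, Nat.mod_eq_of_lt h5] at h2
  exact Nat.eq_of_mul_eq_mul_right h0 h2

/-- The support condition. -/
def Sup (d r : ℕ) (x : List ℤ) : Prop := ∀ j < d, inF d r j = true → x.getD j 0 = 0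

include hd hr hrd in
theorem sum_at_F {x : List ℤ} {j : ℕ} (hj : j < d) (h : inF d r j = true) :
    ∑ k ∈ range r, (if inF d r ((j + k * (d / r)) % d) = true then
      x.getD ((j + k * (d / r)) % d) 0 else 0) = x.getD j 0 := by
  rw [Finset.sum_eq_single 0]
  · rw [zero_mul, add_zero, Nat.mod_eq_of_lt hj, if_pos h]
  · intro k hk hk0
    rw [if_neg]
    intro h1
    have h2 := inF_unique hd hr hrd (Nat.mod_lt _ hd) hj (shift_mod hd hr hrd j k) h1 h
    have h3 : (j + k * (d / r)) % d = (j + 0 * (d / r)) % d := by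
      rw [h2, zero_mul, add_zero, Nat.mod_eq_of_lt hj]
    exact hk0 (shift_inj hd hr hrd (mem_range.1 hk) hr.pos h3)
  · intro h; exact absurd (mem_range.2 hr.pos) h

include hd hr hrd in
theorem sup_Pl (x : List ℤ) : Sup d r (Pl d r x) := by
  intro j hj h
  rw [getD_Pl hj, sum_at_F hd hr hrd hj h, sub_self]

include hd hr hrd in
/-- bound for the sum -/
theorem abs_sum_le {x : List ℤ} {A : ℤ} (hA : ∀ j, |x.getD j 0| ≤ A) (j : ℕ) :
    |∑ k ∈ range r, (if inF d r ((j + k * (d / r)) % d) = true then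
      x.getD ((j + k * (d / r)) % d) 0 else 0)| ≤ A := by
  have hA0 : 0 ≤ A := (abs_nonneg _).trans (hA 0)
  by_cases h : ∃ k ∈ range r, inF d r ((j + k * (d / r)) % d) = true
  · obtain ⟨k, hk, h1⟩ := h
    rw [Finset.sum_eq_single k]
    · rw [if_pos h1]; exact hA _
    · intro k' hk' hne
      rw [if_neg]
      intro h2
      apply hne
      refine shift_inj (j := j) hd hr hrd (mem_range.1 hk') (mem_range.1 hk) ?_
      exact inF_unique hd hr hrd (Nat.mod_lt _ hd) (Nat.mod_lt _ hd)
        ((shift_mod hd hr hrd j k').trans (shift_mod hd hr hrd j k).symm) h2 h1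
    · intro h; exact absurd hk h
  · push Not at h
    rw [Finset.sum_eq_zero]
    · simpa using hA0
    · intro k hk
      rw [if_neg (h k hk)]

include hd hr hrd in
theorem bound_Pl {x : List ℤ} {A : ℤ} (hA : ∀ j, |x.getD j 0| ≤ A) (j : ℕ) :
    |(Pl d r x).getD j 0| ≤ 2 * A := by
  have hA0 : 0 ≤ A := (abs_nonneg _).trans (hA 0)
  rcases Nat.lt_or_ge j d with h | h
  · rw [getD_Pl h]
    refine (abs_sub _ _).trans ?_
    have := hA j
    have := abs_sum_le hd hr hrd hA j
    linarith
  · rw [List.getD_eq_default _ _ (by rw [length_Pl]; exact h)]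
    simp; exact hA0

include hd hr hrd in
theorem Pl_of_sup {x : List ℤ} (hx : x.length = d) (h : Sup d r x) : Pl d r x = x := by
  apply List.ext_getElem (by rw [length_Pl, hx])
  intro j h1 h2
  rw [← List.getD_eq_getElem _ 0 h1, ← List.getD_eq_getElem _ 0 h2, getD_Pl (by rwa [length_Pl] at h1)]
  rw [Finset.sum_eq_zero, sub_zero]
  intro k _
  split_ifs with h3
  · exact h _ (Nat.mod_lt _ hd) h3
  · rfl

end Prime

/-- the transversal only depends on the residue -/
theorem inF_congr {d r r' : ℕ} (hd : 0 < d) (hr : r.Prime) (hrd : r ∣ d) (hr' : r'.Prime)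
    (hrd' : r' ∣ d) (hne : r ≠ r') (j k : ℕ) : inF d r' ((j + k * (d / r)) % d) = inF d r' j := by
  have h1 : pw d r' ∣ d := by rw [pw_eq hd hr']; exact Nat.ordProj_dvd d r'
  have h2 : pw d r' ∣ d / r := by
    have h3 : (pw d r').Coprime r := by
      rw [pw_eq hd hr']
      exact Nat.Coprime.pow_left _ ((Nat.coprime_primes hr' hr).2 hne.symm)
    obtain ⟨e, he⟩ := hrd
    have h4 : d / r = e := by rw [he, Nat.mul_div_cancel_left _ hr.pos]
    rw [h4]
    have h5 : pw d r' ∣ r * e := he ▸ h1
    exact h3.dvd_of_dvd_mul_left h5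
  rw [inF, inF]
  have h3 : (j + k * (d / r)) % d % pw d r' = j % pw d r' := by
    rw [Nat.mod_mod_of_dvd _ h1, Nat.add_mod, Nat.mod_eq_zero_of_dvd (Dvd.dvd.mul_left h2 k),
      add_zero, Nat.mod_mod]
  rw [h3]

theorem sup_Pl_of_sup {d r r' : ℕ} (hd : 0 < d) (hr : r.Prime) (hrd : r ∣ d) (hr' : r'.Prime)
    (hrd' : r' ∣ d) {x : List ℤ} (h : Sup d r' x) : Sup d r' (Pl d r x) := by
  by_cases hne : r = r'
  · subst hne; exact sup_Pl hd hr hrd x
  intro j hj h1
  rw [getD_Pl hj, h j hj h1, Finset.sum_eq_zero, sub_zero]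
  intro k _
  split_ifs with h3
  · refine h _ (Nat.mod_lt _ hd) ?_
    rw [inF_congr hd hr hrd hr' hrd' hne]; exact h1
  · rfl

/-- The support condition at all primes. -/
def Bs (d : ℕ) (x : List ℤ) : Prop := x.length = d ∧ ∀ r ∈ prs d, Sup d r x

theorem bs_nf {d : ℕ} (hd : 0 < d) (c : ℕ → ℤ) : Bs d (nf d c) := by
  refine ⟨length_nf d c, ?_⟩
  rw [nf, nfl]
  have key : ∀ ps : List ℕ, (∀ r ∈ ps, r ∈ prs d) → ∀ x : List ℤ, ∀ r ∈ ps,
      Sup d r (ps.foldr (Pl d) x) := by
    intro ps
    induction ps with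
    | nil => intro _ _ r h; simp at h
    | cons a ps ih =>
      intro h x r hr
      have ha := (mem_prs hd).1 (h a (by simp))
      rw [List.foldr_cons]
      rcases List.mem_cons.1 hr with h1 | h1
      · subst h1; exact sup_Pl hd ha.1 ha.2 _
      · have h2 := (mem_prs hd).1 (h r (by simp [h1]))
        exact sup_Pl_of_sup hd ha.1 ha.2 h2.1 h2.2 (ih (fun r hr => h r (by simp [hr])) x r h1)
  exact key _ (fun _ h => h) _

theorem nfl_of_bs {d : ℕ} (hd : 0 < d) {x : List ℤ} (h : Bs d x) : nfl d x = x := by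
  rw [nfl]
  have key : ∀ ps : List ℕ, (∀ r ∈ ps, r ∈ prs d) → ps.foldr (Pl d) x = x := by
    intro ps
    induction ps with
    | nil => intro _; rfl
    | cons a ps ih =>
      intro h1
      rw [List.foldr_cons, ih fun r hr => h1 r (by simp [hr])]
      have ha := (mem_prs hd).1 (h1 a (by simp))
      exact Pl_of_sup hd ha.1 ha.2 h.1 (h.2 a (h1 a (by simp)))
  exact key _ fun _ h => h

theorem bound_nf {d : ℕ} (hd : 0 < d) {c : ℕ → ℤ} {A : ℤ} (hA : ∀ j < d, |c j| ≤ A) (hA0 : 0 ≤ A)
    (j : ℕ) : |(nf d c).getD j 0| ≤ 2 ^ (d + 1) * A := by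
  rw [nf, nfl]
  have key : ∀ ps : List ℕ, (∀ r ∈ ps, r ∈ prs d) → ∀ x : List ℤ, (∀ j, |x.getD j 0| ≤ A) →
      ∀ j, |(ps.foldr (Pl d) x).getD j 0| ≤ 2 ^ ps.length * A := by
    intro ps
    induction ps with
    | nil => intro _ x hx j; simpa using hx j
    | cons a ps ih =>
      intro h x hx j
      have ha := (mem_prs hd).1 (h a (by simp))
      rw [List.foldr_cons, List.length_cons, pow_succ', mul_assoc]
      exact bound_Pl hd ha.1 ha.2 (ih (fun r hr => h r (by simp [hr])) x hx) j
  refine (key _ (fun _ h => h) _ (fun j => ?_) j).trans ?_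
  · rcases Nat.lt_or_ge j d with h | h
    · rw [getD_range_map _ _ h]; exact hA j h
    · rw [List.getD_eq_default _ _ (by simpa using h)]; simpa using hA0
  · refine mul_le_mul_of_nonneg_right ?_ hA0
    exact pow_le_pow_right₀ (by norm_num) (length_prs d)

/-! ### The number of exponents in the basis -/

/-- The exponents of the basis. -/
def Bset (d : ℕ) : Finset ℕ := (range d).filter fun j => ∀ r ∈ prs d, inF d r j = false

theorem card_Bset {d : ℕ} (hd : 0 < d) : (Bset d).card ≤ d.totient := by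
  classical
  have h1 : (Bset d).card ≤ (d.primeFactors.pi fun r => range (r ^ (d.factorization r - 1) * (r - 1))).card := by
    refine Finset.card_le_card_of_injOn (fun j r _ => j % r ^ d.factorization r) ?_ ?_
    · intro j hj
      rw [Finset.mem_coe, Bset, mem_filter] at hj
      rw [Finset.mem_coe, Finset.mem_pi]
      intro r hr
      have hrp := Nat.prime_of_mem_primeFactors hr
      have hrd := Nat.dvd_of_mem_primeFactors hr
      have h2 := hj.2 r ((mem_prs hd).2 ⟨hrp, hrd⟩)
      rw [inF, decide_eq_false_iff_not, not_le, pw_eq hd hrp] at h2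
      rw [mem_range]
      refine lt_of_lt_of_le h2 (le_of_eq ?_)
      have h3 := fac_pos hd hrp hrd
      obtain ⟨k, hk⟩ : ∃ k, d.factorization r = k + 1 := ⟨d.factorization r - 1, by omega⟩
      rw [hk, pow_succ, Nat.mul_div_cancel _ hrp.pos, Nat.add_sub_cancel, Nat.mul_sub, mul_one]
    · intro i hi j hj hij
      rw [Finset.mem_coe, Bset, mem_filter, mem_range] at hi hj
      have h2 : i ≡ j [MOD d] := by
        rw [Nat.modEq_iff_dvd]
        have h3 : ∀ r ∈ d.primeFactors, i % r ^ d.factorization r = j % r ^ d.factorization r := by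
          intro r hr
          exact congrFun (congrFun hij r) hr
        rw [← Int.natAbs_dvd_natAbs, Int.natAbs_natCast, Nat.dvd_iff_prime_pow_dvd_dvd]
        intro r k hr hk
        rcases Nat.eq_zero_or_pos k with h0 | h0
        · subst h0; simp
        have hrd : r ∣ d := dvd_trans (dvd_pow_self r h0.ne') hk
        have h4 := h3 r (Nat.mem_primeFactors.2 ⟨hr, hrd, hd.ne'⟩)
        have h5 : k ≤ d.factorization r := (hr.pow_dvd_iff_le_factorization hd.ne').1 hk
        have h6 : i ≡ j [MOD r ^ d.factorization r] := h4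
        rw [Nat.modEq_iff_dvd] at h6
        have h7 := Int.natAbs_dvd_natAbs.2 h6
        rw [Int.natAbs_natCast] at h7
        exact dvd_trans (pow_dvd_pow _ h5) h7
      rwa [Nat.ModEq, Nat.mod_eq_of_lt hi.1, Nat.mod_eq_of_lt hj.1] at h2
  refine h1.trans (le_of_eq ?_)
  rw [Finset.card_pi, Nat.totient_eq_prod_factorization hd.ne', Finsupp.prod, Nat.support_factorization]
  simp

end Run7.h700.G
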