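import Pool.Agent.Run7.h700.G.TopA
import Pool.Agent.H671R2.PolyAuto
import Pool.Agent.Y644.QS.PolyBase

/-!
# The algorithm runs in polynomial time, 1
-/

set_option linter.unusedSectionVars false
set_option linter.style.haveILetI false
set_option linter.unusedVariables false

namespace Pool.Agent.NPC

open Run7.h700.G Pool.Agent.H687R2.LLL

attribute [fun_prop] Poly.npow Poly.ipow

variable {α β γ δ σ : Type} [TEnc α] [TEnc β] [TEnc γ] [TEnc δ] [TEnc σ]

theorem Poly.ediv {f g : α → ℤ} (hf : Poly f) (hg : Poly g) : Poly (fun a => f a / g a) := by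
  refine (Poly.cond (Poly.isNeg hg) (Poly.ineg (Poly.idiv hf (Poly.natAbs hg)))
    (Poly.idiv hf (Poly.natAbs hg))).congr fun a => ?_
  by_cases h : g a < 0
  · simp only [h, decide_true, cond_true]
    have : g a = -((g a).natAbs : ℤ) := by omega
    conv_rhs => rw [this, Int.ediv_neg]
  · simp only [h, decide_false, cond_false]
    have : g a = ((g a).natAbs : ℤ) := by omega
    conv_rhs => rw [this]

theorem Poly.emod {f g : α → ℤ} (hf : Poly f) (hg : Poly g) : Poly (fun a => f a % g a) :=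
  (Poly.isub hf (Poly.imul hg (Poly.ediv hf hg))).congr fun a => (Int.emod_def _ _).symm

attribute [fun_prop] Poly.ediv Poly.emod

theorem UPoly.sub {m n : α → ℕ} (hm : UPoly m) (hn : Poly n) : UPoly (fun a => m a - n a) :=
  UPoly.of_le (Poly.sub (UPoly.toPoly hm) hn) hm fun a => Nat.sub_le _ _

theorem UPoly.npow {m : α → ℕ} (hm : UPoly m) (k : ℕ) : UPoly (fun a => m a ^ k) := by
  induction k with
  | zero => simpa using UPoly.const 1
  | succ k ih => simpa [pow_succ] using UPoly.mul ih hm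

theorem UPoly.nsize {m : α → ℕ} (hm : Poly m) : UPoly (fun a => (m a).size) := by
  refine UPoly.of_le (n := fun a => NPC.sz (m a)) ?_ (UPoly.sz hm) fun a => ?_
  · have h : Poly (fun a => (m a).bits) := Poly.natBits hm
    exact (Poly.length h).congr fun a => Nat.size_eq_bits_len _
  · have := size_le_sz (m a); omega

attribute [fun_prop] UPoly.sub UPoly.npow UPoly.nsize

theorem Poly.ofU {m : α → ℕ} (hm : UPoly m) : Poly m := UPoly.toPoly hm

/-- A filter whose predicate is only controlled on the members. -/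
theorem Poly.filterOn {l : α → List β} {p p' : α → β → Bool} (hl : Poly l)
    (hp : Poly (fun x : α × β => p' x.1 x.2)) (h : ∀ a, ∀ b ∈ l a, p' a b = p a b) :
    Poly (fun a => (l a).filter (p a)) :=
  (Poly.filter hl hp).congr fun a => List.filter_congr fun b hb => h a b hb

/-- A map whose function is only controlled on the members. -/
theorem Poly.mapOn {l : α → List β} {F F' : α → β → γ} (hl : Poly l)
    (hF : Poly (fun x : α × β => F' x.1 x.2)) (h : ∀ a, ∀ b ∈ l a, F' a b = F a b) :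
    Poly (fun a => (l a).map (F a)) :=
  (Poly.map hl hF).congr fun a => List.map_congr_left fun b hb => h a b hb

/-! ### Sizes -/

/-- All entries are at most `2 ^ M`. -/
def bnd (M : ℕ) (x : List ℤ) : Prop := ∀ a ∈ x, a.natAbs ≤ 2 ^ M

theorem bnd.mono {M N : ℕ} {x : List ℤ} (h : bnd M x) (hMN : M ≤ N) : bnd N x :=
  fun a ha => (h a ha).trans (Nat.pow_le_pow_right (by norm_num) hMN)

theorem bnd.getD {M : ℕ} {x : List ℤ} (h : bnd M x) (i : ℕ) : (x.getD i 0).natAbs ≤ 2 ^ M := by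
  rcases Nat.lt_or_ge i x.length with h1 | h1
  · rw [List.getD_eq_getElem _ _ h1]; exact h _ (List.getElem_mem h1)
  · rw [List.getD_eq_default _ _ h1]; simp

theorem bnd_sz (x : List ℤ) : bnd (sz x) x := fun a ha => by
  have h1 := natAbs_le_nrm ha
  have h2 := nrm_lt x
  omega

theorem sz_ints {x : List ℤ} {B n : ℕ} (h : ∀ a ∈ x, a.natAbs ≤ B) (hn : x.length ≤ n) :
    sz x ≤ n * (4 * B.size + 6) + 1 := by
  refine (sz_le_length_mul x (4 * B.size + 5) fun a ha => ?_).trans ?_
  · refine (sz_int_le a).trans ?_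
    have := Nat.size_le_size (h a ha)
    omega
  · exact Nat.add_le_add_right (Nat.mul_le_mul_right _ hn) _

theorem sz_bnd {x : List ℤ} {M n : ℕ} (h : bnd M x) (hn : x.length ≤ n) :
    sz x ≤ n * (4 * M + 10) + 1 := by
  have h1 := sz_ints h hn
  rw [Nat.size_pow] at h1
  calc _ ≤ _ := h1
    _ = _ := by ring

theorem uLe {m : α → ℕ} (hm : UPoly m) : ∃ q : Polynomial ℕ, ∀ a, m a ≤ q.eval (sz a) := by
  obtain ⟨q, hq⟩ := Poly.sz_le (show Poly (fun a => List.replicate (m a) ()) from hm)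
  refine ⟨q, fun a => ?_⟩
  have h1 := length_lt_sz (List.replicate (m a) ())
  rw [List.length_replicate] at h1
  have := hq a
  omega

/-! ### Normal forms -/

theorem poly_isPmin {d : α → ℕ} (hd : UPoly d) :
    Poly (fun p : α × ℕ => isP (min p.2 (d p.1))) := by
  have g1 : UPoly (fun p : α × ℕ => d p.1) := hd.comp (Poly.fst Poly.id)
  have g2 : UPoly (fun p : α × ℕ => min p.2 (d p.1)) :=
    UPoly.of_le (Poly.min (Poly.snd Poly.id) (Poly.ofU g1)) g1 fun _ => min_le_right _ _
  have g3 : Poly (fun q : (α × ℕ) × ℕ => min q.1.2 (d q.1.1)) := (Poly.ofU g2).comp (Poly.fst Poly.id)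
  have g4 : Poly (fun q : (α × ℕ) × ℕ => decide (q.2 < 2) || decide (min q.1.2 (d q.1.1) % q.2 ≠ 0)) :=
    Poly.or (Poly.decide_lt (Poly.snd Poly.id) (Poly.const 2))
      (Poly.decide_not (Poly.decide_eq (Poly.mod g3 (Poly.snd Poly.id)) (Poly.const 0)))
  exact Poly.and (Poly.decide_le (Poly.const 2) (Poly.ofU g2)) (Poly.all
    (p := fun (q : α × ℕ) (m : ℕ) => decide (m < 2) || decide (min q.2 (d q.1) % m ≠ 0)) g2.range g4)

theorem poly_prs {d : α → ℕ} (hd : UPoly d) : Poly (fun a => prs (d a)) := by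
  have hd' : Poly (fun p : α × ℕ => d p.1) := (Poly.ofU hd).comp (Poly.fst Poly.id)
  refine Poly.filterOn (p' := fun a r => isP (min r (d a)) && decide (d a % r = 0))
    ((hd.add (UPoly.const 1)).range) (Poly.and (poly_isPmin hd) (Poly.decide_eq
      (Poly.mod hd' (Poly.snd Poly.id)) (Poly.const 0))) fun a r hr => ?_
  have := List.mem_range.1 hr
  rw [min_eq_left (by omega)]

theorem two_le_prs {d r : ℕ} (h : r ∈ prs d) : 2 ≤ r := by
  rw [prs, List.mem_filter, Bool.and_eq_true, isP, Bool.and_eq_true, decide_eq_true_eq] at h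
  exact h.2.1.1

theorem prs_le {d r : ℕ} (h : r ∈ prs d) : r ≤ d := by
  rw [prs, List.mem_filter, List.mem_range] at h
  omega

theorem poly_find {n : α → ℕ} {p : α → ℕ → Bool} (hn : UPoly n)
    (hp : Poly (fun x : α × ℕ => p x.1 x.2)) :
    UPoly (fun a => (((List.range (n a)).filter (p a)).head?).getD 0) := by
  refine UPoly.of_le ?_ hn fun a => ?_
  · exact Poly.optGetD (Poly.head? (Poly.filter hn.range hp)) (Poly.const 0)
  · cases h : (List.range (n a)).filter (p a) with
    | nil => simp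
    | cons b l =>
      have h1 : b ∈ (List.range (n a)).filter (p a) := by rw [h]; simp
      have h2 := List.mem_range.1 (List.mem_filter.1 h1).1
      simp only [List.head?_cons, Option.getD_some]
      omega

theorem uPoly_pw {d r : α → ℕ} (hd : UPoly d) (hr : Poly r) : UPoly (fun a => pw (d a) (r a)) := by
  unfold Run7.h700.G.pw
  have g1 : Poly (fun p : α × ℕ => d p.1) := (Poly.ofU hd).comp (Poly.fst Poly.id)
  have g2 : Poly (fun p : α × ℕ => r p.1) := hr.comp (Poly.fst Poly.id)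
  have g3 : Poly (fun p : α × ℕ => p.2 + 1) := Poly.add (Poly.snd Poly.id) (Poly.const 1)
  have g4 := poly_find (p := fun a m => decide (d a % (m + 1) = 0) && decide (d a / (m + 1) % r a ≠ 0)) hd
    (Poly.and (Poly.decide_eq (Poly.mod g1 g3) (Poly.const 0))
      (Poly.decide_not (Poly.decide_eq (Poly.mod (Poly.div g1 g3) g2) (Poly.const 0))))
  exact g4.add (UPoly.const 1)

theorem poly_inF {d r i : α → ℕ} (hd : UPoly d) (hr : Poly r) (hi : Poly i) :
    Poly (fun a => inF (d a) (r a) (i a)) := by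
  unfold Run7.h700.G.inF
  have h := Poly.ofU (uPoly_pw hd hr)
  exact Poly.decide_le (Poly.sub h (Poly.div h hr)) (Poly.mod hi h)

theorem poly_Pl {d r : α → ℕ} {x : α → List ℤ} (hd : UPoly d) (hr : UPoly r) (hx : Poly x) :
    Poly (fun a => Pl (d a) (r a) (x a)) := by
  unfold Run7.h700.G.Pl
  have f1 : Poly (fun p : (α × ℕ) × ℕ => p.1.1) := Poly.fst (Poly.fst Poly.id)
  have gd : UPoly (fun p : (α × ℕ) × ℕ => d p.1.1) := hd.comp f1
  have gr : Poly (fun p : (α × ℕ) × ℕ => r p.1.1) := (Poly.ofU hr).comp f1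
  have gx : Poly (fun p : (α × ℕ) × ℕ => x p.1.1) := hx.comp f1
  have g5 : Poly (fun p : (α × ℕ) × ℕ => (p.1.2 + p.2 * (d p.1.1 / r p.1.1)) % d p.1.1) :=
    Poly.mod (Poly.add (Poly.snd (Poly.fst Poly.id)) (Poly.mul (Poly.snd Poly.id)
      (Poly.div (Poly.ofU gd) gr))) (Poly.ofU gd)
  have g6 : Poly (fun p : (α × ℕ) × ℕ =>
      if inF (d p.1.1) (r p.1.1) ((p.1.2 + p.2 * (d p.1.1 / r p.1.1)) % d p.1.1) = true then
        (x p.1.1).getD ((p.1.2 + p.2 * (d p.1.1 / r p.1.1)) % d p.1.1) 0 else 0) :=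
    Poly.ite (Poly.decide_bool (poly_inF gd gr g5)) (Poly.getD gx g5 (Poly.const 0)) (Poly.const 0)
  have gr1 : UPoly (fun p : α × ℕ => r p.1) := hr.comp (Poly.fst Poly.id)
  have gx1 : Poly (fun p : α × ℕ => x p.1) := hx.comp (Poly.fst Poly.id)
  have g7 := Poly.isub (Poly.getD gx1 (Poly.snd Poly.id) (Poly.const 0)) (Poly.isum (Poly.map
    (F := fun (p : α × ℕ) k => if inF (d p.1) (r p.1) ((p.2 + k * (d p.1 / r p.1)) % d p.1) = true then
        (x p.1).getD ((p.2 + k * (d p.1 / r p.1)) % d p.1) 0 else 0) gr1.range g6))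
  exact Poly.map (F := fun a j => (x a).getD j 0 - ((List.range (r a)).map fun k =>
    if inF (d a) (r a) ((j + k * (d a / r a)) % d a) = true then
      (x a).getD ((j + k * (d a / r a)) % d a) 0 else 0).sum) hd.range g7

theorem length_Pl (d r : ℕ) (x : List ℤ) : (Pl d r x).length = d := by simp [Run7.h700.G.Pl]

theorem bnd_sum {M : ℕ} {x : List ℤ} (h : bnd M x) : x.sum.natAbs ≤ x.length * 2 ^ M := by
  induction x with
  | nil => simp
  | cons a x ih =>
    rw [List.sum_cons, List.length_cons, Nat.succ_mul]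
    have h1 := h a (by simp)
    have h2 := ih fun b hb => h b (by simp [hb])
    have := Int.natAbs_add_le a x.sum
    omega

theorem succ_le_two_pow (d : ℕ) : d + 1 ≤ 2 ^ d := Nat.lt_two_pow_self

theorem bnd_Pl {d r M : ℕ} {x : List ℤ} (hr : r ≤ d) (h : bnd M x) : bnd (M + d) (Pl d r x) := by
  intro a ha
  obtain ⟨j, _, rfl⟩ := List.mem_map.1 ha
  have h1 := h.getD j
  have h2 : bnd M ((List.range r).map fun k => if inF d r ((j + k * (d / r)) % d) = true then
      x.getD ((j + k * (d / r)) % d) 0 else 0) := by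
    intro b hb
    obtain ⟨k, _, rfl⟩ := List.mem_map.1 hb
    split_ifs
    · exact h.getD _
    · simp
  have h3 := bnd_sum h2
  rw [List.length_map, List.length_range] at h3
  have h4 : r * 2 ^ M ≤ d * 2 ^ M := Nat.mul_le_mul_right _ hr
  have h5 : (d + 1) * 2 ^ M ≤ 2 ^ d * 2 ^ M := Nat.mul_le_mul_right _ (succ_le_two_pow d)
  rw [pow_add, mul_comm (2 ^ M)]
  refine (Int.natAbs_sub_le _ _).trans ?_
  rw [Nat.succ_mul] at h5
  omega

theorem bnd_foldr_Pl {d : ℕ} : ∀ (ps : List ℕ) (M : ℕ) (x : List ℤ), (∀ r ∈ ps, r ≤ d) → bnd M x →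
    bnd (M + ps.length * d) (ps.foldr (Pl d) x) := by
  intro ps
  induction ps with
  | nil => intro M x _ h; simpa using h
  | cons r ps ih =>
    intro M x hp h
    rw [List.foldr_cons, List.length_cons]
    refine (bnd_Pl (hp r (by simp)) (ih M x (fun s hs => hp s (by simp [hs])) h)).mono ?_
    rw [Nat.succ_mul]; omega

theorem length_foldr_Pl {d : ℕ} (ps : List ℕ) (x : List ℤ) :
    (ps.foldr (Pl d) x).length ≤ max x.length d := by
  cases ps with
  | nil => simp
  | cons r ps => rw [List.foldr_cons, length_Pl]; omega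

theorem bnd_nfl {d M : ℕ} {x : List ℤ} (h : bnd M x) : bnd (M + (d + 1) * d) (nfl d x) := by
  rw [nfl]
  refine (bnd_foldr_Pl _ _ _ (fun r hr => prs_le hr) h).mono ?_
  have := Nat.mul_le_mul_right d (length_prs d)
  omega

theorem length_nfl_le (d : ℕ) (x : List ℤ) : (nfl d x).length ≤ max x.length d :=
  length_foldr_Pl _ _

theorem poly_nfl {d : α → ℕ} {x : α → List ℤ} (hd : UPoly d) (hx : Poly x) :
    Poly (fun a => nfl (d a) (x a)) := by
  have f1 : Poly (fun q : α × ℕ × List ℤ => q.1) := Poly.fst Poly.id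
  have g1 : UPoly (fun q : α × ℕ × List ℤ => d q.1) := hd.comp f1
  have g2 : UPoly (fun q : α × ℕ × List ℤ => min q.2.1 (d q.1)) :=
    UPoly.of_le (Poly.min (Poly.fst (Poly.snd Poly.id)) (Poly.ofU g1)) g1 fun _ => min_le_right _ _
  have g3 : Poly (fun q : α × ℕ × List ℤ => Pl (d q.1) (min q.2.1 (d q.1)) q.2.2) :=
    poly_Pl g1 g2 (Poly.snd (Poly.snd Poly.id))
  obtain ⟨u, hu⟩ := uLe hd
  obtain ⟨v, hv⟩ := hx.sz_le
  have key : ∀ (d : ℕ) (ps : List ℕ) (x : List ℤ), (∀ r ∈ ps, r ≤ d) →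
      ps.foldr (fun r y => Pl d (min r d) y) x = ps.foldr (Pl d) x := by
    intro d ps
    induction ps with
    | nil => intro x _; rfl
    | cons r ps ih =>
      intro x h
      rw [List.foldr_cons, List.foldr_cons, ih x fun s hs => h s (by simp [hs]),
        min_eq_left (h r (by simp))]
  refine (Poly.foldr (l := fun a => prs (d a)) (F := fun a r y => Pl (d a) (min r (d a)) y)
    (poly_prs hd) hx g3 ((v + u) * (4 * (v + (u + 1) * u) + 10) + 1) ?_).congr fun a => ?_
  · intro a k hk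
    have hps : ∀ r ∈ (prs (d a)).drop k, r ≤ d a := fun r hr => prs_le (List.mem_of_mem_drop hr)
    have e0 := hu a
    have e1 := hv a
    rw [key _ _ _ hps]
    have e2 : ((prs (d a)).drop k).length ≤ d a + 1 := by
      rw [List.length_drop]
      have := length_prs (d a)
      omega
    have h1 := bnd_foldr_Pl _ _ _ hps (bnd_sz (x a))
    have h2 := length_foldr_Pl (d := d a) ((prs (d a)).drop k) (x a)
    have h3 : max (x a).length (d a) ≤ sz (x a) + d a := by
      have := length_lt_sz (x a); omega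
    refine (sz_bnd h1 (h2.trans h3)).trans ?_
    simp only [Polynomial.eval_add, Polynomial.eval_mul, Polynomial.eval_ofNat, Polynomial.eval_one]
    refine Nat.add_le_add_right (Nat.mul_le_mul (by omega) ?_) _
    refine Nat.add_le_add_right (Nat.mul_le_mul_left _ ?_) _
    refine Nat.add_le_add e1 (Nat.mul_le_mul (by omega) e0)
  · exact key _ _ _ fun r hr => prs_le hr

theorem poly_nf {d : α → ℕ} {c : α → ℕ → ℤ} (hd : UPoly d) (hc : Poly (fun p : α × ℕ => c p.1 p.2)) :
    Poly (fun a => nf (d a) (c a)) := by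
  unfold Run7.h700.G.nf
  exact poly_nfl hd (Poly.map hd.range hc)

theorem bnd_nf {d M : ℕ} {c : ℕ → ℤ} (h : ∀ k, (c k).natAbs ≤ 2 ^ M) :
    bnd (M + (d + 1) * d) (nf d c) := by
  rw [nf]
  refine bnd_nfl fun a ha => ?_
  obtain ⟨k, _, rfl⟩ := List.mem_map.1 ha
  exact h k

/-! ### List arithmetic -/

theorem poly_mulL {d : α → ℕ} {x y : α → List ℤ} (hd : UPoly d) (hx : Poly x) (hy : Poly y) :
    Poly (fun a => mulL (d a) (x a) (y a)) := by
  unfold Run7.h700.G.mulL
  refine poly_nf hd ?_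
  have h1 : UPoly (fun p : α × ℕ => d p.1) := hd.comp (Poly.fst Poly.id)
  have f1 : Poly (fun p : (α × ℕ) × ℕ => p.1.1) := Poly.fst (Poly.fst Poly.id)
  have gd : Poly (fun p : (α × ℕ) × ℕ => d p.1.1) := (Poly.ofU hd).comp f1
  have gx : Poly (fun p : (α × ℕ) × ℕ => x p.1.1) := hx.comp f1
  have gy : Poly (fun p : (α × ℕ) × ℕ => y p.1.1) := hy.comp f1
  exact Poly.isum (Poly.map (F := fun (p : α × ℕ) i => (x p.1).getD i 0 *
    (y p.1).getD ((p.2 + (d p.1 - i)) % d p.1) 0) h1.range (Poly.imul (Poly.getD gx (Poly.snd Poly.id)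
      (Poly.const 0)) (Poly.getD gy (Poly.mod (Poly.add (Poly.snd (Poly.fst Poly.id))
        (Poly.sub gd (Poly.snd Poly.id))) gd) (Poly.const 0))))

theorem poly_sigL {d c : α → ℕ} {x : α → List ℤ} (hd : UPoly d) (hc : Poly c) (hx : Poly x) :
    Poly (fun a => sigL (d a) (c a) (x a)) := by
  unfold Run7.h700.G.sigL
  refine poly_nf hd ?_
  have h2 : Poly (fun p : α × ℕ => d p.1) := (Poly.ofU hd).comp (Poly.fst Poly.id)
  have h3 : Poly (fun p : α × ℕ => c p.1) := hc.comp (Poly.fst Poly.id)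
  have h4 : Poly (fun p : α × ℕ => x p.1) := hx.comp (Poly.fst Poly.id)
  exact Poly.getD h4 (Poly.mod (Poly.mul h3 (Poly.snd Poly.id)) h2) (Poly.const 0)

theorem poly_conjL {d : α → ℕ} {x : α → List ℤ} (hd : UPoly d) (hx : Poly x) :
    Poly (fun a => conjL (d a) (x a)) := by
  unfold Run7.h700.G.conjL
  exact poly_sigL hd (Poly.sub (Poly.ofU hd) (Poly.const 1)) hx

theorem poly_divL {x : α → List ℤ} {e : α → ℤ} (hx : Poly x) (he : Poly e) :
    Poly (fun a => divL (x a) (e a)) := by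
  unfold Run7.h700.G.divL
  exact Poly.map (F := fun a (b : ℤ) => b / e a) hx (Poly.ediv (Poly.snd Poly.id)
    (he.comp (Poly.fst Poly.id)))

theorem poly_modL {Q : α → ℕ} {x : α → List ℤ} (hQ : Poly Q) (hx : Poly x) :
    Poly (fun a => modL (Q a) (x a)) := by
  unfold Run7.h700.G.modL
  exact Poly.map (F := fun a (b : ℤ) => b % (Q a : ℤ)) hx (Poly.emod (Poly.snd Poly.id)
    (Poly.natCast (hQ.comp (Poly.fst Poly.id))))

theorem poly_smulL {e : α → ℤ} {x : α → List ℤ} (he : Poly e) (hx : Poly x) :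
    Poly (fun a => smulL (e a) (x a)) := by
  unfold Run7.h700.G.smulL
  exact Poly.map (F := fun a (b : ℤ) => e a * b) hx (Poly.imul (he.comp (Poly.fst Poly.id))
    (Poly.snd Poly.id))

theorem poly_cmod {Q : α → ℕ} {x : α → ℤ} (hQ : Poly Q) (hx : Poly x) :
    Poly (fun a => cmod (Q a) (x a)) := by
  unfold Run7.h700.G.cmod
  fun_prop

theorem poly_cmodL {Q : α → ℕ} {x : α → List ℤ} (hQ : Poly Q) (hx : Poly x) :
    Poly (fun a => cmodL (Q a) (x a)) := by
  unfold Run7.h700.G.cmodL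
  exact Poly.map (F := fun a (b : ℤ) => cmod (Q a) b) hx (poly_cmod (hQ.comp (Poly.fst Poly.id))
    (Poly.snd Poly.id))

theorem poly_intL {d : α → ℕ} {e : α → ℤ} (hd : UPoly d) (he : Poly e) :
    Poly (fun a => intL (d a) (e a)) := by
  unfold Run7.h700.G.intL
  exact poly_nf hd (Poly.ite (Poly.decide_eq (Poly.snd Poly.id) (Poly.const 0))
    (he.comp (Poly.fst Poly.id)) (Poly.const 0))

theorem poly_zL {d m : α → ℕ} (hd : UPoly d) (hm : Poly m) :
    Poly (fun a => zL (d a) (m a)) := by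
  unfold Run7.h700.G.zL
  exact poly_nf hd (Poly.ite (Poly.decide_eq (Poly.snd Poly.id) (Poly.mod (hm.comp (Poly.fst Poly.id))
    ((Poly.ofU hd).comp (Poly.fst Poly.id)))) (Poly.const 1) (Poly.const 0))

theorem poly_subL {d : α → ℕ} {x y : α → List ℤ} (hd : UPoly d) (hx : Poly x) (hy : Poly y) :
    Poly (fun a => subL (d a) (x a) (y a)) := by
  unfold Run7.h700.G.subL
  exact poly_nf hd (Poly.isub (Poly.getD (hx.comp (Poly.fst Poly.id)) (Poly.snd Poly.id)
    (Poly.const 0)) (Poly.getD (hy.comp (Poly.fst Poly.id)) (Poly.snd Poly.id) (Poly.const 0)))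

theorem poly_addL {d : α → ℕ} {x y : α → List ℤ} (hd : UPoly d) (hx : Poly x) (hy : Poly y) :
    Poly (fun a => addL (d a) (x a) (y a)) := by
  unfold Run7.h700.G.addL
  exact poly_nf hd (Poly.iadd (Poly.getD (hx.comp (Poly.fst Poly.id)) (Poly.snd Poly.id)
    (Poly.const 0)) (Poly.getD (hy.comp (Poly.fst Poly.id)) (Poly.snd Poly.id) (Poly.const 0)))

/-! ### Bounds -/

theorem length_nfG (d : ℕ) (c : ℕ → ℤ) : (nf d c).length ≤ d := by
  rw [nf]
  refine (length_nfl_le _ _).trans ?_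
  simp

theorem length_modL (Q : ℕ) (x : List ℤ) : (modL Q x).length = x.length := by simp [Run7.h700.G.modL]

theorem mem_modL_le {Q : ℕ} {x : List ℤ} (hQ : 0 < Q) : ∀ a ∈ modL Q x, a.natAbs ≤ Q := by
  intro a ha
  obtain ⟨b, _, rfl⟩ := List.mem_map.1 ha
  have hQ' : (0 : ℤ) < Q := by exact_mod_cast hQ
  have h1 := Int.emod_nonneg b hQ'.ne'
  have h2 := Int.emod_lt_of_pos b hQ'
  omega

theorem sz_modL {Q n : ℕ} {x : List ℤ} (hQ : 0 < Q) (hn : x.length ≤ n) :
    sz (modL Q x) ≤ n * (4 * Q.size + 6) + 1 :=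
  sz_ints (mem_modL_le hQ) (by simpa [Run7.h700.G.modL] using hn)

theorem mem_cmodL_le {Q : ℕ} {x : List ℤ} (hQ : 0 < Q) : ∀ a ∈ cmodL Q x, a.natAbs ≤ Q := by
  intro a ha
  obtain ⟨b, _, rfl⟩ := List.mem_map.1 ha
  have hQ' : (0 : ℤ) < Q := by exact_mod_cast hQ
  have h1 := Int.emod_nonneg b hQ'.ne'
  have h2 := Int.emod_lt_of_pos b hQ'
  simp only [Run7.h700.G.cmod]
  split_ifs <;> omega

theorem sz_cmodL {Q n : ℕ} {x : List ℤ} (hQ : 0 < Q) (hn : x.length ≤ n) :
    sz (cmodL Q x) ≤ n * (4 * Q.size + 6) + 1 :=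
  sz_ints (mem_cmodL_le hQ) (by simpa [Run7.h700.G.cmodL] using hn)

theorem length_mulG (d : ℕ) (x y : List ℤ) : (mulL d x y).length ≤ d := length_nfG _ _

theorem bnd_sigL {d c M : ℕ} {x : List ℤ} (h : bnd M x) : bnd (M + (d + 1) * d) (sigL d c x) :=
  bnd_nf fun _ => h.getD _

theorem bnd_intL {d : ℕ} {e : ℤ} {M : ℕ} (h : e.natAbs ≤ 2 ^ M) :
    bnd (M + (d + 1) * d) (intL d e) :=
  bnd_nf fun k => by split_ifs <;> simp [h]

theorem bnd_addL {d M : ℕ} {x y : List ℤ} (hx : bnd M x) (hy : bnd M y) :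
    bnd (M + 1 + (d + 1) * d) (addL d x y) :=
  bnd_nf fun k => by
    refine (Int.natAbs_add_le _ _).trans ?_
    have h1 := hx.getD k
    have h2 := hy.getD k
    rw [pow_succ]; omega

theorem bnd_mulL {d M N : ℕ} {x y : List ℤ} (hx : bnd M x) (hy : bnd N y) :
    bnd (M + N + d + (d + 1) * d) (mulL d x y) := by
  refine bnd_nf fun k => ?_
  have h2 : bnd (M + N) ((List.range d).map fun i => x.getD i 0 * y.getD ((k + (d - i)) % d) 0) := by
    intro b hb
    obtain ⟨i, _, rfl⟩ := List.mem_map.1 hb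
    rw [Int.natAbs_mul, pow_add]
    exact Nat.mul_le_mul (hx.getD _) (hy.getD _)
  have h3 := bnd_sum h2
  rw [List.length_map, List.length_range] at h3
  refine h3.trans ?_
  rw [pow_add _ (M + N), mul_comm]
  exact Nat.mul_le_mul_left _ ((Nat.le_succ d).trans (succ_le_two_pow d))

theorem poly_cop {d c : α → ℕ} (hd : UPoly d) (hc : Poly c) : Poly (fun a => cop (d a) (c a)) := by
  unfold Run7.h700.G.cop
  exact Poly.all (p := fun a (r : ℕ) => decide (c a % r ≠ 0)) (poly_prs hd) (Poly.decide_not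
    (Poly.decide_eq (Poly.mod (hc.comp (Poly.fst Poly.id)) (Poly.snd Poly.id)) (Poly.const 0)))

theorem poly_ul {d : α → ℕ} (hd : UPoly d) : Poly (fun a => ul (d a)) := by
  unfold Run7.h700.G.ul
  exact Poly.filter (p := fun a (c : ℕ) => cop (d a) c) hd.range
    (poly_cop (hd.comp (Poly.fst Poly.id)) (Poly.snd Poly.id))

theorem bnd_foldl_mulL {d K : ℕ} : ∀ (ys : List (List ℤ)) (M : ℕ) (w : List ℤ),
    (∀ y ∈ ys, bnd K y) → bnd M w →
    bnd (M + ys.length * (K + d + (d + 1) * d)) (ys.foldl (mulL d) w) := by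
  intro ys
  induction ys with
  | nil => intro M w _ h; simpa using h
  | cons y ys ih =>
    intro M w hy h
    rw [List.foldl_cons, List.length_cons]
    refine (ih _ _ (fun z hz => hy z (by simp [hz])) (bnd_mulL h (hy y (by simp)))).mono ?_
    apply le_of_eq; ring

theorem length_foldl_mulL {d : ℕ} (ys : List (List ℤ)) (w : List ℤ) :
    (ys.foldl (mulL d) w).length ≤ max w.length d := by
  rcases List.eq_nil_or_concat ys with h | ⟨zs, z, h⟩
  · rw [h, List.foldl_nil]; omega
  · rw [h, List.concat_eq_append, List.foldl_append, List.foldl_cons, List.foldl_nil]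
    have := length_mulG d (zs.foldl (mulL d) w) z
    omega

theorem poly_adjL {d : α → ℕ} {x : α → List ℤ} (hd : UPoly d) (hx : Poly x) :
    Poly (fun a => adjL (d a) (x a)) := by
  unfold Run7.h700.G.adjL
  have f1 : Poly (fun p : α × ℕ => p.1) := Poly.fst Poly.id
  have h0 : Poly (fun a => (ul (d a)).filter fun c => decide (c ≠ 1 % d a)) :=
    Poly.filter (p := fun a (c : ℕ) => decide (c ≠ 1 % d a)) (poly_ul hd) (Poly.decide_not
      (Poly.decide_eq (Poly.snd Poly.id) (Poly.mod (Poly.const 1) ((Poly.ofU hd).comp f1))))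
  have h1 : Poly (fun a => ((ul (d a)).filter fun c => decide (c ≠ 1 % d a)).map fun c =>
      sigL (d a) c (x a)) :=
    Poly.map (F := fun a c => sigL (d a) c (x a)) h0 (poly_sigL (hd.comp f1) (Poly.snd Poly.id)
      (hx.comp f1))
  have h2 : Poly (fun a => intL (d a) 1) := poly_intL hd (Poly.const 1)
  have f3 : Poly (fun p : α × List ℤ × List ℤ => p.1) := Poly.fst Poly.id
  have h3 : Poly (fun p : α × List ℤ × List ℤ => mulL (d p.1) p.2.1 p.2.2) :=
    poly_mulL (hd.comp f3) (Poly.fst (Poly.snd Poly.id)) (Poly.snd (Poly.snd Poly.id))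
  obtain ⟨u, hu⟩ := uLe hd
  obtain ⟨v, hv⟩ := hx.sz_le
  refine Poly.foldl h1 h2 h3 (u * (4 * (((u + 1) * u) +
    u * ((v + (u + 1) * u) + u + (u + 1) * u)) + 10) + 1) ?_
  intro a k hk
  have e0 := hu a
  have e1 := hv a
  set ys := (((ul (d a)).filter fun c => decide (c ≠ 1 % d a)).map fun c => sigL (d a) c (x a)).take k
    with hys
  have hK : ∀ y ∈ ys, bnd (sz (x a) + (d a + 1) * d a) y := by
    intro y hy
    obtain ⟨c, _, rfl⟩ := List.mem_map.1 (List.mem_of_mem_take hy)
    exact bnd_sigL (bnd_sz _)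
  have hb := bnd_foldl_mulL (d := d a) ys _ (intL (d a) 1) hK (bnd_intL (M := 0) (by simp))
  have hlen : ys.length ≤ d a := by
    rw [hys, List.length_take, List.length_map]
    refine (min_le_right _ _).trans ((List.length_filter_le _ _).trans ?_)
    rw [ul]
    refine (List.length_filter_le _ _).trans ?_
    simp
  have hlen2 : (ys.foldl (mulL (d a)) (intL (d a) 1)).length ≤ d a := by
    refine (length_foldl_mulL _ _).trans ?_
    have : (intL (d a) 1).length ≤ d a := length_nfG _ _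
    omega
  refine (sz_bnd hb hlen2).trans ?_
  simp only [Polynomial.eval_add, Polynomial.eval_mul, Polynomial.eval_one, Polynomial.eval_ofNat,
    zero_add]
  gcongr
  exact hlen.trans e0

end Pool.Agent.NPC
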