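import Pool.Agent.Run7.h700.G.PolyG1

/-!
# The algorithm runs in polynomial time, 2
-/

set_option linter.unusedSectionVars false
set_option linter.style.haveILetI false
set_option linter.unusedVariables false

namespace Pool.Agent.NPC

open Run7.h700 Run7.h700.G Pool.Agent.H687R2.LLL

variable {α β γ δ σ : Type} [TEnc α] [TEnc β] [TEnc γ] [TEnc δ] [TEnc σ]

/-! ### Lattices -/

theorem natAbs_clampG_le (B : ℕ) (a : ℤ) : (G.clamp B a).natAbs ≤ B := by
  rw [G.clamp]
  split_ifs with h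
  · exact h
  · simp

theorem poly_clamp {B : α → ℕ} {x : α → ℤ} (hB : Poly B) (hx : Poly x) :
    Poly (fun a => G.clamp (B a) (x a)) := by
  unfold Run7.h700.G.clamp
  exact Poly.ite (Poly.decide_le (Poly.natAbs hx) hB) hx (Poly.const 0)

theorem poly_kerX {n r Δ C : α → ℕ} {Φ : α → List (List ℤ)} (hn : UPoly n) (hr : UPoly r)
    (hΦ : Poly Φ) (hΔ : Poly Δ) (hC : Poly C) :
    Poly (fun a => kerX (n a) (r a) (Φ a) (Δ a) (C a)) := by
  unfold Run7.h700.kerX
  have hn' : Poly n := Poly.ofU hn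
  have e1 : UPoly (fun p : α × ℕ => r p.1) := hr.comp (Poly.fst Poly.id)
  have hnr : UPoly (fun a => n a + r a) := hn.add hr
  have f1 : Poly (fun p : (α × ℕ) × ℕ => p.1.1) := Poly.fst (Poly.fst Poly.id)
  have g1 : Poly (fun p : (α × ℕ) × ℕ => n p.1.1) := hn'.comp f1
  have g2 : Poly (fun p : (α × ℕ) × ℕ => C p.1.1) := hC.comp f1
  have g3 : Poly (fun p : (α × ℕ) × ℕ => Δ p.1.1) := hΔ.comp f1
  have g4 : Poly (fun p : (α × ℕ) × ℕ => Φ p.1.1) := hΦ.comp f1
  have g5 : Poly (fun p : (α × ℕ) × ℕ => p.1.2) := Poly.snd (Poly.fst Poly.id)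
  have g6 : Poly (fun p : (α × ℕ) × ℕ => p.2) := Poly.snd Poly.id
  have g7 : Poly (fun p : (α × ℕ) × ℕ => ((Φ p.1.1).getD p.1.2 []).getD p.2 0) :=
    Poly.getD (Poly.getD g4 g5 (Poly.const [])) g6 (Poly.const 0)
  have g8 : Poly (fun p : (α × ℕ) × ℕ => if p.1.2 < n p.1.1 then
      (C p.1.1 : ℤ) * (((Φ p.1.1).getD p.1.2 []).getD p.2 0 % (Δ p.1.1 : ℤ))
      else if p.1.2 = n p.1.1 + p.2 then (C p.1.1 : ℤ) * (Δ p.1.1 : ℤ) else 0) :=
    Poly.ite (Poly.decide_lt g5 g1) (Poly.imul (Poly.natCast g2) (Poly.emod g7 (Poly.natCast g3)))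
      (Poly.ite (Poly.decide_eq g5 (Poly.add g1 g6)) (Poly.imul (Poly.natCast g2)
        (Poly.natCast g3)) (Poly.const 0))
  exact Poly.map (F := fun a i => (List.range (r a)).map fun j =>
    if i < n a then (C a : ℤ) * (((Φ a).getD i []).getD j 0 % (Δ a : ℤ))
    else if i = n a + j then (C a : ℤ) * (Δ a : ℤ) else 0) hnr.range
    (Poly.map (F := fun (p : α × ℕ) j =>
      if p.2 < n p.1 then (C p.1 : ℤ) * (((Φ p.1).getD p.2 []).getD j 0 % (Δ p.1 : ℤ))
      else if p.2 = n p.1 + j then (C p.1 : ℤ) * (Δ p.1 : ℤ) else 0) e1.range g8)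

theorem poly_kerC {n r β : α → ℕ} (hn : UPoly n) (hr : UPoly r) (hβ : Poly β) :
    Poly (fun a => kerC (n a) (r a) (β a)) := by
  unfold Run7.h700.kerC
  have hn' : Poly n := Poly.ofU hn
  have hr' : Poly r := Poly.ofU hr
  exact Poly.mul (Poly.npow (Poly.const 2) (hn.add hr)) (Poly.add (Poly.mul hβ
    (Poly.add (Poly.const 1) (Poly.mul hn' hr'))) (Poly.const 1))

theorem poly_takeU {n : α → ℕ} {x : α → List β} (hn : UPoly n) (hx : Poly x) :
    Poly (fun a => (x a).take (n a)) :=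
  (Poly.take_length (l' := fun a => List.replicate (n a) ()) hx hn).congr fun a => by simp

theorem poly_kerShort {n r Δ β : α → ℕ} {Φ : α → List (List ℤ)} (hn : UPoly n) (hr : UPoly r)
    (hΦ : Poly Φ) (hΔ : Poly Δ) (hβ : Poly β) :
    Poly (fun a => kerShort (n a) (r a) (Φ a) (Δ a) (β a)) := by
  unfold Run7.h700.kerShort
  have hn' : Poly n := Poly.ofU hn
  have hr' : Poly r := Poly.ofU hr
  have hX : Poly (fun a => kerX (n a) (r a) (Φ a) (Δ a) (kerC (n a) (r a) (β a))) :=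
    poly_kerX hn hr hΦ hΔ (poly_kerC hn hr hβ)
  have h1 := Poly.relShort (T := fun a => sz (kerX (n a) (r a) (Φ a) (Δ a) (kerC (n a) (r a) (β a))))
    (β := fun a => β a * (1 + n a * r a)) hX (UPoly.sz hX)
    (Poly.mul hβ (Poly.add (Poly.const 1) (Poly.mul hn' hr')))
    (fun a => ⟨r a, kerX_len⟩) (fun a => kerX_nrm) (fun a => kerX_T)
  have e1 : UPoly (fun p : α × List ℤ => n p.1) := hn.comp (Poly.fst Poly.id)
  exact Poly.map (F := fun a (u : List ℤ) => u.take (n a)) h1 (poly_takeU e1 (Poly.snd Poly.id))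

theorem poly_kerG {n r Δ β : α → ℕ} {Φ : α → List (List ℤ)} (hn : UPoly n) (hr : UPoly r)
    (hΦ : Poly Φ) (hΔ : Poly Δ) (hβ : Poly β) :
    Poly (fun a => kerG (n a) (r a) (Φ a) (Δ a) (β a)) := by
  unfold Run7.h700.G.kerG
  exact Poly.map (F := fun a x => nfl (n a) x) (poly_kerShort hn hr hΦ hΔ hβ)
    (poly_nfl (hn.comp (Poly.fst Poly.id)) (Poly.snd Poly.id))

theorem length_kerG {n r Δ β : ℕ} {Φ : List (List ℤ)} : ∀ u ∈ kerG n r Φ Δ β, u.length ≤ n := by
  intro u hu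
  rw [kerG] at hu
  obtain ⟨v, hv, rfl⟩ := List.mem_map.1 hu
  rw [Run7.h700.kerShort] at hv
  obtain ⟨w, _, rfl⟩ := List.mem_map.1 hv
  refine (length_nfl_le _ _).trans ?_
  rw [List.length_take]; omega

theorem poly_mulMat {d : α → ℕ} {ms : α → List (List ℤ)} (hd : UPoly d) (hms : Poly ms) :
    Poly (fun a => G.mulMat (d a) (ms a)) := by
  unfold Run7.h700.G.mulMat
  have h2 : UPoly (fun a => (ms a).length * d a) := (UPoly.length hms).mul hd
  have e2 : UPoly (fun p : α × ℕ => (ms p.1).length * d p.1) := h2.comp (Poly.fst Poly.id)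
  have f1 : Poly (fun p : (α × ℕ) × ℕ => p.1.1) := Poly.fst (Poly.fst Poly.id)
  have gd : UPoly (fun p : (α × ℕ) × ℕ => d p.1.1) := hd.comp f1
  have gm : Poly (fun p : (α × ℕ) × ℕ => ms p.1.1) := hms.comp f1
  have g5 : Poly (fun p : (α × ℕ) × ℕ => p.1.2) := Poly.snd (Poly.fst Poly.id)
  have g6 : Poly (fun p : (α × ℕ) × ℕ => p.2) := Poly.snd Poly.id
  have g7 : Poly (fun p : (α × ℕ) × ℕ => (mulL (d p.1.1) (zL (d p.1.1) p.1.2)
      ((ms p.1.1).getD (p.2 / d p.1.1) [])).getD (p.2 % d p.1.1) 0) :=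
    Poly.getD (poly_mulL gd (poly_zL gd g5) (Poly.getD gm (Poly.div g6 (Poly.ofU gd)) (Poly.const [])))
      (Poly.mod g6 (Poly.ofU gd)) (Poly.const 0)
  exact Poly.map (F := fun a i => (List.range ((ms a).length * d a)).map fun j =>
    (mulL (d a) (zL (d a) i) ((ms a).getD (j / d a) [])).getD (j % d a) 0) hd.range
    (Poly.map (F := fun (p : α × ℕ) j =>
      (mulL (d p.1) (zL (d p.1) p.2) ((ms p.1).getD (j / d p.1) [])).getD (j % d p.1) 0) e2.range g7)

theorem poly_kerM {d Δ β : α → ℕ} {ms : α → List (List ℤ)} (hd : UPoly d) (hms : Poly ms)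
    (hΔ : Poly Δ) (hβ : Poly β) : Poly (fun a => G.kerM (d a) (ms a) (Δ a) (β a)) := by
  unfold Run7.h700.G.kerM
  exact poly_kerG hd ((UPoly.length hms).mul hd) (poly_mulMat hd hms) hΔ hβ

/-! ### Constants -/

theorem poly_C1 {d : α → ℕ} (hd : UPoly d) : Poly (fun a => R.C1 (d a)) := by
  unfold Run7.h700.G.R.C1
  exact Poly.npow (Poly.const 4) (hd.add (UPoly.const 1))

theorem poly_Kr {d ρ : α → ℕ} (hd : UPoly d) (hρ : UPoly ρ) : Poly (fun a => Kr (d a) (ρ a)) := by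
  unfold Run7.h700.G.Kr
  exact Poly.mul (Poly.mul (Poly.npow (Poly.ofU hd) (UPoly.const 4)) (poly_C1 hd))
    (Poly.npow (Poly.const 16) (hd.add hρ))

theorem poly_betaE {d E : α → ℕ} (hd : UPoly d) (hE : Poly E) : Poly (fun a => betaE (d a) (E a)) := by
  unfold Run7.h700.G.betaE
  exact Poly.mul (Poly.mul (poly_C1 hd) (Poly.ofU hd)) hE

theorem poly_BD {d K : α → ℕ} (hd : UPoly d) (hK : Poly K) : Poly (fun a => G.BD (d a) (K a)) := by
  unfold Run7.h700.G.BD
  have hd' := Poly.ofU hd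
  have h1 : UPoly (fun a => d a + 1) := hd.add (UPoly.const 1)
  exact Poly.npow (Poly.mul (Poly.mul (Poly.npow (Poly.const 16) h1) (Poly.npow hd' (UPoly.const 2)))
    (Poly.npow (Poly.add (Poly.mul (poly_C1 hd) hK) (Poly.const 1)) (UPoly.const 2))) h1

theorem poly_BS {d K n : α → ℕ} (hd : UPoly d) (hK : Poly K) (hn : Poly n) :
    Poly (fun a => G.BS (d a) (K a) (n a)) := by
  unfold Run7.h700.G.BS
  exact Poly.mul (poly_C1 hd) (Poly.mul hK (Poly.mul (Poly.mul (poly_BD hd hK) (poly_BD hd hK)) hn))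

theorem uPoly_loss {d K n : α → ℕ} (hd : UPoly d) (hK : Poly K) (hn : Poly n) :
    UPoly (fun a => loss (d a) (K a) (n a)) := by
  unfold Run7.h700.G.loss
  exact (UPoly.const 2).mul (UPoly.nsize (Poly.mul (Poly.mul (poly_BD hd hK) (poly_BD hd hK)) hn))

/-! ### Inverses modulo powers -/

theorem poly_inv0 {l : α → ℕ} {z : α → ℤ} (hl : UPoly l) (hz : Poly z) :
    UPoly (fun a => G.inv0 (l a) (z a)) := by
  unfold Run7.h700.G.inv0
  have g1 : Poly (fun p : α × ℕ => z p.1) := hz.comp (Poly.fst Poly.id)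
  have g2 : Poly (fun p : α × ℕ => l p.1) := (Poly.ofU hl).comp (Poly.fst Poly.id)
  exact poly_find (p := fun a (t : ℕ) => decide ((z a * (t : ℤ)) % (l a : ℤ) = 1)) hl
    (Poly.decide_eq (Poly.emod (Poly.imul g1 (Poly.natCast (Poly.snd Poly.id))) (Poly.natCast g2))
      (Poly.const 1))

theorem emod_natAbs_le {Q : ℕ} (hQ : 0 < Q) (b : ℤ) : (b % (Q : ℤ)).natAbs ≤ Q := by
  have hQ' : (0 : ℤ) < Q := by exact_mod_cast hQ
  have h1 := Int.emod_nonneg b hQ'.ne'
  have h2 := Int.emod_lt_of_pos b hQ'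
  omega

theorem poly_invZ {l Q T : α → ℕ} {z : α → ℤ} (hl : UPoly l) (hQ : Poly Q) (hT : UPoly T)
    (hz : Poly z) (hQ0 : ∀ a, 0 < Q a) : Poly (fun a => G.invZ (l a) (Q a) (T a) (z a)) := by
  unfold Run7.h700.G.invZ
  have h0 : Poly (fun a => ((G.inv0 (l a) (z a) : ℕ) : ℤ)) := Poly.natCast (Poly.ofU (poly_inv0 hl hz))
  have g1 : Poly (fun p : α × ℤ => z p.1) := hz.comp (Poly.fst Poly.id)
  have g2 : Poly (fun p : α × ℤ => Q p.1) := hQ.comp (Poly.fst Poly.id)
  have g3 : Poly (fun p : α × ℤ => (p.2 * (2 - z p.1 * p.2)) % (Q p.1 : ℤ)) :=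
    Poly.emod (Poly.imul (Poly.snd Poly.id) (Poly.isub (Poly.const 2)
      (Poly.imul g1 (Poly.snd Poly.id)))) (Poly.natCast g2)
  obtain ⟨q, hq⟩ := h0.sz_le
  obtain ⟨r, hr⟩ := hQ.sz_le
  refine Poly.iterU (F := fun a (x : ℤ) => (x * (2 - z a * x)) % (Q a : ℤ)) hT h0 g3
    (q + (4 * r + 5)) ?_
  intro a k _
  simp only [Polynomial.eval_add, Polynomial.eval_mul, Polynomial.eval_ofNat]
  cases k with
  | zero =>
    have := hq a
    rw [Function.iterate_zero]
    simp only [id]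
    omega
  | succ k =>
    rw [Function.iterate_succ_apply']
    set y := (fun x : ℤ => (x * (2 - z a * x)) % (Q a : ℤ))^[k] ((G.inv0 (l a) (z a) : ℕ) : ℤ)
    have h1 := sz_int_le ((y * (2 - z a * y)) % (Q a : ℤ))
    have h2 := Nat.size_le_size (emod_natAbs_le (hQ0 a) (y * (2 - z a * y)))
    have h3 := size_le_sz (Q a)
    have h4 := hr a
    omega

theorem natAbs_ediv_nat_le (a : ℤ) (r : ℕ) : (a / (r : ℤ)).natAbs ≤ a.natAbs := by
  rcases Nat.eq_zero_or_pos r with h | h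
  · subst h; simp
  · have hr : (0 : ℤ) < r := by exact_mod_cast h
    rcases le_or_gt 0 a with h1 | h1
    · have e1 := Int.ediv_nonneg h1 hr.le
      have e2 := Int.ediv_le_self (r : ℤ) h1
      omega
    · have e1 : a / (r : ℤ) ≤ 0 := by
        have := Int.ediv_lt_of_lt_mul hr (show a < 1 * r by nlinarith)
        omega
      have e2 : a ≤ a / (r : ℤ) := Int.le_ediv_of_mul_le hr (by nlinarith)
      omega

theorem strip_iter {r M : ℕ} {s : ℤ × List ℤ} (h : bnd M s.2) (k : ℕ) :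
    ((strip r)^[k] s).1.natAbs ≤ s.1.natAbs ∧ bnd M ((strip r)^[k] s).2 ∧
      ((strip r)^[k] s).2.length = s.2.length := by
  induction k with
  | zero => exact ⟨le_rfl, h, rfl⟩
  | succ k ih =>
    rw [Function.iterate_succ_apply']
    set t := (strip r)^[k] s
    obtain ⟨h1, h2, h3⟩ := ih
    rw [strip]
    split_ifs with h4
    · refine ⟨(natAbs_ediv_nat_le _ _).trans h1, ?_, ?_⟩
      · intro a ha
        simp only [G.divL, List.mem_map] at ha
        obtain ⟨b, hb, rfl⟩ := ha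
        exact (natAbs_ediv_nat_le _ _).trans (h2 b hb)
      · simp only [G.divL, List.length_map]; exact h3
    · exact ⟨h1, h2, h3⟩

theorem poly_strips {r T : α → ℕ} {E : α → ℤ} {W : α → List ℤ} (hr : Poly r) (hT : UPoly T)
    (hE : Poly E) (hW : Poly W) : Poly (fun a => (strip (r a))^[T a] (E a, W a)) := by
  have f1 : Poly (fun p : α × ℤ × List ℤ => p.1) := Poly.fst Poly.id
  have g1 : Poly (fun p : α × ℤ × List ℤ => (r p.1 : ℤ)) := Poly.natCast (hr.comp f1)
  have g2 : Poly (fun p : α × ℤ × List ℤ => p.2.1) := Poly.fst (Poly.snd Poly.id)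
  have g3 : Poly (fun p : α × ℤ × List ℤ => p.2.2) := Poly.snd (Poly.snd Poly.id)
  have h1 : Poly (fun p : α × ℤ × List ℤ => strip (r p.1) p.2) := by
    unfold Run7.h700.G.strip
    exact Poly.ite (Poly.decide_eq (Poly.emod g2 g1) (Poly.const 0))
      (Poly.pair (Poly.ediv g2 g1) (poly_divL g3 g1)) (Poly.snd Poly.id)
  obtain ⟨u, hu⟩ := hE.sz_le
  obtain ⟨v, hv⟩ := hW.sz_le
  refine Poly.iterU (F := fun a s => strip (r a) s) hT (Poly.pair hE hW) h1
    ((4 * u + 5) + (v * (4 * v + 10) + 1) + 1) ?_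
  intro a k _
  obtain ⟨e1, e2, e3⟩ := strip_iter (r := r a) (s := (E a, W a)) (bnd_sz (W a)) k
  have e4 := sz_int_le ((strip (r a))^[k] (E a, W a)).1
  have e5 : ((strip (r a))^[k] (E a, W a)).1.natAbs.size ≤ (E a).natAbs.size := Nat.size_le_size e1
  have e6 := size_natAbs_le_sz (E a)
  have e7 := hu a
  have e8 := hv a
  have e9 := sz_bnd e2 (e3.le.trans (length_lt_sz (W a)).le)
  have e10 : sz (W a) * (4 * sz (W a) + 10) ≤ v.eval (sz a) * (4 * v.eval (sz a) + 10) := by gcongr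
  have e11 : sz ((strip (r a))^[k] (E a, W a)) = sz ((strip (r a))^[k] (E a, W a)).1 +
    sz ((strip (r a))^[k] (E a, W a)).2 + 1 := sz_pair _ _
  simp only [Polynomial.eval_add, Polynomial.eval_mul, Polynomial.eval_ofNat, Polynomial.eval_one]
  rw [e11]
  omega

theorem poly_rdiv {r Q T : α → ℕ} {E : α → ℤ} {W : α → List ℤ} (hr : UPoly r) (hQ : Poly Q)
    (hQ0 : ∀ a, 0 < Q a) (hT : UPoly T) (hE : Poly E) (hW : Poly W) :
    Poly (fun a => rdiv (r a) (Q a) (T a) (E a) (W a)) := by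
  unfold Run7.h700.G.rdiv
  have h1 := poly_strips (Poly.ofU hr) hT hE hW
  exact poly_modL hQ (poly_smulL (poly_invZ hr hQ hT (Poly.fst h1) hQ0) (Poly.snd h1))

theorem length_rdiv {r Q T : ℕ} {E : ℤ} {W : List ℤ} : (rdiv r Q T E W).length = W.length := by
  rw [rdiv, length_modL]
  simp only [G.smulL, List.length_map]
  exact (strip_iter (r := r) (s := (E, W)) (bnd_sz W) T).2.2

/-! ### The chain -/

theorem poly_EE {st : α → G.StT} (h : Poly st) : Poly (fun a => G.EE (st a)) := by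
  unfold Run7.h700.G.EE
  exact Poly.imul (Poly.imul (Poly.fst (Poly.snd h)) (Poly.fst (Poly.snd h)))
    (Poly.natCast (Poly.snd (Poly.snd h)))

theorem poly_pick {S : α → List (List ℤ)} (hS : Poly S) : Poly (fun a => G.pick (S a)) := by
  unfold Run7.h700.G.pick
  have g4 : Poly (fun p : α × List ℤ => decide ((p.2.map fun a => a * a).sum ≠ 0)) :=
    Poly.decide_not (Poly.decide_eq (Poly.isum (Poly.map (F := fun (p : α × List ℤ) (b : ℤ) => b * b)
      (Poly.snd Poly.id) (Poly.imul (Poly.snd Poly.id) (Poly.snd Poly.id)))) (Poly.const 0))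
  exact Poly.optGetD (Poly.head? (Poly.filter (p := fun a (s : List ℤ) =>
    decide ((s.map fun a => a * a).sum ≠ 0)) hS g4)) (Poly.const [])

theorem poly_vv {st : α → G.StT} (h : Poly st) : Poly (fun a => G.vv (st a)) := by
  unfold Run7.h700.G.vv
  exact poly_pick (Poly.fst h)

theorem poly_hh {d : α → ℕ} {st : α → G.StT} (hd : UPoly d) (h : Poly st) :
    Poly (fun a => G.hh (d a) (st a)) := by
  unfold Run7.h700.G.hh
  exact poly_divL (poly_mulL hd (poly_vv h) (poly_conjL hd (poly_vv h))) (poly_EE h)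

theorem poly_HH {d : α → ℕ} {st : α → G.StT} (hd : UPoly d) (h : Poly st) :
    Poly (fun a => G.HH (d a) (st a)) := by
  unfold Run7.h700.G.HH
  exact poly_adjL hd (poly_hh hd h)

theorem poly_NN {d K : α → ℕ} {st : α → G.StT} (hd : UPoly d) (hK : Poly K) (h : Poly st) :
    Poly (fun a => G.NN (d a) (K a) (st a)) := by
  unfold Run7.h700.G.NN
  exact poly_clamp (poly_BD hd hK) (Poly.getD (poly_mulL hd (poly_hh hd h) (poly_HH hd h))
    (Poly.const 0) (Poly.const 0))

theorem poly_ZZ {d : α → ℕ} {st : α → G.StT} (hd : UPoly d) (h : Poly st) :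
    Poly (fun a => G.ZZ (d a) (st a)) := by
  unfold Run7.h700.G.ZZ
  have g1 : UPoly (fun p : α × List ℤ => d p.1) := hd.comp (Poly.fst Poly.id)
  have g2 : Poly (fun p : α × List ℤ => G.vv (st p.1)) := (poly_vv h).comp (Poly.fst Poly.id)
  have g3 : Poly (fun p : α × List ℤ => G.EE (st p.1)) := (poly_EE h).comp (Poly.fst Poly.id)
  exact Poly.map (F := fun a s => G.divL (G.mulL (d a) (G.vv (st a)) (G.conjL (d a) s)) (G.EE (st a)))
    (Poly.fst h) (poly_divL (poly_mulL g1 g2 (poly_conjL g1 (Poly.snd Poly.id))) g3)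

theorem poly_WW {d : α → ℕ} {S0 : α → List (List ℤ)} {bit : α → Bool} (hd : UPoly d) (hS : Poly S0)
    (hb : Poly bit) : Poly (fun a => G.WW (d a) (S0 a) (bit a)) := by
  unfold Run7.h700.G.WW
  exact Poly.ite (Poly.decide_bool hb) hS (Poly.cons (poly_intL hd (Poly.const 1)) (Poly.const []))

theorem poly_mults {d : α → ℕ} {S0 : α → List (List ℤ)} {bit : α → Bool} {st : α → G.StT}
    (hd : UPoly d) (hS : Poly S0) (hb : Poly bit) (h : Poly st) :
    Poly (fun a => G.mults (d a) (S0 a) (bit a) (st a)) := by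
  unfold Run7.h700.G.mults
  have hZ := poly_ZZ hd h
  have hW := poly_WW hd hS hb
  have hH := poly_HH hd h
  have f1 : Poly (fun p : ((α × List ℤ) × List ℤ) × List ℤ => p.1.1.1) :=
    Poly.fst (Poly.fst (Poly.fst Poly.id))
  have gl : UPoly (fun p : ((α × List ℤ) × List ℤ) × List ℤ => d p.1.1.1) := hd.comp f1
  have gH : Poly (fun p : ((α × List ℤ) × List ℤ) × List ℤ => G.HH (d p.1.1.1) (st p.1.1.1)) :=
    hH.comp f1
  have g1 : Poly (fun p : ((α × List ℤ) × List ℤ) × List ℤ => p.1.1.2) :=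
    Poly.snd (Poly.fst (Poly.fst Poly.id))
  have g2 : Poly (fun p : ((α × List ℤ) × List ℤ) × List ℤ => p.1.2) := Poly.snd (Poly.fst Poly.id)
  have g3 : Poly (fun p : ((α × List ℤ) × List ℤ) × List ℤ => p.2) := Poly.snd Poly.id
  have k1 := poly_mulL gl (poly_mulL gl (poly_mulL gl g1 g2) gH) (poly_conjL gl g3)
  have w2 : Poly (fun p : (α × List ℤ) × List ℤ => G.WW (d p.1.1) (S0 p.1.1) (bit p.1.1)) :=
    hW.comp (Poly.fst (Poly.fst Poly.id))
  have k2 := Poly.map (F := fun (p : (α × List ℤ) × List ℤ) u =>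
    G.mulL (d p.1.1) (G.mulL (d p.1.1) (G.mulL (d p.1.1) p.1.2 p.2) (G.HH (d p.1.1) (st p.1.1)))
      (G.conjL (d p.1.1) u)) w2 k1
  have w1 : Poly (fun p : α × List ℤ => G.ZZ (d p.1) (st p.1)) := hZ.comp (Poly.fst Poly.id)
  have k3 := Poly.flatMap (F := fun (p : α × List ℤ) z' => (G.WW (d p.1) (S0 p.1) (bit p.1)).map
    fun u => G.mulL (d p.1) (G.mulL (d p.1) (G.mulL (d p.1) p.2 z') (G.HH (d p.1) (st p.1)))
      (G.conjL (d p.1) u)) w1 k2
  exact Poly.flatMap (F := fun a z => (G.ZZ (d a) (st a)).flatMap fun z' =>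
    (G.WW (d a) (S0 a) (bit a)).map fun u =>
      G.mulL (d a) (G.mulL (d a) (G.mulL (d a) z z') (G.HH (d a) (st a))) (G.conjL (d a) u)) hZ k3

theorem poly_pe' {n : α → ℕ} {bit : α → Bool} (hn : Poly n) (hb : Poly bit) :
    Poly (fun a => G.pe' (n a) (bit a)) := by
  unfold Run7.h700.G.pe'
  exact Poly.ite (Poly.decide_bool hb) hn (Poly.const 1)

theorem poly_newE {d K n : α → ℕ} {bit : α → Bool} {st : α → G.StT} (hd : UPoly d) (hK : Poly K)
    (hn : Poly n) (hb : Poly bit) (h : Poly st) :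
    Poly (fun a => newE (d a) (K a) (n a) (bit a) (st a)) := by
  unfold Run7.h700.G.newE
  have hN := Poly.natAbs (poly_NN hd hK h)
  exact Poly.mul (Poly.mul hN hN) (poly_pe' hn hb)

theorem poly_newS {d K n : α → ℕ} {S0 : α → List (List ℤ)} {bit : α → Bool} {st : α → G.StT}
    (hd : UPoly d) (hK : Poly K) (hn : Poly n) (hS : Poly S0) (hb : Poly bit) (h : Poly st) :
    Poly (fun a => G.newS (d a) (K a) (n a) (S0 a) (bit a) (st a)) := by
  unfold Run7.h700.G.newS
  have hE := poly_newE hd hK hn hb h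
  have hk := poly_takeU hd (poly_kerM hd (poly_mults hd hS hb h) (Poly.max (Poly.const 1) hE)
    (poly_betaE hd hE))
  have gB : Poly (fun q : (α × List ℤ) × ℤ => G.BS (d q.1.1) (K q.1.1) (n q.1.1)) :=
    (poly_BS hd hK hn).comp (Poly.fst (Poly.fst Poly.id))
  have g1 := Poly.map (F := fun (q : α × List ℤ) (x : ℤ) => G.clamp (G.BS (d q.1) (K q.1) (n q.1)) x)
    (l := fun q : α × List ℤ => q.2) (Poly.snd Poly.id) (poly_clamp gB (Poly.snd Poly.id))
  exact Poly.map (F := fun a (s : List ℤ) => s.map (G.clamp (G.BS (d a) (K a) (n a)))) hk g1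

theorem poly_stepS {d K n : α → ℕ} {S0 : α → List (List ℤ)} {bit : α → Bool} {st : α → G.StT}
    (hd : UPoly d) (hK : Poly K) (hn : Poly n) (hS : Poly S0) (hb : Poly bit) (h : Poly st) :
    Poly (fun a => stepS (d a) (K a) (n a) (S0 a) (bit a) (st a)) := by
  unfold Run7.h700.G.stepS
  exact Poly.pair (poly_newS hd hK hn hS hb h) (Poly.pair (poly_NN hd hK h) (poly_pe' hn hb))

theorem poly_newC {d n r Q T : α → ℕ} {bit : α → Bool} {st : α → G.StT} {c : α → List ℤ}
    (hd : UPoly d) (hn : Poly n) (hr : UPoly r) (hQ : Poly Q) (hQ0 : ∀ a, 0 < Q a) (hT : UPoly T)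
    (hb : Poly bit) (h : Poly st) (hc : Poly c) :
    Poly (fun a => G.newC (d a) (n a) (r a) (Q a) (T a) (bit a) (st a) (c a)) := by
  unfold Run7.h700.G.newC
  have hv := poly_vv h
  exact poly_rdiv hr hQ hQ0 hT (Poly.imul (poly_EE h) (poly_EE h)) (poly_modL hQ (poly_smulL
    (Poly.natCast (poly_pe' hn hb)) (poly_mulL hd (poly_mulL hd hc hc) (poly_mulL hd
      (poly_mulL hd hv hv) (poly_HH hd h)))))

theorem poly_initSt {d : α → ℕ} (hd : UPoly d) : Poly (fun a => G.initSt (d a)) := by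
  unfold Run7.h700.G.initSt
  exact Poly.pair (Poly.map (F := fun a i => zL (d a) i) hd.range
    (poly_zL (hd.comp (Poly.fst Poly.id)) (Poly.snd Poly.id))) (Poly.const (1, 1))

theorem sz_stepS {d K n : ℕ} {S0 : List (List ℤ)} {bit : Bool} {st : G.StT} :
    sz (stepS d K n S0 bit st) ≤
      (d * (d * (4 * (G.BS d K n).size + 6) + 2) + 1) + (4 * (G.BD d K).size + 5) +
        (4 * n.size + 5) + 2 := by
  have h1 : sz (G.newS d K n S0 bit st) ≤ d * (d * (4 * (G.BS d K n).size + 6) + 2) + 1 := by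
    refine (sz_le_length_mul _ (d * (4 * (G.BS d K n).size + 6) + 1) fun u hu => ?_).trans ?_
    · rw [Run7.h700.G.newS] at hu
      obtain ⟨v, hv, rfl⟩ := List.mem_map.1 hu
      refine sz_ints (fun a ha => ?_) ?_
      · obtain ⟨b, _, rfl⟩ := List.mem_map.1 ha
        exact natAbs_clampG_le _ _
      · rw [List.length_map]
        exact length_kerG _ (List.mem_of_mem_take hv)
    · refine Nat.add_le_add_right (Nat.mul_le_mul_right _ ?_) _
      rw [Run7.h700.G.newS, List.length_map, List.length_take]; omega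
  have h2 : sz (G.NN d K st) ≤ 4 * (G.BD d K).size + 5 := by
    refine (sz_int_le _).trans ?_
    have := Nat.size_le_size (natAbs_clampG_le (G.BD d K) ((G.mulL d (G.hh d st) (G.HH d st)).getD 0 0))
    rw [Run7.h700.G.NN]
    omega
  have h3 : sz (G.pe' n bit) ≤ 4 * n.size + 5 := by
    refine (sz_nat_le _).trans ?_
    rw [Run7.h700.G.pe']
    split_ifs
    · omega
    · have : Nat.size 1 = 1 := Nat.size_one
      omega
  rw [Run7.h700.G.stepS]
  simp only [sz_pair]
  omega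

theorem sz_newC {d n r Q T : ℕ} {bit : Bool} {st : G.StT} {c : List ℤ} (hQ : 0 < Q) :
    sz (G.newC d n r Q T bit st c) ≤ d * (4 * Q.size + 6) + 1 := by
  rw [G.newC, rdiv]
  refine sz_modL hQ ?_
  have h := length_rdiv (r := r) (Q := Q) (T := T) (E := G.EE st * G.EE st) (W := G.modL Q (G.smulL
    (G.pe' n bit : ℤ) (G.mulL d (G.mulL d c c) (G.mulL d (G.mulL d (G.vv st) (G.vv st)) (G.HH d st)))))
  rw [rdiv, length_modL] at h
  rw [h, length_modL]
  simp only [G.smulL, List.length_map]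
  exact length_mulG _ _ _

theorem poly_chain {d K n r Q T k : α → ℕ} {S0 : α → List (List ℤ)}
    (hd : UPoly d) (hK : Poly K) (hn : Poly n) (hS : Poly S0) (hr : UPoly r) (hQ : Poly Q)
    (hQ0 : ∀ a, 0 < Q a) (hT : UPoly T) (hk : Poly k) :
    Poly (fun a => chain (d a) (K a) (n a) (S0 a) (r a) (Q a) (T a) (k a)) := by
  unfold Run7.h700.G.chain
  have f1 : Poly (fun q : α × Bool × G.StT × List ℤ => q.1) := Poly.fst Poly.id
  have f2 : Poly (fun q : α × Bool × G.StT × List ℤ => q.2.1) := Poly.fst (Poly.snd Poly.id)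
  have f3 : Poly (fun q : α × Bool × G.StT × List ℤ => q.2.2.1) :=
    Poly.fst (Poly.snd (Poly.snd Poly.id))
  have f4 : Poly (fun q : α × Bool × G.StT × List ℤ => q.2.2.2) :=
    Poly.snd (Poly.snd (Poly.snd Poly.id))
  have h1 := Poly.pair (poly_stepS (hd.comp f1) (hK.comp f1) (hn.comp f1) (hS.comp f1) f2 f3)
    (poly_newC (hd.comp f1) (hn.comp f1) (hr.comp f1) (hQ.comp f1) (fun q => hQ0 q.1) (hT.comp f1)
      f2 f3 f4)
  have h2 := Poly.pair (poly_initSt hd) (poly_intL hd (Poly.const 1))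
  obtain ⟨u, hu⟩ := uLe hd
  obtain ⟨r1, hr1⟩ := (poly_BS hd hK hn).sz_le
  obtain ⟨r2, hr2⟩ := (poly_BD hd hK).sz_le
  obtain ⟨r3, hr3⟩ := hn.sz_le
  obtain ⟨r4, hr4⟩ := hQ.sz_le
  obtain ⟨r5, hr5⟩ := h2.sz_le
  refine Poly.foldr (l := fun a => (k a).bits) (s := fun a => (G.initSt (d a), G.intL (d a) 1))
    (F := fun a b s => (stepS (d a) (K a) (n a) (S0 a) b s.1,
      G.newC (d a) (n a) (r a) (Q a) (T a) b s.1 s.2)) (Poly.natBits hk) h2 h1
    ((u * (u * (4 * r1 + 6) + 2) + 1) + (4 * r2 + 5) + (4 * r3 + 5) + 2 + (u * (4 * r4 + 6) + 1) + 1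
      + r5) ?_
  intro a j _
  simp only [Polynomial.eval_add, Polynomial.eval_mul, Polynomial.eval_ofNat, Polynomial.eval_one]
  have e0 := hu a
  have e1 : (G.BS (d a) (K a) (n a)).size ≤ r1.eval (sz a) := by
    have := size_le_sz (G.BS (d a) (K a) (n a)); have := hr1 a; omega
  have e2 : (G.BD (d a) (K a)).size ≤ r2.eval (sz a) := by
    have := size_le_sz (G.BD (d a) (K a)); have := hr2 a; omega
  have e3 : (n a).size ≤ r3.eval (sz a) := by
    have := size_le_sz (n a); have := hr3 a; omega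
  have e4 : (Q a).size ≤ r4.eval (sz a) := by
    have := size_le_sz (Q a); have := hr4 a; omega
  cases hd : ((k a).bits.drop j) with
  | nil =>
    rw [List.foldr_nil]
    have := hr5 a
    omega
  | cons b bl =>
    rw [List.foldr_cons, sz_pair]
    refine (Nat.add_le_add_right (Nat.add_le_add sz_stepS (sz_newC (hQ0 a))) 1).trans ?_
    refine le_trans ?_ (Nat.le_add_right _ _)
    gcongr

theorem poly_powB {d Q k : α → ℕ} {x : α → List ℤ} (hd : UPoly d) (hQ : Poly Q)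
    (hQ0 : ∀ a, 0 < Q a) (hk : Poly k) (hx : Poly x) :
    Poly (fun a => powB (d a) (Q a) (k a) (x a)) := by
  unfold Run7.h700.G.powB
  have f1 : Poly (fun q : α × Bool × List ℤ => q.1) := Poly.fst Poly.id
  have f2 : Poly (fun q : α × Bool × List ℤ => q.2.1) := Poly.fst (Poly.snd Poly.id)
  have f3 : Poly (fun q : α × Bool × List ℤ => q.2.2) := Poly.snd (Poly.snd Poly.id)
  have g1 := hd.comp f1
  have g2 := hQ.comp f1
  have h1 := poly_modL g2 (poly_mulL g1 (poly_modL g2 (poly_mulL g1 f3 f3))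
    (Poly.ite (Poly.decide_bool f2) (hx.comp f1) (poly_intL g1 (Poly.const 1))))
  have h2 := poly_intL hd (Poly.const 1)
  obtain ⟨u, hu⟩ := uLe hd
  obtain ⟨r4, hr4⟩ := hQ.sz_le
  obtain ⟨r5, hr5⟩ := h2.sz_le
  refine Poly.foldr (l := fun a => (k a).bits) (s := fun a => G.intL (d a) 1)
    (F := fun a b y => G.modL (Q a) (G.mulL (d a) (G.modL (Q a) (G.mulL (d a) y y))
      (if b = true then x a else G.intL (d a) 1))) (Poly.natBits hk) h2 h1
    ((u * (4 * r4 + 6) + 1) + r5) ?_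
  intro a j _
  simp only [Polynomial.eval_add, Polynomial.eval_mul, Polynomial.eval_ofNat, Polynomial.eval_one]
  have e0 := hu a
  have e4 : (Q a).size ≤ r4.eval (sz a) := by
    have := size_le_sz (Q a); have := hr4 a; omega
  cases hd : ((k a).bits.drop j) with
  | nil =>
    rw [List.foldr_nil]
    have := hr5 a
    omega
  | cons b bl =>
    rw [List.foldr_cons]
    refine (sz_modL (hQ0 a) (length_mulG _ _ _)).trans ?_
    refine le_trans ?_ (Nat.le_add_right _ _)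
    gcongr

end Pool.Agent.NPC
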