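import Pool.Agent.Run7.h700.G.PolyG2

/-!
# The algorithm runs in polynomial time, 3
-/

set_option linter.unusedSectionVars false
set_option linter.style.haveILetI false
set_option linter.unusedVariables false

namespace Pool.Agent.NPC

open Run7.h700 Run7.h700.G Pool.Agent.H687R2.LLL

variable {α β γ δ σ : Type} [TEnc α] [TEnc β] [TEnc γ] [TEnc δ] [TEnc σ]

theorem poly_Gb {d K n : α → ℕ} (hd : UPoly d) (hK : Poly K) (hn : Poly n) :
    Poly (fun a => Gb (d a) (K a) (n a)) := by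
  unfold Run7.h700.G.Gb
  exact Poly.mul (Poly.const 2) (Poly.mul (poly_C1 hd) (Poly.mul (Poly.ofU hd)
    (Poly.mul (Poly.mul (poly_BD hd hK) (poly_BD hd hK)) hn)))

theorem uPoly_Mx {d K n : α → ℕ} (hd : UPoly d) (hK : Poly K) (hn : Poly n) :
    UPoly (fun a => Mx (d a) (K a) (n a)) := by
  unfold Run7.h700.G.Mx
  exact UPoly.nsize (poly_Gb hd hK hn)

theorem uPoly_mx {d K n : α → ℕ} (hd : UPoly d) (hK : Poly K) (hn : Poly n) :
    UPoly (fun a => mx (d a) (K a) (n a)) := by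
  unfold Run7.h700.G.mx
  exact hd.mul (uPoly_Mx hd hK hn)

theorem uPoly_TT {d K n l j : α → ℕ} (hd : UPoly d) (hK : Poly K) (hn : Poly n) (hl : Poly l)
    (hj : UPoly j) : UPoly (fun a => TT (d a) (K a) (n a) (l a) (j a)) := by
  unfold Run7.h700.G.TT
  exact ((UPoly.nsize (Poly.npow hl (uPoly_mx hd hK hn))).mul (uPoly_loss hd hK hn)).add hj

theorem poly_chl {d K n l r j : α → ℕ} {S0 : α → List (List ℤ)} (hd : UPoly d) (hK : Poly K)
    (hn : Poly n) (hS : Poly S0) (hl : Poly l) (hr : UPoly r) (hr0 : ∀ a, 0 < r a) (hj : UPoly j) :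
    Poly (fun a => chl (d a) (K a) (n a) (S0 a) (l a) (r a) (j a)) := by
  unfold Run7.h700.G.chl
  have hT := uPoly_TT hd hK hn hl hj
  exact poly_chain hd hK hn hS hr (Poly.npow (Poly.ofU hr) hT) (fun a => pow_pos (hr0 a) _) hT
    (Poly.npow hl (uPoly_mx hd hK hn))

theorem poly_gL {d K n l : α → ℕ} {S0 : α → List (List ℤ)} {B : α → List ℤ} (hd : UPoly d)
    (hK : Poly K) (hn : Poly n) (hS : Poly S0) (hl : UPoly l) (hl0 : ∀ a, 0 < l a) (hB : Poly B) :
    Poly (fun a => gL (d a) (K a) (n a) (S0 a) (l a) (B a)) := by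
  unfold Run7.h700.G.gL
  have hM := uPoly_Mx hd hK hn
  have hl' := Poly.ofU hl
  have hQ := Poly.npow hl' hM
  exact poly_cmodL hQ (poly_mulL hd (poly_powB hd hQ (fun a => pow_pos (hl0 a) _)
    (Poly.npow hl' (uPoly_mx hd hK hn)) hB) (Poly.snd (poly_chl hd hK hn hS hl' hl hl0 hM)))

theorem poly_powA {d K n l r j : α → ℕ} {S0 : α → List (List ℤ)} {B : α → List ℤ} (hd : UPoly d)
    (hK : Poly K) (hn : Poly n) (hS : Poly S0) (hl : UPoly l) (hl0 : ∀ a, 0 < l a) (hB : Poly B)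
    (hr : UPoly r) (hr0 : ∀ a, 0 < r a) (hj : UPoly j) :
    Poly (fun a => powA (d a) (K a) (n a) (S0 a) (l a) (B a) (r a) (j a)) := by
  unfold Run7.h700.G.powA
  have hl' := Poly.ofU hl
  have hj' := (uPoly_loss hd hK hn).add hj
  have hT := uPoly_TT hd hK hn hl' hj'
  have hc := poly_chl hd hK hn hS hl' hr hr0 hj'
  exact poly_rdiv hr (Poly.npow (Poly.ofU hr) hT) (fun a => pow_pos (hr0 a) _) hT
    (poly_EE (Poly.fst hc)) (poly_mulL hd (Poly.snd hc) (poly_conjL hd (poly_gL hd hK hn hS hl hl0 hB)))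

theorem poly_invL {d r M : α → ℕ} {b : α → List ℤ} (hd : UPoly d) (hr : UPoly r)
    (hr0 : ∀ a, 0 < r a) (hM : UPoly M) (hb : Poly b) :
    Poly (fun a => invL (d a) (r a) (M a) (b a)) := by
  unfold Run7.h700.G.invL
  exact poly_smulL (poly_invZ hr (Poly.npow (Poly.ofU hr) hM) hM (Poly.getD (poly_mulL hd hb
    (poly_conjL hd hb)) (Poly.const 0) (Poly.const 0)) (fun a => pow_pos (hr0 a) _)) (poly_conjL hd hb)

theorem poly_y0 {l1 l2 m1 m2 : α → ℕ} (h1 : UPoly l1) (h10 : ∀ a, 0 < l1 a) (h2 : Poly l2)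
    (hm1 : UPoly m1) (hm2 : UPoly m2) : Poly (fun a => y0 (l1 a) (l2 a) (m1 a) (m2 a)) := by
  unfold Run7.h700.G.y0
  exact Poly.toNat (poly_invZ h1 (Poly.npow (Poly.ofU h1) hm1) hm1 (Poly.natCast (Poly.npow h2 hm2))
    (fun a => pow_pos (h10 a) _))

theorem poly_twoP {d K n l1 l2 : α → ℕ} {S0 : α → List (List ℤ)} {b1 b2 : α → List ℤ}
    (hd : UPoly d) (hK : Poly K) (hn : Poly n) (hS : Poly S0) (h1 : UPoly l1) (h10 : ∀ a, 0 < l1 a)
    (h2 : UPoly l2) (h20 : ∀ a, 0 < l2 a) (hb1 : Poly b1) (hb2 : Poly b2) :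
    Poly (fun a => twoP (d a) (K a) (n a) (S0 a) (l1 a) (l2 a) (b1 a) (b2 a)) := by
  unfold Run7.h700.G.twoP
  have hM := uPoly_Mx hd hK hn
  have hm := uPoly_mx hd hK hn
  have hQ := Poly.npow (Poly.ofU h1) hM
  have hQ0 : ∀ a, 0 < l1 a ^ Mx (d a) (K a) (n a) := fun a => pow_pos (h10 a) _
  exact poly_cmodL hQ (poly_mulL hd hb1 (poly_powB hd hQ hQ0 (poly_y0 h1 h10 (Poly.ofU h2) hm hm)
    (poly_mulL hd (poly_powA hd hK hn hS h2 h20 (poly_invL hd h2 h20 hM hb2) h1 h10 hM)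
      (poly_powB hd hQ hQ0 (Poly.npow (Poly.ofU h2) hm) (poly_invL hd h1 h10 hM hb1)))))

theorem poly_rstep {d Q l m : α → ℕ} {B y : α → List ℤ} (hd : UPoly d) (hQ : Poly Q)
    (hQ0 : ∀ a, 0 < Q a) (hl : Poly l) (hm : UPoly m) (hB : Poly B) (hy : Poly y) :
    Poly (fun a => G.rstep (d a) (Q a) (l a) (m a) (B a) (y a)) := by
  unfold Run7.h700.G.rstep
  have hp := Poly.npow hl hm
  exact poly_modL hQ (poly_subL hd hy (poly_mulL hd hy (poly_divL (poly_subL hd (poly_modL hQ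
    (poly_mulL hd hB (poly_powB hd hQ hQ0 hp hy))) (poly_intL hd (Poly.const 1)))
    (Poly.natCast hp))))

theorem poly_rootL {d Q l m N : α → ℕ} {B : α → List ℤ} (hd : UPoly d) (hQ : Poly Q)
    (hQ0 : ∀ a, 0 < Q a) (hl : Poly l) (hm : UPoly m) (hN : UPoly N) (hB : Poly B) :
    Poly (fun a => G.rootL (d a) (Q a) (l a) (m a) (N a) (B a)) := by
  unfold Run7.h700.G.rootL
  have f1 : Poly (fun q : α × List ℤ => q.1) := Poly.fst Poly.id
  have h1 := poly_rstep (α := α × List ℤ) (hd.comp f1) (hQ.comp f1) (fun q => hQ0 q.1)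
    (hl.comp f1) (hm.comp f1) (hB.comp f1) (y := fun q => q.2) (Poly.snd Poly.id)
  have h2 : Poly (fun a => G.intL (d a) 1) := poly_intL hd (Poly.const 1)
  obtain ⟨u, hu⟩ := uLe hd
  obtain ⟨r, hr⟩ := hQ.sz_le
  obtain ⟨v, hv⟩ := h2.sz_le
  refine Poly.iterU (F := fun a y => G.rstep (d a) (Q a) (l a) (m a) (B a) y) hN h2 h1
    (u * (4 * r + 6) + 1 + v) ?_
  intro a k _
  simp only [Polynomial.eval_add, Polynomial.eval_mul, Polynomial.eval_ofNat, Polynomial.eval_one]
  have e0 := hu a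
  have e4 : (Q a).size ≤ r.eval (sz a) := by
    have := size_le_sz (Q a); have := hr a; omega
  cases k with
  | zero =>
    rw [Function.iterate_zero]
    have := hv a
    simp only [id]
    omega
  | succ k =>
    rw [Function.iterate_succ_apply']
    refine le_trans ?_ (Nat.le_add_right _ _)
    rw [Run7.h700.G.rstep]
    refine (sz_modL (n := d a) (hQ0 a) ?_).trans (by gcongr)
    rw [Run7.h700.G.subL]; exact length_nfG _ _

theorem poly_corr {d n l M : α → ℕ} {κ : α → List ℤ} (hd : UPoly d) (hn : Poly n) (hl : UPoly l)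
    (hl0 : ∀ a, 0 < l a) (hM : UPoly M) (hκ : Poly κ) :
    Poly (fun a => corr (d a) (n a) (l a) (M a) (κ a)) := by
  unfold Run7.h700.G.corr
  exact poly_smulL (poly_invZ hl (Poly.npow (Poly.ofU hl) hM) hM (Poly.natCast hn)
    (fun a => pow_pos (hl0 a) _)) (poly_conjL hd hκ)

theorem poly_oneP {d K n l : α → ℕ} {S0 : α → List (List ℤ)} {κ : α → List ℤ}
    (hd : UPoly d) (hK : Poly K) (hn : Poly n) (hS : Poly S0) (hl : UPoly l) (hl0 : ∀ a, 0 < l a)
    (hκ : Poly κ) : Poly (fun a => oneP (d a) (K a) (n a) (S0 a) (l a) (κ a)) := by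
  unfold Run7.h700.G.oneP
  have hM := uPoly_Mx hd hK hn
  have hm := uPoly_mx hd hK hn
  have hl' := Poly.ofU hl
  have hMm := hM.add hm
  have hQ := Poly.npow hl' hMm
  have hQ0 : ∀ a, 0 < l a ^ (Mx (d a) (K a) (n a) + mx (d a) (K a) (n a)) :=
    fun a => pow_pos (hl0 a) _
  have hc := poly_corr hd hn hl hl0 hMm hκ
  exact poly_cmodL (Poly.npow hl' hM) (poly_smulL (Poly.natCast hn) (poly_conjL hd (poly_mulL hd
    (poly_rootL hd hQ hQ0 hl' hm (hd.mul hM) (poly_mulL hd (poly_powA hd hK hn hS hl hl0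
      (poly_intL hd (Poly.const (-1))) hl hl0 hMm) (poly_powB hd hQ hQ0 (Poly.npow hl' hm) hc))) hc)))

/-! ### The table -/

theorem uPoly_oo {d a b : α → ℕ} (hd : UPoly d) (ha : Poly a) (hb : Poly b) :
    UPoly (fun x => oo (d x) (a x) (b x)) := by
  unfold Run7.h700.G.oo
  have f1 : Poly (fun p : α × ℕ => p.1) := Poly.fst Poly.id
  have g1 := (Poly.ofU hd).comp f1
  have g2 : Poly (fun p : α × ℕ => p.2 + 1) := Poly.add (Poly.snd Poly.id) (Poly.const 1)
  exact (poly_find (p := fun x e => decide ((e + 1) * a x % d x = 0) && decide ((e + 1) * b x % d x = 0))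
    hd (Poly.and (Poly.decide_eq (Poly.mod (Poly.mul g2 (ha.comp f1)) g1) (Poly.const 0))
      (Poly.decide_eq (Poly.mod (Poly.mul g2 (hb.comp f1)) g1) (Poly.const 0)))).add (UPoly.const 1)

theorem uPoly_eps {d l : α → ℕ} (hd : UPoly d) (hl : Poly l) : UPoly (fun x => eps (d x) (l x)) := by
  unfold Run7.h700.G.eps
  have f1 : Poly (fun p : α × ℕ => p.1) := Poly.fst Poly.id
  have g1 := (Poly.ofU hd).comp f1
  have g2 := (Poly.ofU (uPoly_pw hd hl)).comp f1
  exact poly_find (p := fun x e => decide (e % pw (d x) (l x) = 0) &&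
    decide (e % (d x / pw (d x) (l x)) = 1 % (d x / pw (d x) (l x)))) hd
    (Poly.and (Poly.decide_eq (Poly.mod (Poly.snd Poly.id) g2) (Poly.const 0))
      (Poly.decide_eq (Poly.mod (Poly.snd Poly.id) (Poly.div g1 g2))
        (Poly.mod (Poly.const 1) (Poly.div g1 g2))))

theorem bnd_foldl_addL {d M : ℕ} : ∀ (xs : List (List ℤ)) (N : ℕ) (w : List ℤ), M ≤ N →
    (∀ y ∈ xs, bnd M y) → bnd N w →
    bnd (N + xs.length * (1 + (d + 1) * d)) (xs.foldl (G.addL d) w) := by
  intro xs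
  induction xs with
  | nil => intro N w _ _ h; simpa using h
  | cons y ys ih =>
    intro N w hMN hy h
    rw [List.foldl_cons, List.length_cons]
    refine (ih _ _ ?_ (fun z hz => hy z (by simp [hz])) (bnd_addL h ((hy y (by simp)).mono hMN))).mono ?_
    · omega
    · apply le_of_eq; ring

theorem length_foldl_addL {d : ℕ} (ys : List (List ℤ)) (w : List ℤ) :
    (ys.foldl (G.addL d) w).length ≤ max w.length d := by
  rcases List.eq_nil_or_concat ys with h | ⟨zs, z, h⟩
  · rw [h, List.foldl_nil]; omega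
  · rw [h, List.concat_eq_append, List.foldl_append, List.foldl_cons, List.foldl_nil]
    have : (G.addL d (zs.foldl (G.addL d) w) z).length ≤ d := length_nfG _ _
    omega

theorem poly_sumL {d : α → ℕ} {xs : α → List (List ℤ)} (hd : UPoly d) (hx : Poly xs) :
    Poly (fun a => sumL (d a) (xs a)) := by
  unfold Run7.h700.G.sumL
  have f3 : Poly (fun p : α × List ℤ × List ℤ => p.1) := Poly.fst Poly.id
  have h3 : Poly (fun p : α × List ℤ × List ℤ => G.addL (d p.1) p.2.1 p.2.2) :=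
    poly_addL (hd.comp f3) (Poly.fst (Poly.snd Poly.id)) (Poly.snd (Poly.snd Poly.id))
  have h2 : Poly (fun a => G.intL (d a) 0) := poly_intL hd (Poly.const 0)
  obtain ⟨u, hu⟩ := uLe hd
  obtain ⟨v, hv⟩ := hx.sz_le
  refine Poly.foldl hx h2 h3 (u * (4 * ((v + ((u + 1) * u)) + v * (1 + (u + 1) * u)) + 10) + 1) ?_
  intro a k hk
  have e0 := hu a
  have e1 := hv a
  have hK : ∀ y ∈ (xs a).take k, bnd (sz (xs a)) y := by
    intro y hy
    have h5 := sz_le_of_mem (List.mem_of_mem_take hy)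
    exact (bnd_sz y).mono h5.le
  have hb := bnd_foldl_addL (d := d a) ((xs a).take k) (sz (xs a) + (d a + 1) * d a) (G.intL (d a) 0)
    (by omega) hK ((bnd_intL (M := 0) (by simp)).mono (by omega))
  have hlen : ((xs a).take k).length ≤ v.eval (sz a) := by
    rw [List.length_take]
    have := length_lt_sz (xs a)
    omega
  have hlen2 : (((xs a).take k).foldl (G.addL (d a)) (G.intL (d a) 0)).length ≤ d a := by
    refine (length_foldl_addL _ _).trans ?_
    have : (G.intL (d a) 0).length ≤ d a := length_nfG _ _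
    omega
  refine (sz_bnd hb hlen2).trans ?_
  simp only [Polynomial.eval_add, Polynomial.eval_mul, Polynomial.eval_one, Polynomial.eval_ofNat]
  gcongr

theorem length_sumL (d : ℕ) (xs : List (List ℤ)) : (sumL d xs).length ≤ d := by
  rw [sumL]
  refine (length_foldl_addL _ _).trans ?_
  have : (G.intL d 0).length ≤ d := length_nfG _ _
  omega

theorem poly_tget {d a b : α → ℕ} {tab : α → List (List ℤ)} (hd : Poly d) (ht : Poly tab)
    (ha : Poly a) (hb : Poly b) : Poly (fun x => tget (d x) (tab x) (a x) (b x)) := by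
  unfold Run7.h700.G.tget
  exact Poly.getD ht (Poly.add (Poly.mul (Poly.mod ha hd) hd) (Poly.mod hb hd)) (Poly.const [])

theorem poly_WL {d N a i : α → ℕ} (hd : UPoly d) (hN : UPoly N) (ha : Poly a) (hi : Poly i) :
    Poly (fun x => WL (d x) (N x) (a x) (i x)) := by
  unfold Run7.h700.G.WL
  have f1 : Poly (fun p : α × ℕ => p.1) := Poly.fst Poly.id
  have gd := hd.comp f1
  have gd' := Poly.ofU gd
  have gN := (Poly.ofU hN).comp f1
  exact poly_sumL hd (Poly.map (F := fun x u => zL (d x) ((a x + (d x - d x / N x * i x)) * u)) hN.range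
    (poly_zL gd (Poly.mul (Poly.add (ha.comp f1) (Poly.sub gd' (Poly.mul (Poly.div gd' gN)
      (hi.comp f1)))) (Poly.snd Poly.id))))

theorem poly_kapL {d N a b : α → ℕ} {tab : α → List (List ℤ)} (hd : UPoly d) (hN : UPoly N)
    (ht : Poly tab) (ha : Poly a) (hb : Poly b) :
    Poly (fun x => kapL (d x) (N x) (tab x) (a x) (b x)) := by
  unfold Run7.h700.G.kapL
  have f1 : Poly (fun p : (α × ℕ) × ℕ => p.1.1) := Poly.fst (Poly.fst Poly.id)
  have f2 : Poly (fun p : (α × ℕ) × ℕ => p.1.2) := Poly.snd (Poly.fst Poly.id)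
  have f3 : Poly (fun p : (α × ℕ) × ℕ => p.2) := Poly.snd Poly.id
  have gd := hd.comp f1
  have gd' := Poly.ofU gd
  have gN := hN.comp f1
  have gN' := Poly.ofU gN
  have gq := Poly.div gd' gN'
  have h1 := poly_mulL gd (poly_mulL gd (poly_WL gd gN (ha.comp f1) f2) (poly_WL gd gN (hb.comp f1) f3))
    (poly_tget gd' (ht.comp f1) (Poly.mul gq f2) (Poly.mul gq f3))
  have h2 := Poly.map (F := fun (p : α × ℕ) j => G.mulL (d p.1) (G.mulL (d p.1)
    (WL (d p.1) (N p.1) (a p.1) p.2) (WL (d p.1) (N p.1) (b p.1) j))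
    (tget (d p.1) (tab p.1) (d p.1 / N p.1 * p.2) (d p.1 / N p.1 * j))) (hN.comp (Poly.fst Poly.id)).range h1
  have h3 := Poly.flatMap (F := fun x i => (List.range (N x)).map fun j => G.mulL (d x) (G.mulL (d x)
    (WL (d x) (N x) (a x) i) (WL (d x) (N x) (b x) j))
    (tget (d x) (tab x) (d x / N x * i) (d x / N x * j))) hN.range h2
  have hN' := Poly.ofU hN
  exact poly_divL (poly_sumL hd h3) (Poly.natCast (Poly.mul hN' hN'))

theorem poly_bL {d l a b : α → ℕ} {tab : α → List (List ℤ)} (hd : UPoly d) (hl : Poly l)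
    (ht : Poly tab) (ha : Poly a) (hb : Poly b) :
    Poly (fun x => bL (d x) (l x) (tab x) (a x) (b x)) := by
  unfold Run7.h700.G.bL
  have he := Poly.ofU (uPoly_eps hd hl)
  exact poly_tget (Poly.ofU hd) ht (Poly.mul ha he) (Poly.mul hb he)

theorem getD_prs_pos (e i : ℕ) : 0 < (prs e).getD i 1 := by
  rcases Nat.lt_or_ge i (prs e).length with h | h
  · rw [List.getD_eq_getElem _ _ h]
    have := two_le_prs (List.getElem_mem h)
    omega
  · rw [List.getD_eq_default _ _ h]; exact Nat.one_pos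

theorem getD_prs_le (e i : ℕ) : (prs e).getD i 1 ≤ e + 1 := by
  rcases Nat.lt_or_ge i (prs e).length with h | h
  · rw [List.getD_eq_getElem _ _ h]
    have := prs_le (List.getElem_mem h)
    omega
  · rw [List.getD_eq_default _ _ h]; omega

theorem uPoly_getD_prs {e : α → ℕ} (he : UPoly e) (i : ℕ) : UPoly (fun x => (prs (e x)).getD i 1) :=
  UPoly.of_le (Poly.getD (poly_prs he) (Poly.const i) (Poly.const 1)) (he.add (UPoly.const 1))
    fun _ => getD_prs_le _ _

theorem poly_jmain {d K n a b : α → ℕ} {sg : α → List (List (List ℤ))} {tab : α → List (List ℤ)}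
    (hd : UPoly d) (hK : Poly K) (hn : Poly n) (hs : Poly sg) (ht : Poly tab) (ha : Poly a)
    (hb : Poly b) : Poly (fun x => jmain (d x) (K x) (n x) (sg x) (tab x) (a x) (b x)) := by
  unfold Run7.h700.G.jmain
  have ho := uPoly_oo hd ha hb
  have h0 := uPoly_getD_prs ho 0
  have h1 := uPoly_getD_prs ho 1
  have hS := Poly.getD hs (Poly.add (Poly.mul ha (Poly.ofU hd)) hb) (Poly.const [])
  have hN : UPoly (fun x => oo (d x) (a x) (b x) / (prs (oo (d x) (a x) (b x))).getD 0 1) :=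
    UPoly.of_le (Poly.div (Poly.ofU ho) (Poly.ofU h0)) ho fun _ => Nat.div_le_self _ _
  exact Poly.ite (Poly.decide_le (Poly.length (poly_prs ho)) (Poly.const 1))
    (poly_oneP hd hK hn hS h0 (fun _ => getD_prs_pos _ _) (poly_kapL hd hN ht ha hb))
    (poly_twoP hd hK hn hS h0 (fun _ => getD_prs_pos _ _) h1 (fun _ => getD_prs_pos _ _)
      (poly_bL hd (Poly.ofU h0) ht ha hb) (poly_bL hd (Poly.ofU h1) ht ha hb))

theorem poly_jac1 {d K n ι a b : α → ℕ} {sg : α → List (List (List ℤ))} {tab : α → List (List ℤ)}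
    (hd : UPoly d) (hK : Poly K) (hn : Poly n) (hι : Poly ι) (hs : Poly sg) (ht : Poly tab)
    (ha : Poly a) (hb : Poly b) :
    Poly (fun x => jac1 (d x) (K x) (n x) (ι x) (sg x) (tab x) (a x) (b x)) := by
  unfold Run7.h700.G.jac1
  have hd' := Poly.ofU hd
  have e1 := Poly.decide_eq (Poly.mod ha hd') (Poly.const 0)
  have e2 := Poly.decide_eq (Poly.mod hb hd') (Poly.const 0)
  exact Poly.ite (Poly.decide_and e1 e2) (poly_intL hd (Poly.isub (Poly.natCast hn) (Poly.const 2)))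
    (Poly.ite (Poly.decide_or e1 e2) (poly_intL hd (Poly.const (-1)))
      (Poly.ite (Poly.decide_eq (Poly.mod (Poly.add ha hb) hd') (Poly.const 0))
        (poly_smulL (Poly.const (-1)) (poly_zL hd (Poly.mul ha hι)))
        (poly_jmain hd hK hn hs ht ha hb)))

end Pool.Agent.NPC
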