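import Pool.Agent.Run7.h700.G.PolyG3

/-!
# The algorithm runs in polynomial time, 4
-/

set_option linter.unusedSectionVars false
set_option linter.style.haveILetI false
set_option linter.unusedVariables false

namespace Pool.Agent.NPC

open Run7.h700 Run7.h700.G Pool.Agent.H687R2.LLL

variable {α β γ δ σ : Type} [TEnc α] [TEnc β] [TEnc γ] [TEnc δ] [TEnc σ]

theorem oo_le (d a b : ℕ) : oo d a b ≤ d + 1 := by
  rw [oo]
  apply Nat.succ_le_succ
  cases h : (List.range d).filter fun e => decide ((e + 1) * a % d = 0) &&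
      decide ((e + 1) * b % d = 0) with
  | nil => simp
  | cons c l =>
    have h1 : c ∈ (List.range d).filter fun e => decide ((e + 1) * a % d = 0) &&
      decide ((e + 1) * b % d = 0) := by rw [h]; simp
    have h2 := List.mem_range.1 (List.mem_filter.1 h1).1
    simp only [List.head?_cons, Option.getD_some]
    omega

theorem pow_le_two_pow' {l d M : ℕ} (h : l ≤ d + 2) : l ^ M ≤ 2 ^ ((d + 2) * M) := by
  have h1 : l ≤ 2 ^ (d + 2) := h.trans ((Nat.le_succ _).trans (succ_le_two_pow _))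
  rw [pow_mul]
  exact Nat.pow_le_pow_left h1 _

theorem bnd_cmodL {d l M : ℕ} (h0 : 0 < l) (h : l ≤ d + 2) (x : List ℤ) :
    bnd ((d + 2) * M) (G.cmodL (l ^ M) x) := fun a ha =>
  (mem_cmodL_le (pow_pos h0 _) a ha).trans (pow_le_two_pow' h)

/-- The bound for the entries of the table. -/
def tB (d K n : ℕ) : ℕ := n.size + 3 + (d + 1) * d + (d + 2) * Mx d K n

theorem length_cmodL (Q : ℕ) (x : List ℤ) : (G.cmodL Q x).length = x.length := by
  simp [Run7.h700.G.cmodL]

theorem length_smulL (e : ℤ) (x : List ℤ) : (G.smulL e x).length = x.length := by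
  simp [Run7.h700.G.smulL]

theorem jac1_bnd {d K n ι a b : ℕ} {sg : List (List (List ℤ))} {tab : List (List ℤ)} :
    (jac1 d K n ι sg tab a b).length ≤ d ∧ bnd (tB d K n) (jac1 d K n ι sg tab a b) := by
  rw [jac1]
  have hint : ∀ e : ℤ, e.natAbs ≤ 2 ^ (n.size + 3) → bnd (tB d K n) (G.intL d e) := fun e he =>
    (bnd_intL he).mono (by rw [tB]; omega)
  have h1 : n < 2 ^ n.size := Nat.lt_size_self n
  have hpos : 0 < 2 ^ n.size := by positivity
  have h2 : 2 ^ (n.size + 3) = 2 ^ n.size * 8 := by rw [pow_add]; norm_num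
  split_ifs with g1 g2 g3
  · refine ⟨length_nfG _ _, hint _ ?_⟩
    omega
  · refine ⟨length_nfG _ _, hint _ ?_⟩
    have : (-1 : ℤ).natAbs = 1 := rfl
    omega
  · refine ⟨by rw [length_smulL]; exact length_nfG _ _, ?_⟩
    intro x hx
    obtain ⟨y, hy, rfl⟩ := List.mem_map.1 hx
    have h3 : bnd (0 + (d + 1) * d) (zL d (a * ι)) := bnd_nf fun k => by split_ifs <;> simp
    have h4 : bnd (tB d K n) (zL d (a * ι)) := h3.mono (by rw [tB]; omega)
    rw [neg_one_mul, Int.natAbs_neg]
    exact h4 y hy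
  · have h3 : ∀ i, (prs (oo d a b)).getD i 1 ≤ d + 2 := fun i => by
      have := getD_prs_le (oo d a b) i
      have := oo_le d a b
      omega
    rw [jmain]
    split_ifs with g4
    · rw [oneP]
      refine ⟨by rw [length_cmodL, length_smulL]; exact length_nfG _ _, ?_⟩
      exact (bnd_cmodL (getD_prs_pos _ _) (h3 _) _).mono (by rw [tB]; omega)
    · rw [twoP]
      refine ⟨by rw [length_cmodL]; exact length_nfG _ _, ?_⟩
      exact (bnd_cmodL (getD_prs_pos _ _) (h3 _) _).mono (by rw [tB]; omega)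

theorem uPoly_tB {d K n : α → ℕ} (hd : UPoly d) (hK : Poly K) (hn : Poly n) :
    UPoly (fun a => tB (d a) (K a) (n a)) := by
  unfold tB
  exact (((UPoly.nsize hn).add (UPoly.const 3)).add ((hd.add (UPoly.const 1)).mul hd)).add
    ((hd.add (UPoly.const 2)).mul (uPoly_Mx hd hK hn))

theorem poly_jround {d K n ι E : α → ℕ} {sg : α → List (List (List ℤ))} {tab : α → List (List ℤ)}
    (hd : UPoly d) (hK : Poly K) (hn : Poly n) (hι : Poly ι) (hs : Poly sg) (ht : Poly tab)
    (hE : Poly E) : Poly (fun x => jround (d x) (K x) (n x) (ι x) (sg x) (tab x) (E x)) := by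
  unfold Run7.h700.G.jround
  have f1 : Poly (fun p : α × ℕ => p.1) := Poly.fst Poly.id
  have f2 : Poly (fun p : α × ℕ => p.2) := Poly.snd Poly.id
  have gd := hd.comp f1
  have gd' := Poly.ofU gd
  have ha := Poly.div f2 gd'
  have hb := Poly.mod f2 gd'
  exact Poly.map (F := fun x i => if oo (d x) (i / d x) (i % d x) = E x + 1 then
    jac1 (d x) (K x) (n x) (ι x) (sg x) (tab x) (i / d x) (i % d x) else (tab x).getD i [])
    (hd.mul hd).range (Poly.ite (Poly.decide_eq (Poly.ofU (uPoly_oo gd ha hb))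
      (Poly.add (hE.comp f1) (Poly.const 1))) (poly_jac1 gd (hK.comp f1) (hn.comp f1) (hι.comp f1)
        (hs.comp f1) (ht.comp f1) ha hb) (Poly.getD (ht.comp f1) f2 (Poly.const [])))

theorem poly_jtab {d K n ι : α → ℕ} {sg : α → List (List (List ℤ))}
    (hd : UPoly d) (hK : Poly K) (hn : Poly n) (hι : Poly ι) (hs : Poly sg) :
    Poly (fun x => jtab (d x) (K x) (n x) (ι x) (sg x)) := by
  unfold Run7.h700.G.jtab
  have f1 : Poly (fun p : α × List (List ℤ) × ℕ => p.1) := Poly.fst Poly.id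
  have f2 : Poly (fun p : α × List (List ℤ) × ℕ => p.2.1) := Poly.fst (Poly.snd Poly.id)
  have f3 : Poly (fun p : α × List (List ℤ) × ℕ => p.2.2) := Poly.snd (Poly.snd Poly.id)
  have h1 := poly_jround (hd.comp f1) (hK.comp f1) (hn.comp f1) (hι.comp f1) (hs.comp f1) f2 f3
  obtain ⟨u, hu⟩ := uLe hd
  obtain ⟨v, hv⟩ := uLe (uPoly_tB hd hK hn)
  refine Poly.foldl (F := fun x tab E => jround (d x) (K x) (n x) (ι x) (sg x) tab E) hd.range
    (Poly.const []) h1 (u * u * (u * (4 * v + 10) + 2) + 1) ?_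
  intro a k _
  have e0 := hu a
  have e1 := hv a
  have key : ∀ l : List ℕ, (l.foldl (jround (d a) (K a) (n a) (ι a) (sg a)) []).length ≤ d a * d a ∧
      ∀ e ∈ l.foldl (jround (d a) (K a) (n a) (ι a) (sg a)) [],
        e.length ≤ d a ∧ bnd (tB (d a) (K a) (n a)) e := by
    intro l
    rcases List.eq_nil_or_concat l with h | ⟨zs, z, h⟩
    · subst h; simp
    · induction l using List.reverseRecOn generalizing zs z with
      | nil => simp at h
      | append_singleton l x ih =>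
        rw [List.foldl_append, List.foldl_cons, List.foldl_nil, jround]
        refine ⟨by simp, ?_⟩
        intro e he
        obtain ⟨i, _, rfl⟩ := List.mem_map.1 he
        split_ifs
        · exact jac1_bnd
        · set tab := l.foldl (jround (d a) (K a) (n a) (ι a) (sg a)) [] with htab
          rcases Nat.lt_or_ge i tab.length with h5 | h5
          · rw [List.getD_eq_getElem _ _ h5]
            rcases List.eq_nil_or_concat l with h6 | ⟨zs', z', h6⟩
            · subst h6; simp [htab] at h5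
            · exact (ih zs' z' h6).2 _ (List.getElem_mem h5)
          · rw [List.getD_eq_default _ _ h5]
            exact ⟨by simp, fun b hb => by simp at hb⟩
  obtain ⟨k1, k2⟩ := key ((List.range (d a)).take k)
  refine (sz_le_length_mul _ (d a * (4 * tB (d a) (K a) (n a) + 10) + 1) fun e he => ?_).trans ?_
  · obtain ⟨k3, k4⟩ := k2 e he
    exact sz_bnd k4 k3
  · simp only [Polynomial.eval_add, Polynomial.eval_mul, Polynomial.eval_one, Polynomial.eval_ofNat]
    refine Nat.add_le_add_right (Nat.mul_le_mul (k1.trans (Nat.mul_le_mul e0 e0)) ?_) _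
    have : d a * (4 * tB (d a) (K a) (n a) + 10) ≤ u.eval (sz a) * (4 * v.eval (sz a) + 10) := by
      gcongr
    omega

/-! ### The ideals -/

theorem poly_TL {d a b : α → ℕ} (hd : UPoly d) (ha : Poly a) (hb : Poly b) :
    Poly (fun x => TL (d x) (a x) (b x)) := by
  unfold Run7.h700.G.TL
  have f1 : Poly (fun p : α × ℕ => p.1) := Poly.fst Poly.id
  have f2 : Poly (fun p : α × ℕ => p.2) := Poly.snd Poly.id
  have gd := (Poly.ofU hd).comp f1
  exact Poly.filter (p := fun x (t : ℕ) => decide ((t * a x) % d x + (t * b x) % d x < d x))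
    (poly_ul hd) (Poly.decide_lt (Poly.add (Poly.mod (Poly.mul f2 (ha.comp f1)) gd)
      (Poly.mod (Poly.mul f2 (hb.comp f1)) gd)) gd)

theorem TL_lt {d a b t : ℕ} (h : t ∈ TL d a b) : t < d := by
  rw [TL, List.mem_filter, ul, List.mem_filter, List.mem_range] at h
  exact h.1.1

theorem poly_redMat {d w a b : α → ℕ} (hd : UPoly d) (hw : Poly w) (ha : Poly a) (hb : Poly b) :
    Poly (fun x => G.redMat (d x) (w x) (a x) (b x)) := by
  unfold Run7.h700.G.redMat
  have hT := poly_TL hd ha hb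
  have f1 : Poly (fun p : (α × ℕ) × ℕ => p.1.1) := Poly.fst (Poly.fst Poly.id)
  have gl : UPoly (fun p : (α × ℕ) × ℕ => d p.1.1) := hd.comp f1
  have gw : Poly (fun p : (α × ℕ) × ℕ => w p.1.1) := hw.comp f1
  have g5 : Poly (fun p : (α × ℕ) × ℕ => p.1.2) := Poly.snd (Poly.fst Poly.id)
  have g6 : Poly (fun p : (α × ℕ) × ℕ => p.2) := Poly.snd Poly.id
  have ge : UPoly (fun p : (α × ℕ) × ℕ => min (p.1.2 * p.2) (d p.1.1 * d p.1.1)) :=
    UPoly.of_le (Poly.min (Poly.mul g5 g6) (Poly.mul (Poly.ofU gl) (Poly.ofU gl))) (gl.mul gl)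
      fun _ => min_le_right _ _
  have gp : Poly (fun p : (α × ℕ) × ℕ =>
      ((w p.1.1 ^ (min (p.1.2 * p.2) (d p.1.1 * d p.1.1)) : ℕ) : ℤ)) :=
    Poly.natCast (Poly.npow gw ge)
  have gT : Poly (fun p : α × ℕ => TL (d p.1) (a p.1) (b p.1)) := hT.comp (Poly.fst Poly.id)
  have h2 := Poly.map (F := fun x i => (TL (d x) (a x) (b x)).map fun t =>
    ((w x ^ (min (i * t) (d x * d x)) : ℕ) : ℤ)) hd.range
    (Poly.map (F := fun (p : α × ℕ) t => ((w p.1 ^ (min (p.2 * t) (d p.1 * d p.1)) : ℕ) : ℤ)) gT gp)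
  refine h2.congr fun x => ?_
  refine List.map_congr_left fun i hi => List.map_congr_left fun t ht => ?_
  have e1 := List.mem_range.1 hi
  have e2 := TL_lt ht
  rw [min_eq_left (Nat.mul_le_mul e1.le e2.le)]

theorem poly_sgen {d p w a b : α → ℕ} (hd : UPoly d) (hp : Poly p) (hw : Poly w) (ha : Poly a)
    (hb : Poly b) : Poly (fun x => sgen (d x) (p x) (w x) (a x) (b x)) := by
  unfold Run7.h700.G.sgen
  exact poly_kerG hd (UPoly.length (poly_TL hd ha hb)) (poly_redMat hd hw ha hb) hp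
    (poly_betaE hd hp)

theorem poly_KP {d : α → ℕ} (hd : UPoly d) : Poly (fun x => KP (d x)) := by
  unfold Run7.h700.G.KP
  exact poly_Kr hd (hd.npow 4)

theorem poly_sgP {d p w : α → ℕ} (hd : UPoly d) (hp : Poly p) (hw : Poly w) :
    Poly (fun x => sgP (d x) (p x) (w x)) := by
  unfold Run7.h700.G.sgP
  have f1 : Poly (fun p : α × ℕ => p.1) := Poly.fst Poly.id
  have f2 : Poly (fun p : α × ℕ => p.2) := Poly.snd Poly.id
  have gd := hd.comp f1
  have gd' := Poly.ofU gd
  exact Poly.map (F := fun x i => sgen (d x) (p x) (w x) (i / d x) (i % d x)) (hd.mul hd).range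
    (poly_sgen gd (hp.comp f1) (hw.comp f1) (Poly.div f2 gd') (Poly.mod f2 gd'))

/-! ### Counting -/

theorem poly_getF {d : α → ℕ} {f : α → Fn} {i : α → ℕ} (hf : Poly f) (hi : Poly i) :
    Poly (fun x => (f x).1.getD (i x) []) := Poly.getD (Poly.fst hf) hi (Poly.const [])

theorem poly_convC {d Q m : α → ℕ} {tab : α → List (List ℤ)} {f g : α → Fn} (hd : UPoly d)
    (hQ : Poly Q) (ht : Poly tab) (hf : Poly f) (hg : Poly g) (hm : Poly m) :
    Poly (fun x => convC (d x) (Q x) (tab x) (f x) (g x) (m x)) := by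
  unfold Run7.h700.G.convC
  have f1 : Poly (fun p : α × ℕ => p.1) := Poly.fst Poly.id
  have f2 : Poly (fun p : α × ℕ => p.2) := Poly.snd Poly.id
  have gd := hd.comp f1
  have gd' := Poly.ofU gd
  have gf := hf.comp f1
  have gg := hg.comp f1
  have gm := hm.comp f1
  have gmi := Poly.add gm (Poly.sub gd' f2)
  exact poly_modL hQ (poly_addL hd (poly_addL hd (poly_mulL hd (Poly.snd hf) (Poly.getD (Poly.fst hg)
    hm (Poly.const []))) (poly_mulL hd (Poly.snd hg) (Poly.getD (Poly.fst hf) hm (Poly.const []))))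
    (poly_sumL hd (Poly.map (F := fun x i => G.mulL (d x) (G.mulL (d x) ((f x).1.getD i [])
      ((g x).1.getD ((m x + (d x - i)) % d x) [])) (tget (d x) (tab x) i (m x + (d x - i)))) hd.range
      (poly_mulL gd (poly_mulL gd (Poly.getD (Poly.fst gf) f2 (Poly.const []))
        (Poly.getD (Poly.fst gg) (Poly.mod gmi gd') (Poly.const [])))
        (poly_tget gd' (ht.comp f1) f2 gmi)))))

theorem poly_convZ {d Q n ι : α → ℕ} {f g : α → Fn} (hd : UPoly d)
    (hQ : Poly Q) (hn : Poly n) (hι : Poly ι) (hf : Poly f) (hg : Poly g) :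
    Poly (fun x => convZ (d x) (Q x) (n x) (ι x) (f x) (g x)) := by
  unfold Run7.h700.G.convZ
  have f1 : Poly (fun p : α × ℕ => p.1) := Poly.fst Poly.id
  have f2 : Poly (fun p : α × ℕ => p.2) := Poly.snd Poly.id
  have gd := hd.comp f1
  have gd' := Poly.ofU gd
  have gf := hf.comp f1
  have gg := hg.comp f1
  have gmi := Poly.mod (Poly.add (Poly.const 0) (Poly.sub gd' f2)) gd'
  exact poly_modL hQ (poly_addL hd (poly_mulL hd (Poly.snd hf) (Poly.snd hg))
    (poly_smulL (Poly.isub (Poly.natCast hn) (Poly.const 1)) (poly_sumL hd (Poly.map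
      (F := fun x i => G.mulL (d x) (G.mulL (d x) ((f x).1.getD i [])
        ((g x).1.getD ((0 + (d x - i)) % d x) [])) (zL (d x) ((0 + (d x - i)) % d x * ι x))) hd.range
      (poly_mulL gd (poly_mulL gd (Poly.getD (Poly.fst gf) f2 (Poly.const []))
        (Poly.getD (Poly.fst gg) gmi (Poly.const [])))
        (poly_zL gd (Poly.mul gmi (hι.comp f1))))))))

theorem poly_convF {d Q n ι : α → ℕ} {tab : α → List (List ℤ)} {f g : α → Fn} (hd : UPoly d)
    (hQ : Poly Q) (hn : Poly n) (hι : Poly ι) (ht : Poly tab) (hf : Poly f) (hg : Poly g) :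
    Poly (fun x => convF (d x) (Q x) (n x) (ι x) (tab x) (f x) (g x)) := by
  unfold Run7.h700.G.convF
  have f1 : Poly (fun p : α × ℕ => p.1) := Poly.fst Poly.id
  exact Poly.pair (Poly.map (F := fun x m => convC (d x) (Q x) (tab x) (f x) (g x) m) hd.range
    (poly_convC (hd.comp f1) (hQ.comp f1) (ht.comp f1) (hf.comp f1) (hg.comp f1) (Poly.snd Poly.id)))
    (poly_convZ hd hQ hn hι hf hg)

theorem poly_oneF {d : α → ℕ} (hd : UPoly d) : Poly (fun x => oneF (d x)) := by
  unfold Run7.h700.G.oneF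
  exact Poly.pair (Poly.map (F := fun x _ => G.intL (d x) 0) hd.range
    (poly_intL (hd.comp (Poly.fst Poly.id)) (Poly.const 0))) (poly_intL hd (Poly.const 1))

theorem poly_cstF {d : α → ℕ} {v : α → ℤ} (hd : UPoly d) (hv : Poly v) :
    Poly (fun x => cstF (d x) (v x)) := by
  unfold Run7.h700.G.cstF
  exact Poly.pair (Poly.map (F := fun x _ => G.intL (d x) 0) hd.range
    (poly_intL (hd.comp (Poly.fst Poly.id)) (Poly.const 0))) (poly_intL hd hv)

theorem poly_powF {d k i : α → ℕ} (hd : UPoly d) (hk : Poly k) (hi : Poly i) :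
    Poly (fun x => powF (d x) (k x) (i x)) := by
  unfold Run7.h700.G.powF
  have f1 : Poly (fun p : α × ℕ => p.1) := Poly.fst Poly.id
  have f2 : Poly (fun p : α × ℕ => p.2) := Poly.snd Poly.id
  have gd := hd.comp f1
  have gd' := Poly.ofU gd
  exact Poly.pair (Poly.map (F := fun x j => if (k x * j) % d x = 0 then zL (d x) ((d x - j) * i x)
    else G.intL (d x) 0) hd.range (Poly.ite (Poly.decide_eq (Poly.mod (Poly.mul (hk.comp f1) f2) gd')
      (Poly.const 0)) (poly_zL gd (Poly.mul (Poly.sub gd' f2) (hi.comp f1)))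
      (poly_intL gd (Poly.const 0)))) (poly_intL hd (Poly.const 1))

theorem poly_valF {d i : α → ℕ} {f : α → Fn} (hd : UPoly d) (hf : Poly f) (hi : Poly i) :
    Poly (fun x => valF (d x) (f x) (i x)) := by
  unfold Run7.h700.G.valF
  have f1 : Poly (fun p : α × ℕ => p.1) := Poly.fst Poly.id
  have f2 : Poly (fun p : α × ℕ => p.2) := Poly.snd Poly.id
  exact poly_sumL hd (Poly.map (F := fun x j => G.mulL (d x) ((f x).1.getD j []) (zL (d x) (j * i x)))
    hd.range (poly_mulL (hd.comp f1) (Poly.getD (Poly.fst (hf.comp f1)) f2 (Poly.const []))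
      (poly_zL (hd.comp f1) (Poly.mul f2 (hi.comp f1)))))

theorem poly_readL {Q : α → ℕ} {u : α → List ℤ} (hQ : Poly Q) (hu : Poly u) :
    Poly (fun x => readL (Q x) (u x)) := by
  unfold Run7.h700.G.readL
  exact Poly.toNat (Poly.emod (Poly.getD hu (Poly.const 0) (Poly.const 0)) (Poly.natCast hQ))

theorem sz_convF {d Q n ι : ℕ} {tab : List (List ℤ)} {f g : Fn} (hQ : 0 < Q) :
    sz (convF d Q n ι tab f g) ≤ (d * (d * (4 * Q.size + 6) + 2) + 1) + (d * (4 * Q.size + 6) + 1) + 1 := by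
  rw [convF, sz_pair]
  refine Nat.add_le_add_right (Nat.add_le_add ?_ ?_) 1
  · refine (sz_le_length_mul _ (d * (4 * Q.size + 6) + 1) fun u hu => ?_).trans ?_
    · obtain ⟨m, _, rfl⟩ := List.mem_map.1 hu
      rw [convC]
      exact sz_modL hQ (length_nfG _ _)
    · rw [List.length_map, List.length_range]
  · rw [convZ]
    exact sz_modL hQ (length_nfG _ _)

theorem poly_convs {d Q n ι : α → ℕ} {tab : α → List (List ℤ)} {fs : α → List Fn} (hd : UPoly d)
    (hQ : Poly Q) (hQ0 : ∀ a, 0 < Q a) (hn : Poly n) (hι : Poly ι) (ht : Poly tab) (hf : Poly fs) :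
    Poly (fun x => convs (d x) (Q x) (n x) (ι x) (tab x) (fs x)) := by
  unfold Run7.h700.G.convs
  have f1 : Poly (fun q : α × Fn × Fn => q.1) := Poly.fst Poly.id
  have f2 : Poly (fun q : α × Fn × Fn => q.2.1) := Poly.fst (Poly.snd Poly.id)
  have f3 : Poly (fun q : α × Fn × Fn => q.2.2) := Poly.snd (Poly.snd Poly.id)
  have h1 := poly_convF (hd.comp f1) (hQ.comp f1) (hn.comp f1) (hι.comp f1) (ht.comp f1) f2 f3
  have h2 := poly_oneF hd
  obtain ⟨u, hu⟩ := uLe hd
  obtain ⟨r4, hr4⟩ := hQ.sz_le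
  obtain ⟨r5, hr5⟩ := h2.sz_le
  refine Poly.foldr (F := fun x f g => convF (d x) (Q x) (n x) (ι x) (tab x) f g) hf h2 h1
    ((u * (u * (4 * r4 + 6) + 2) + 1) + (u * (4 * r4 + 6) + 1) + 1 + r5) ?_
  intro a j _
  simp only [Polynomial.eval_add, Polynomial.eval_mul, Polynomial.eval_ofNat, Polynomial.eval_one]
  have e0 := hu a
  have e4 : (Q a).size ≤ r4.eval (sz a) := by
    have := size_le_sz (Q a); have := hr4 a; omega
  cases hd : ((fs a).drop j) with
  | nil =>
    rw [List.foldr_nil]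
    have := hr5 a
    omega
  | cons b bl =>
    rw [List.foldr_cons]
    refine (sz_convF (hQ0 a)).trans ?_
    refine le_trans ?_ (Nat.le_add_right _ _)
    gcongr

/-! ### The top level -/

theorem uPoly_cgcd {D Q : α → ℕ} (hD : UPoly D) (hQ : Poly Q) : UPoly (fun x => cgcd (D x) (Q x)) := by
  unfold Run7.h700.G.cgcd
  have f1 : Poly (fun p : α × ℕ => p.1) := Poly.fst Poly.id
  have f2 : Poly (fun p : α × ℕ => p.2) := Poly.snd Poly.id
  have gd := (Poly.ofU hD).comp f1
  have gs := Poly.sub gd f2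
  exact hD.sub (Poly.ofU (poly_find (p := fun x e => decide (D x % (D x - e) = 0) &&
    decide (Q x % (D x - e) = 0)) hD (Poly.and (Poly.decide_eq (Poly.mod gd gs) (Poly.const 0))
      (Poly.decide_eq (Poly.mod (hQ.comp f1) gs) (Poly.const 0)))))

theorem poly_powm {p a k : α → ℕ} (hp : Poly p) (hp0 : ∀ x, 0 < p x) (ha : Poly a) (hk : Poly k) :
    Poly (fun x => powm (p x) (a x) (k x)) := by
  unfold Run7.h700.G.powm
  have f1 : Poly (fun q : α × Bool × ℕ => q.1) := Poly.fst Poly.id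
  have f2 : Poly (fun q : α × Bool × ℕ => q.2.1) := Poly.fst (Poly.snd Poly.id)
  have f3 : Poly (fun q : α × Bool × ℕ => q.2.2) := Poly.snd (Poly.snd Poly.id)
  have gp := hp.comp f1
  have gm := Poly.mod (Poly.mul f3 f3) gp
  have h1 := Poly.ite (p := fun q : α × Bool × ℕ => q.2.1 = true) (Poly.decide_bool f2)
    (Poly.mod (Poly.mul gm (ha.comp f1)) gp) gm
  have h2 := Poly.mod (Poly.const 1) hp
  obtain ⟨r, hr⟩ := hp.sz_le
  refine Poly.foldr (l := fun x => (k x).bits) (s := fun x => 1 % p x)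
    (F := fun x b acc => if b = true then (acc * acc % p x) * a x % p x else acc * acc % p x)
    (Poly.natBits hk) h2 h1 (2 * r) ?_
  intro x j _
  simp only [Polynomial.eval_mul, Polynomial.eval_ofNat]
  have key : ∀ l : List Bool, l.foldr (fun b acc => if b = true then (acc * acc % p x) * a x % p x
      else acc * acc % p x) (1 % p x) ≤ p x := by
    intro l
    cases l with
    | nil => exact (Nat.mod_lt _ (hp0 x)).le
    | cons b l =>
      rw [List.foldr_cons]
      split_ifs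
      · exact (Nat.mod_lt _ (hp0 x)).le
      · exact (Nat.mod_lt _ (hp0 x)).le
  have h3 := sz_nat_mono_le (key ((k x).bits.drop j))
  have h4 := hr x
  omega

theorem poly_goodW {p d w : α → ℕ} (hp : Poly p) (hp0 : ∀ x, 0 < p x) (hd : UPoly d) (hw : Poly w) :
    Poly (fun x => goodW (p x) (d x) (w x)) := by
  unfold Run7.h700.G.goodW
  have f1 : Poly (fun p : α × ℕ => p.1) := Poly.fst Poly.id
  have f2 : Poly (fun p : α × ℕ => p.2) := Poly.snd Poly.id
  have hd' := Poly.ofU hd
  exact Poly.and (Poly.decide_eq (poly_powm hp hp0 hw hd') (Poly.mod (Poly.const 1) hp))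
    (Poly.decide_eq (Poly.length (Poly.filter
      (p := fun x (l : ℕ) => decide (powm (p x) (w x) (d x / l) = 1 % p x)) (poly_prs hd)
      (Poly.decide_eq (poly_powm (hp.comp f1) (fun q => hp0 q.1) (hw.comp f1)
        (Poly.div (hd'.comp f1) f2)) (Poly.mod (Poly.const 1) (hp.comp f1))))) (Poly.const 0))

theorem poly_findW {p d : α → ℕ} {rs : α → List ℕ} (hp : Poly p) (hp0 : ∀ x, 0 < p x) (hd : UPoly d)
    (hr : Poly rs) : Poly (fun x => findW (p x) (d x) (rs x)) := by
  unfold Run7.h700.G.findW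
  have f1 : Poly (fun p : α × ℕ => p.1) := Poly.fst Poly.id
  have f2 : Poly (fun p : α × ℕ => p.2) := Poly.snd Poly.id
  have gp := hp.comp f1
  have gp0 : ∀ q : α × ℕ, 0 < p q.1 := fun q => hp0 q.1
  exact Poly.head? (Poly.filter (p := fun x (w : ℕ) => goodW (p x) (d x) w)
    (Poly.map (F := fun x (r : ℕ) => powm (p x) r ((p x - 1) / d x)) hr (poly_powm gp gp0 f2
      (Poly.div (Poly.sub gp (Poly.const 1)) ((Poly.ofU hd).comp f1))))
    (poly_goodW gp gp0 (hd.comp f1) f2))

theorem uPoly_indW {p w d a : α → ℕ} (hp : Poly p) (hp0 : ∀ x, 0 < p x) (hw : Poly w) (hd : UPoly d)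
    (ha : Poly a) : UPoly (fun x => indW (p x) (w x) (d x) (a x)) := by
  unfold Run7.h700.G.indW
  have f1 : Poly (fun p : α × ℕ => p.1) := Poly.fst Poly.id
  have f2 : Poly (fun p : α × ℕ => p.2) := Poly.snd Poly.id
  have gp := hp.comp f1
  have gp0 : ∀ q : α × ℕ, 0 < p q.1 := fun q => hp0 q.1
  exact poly_find (p := fun x i => decide (powm (p x) (w x) i = powm (p x) (a x) ((p x - 1) / d x))) hd
    (Poly.decide_eq (poly_powm gp gp0 (hw.comp f1) f2) (poly_powm gp gp0 (ha.comp f1)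
      (Poly.div (Poly.sub gp (Poly.const 1)) ((Poly.ofU hd).comp f1))))

theorem poly_fnA {d p w : α → ℕ} {t : α → ℕ × ℕ} (hd : UPoly d) (hp : Poly p) (hp0 : ∀ x, 0 < p x)
    (hw : Poly w) (ht : Poly t) : Poly (fun x => fnA (d x) (p x) (w x) (t x)) := by
  unfold Run7.h700.G.fnA
  exact Poly.ite (Poly.decide_eq (Poly.mod (Poly.fst ht) hp) (Poly.const 0))
    (poly_cstF hd (Poly.natCast hp)) (poly_powF hd (Poly.snd ht)
      (Poly.ofU (uPoly_indW hp hp0 hw hd (Poly.fst ht))))

theorem poly_readN {d p w Q b : α → ℕ} {g : α → Fn} (hd : UPoly d) (hp : Poly p)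
    (hp0 : ∀ x, 0 < p x) (hw : Poly w) (hQ : Poly Q) (hb : Poly b) (hg : Poly g) :
    Poly (fun x => readN (d x) (p x) (w x) (Q x) (b x) (g x)) := by
  unfold Run7.h700.G.readN
  exact Poly.ite (Poly.decide_eq (Poly.mod hb hp) (Poly.const 0)) (poly_readL hQ (Poly.snd hg))
    (poly_readL hQ (poly_valF hd hg (Poly.ofU (uPoly_indW hp hp0 hw hd hb))))

theorem poly_tabP {d p w : α → ℕ} (hd : UPoly d) (hp : Poly p) (hp0 : ∀ x, 0 < p x) (hw : Poly w) :
    Poly (fun x => tabP (d x) (p x) (w x)) := by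
  unfold Run7.h700.G.tabP
  exact poly_jtab hd (poly_KP hd) hp (Poly.ofU (uPoly_indW hp hp0 hw hd (Poly.sub hp (Poly.const 1))))
    (poly_sgP hd hp hw)

theorem poly_mainN {d p w b : α → ℕ} {ts : α → List (ℕ × ℕ)} (hd : UPoly d) (hp : Poly p)
    (hp0 : ∀ x, 0 < p x) (hw : Poly w) (ht : Poly ts) (hb : Poly b) :
    Poly (fun x => mainN (d x) (p x) (w x) (ts x) (b x)) := by
  unfold Run7.h700.G.mainN
  have f1 : Poly (fun p : α × ℕ × ℕ => p.1) := Poly.fst Poly.id
  have hQ : Poly (fun x => p x ^ (ts x).length + 1) :=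
    Poly.add (Poly.npow hp (UPoly.length ht)) (Poly.const 1)
  have hι := Poly.ofU (uPoly_indW hp hp0 hw hd (Poly.sub hp (Poly.const 1)))
  exact poly_readN hd hp hp0 hw hQ hb (poly_convs hd hQ (fun _ => Nat.succ_pos _) hp hι
    (poly_tabP hd hp hp0 hw) (Poly.map (F := fun x t => fnA (d x) (p x) (w x) t) ht
      (poly_fnA (hd.comp f1) (hp.comp f1) (fun q => hp0 q.1) (hw.comp f1) (Poly.snd Poly.id))))

theorem poly_mainA {D p b : α → ℕ} {rs : α → List ℕ} {ts : α → List (ℕ × ℕ)} (hD : UPoly D)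
    (hp : Poly p) (hp0 : ∀ x, 0 < p x) (hr : Poly rs) (ht : Poly ts) (hb : Poly b) :
    Poly (fun x => mainA (D x) (p x) (rs x) (ts x) (b x)) := by
  unfold Run7.h700.G.mainA
  have f1 : Poly (fun p : α × ℕ => p.1) := Poly.fst Poly.id
  have f2 : Poly (fun p : α × ℕ => p.2) := Poly.snd Poly.id
  have hd := uPoly_cgcd hD (Poly.sub hp (Poly.const 1))
  exact Poly.optMap_fp (h := fun x w => mainN (cgcd (D x) (p x - 1)) (p x) w (ts x) (b x))
    (poly_findW hp hp0 hd hr) (poly_mainN (hd.comp f1) (hp.comp f1) (fun q => hp0 q.1) f2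
      (ht.comp f1) (hb.comp f1))

end Pool.Agent.NPC
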