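import Pool.Agent.Run7.h700.G.PolyG4

/-!
# The algorithm runs in polynomial time, 5
-/

set_option linter.unusedSectionVars false
set_option linter.style.haveILetI false
set_option linter.unusedVariables false

namespace Pool.Agent.NPC

open Run7.h700 Run7.h700.G Pool.Agent.H687R2.LLL

/-- The product of the first `n` exponents. -/
def prodE (n : ℕ) (ts : List (ℕ × List Unit)) : ℕ :=
  ∏ i ∈ Finset.range n, (ts.getD i (0, [])).2.length

theorem prodE_eq (ts : List (ℕ × List Unit)) :
    prodE ts.length ts = (ts.map fun t => t.2.length).prod := by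
  induction ts with
  | nil => simp [prodE]
  | cons t ts ih =>
    rw [prodE, List.length_cons, Finset.prod_range_succ', List.map_cons, List.prod_cons, ← ih, prodE,
      mul_comm]
    simp

theorem poly_F1 : Poly (fun x : List Unit × ℕ × List ℕ × List (ℕ × ℕ) × ℕ =>
    mainA x.1.length (max 1 x.2.1) x.2.2.1 x.2.2.2.1 x.2.2.2.2) :=
  poly_mainA (UPoly.length (Poly.fst Poly.id)) (Poly.max (Poly.const 1)
    (Poly.fst (Poly.snd Poly.id))) (fun _ => by omega) (Poly.fst (Poly.snd (Poly.snd Poly.id)))
    (Poly.fst (Poly.snd (Poly.snd (Poly.snd Poly.id))))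
    (Poly.snd (Poly.snd (Poly.snd (Poly.snd Poly.id))))

theorem poly_F2 (n : ℕ) : Poly (fun x : ℕ × List ℕ × List (ℕ × List Unit) × ℕ =>
    mainA (prodE n x.2.2.1) (max 1 x.1) x.2.1 (x.2.2.1.map fun t => (t.1, t.2.length)) x.2.2.2) := by
  have hU : UPoly (fun x : ℕ × List ℕ × List (ℕ × List Unit) × ℕ => prodE n x.2.2.1) := by
    induction n with
    | zero => simpa [prodE] using UPoly.const 1
    | succ n ih =>
      simp only [prodE, Finset.prod_range_succ]
      exact ih.mul (UPoly.length (Poly.snd (Poly.getD (Poly.fst (Poly.snd (Poly.snd Poly.id)))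
        (Poly.const n) (Poly.const (0, [])))))
  exact poly_mainA hU (Poly.max (Poly.const 1) (Poly.fst Poly.id)) (fun _ => by omega)
    (Poly.fst (Poly.snd Poly.id))
    (Poly.map (F := fun _ (t : ℕ × List Unit) => (t.1, t.2.length))
      (Poly.fst (Poly.snd (Poly.snd Poly.id))) (Poly.pair (Poly.fst (Poly.snd Poly.id))
        (Poly.length (Poly.snd (Poly.snd Poly.id)))))
    (Poly.snd (Poly.snd (Poly.snd Poly.id)))

end Pool.Agent.NPC
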