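import Pool.Agent.Run7.h700.G.NF

/-!
# The cyclotomic ring `ℤ[ζ_d]` with coordinates
-/

set_option linter.unusedSectionVars false
set_option linter.style.haveILetI false
set_option linter.unusedVariables false

namespace Run7.h700.G

open Polynomial Finset

/-- The ring `ℤ[ζ]`, for a primitive `d`-th root of unity `ζ`. -/
def R (d : ℕ) : Type := AdjoinRoot (cyclotomic d ℤ)

namespace R

noncomputable instance (d : ℕ) : CommRing (R d) :=
  inferInstanceAs (CommRing (AdjoinRoot (cyclotomic d ℤ)))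

/-- The quotient map. -/
noncomputable def mk (d : ℕ) : ℤ[X] →+* R d := AdjoinRoot.mk (cyclotomic d ℤ)

/-- The root of unity. -/
noncomputable def z (d : ℕ) : R d := mk d X

/-- The canonical representative. -/
noncomputable def rep (d : ℕ) : R d →+ ℤ[X] :=
  (AdjoinRoot.modByMonicHom (cyclotomic.monic d ℤ)).toAddMonoidHom

theorem mk_rep (d : ℕ) (x : R d) : mk d (rep d x) = x :=
  AdjoinRoot.mk_leftInverse (cyclotomic.monic d ℤ) x

theorem rep_mk (d : ℕ) (f : ℤ[X]) : rep d (mk d f) = f %ₘ cyclotomic d ℤ :=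
  AdjoinRoot.modByMonicHom_mk (cyclotomic.monic d ℤ) f

/-- The element with a given list of coefficients. -/
noncomputable def ev (d : ℕ) (x : List ℤ) : R d := ∑ k ∈ range d, (x.getD k 0 : R d) * z d ^ k

section

variable {d : ℕ} [hd : NeZero d]

theorem dpos : 0 < d := NeZero.pos d

instance : IsDomain (R d) :=
  AdjoinRoot.isDomain_of_prime (cyclotomic.irreducible (NeZero.pos d)).prime

theorem totient_pos' : 0 < d.totient := Nat.totient_pos.2 (NeZero.pos d)

instance : CharZero (R d) := by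
  refine charZero_of_inj_zero fun n hn => ?_
  have h1 : mk d (n : ℤ[X]) = 0 := by rw [map_natCast]; exact hn
  have h2 : (cyclotomic d ℤ) ∣ (n : ℤ[X]) := AdjoinRoot.mk_eq_zero.1 h1
  by_contra h3
  have h6 : (n : ℤ[X]).natDegree = 0 := natDegree_natCast n
  have h7 := Polynomial.natDegree_le_of_dvd h2 (by exact_mod_cast h3)
  have := totient_pos' (d := d)
  rw [natDegree_cyclotomic] at h7
  omega

theorem isPrimitiveRoot_z : IsPrimitiveRoot (z d) d := by
  haveI : NeZero ((d : ℕ) : R d) := ⟨by exact_mod_cast hd.out⟩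
  rw [← isRoot_cyclotomic_iff]
  have h1 : eval₂ (Int.castRingHom (R d)) (z d) (cyclotomic d ℤ) = 0 := by
    have h2 : mk d (cyclotomic d ℤ) = 0 := AdjoinRoot.mk_self
    have h3 : ∀ f : ℤ[X], eval₂ (Int.castRingHom (R d)) (z d) f = mk d f := by
      intro f
      have : (eval₂RingHom (Int.castRingHom (R d)) (z d)) = mk d := by
        apply Polynomial.ringHom_ext'
        · exact RingHom.ext_int _ _
        · rw [coe_eval₂RingHom, eval₂_X]; rfl
      exact RingHom.congr_fun this f
    rw [h3, h2]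
  rw [IsRoot.def, ← map_cyclotomic_int, eval_map]
  exact h1

theorem z_pow : z d ^ d = 1 := isPrimitiveRoot_z.pow_eq_one

theorem z_pow_mod (k : ℕ) : z d ^ (k % d) = z d ^ k := by
  conv_rhs => rw [← Nat.div_add_mod k d, pow_add, pow_mul, z_pow, one_pow, one_mul]

theorem z_pow_congr {k m : ℕ} (h : k ≡ m [MOD d]) : z d ^ k = z d ^ m := by
  rw [← z_pow_mod k, ← z_pow_mod m, h]

theorem sum_range_eq_zmod {M : Type*} [AddCommMonoid M] (f : ℕ → M) :
    ∑ i ∈ range d, f i = ∑ i : ZMod d, f i.val := by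
  refine Finset.sum_bij' (fun i _ => (i : ZMod d)) (fun i _ => i.val) ?_ ?_ ?_ ?_ ?_
  · intro i _; exact mem_univ _
  · intro i _; exact mem_range.2 (ZMod.val_lt i)
  · intro i hi; exact ZMod.val_cast_of_lt (mem_range.1 hi)
  · intro i _; exact ZMod.natCast_zmod_val i
  · intro i hi; rw [ZMod.val_cast_of_lt (mem_range.1 hi)]

theorem sum_mul_mod {M : Type*} [AddCommMonoid M] (f : ℕ → M) {c : ℕ} (hc : c.Coprime d) :
    ∑ i ∈ range d, f ((c * i) % d) = ∑ i ∈ range d, f i := by
  rw [sum_range_eq_zmod (fun i => f ((c * i) % d)), sum_range_eq_zmod f]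
  refine Fintype.sum_equiv (Units.mulLeft (ZMod.unitOfCoprime c hc)) _ _ fun i => ?_
  congr 1
  rw [Units.mulLeft_apply, ZMod.coe_unitOfCoprime, ZMod.val_mul, ZMod.val_natCast]
  rw [Nat.mod_mul_mod]

theorem sum_add_mod {M : Type*} [AddCommMonoid M] (f : ℕ → M) (c : ℕ) :
    ∑ i ∈ range d, f ((i + c) % d) = ∑ i ∈ range d, f i := by
  rw [sum_range_eq_zmod (fun i => f ((i + c) % d)), sum_range_eq_zmod f]
  refine Fintype.sum_equiv (Equiv.addRight (c : ZMod d)) _ _ fun i => ?_
  congr 1
  rw [Equiv.coe_addRight, ZMod.val_add, ZMod.val_natCast]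
  simp

/-- functions constant on cosets give zero -/
theorem ev_Pl {r : ℕ} (hr : r.Prime) (hrd : r ∣ d) (x : List ℤ) : ev d (Pl d r x) = ev d x := by
  have hd0 := dpos (d := d)
  set e := d / r with he
  have hre : r * e = d := Nat.mul_div_cancel' hrd
  have he0 : 0 < e := Nat.div_pos (Nat.le_of_dvd hd0 hrd) hr.pos
  set G : ℕ → ℤ := fun i => if inF d r i = true then x.getD i 0 else 0 with hG
  set A : ℕ → ℤ := fun j => ∑ k ∈ range r, G ((j + k * e) % d) with hA
  have h1 : ∀ j, A ((j + e) % d) = A j := by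
    intro j
    simp only [hA]
    have h2 : ∀ k, G (((j + e) % d + k * e) % d) = G ((j + (k + 1) * e) % d) := by
      intro k
      congr 1
      rw [Nat.mod_add_mod]
      congr 1; ring
    rw [Finset.sum_congr rfl fun k _ => h2 k]
    have h3 := Finset.sum_range_succ (fun k => G ((j + k * e) % d)) r
    have h4 := Finset.sum_range_succ' (fun k => G ((j + k * e) % d)) r
    rw [h3] at h4
    have h5 : (j + r * e) % d = (j + 0 * e) % d := by rw [hre]; simp
    rw [h5] at h4
    exact (add_right_cancel h4).symm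
  have h2 : ∑ j ∈ range d, (A j : R d) * z d ^ j = 0 := by
    have h3 := sum_add_mod (d := d) (fun j => (A j : R d) * z d ^ j) e
    simp only [h1] at h3
    have h4 : ∀ j, (A j : R d) * z d ^ ((j + e) % d) = z d ^ e * ((A j : R d) * z d ^ j) := by
      intro j; rw [z_pow_mod, pow_add]; ring
    rw [Finset.sum_congr rfl fun j _ => h4 j, ← Finset.mul_sum] at h3
    have h5 : z d ^ e ≠ 1 := by
      intro h
      have h6 := isPrimitiveRoot_z.dvd_of_pow_eq_one e h
      have h7 := Nat.le_of_dvd he0 h6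
      have h8 : e < r * e := by nlinarith [hr.two_le]
      omega
    have h6 : (z d ^ e - 1) * ∑ j ∈ range d, (A j : R d) * z d ^ j = 0 := by
      rw [sub_mul, one_mul, h3, sub_self]
    exact (mul_eq_zero.1 h6).resolve_left (sub_ne_zero.2 h5)
  rw [ev, ev]
  have h3 : ∀ j ∈ range d, ((Pl d r x).getD j 0 : R d) * z d ^ j =
      (x.getD j 0 : R d) * z d ^ j - (A j : R d) * z d ^ j := by
    intro j hj
    rw [getD_Pl (mem_range.1 hj)]
    simp only [hA, hG, ← he]
    push_cast
    ring
  rw [Finset.sum_congr rfl h3, Finset.sum_sub_distrib, h2, sub_zero]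

theorem ev_nfl (x : List ℤ) : ev d (nfl d x) = ev d x := by
  rw [nfl]
  have key : ∀ ps : List ℕ, (∀ r ∈ ps, r ∈ prs d) → ev d (ps.foldr (Pl d) x) = ev d x := by
    intro ps
    induction ps with
    | nil => intro _; rfl
    | cons a ps ih =>
      intro h
      have ha := (mem_prs dpos).1 (h a (by simp))
      rw [List.foldr_cons, ev_Pl ha.1 ha.2, ih fun r hr => h r (by simp [hr])]
  exact key _ fun _ h => h

theorem ev_nf (c : ℕ → ℤ) : ev d (nf d c) = ∑ k ∈ range d, (c k : R d) * z d ^ k := by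
  rw [nf, ev_nfl, ev]
  refine Finset.sum_congr rfl fun k hk => ?_
  rw [getD_range_map _ _ (mem_range.1 hk)]

theorem ev_rep (x : R d) : ∑ k ∈ range d, ((rep d x).coeff k : R d) * z d ^ k = x := by
  have hdeg : (rep d x).natDegree < d + 1 := by
    have h1 : (rep d x) = (rep d x) %ₘ cyclotomic d ℤ := by
      conv_lhs => rw [← mk_rep d x, rep_mk]
    have h2 := natDegree_modByMonic_le (rep d x) (cyclotomic.monic d ℤ)
    rw [← h1, natDegree_cyclotomic] at h2
    have := Nat.totient_le d
    omega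
  have hdeg2 : d < 2 → (rep d x).coeff d = 0 ∨ d = d := fun _ => Or.inr rfl
  have h3 : (rep d x).natDegree < d := by
    have h1 : (rep d x) = (rep d x) %ₘ cyclotomic d ℤ := by
      conv_lhs => rw [← mk_rep d x, rep_mk]
    by_cases h : cyclotomic d ℤ = 1
    · have := natDegree_cyclotomic d ℤ
      rw [h, natDegree_one] at this
      have := totient_pos' (d := d)
      omega
    · have h2 := natDegree_modByMonic_lt (rep d x) (cyclotomic.monic d ℤ) h
      rw [← h1, natDegree_cyclotomic] at h2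
      have := Nat.totient_le d
      omega
  conv_rhs => rw [← mk_rep d x, (rep d x).as_sum_range_C_mul_X_pow' (n := d) h3]
  rw [map_sum]
  refine Finset.sum_congr rfl fun i _ => ?_
  rw [map_mul, map_pow]
  have : (C ((rep d x).coeff i) : ℤ[X]) = (((rep d x).coeff i : ℤ) : ℤ[X]) := by simp
  rw [this, map_intCast]
  rfl

/-- The combination of the basis elements. -/
noncomputable def phi (d : ℕ) : (Bset d → ℤ) →ₗ[ℤ] R d where
  toFun c := ∑ j : Bset d, (c j : R d) * z d ^ (j : ℕ)
  map_add' c e := by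
    rw [← Finset.sum_add_distrib]
    refine Finset.sum_congr rfl fun i _ => ?_
    simp; ring
  map_smul' a c := by
    simp only [eq_intCast, Int.cast_id, Pi.smul_apply, smul_eq_mul, zsmul_eq_mul, Finset.mul_sum]
    refine Finset.sum_congr rfl fun i _ => ?_
    push_cast; ring

theorem phi_of_bs {u : List ℤ} (hu : Bs d u) : phi d (fun j => u.getD j 0) = ev d u := by
  simp only [phi, LinearMap.coe_mk, AddHom.coe_mk]
  rw [ev, Finset.sum_coe_sort (Bset d) (fun j => (u.getD j 0 : R d) * z d ^ j), Bset,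
    Finset.sum_filter]
  refine Finset.sum_congr rfl fun j hj => ?_
  split_ifs with h
  · rfl
  · push Not at h
    obtain ⟨r, hr, h1⟩ := h
    rw [Bool.ne_false_iff] at h1
    rw [hu.2 r hr j (mem_range.1 hj) h1]
    simp

theorem phi_surj : Function.Surjective (phi d) := by
  intro x
  refine ⟨fun j => (nf d fun k => (rep d x).coeff k).getD j 0, ?_⟩
  rw [phi_of_bs (bs_nf dpos _), ev_nf, ev_rep]

theorem phi_inj : Function.Injective (phi d) := by
  classical
  set pb := AdjoinRoot.powerBasis' (cyclotomic.monic d ℤ)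
  have hdim : pb.dim = d.totient := by
    rw [AdjoinRoot.powerBasis'_dim, natDegree_cyclotomic]
  have hcard : Fintype.card (Bset d) ≤ Fintype.card (Fin pb.dim) := by
    rw [Fintype.card_coe, Fintype.card_fin, hdim]
    exact card_Bset dpos
  obtain ⟨ι⟩ := Function.Embedding.nonempty_of_card_le hcard
  let f : (Bset d → ℤ) →ₗ[ℤ] (Fin pb.dim → ℤ) := Function.ExtendByZero.linearMap ℤ ι
  have hf : Function.Injective f := by
    intro a b hab
    funext i
    have h1 := congrFun hab (ι i)
    simp only [f, Function.ExtendByZero.linearMap_apply] at h1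
    rwa [ι.injective.extend_apply, ι.injective.extend_apply] at h1
  let g : (Bset d → ℤ) →ₗ[ℤ] AdjoinRoot (cyclotomic d ℤ) := pb.basis.equivFun.symm.toLinearMap ∘ₗ f
  have hg : Function.Injective g := pb.basis.equivFun.symm.injective.comp hf
  haveI : Module.Finite ℤ (AdjoinRoot (cyclotomic d ℤ)) := pb.finite
  exact OrzechProperty.injective_of_surjective_of_injective (R := ℤ) (N := (Bset d → ℤ))
    (M := AdjoinRoot (cyclotomic d ℤ)) g (phi d) hg phi_surj

theorem bs_ext {u v : List ℤ} (hu : Bs d u) (hv : Bs d v) (h : ev d u = ev d v) : u = v := by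
  rw [← phi_of_bs hu, ← phi_of_bs hv] at h
  have h1 := phi_inj h
  apply List.ext_getElem (hu.1.trans hv.1.symm)
  intro j h2 h3
  rw [← List.getD_eq_getElem _ 0 h2, ← List.getD_eq_getElem _ 0 h3]
  have hj : j < d := hu.1 ▸ h2
  by_cases h4 : j ∈ Bset d
  · exact congrFun h1 ⟨j, h4⟩
  · rw [Bset, mem_filter] at h4
    push Not at h4
    obtain ⟨r, hr, h5⟩ := h4 (mem_range.2 hj)
    rw [Bool.ne_false_iff] at h5
    rw [hu.2 r hr j hj h5, hv.2 r hr j hj h5]

/-- The list of coordinates. -/
noncomputable def L (x : R d) : List ℤ := nf d fun k => (rep d x).coeff k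

theorem bs_L (x : R d) : Bs d (L x) := bs_nf dpos _

theorem ev_L (x : R d) : ev d (L x) = x := by rw [L, ev_nf, ev_rep]

theorem L_unique {u : List ℤ} {x : R d} (hu : Bs d u) (h : ev d u = x) : L x = u :=
  bs_ext (bs_L x) hu (by rw [ev_L, h])

theorem L_inj {x y : R d} (h : L x = L y) : x = y := by rw [← ev_L x, h, ev_L]

theorem nf_eq (c : ℕ → ℤ) : nf d c = L (∑ k ∈ range d, (c k : R d) * z d ^ k) :=
  (L_unique (bs_nf dpos _) (ev_nf c)).symm

theorem nfl_eq (x : List ℤ) (hx : x.length = d) : nfl d x = L (ev d x) := by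
  have h1 : x = (List.range d).map fun k => x.getD k 0 := by
    apply List.ext_getElem (by simp [hx])
    intro j h2 h3
    rw [List.getElem_map, List.getElem_range, List.getD_eq_getElem _ _ h2]
  have h2 : nfl d x = nf d fun k => x.getD k 0 := by rw [nf, ← h1]
  rw [h2, nf_eq]; rfl

@[simp] theorem length_L (x : R d) : (L x).length = d := (bs_L x).1

/-- Coordinates. -/
noncomputable def co (x : R d) (i : ℕ) : ℤ := (L x).getD i 0

theorem getD_L (x : R d) (i : ℕ) : (L x).getD i 0 = co x i := rfl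

theorem sum_co (x : R d) : ∑ i ∈ range d, (co x i : R d) * z d ^ i = x := ev_L x

theorem co_eq_zero (x : R d) {i : ℕ} (h : d ≤ i) : co x i = 0 :=
  List.getD_eq_default _ _ (by rw [length_L]; exact h)

theorem ext_co {x y : R d} (h : ∀ i < d, co x i = co y i) : x = y := by
  rw [← sum_co x, ← sum_co y]
  exact Finset.sum_congr rfl fun i hi => by rw [h i (mem_range.1 hi)]

/-- a linear combination of lists of coordinates -/
theorem co_lin (x y : R d) (a b : ℤ) (i : ℕ) :
    co ((a : R d) * x + (b : R d) * y) i = a * co x i + b * co y i := by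
  rcases Nat.lt_or_ge i d with hi | hi
  · set u := (List.range d).map fun k => a * co x k + b * co y k with hu
    have h1 : Bs d u := by
      refine ⟨by simp [hu], fun r hr j hj h => ?_⟩
      rw [hu, getD_range_map _ _ hj]
      have h2 := (bs_L x).2 r hr j hj h
      have h3 := (bs_L y).2 r hr j hj h
      rw [getD_L] at h2 h3
      rw [h2, h3]; ring
    have h2 : ev d u = (a : R d) * x + (b : R d) * y := by
      conv_rhs => rw [← sum_co x, ← sum_co y, Finset.mul_sum, Finset.mul_sum,
        ← Finset.sum_add_distrib]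
      rw [ev]
      refine Finset.sum_congr rfl fun k hk => ?_
      rw [hu, getD_range_map _ _ (mem_range.1 hk)]
      push_cast; ring
    rw [co, L_unique h1 h2, hu, getD_range_map _ _ hi]
  · rw [co_eq_zero _ hi, co_eq_zero _ hi, co_eq_zero _ hi]; ring

theorem co_add (x y : R d) (i : ℕ) : co (x + y) i = co x i + co y i := by
  have := co_lin x y 1 1 i
  simpa using this

theorem co_sub (x y : R d) (i : ℕ) : co (x - y) i = co x i - co y i := by
  have := co_lin x y 1 (-1) i
  simp only [Int.cast_one, one_mul, Int.cast_neg, neg_mul] at this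
  rw [sub_eq_add_neg, this]; ring

theorem co_mul_int (a : ℤ) (x : R d) (i : ℕ) : co ((a : R d) * x) i = a * co x i := by
  have := co_lin x 0 a 0 i
  simpa using this

theorem co_zero (i : ℕ) : co (0 : R d) i = 0 := by
  have := co_mul_int (d := d) 0 0 i
  simpa using this

theorem co_finsum {ι : Type*} (s : Finset ι) (f : ι → R d) (i : ℕ) :
    co (∑ a ∈ s, f a) i = ∑ a ∈ s, co (f a) i := by
  classical
  induction s using Finset.induction_on with
  | empty => simp [co_zero]
  | insert a s ha ih => rw [Finset.sum_insert ha, Finset.sum_insert ha, co_add, ih]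

theorem intCast_ne_zero' {a : ℤ} (h : a ≠ 0) : (a : R d) ≠ 0 := by exact_mod_cast h

theorem int_dvd_iff {a : ℤ} {x : R d} : (a : R d) ∣ x ↔ ∀ i < d, a ∣ co x i := by
  constructor
  · rintro ⟨y, rfl⟩ i _
    rw [co_mul_int]; exact Dvd.intro _ rfl
  · intro h
    choose! e he using h
    refine ⟨∑ k ∈ range d, (e k : R d) * z d ^ k, ?_⟩
    conv_lhs => rw [← sum_co x]
    rw [Finset.mul_sum]
    refine Finset.sum_congr rfl fun k hk => ?_
    rw [he k (mem_range.1 hk)]; push_cast; ring

theorem co_int (a : ℤ) (i : ℕ) : co (a : R d) i = if i = 0 then a else 0 := by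
  have hd0 := dpos (d := d)
  rcases Nat.lt_or_ge i d with hi | hi
  · set u := (List.range d).map fun k => if k = 0 then a else 0 with hu
    have h1 : Bs d u := by
      refine ⟨by simp [hu], fun r hr j hj h => ?_⟩
      rw [hu, getD_range_map _ _ hj]
      rcases Nat.eq_zero_or_pos j with h0 | h0
      · subst h0
        obtain ⟨hr1, hr2⟩ := (mem_prs hd0).1 hr
        rw [inF, decide_eq_true_eq] at h
        obtain ⟨m, q', e1, e2, e3, e4, e5⟩ := decomp hd0 hr1 hr2
        rw [e1, Nat.mul_div_cancel _ hr1.pos, Nat.zero_mod] at h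
        have := hr1.two_le
        have h6 : q' < q' * r := by nlinarith
        omega
      · rw [if_neg (by omega)]
    have h2 : ev d u = (a : R d) := by
      rw [ev, Finset.sum_eq_single 0]
      · rw [hu, getD_range_map _ _ hd0]; simp
      · intro b hb hb0
        rw [hu, getD_range_map _ _ (mem_range.1 hb), if_neg hb0]; simp
      · intro h; exact absurd (mem_range.2 hd0) h
    rw [co, L_unique h1 h2, hu, getD_range_map _ _ hi]
  · rw [co_eq_zero _ hi, if_neg (by omega)]

/-! ### Homomorphisms -/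

/-- The homomorphism to a domain determined by a primitive root. -/
noncomputable def lift {S : Type*} [CommRing S] [IsDomain S] (s : S) (h : IsPrimitiveRoot s d) :
    R d →+* S :=
  AdjoinRoot.lift (Int.castRingHom S) s (by
    have h1 := h.isRoot_cyclotomic (NeZero.pos d)
    rw [IsRoot.def, ← map_cyclotomic_int, eval_map] at h1
    exact h1)

theorem lift_z {S : Type*} [CommRing S] [IsDomain S] (s : S) (h : IsPrimitiveRoot s d) :
    lift s h (z d) = s := AdjoinRoot.lift_root _

theorem hom_apply {S : Type*} [CommRing S] (f : R d →+* S) (x : R d) :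
    f x = ∑ i ∈ range d, (co x i : S) * f (z d) ^ i := by
  conv_lhs => rw [← sum_co x]
  rw [map_sum]
  refine Finset.sum_congr rfl fun i _ => ?_
  rw [map_mul, map_pow, map_intCast]

theorem hom_ext {S : Type*} [CommRing S] {f g : R d →+* S} (h : f (z d) = g (z d)) : f = g := by
  ext x
  rw [hom_apply f, hom_apply g, h]

/-- The automorphism `ζ ↦ ζ ^ c`. -/
noncomputable def aut (c : ℕ) (hc : c.Coprime d) : R d →+* R d :=
  lift (z d ^ c) (isPrimitiveRoot_z.pow_of_coprime c hc)

theorem aut_z (c : ℕ) (hc : c.Coprime d) : aut c hc (z d) = z d ^ c := lift_z _ _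

theorem aut_apply (c : ℕ) (hc : c.Coprime d) (x : R d) :
    aut c hc x = ∑ i ∈ range d, (co x i : R d) * z d ^ (c * i) := by
  rw [hom_apply]
  refine Finset.sum_congr rfl fun i _ => ?_
  rw [aut_z, pow_mul]

theorem aut_congr {c e : ℕ} (hc : c.Coprime d) (he : e.Coprime d) (h : c % d = e % d) :
    aut c hc = aut e he := by
  apply hom_ext
  rw [aut_z, aut_z, ← z_pow_mod c, ← z_pow_mod e, h]

theorem aut_one (x : R d) : aut 1 (Nat.coprime_one_left d) x = x := by
  have : aut 1 (Nat.coprime_one_left d) = RingHom.id (R d) := by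
    apply hom_ext; rw [aut_z, pow_one]; rfl
  rw [this]; rfl

theorem aut_aut {c e : ℕ} (hc : c.Coprime d) (he : e.Coprime d) (x : R d) :
    aut c hc (aut e he x) = aut (c * e) (Nat.Coprime.mul_left hc he) x := by
  have : (aut c hc).comp (aut e he) = aut (c * e) (Nat.Coprime.mul_left hc he) := by
    apply hom_ext
    rw [RingHom.comp_apply, aut_z, map_pow, aut_z, aut_z, ← pow_mul]
  rw [← this]; rfl

theorem coprime_pred : (d - 1).Coprime d := by
  have h := dpos (d := d)
  have : d = (d - 1) + 1 := by omega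
  conv_rhs => rw [this]
  simp

theorem pred_mul_pred : ((d - 1) * (d - 1)) % d = 1 % d := by
  have h := dpos (d := d)
  obtain ⟨k, hk⟩ : ∃ k, d = k + 1 := ⟨d - 1, by omega⟩
  rw [hk]
  have h2 : (k + 1 - 1) * (k + 1 - 1) + k * 2 + 1 = 1 + k * 2 + (k + 1 - 1) * (k + 1 - 1) := by ring
  rcases Nat.eq_zero_or_pos k with h0 | h0
  · subst h0; rfl
  · obtain ⟨m, rfl⟩ : ∃ m, k = m + 1 := ⟨k - 1, by omega⟩
    have : (m + 1 + 1 - 1) * (m + 1 + 1 - 1) = 1 + m * (m + 1 + 1) := by
      have : m + 1 + 1 - 1 = m + 1 := by omega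
      rw [this]; ring
    rw [this, Nat.add_mul_mod_self_right]

/-- Complex conjugation. -/
noncomputable def conj : R d →+* R d := aut (d - 1) coprime_pred

theorem conj_z_pow (k : ℕ) : conj (z d ^ k) * z d ^ k = 1 := by
  rw [conj, map_pow, aut_z, ← mul_pow, ← pow_succ, Nat.sub_add_cancel dpos, z_pow, one_pow]

theorem conj_conj (x : R d) : conj (conj x) = x := by
  rw [conj, aut_aut, aut_congr (e := 1) _ (Nat.coprime_one_left d) pred_mul_pred, aut_one]

theorem conj_aut {c : ℕ} (hc : c.Coprime d) (x : R d) : conj (aut c hc x) = aut c hc (conj x) := by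
  rw [conj, aut_aut, aut_aut]
  congr 1
  exact aut_congr _ _ (by rw [mul_comm])

/-! ### Sums over the unit group -/

theorem sum_units {M : Type*} [AddCommMonoid M] (f : ℕ → M) :
    ∑ u : (ZMod d)ˣ, f (u : ZMod d).val = ∑ c ∈ (range d).filter (fun c => c.Coprime d), f c := by
  symm
  refine Finset.sum_bij' (fun c hc => ZMod.unitOfCoprime c (mem_filter.1 hc).2)
    (fun u _ => (u : ZMod d).val) ?_ ?_ ?_ ?_ ?_
  · intro c _; exact mem_univ _
  · intro u _
    rw [mem_filter, mem_range]
    exact ⟨ZMod.val_lt _, ZMod.val_coe_unit_coprime u⟩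
  · intro c hc
    rw [ZMod.coe_unitOfCoprime, ZMod.val_cast_of_lt (mem_range.1 (mem_filter.1 hc).1)]
  · intro u _
    ext
    rw [ZMod.coe_unitOfCoprime, ZMod.natCast_zmod_val]
  · intro c hc
    rw [ZMod.coe_unitOfCoprime, ZMod.val_cast_of_lt (mem_range.1 (mem_filter.1 hc).1)]

open ArithmeticFunction in
/-- Sums of powers of the primitive roots of unity are integers. -/
theorem ramanujan (k : ℕ) : ∃ n : ℤ, ∑ c ∈ (range d).filter (fun c => c.Coprime d), z d ^ (c * k) =
    (n : R d) := by
  have h1 : ∀ c : ℕ, (if c.Coprime d then (1 : ℤ) else 0) =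
      ∑ e ∈ d.divisors, if e ∣ c then moebius e else 0 := by
    intro c
    have h2 : (Nat.gcd c d).divisors = d.divisors.filter fun e => e ∣ c := by
      ext e
      rw [Nat.mem_divisors, mem_filter, Nat.mem_divisors, Nat.dvd_gcd_iff]
      constructor
      · rintro ⟨⟨h1, h2⟩, _⟩; exact ⟨⟨h2, hd.out⟩, h1⟩
      · rintro ⟨⟨h1, _⟩, h2⟩
        exact ⟨⟨h2, h1⟩, fun h => hd.out (Nat.eq_zero_of_gcd_eq_zero_right h)⟩
    rw [← Finset.sum_filter, ← h2, ← coe_mul_zeta_apply, moebius_mul_coe_zeta, one_apply]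
  refine ⟨∑ e ∈ d.divisors, moebius e * (if d ∣ e * k then ((d / e : ℕ) : ℤ) else 0), ?_⟩
  have h2 : ∑ c ∈ (range d).filter (fun c => c.Coprime d), z d ^ (c * k) =
      ∑ c ∈ range d, ∑ e ∈ d.divisors, ((if e ∣ c then moebius e else 0 : ℤ) : R d) * z d ^ (c * k) := by
    rw [Finset.sum_filter]
    refine Finset.sum_congr rfl fun c _ => ?_
    rw [← Finset.sum_mul, ← Int.cast_sum, ← h1 c]
    split_ifs <;> simp
  rw [h2, Finset.sum_comm, Int.cast_sum]
  refine Finset.sum_congr rfl fun e he => ?_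
  rw [Int.cast_mul]
  have hed := (Nat.mem_divisors.1 he).1
  have he0 : 0 < e := Nat.pos_of_dvd_of_pos hed dpos
  -- restrict to the multiples of `e`
  have h3 : ∑ c ∈ range d, ((if e ∣ c then moebius e else 0 : ℤ) : R d) * z d ^ (c * k) =
      (moebius e : R d) * ∑ c ∈ range (d / e), (z d ^ (e * k)) ^ c := by
    rw [Finset.mul_sum]
    have h4 : ∑ c ∈ range d, ((if e ∣ c then moebius e else 0 : ℤ) : R d) * z d ^ (c * k) =
        ∑ c ∈ (range d).filter (fun c => e ∣ c), (moebius e : R d) * z d ^ (c * k) := by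
      rw [Finset.sum_filter]
      refine Finset.sum_congr rfl fun c _ => ?_
      split_ifs <;> simp
    rw [h4]
    refine Finset.sum_bij' (fun c _ => c / e) (fun c _ => e * c) ?_ ?_ ?_ ?_ ?_
    · intro c hc
      rw [mem_filter, mem_range] at hc
      rw [mem_range]
      exact Nat.div_lt_div_of_lt_of_dvd hed hc.1
    · intro c hc
      rw [mem_range] at hc
      rw [mem_filter, mem_range]
      refine ⟨?_, Dvd.intro _ rfl⟩
      calc e * c < e * (d / e) := Nat.mul_lt_mul_of_pos_left hc he0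
        _ = d := Nat.mul_div_cancel' hed
    · intro c hc
      rw [mem_filter] at hc
      exact Nat.mul_div_cancel' hc.2
    · intro c _
      exact Nat.mul_div_cancel_left _ he0
    · intro c hc
      rw [mem_filter] at hc
      obtain ⟨t, rfl⟩ := hc.2
      rw [Nat.mul_div_cancel_left _ he0, ← pow_mul]
      congr 2; ring
  rw [h3]
  congr 1
  by_cases h4 : d ∣ e * k
  · have h5 : z d ^ (e * k) = 1 := by
      obtain ⟨t, ht⟩ := h4
      rw [ht, pow_mul, z_pow, one_pow]
    rw [if_pos h4, h5]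
    simp only [one_pow, Finset.sum_const, card_range, nsmul_eq_mul, mul_one, Int.cast_natCast]
  · rw [if_neg h4]
    have h5 : z d ^ (e * k) ≠ 1 := fun h => h4 (isPrimitiveRoot_z.dvd_of_pow_eq_one _ h)
    have h6 := geom_sum_mul (z d ^ (e * k)) (d / e)
    have h7 : (z d ^ (e * k)) ^ (d / e) = 1 := by
      rw [← pow_mul, show e * k * (d / e) = (e * (d / e)) * k by ring, Nat.mul_div_cancel' hed,
        pow_mul, z_pow, one_pow]
    rw [h7, sub_self] at h6
    simpa using (mul_eq_zero.1 h6).resolve_right (sub_ne_zero.2 h5)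

/-! ### The trace -/

/-- The trace, as an element of the ring. -/
noncomputable def trR (x : R d) : R d :=
  ∑ u : (ZMod d)ˣ, aut (u : ZMod d).val (ZMod.val_coe_unit_coprime u) x

theorem trR_add (x y : R d) : trR (x + y) = trR x + trR y := by
  simp only [trR, map_add, Finset.sum_add_distrib]

theorem trR_int_mul (a : ℤ) (x : R d) : trR ((a : R d) * x) = a * trR x := by
  simp only [trR, map_mul, map_intCast, ← Finset.mul_sum]

theorem trR_sum {ι : Type*} (s : Finset ι) (f : ι → R d) : trR (∑ i ∈ s, f i) = ∑ i ∈ s, trR (f i) := by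
  simp only [trR, map_sum]
  rw [Finset.sum_comm]

theorem trR_int (x : R d) : ∃ n : ℤ, trR x = (n : R d) := by
  have h1 : ∀ k : ℕ, ∃ n : ℤ, trR (z d ^ k) = (n : R d) := by
    intro k
    obtain ⟨n, hn⟩ := ramanujan (d := d) k
    refine ⟨n, ?_⟩
    rw [← hn, ← sum_units (fun c => z d ^ (c * k)), trR]
    refine Finset.sum_congr rfl fun u _ => ?_
    rw [map_pow, aut_z, ← pow_mul]
  choose n hn using h1
  refine ⟨∑ i ∈ range d, co x i * n i, ?_⟩
  conv_lhs => rw [← sum_co x, trR_sum]
  push_cast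
  refine Finset.sum_congr rfl fun i _ => ?_
  rw [trR_int_mul, hn]

/-- The trace. -/
noncomputable def tr (x : R d) : ℤ := co (trR x) 0

theorem tr_spec (x : R d) : trR x = (tr x : R d) := by
  obtain ⟨n, hn⟩ := trR_int x
  rw [tr, hn, co_int]; simp

theorem tr_unique {x : R d} {n : ℤ} (h : trR x = (n : R d)) : tr x = n := by
  rw [tr_spec] at h; exact_mod_cast h

theorem tr_add (x y : R d) : tr (x + y) = tr x + tr y := by
  apply tr_unique
  rw [trR_add, tr_spec, tr_spec]; push_cast; rfl

theorem tr_int_mul (a : ℤ) (x : R d) : tr ((a : R d) * x) = a * tr x := by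
  apply tr_unique
  rw [trR_int_mul, tr_spec]; push_cast; rfl

theorem tr_sum {ι : Type*} (s : Finset ι) (f : ι → R d) : tr (∑ i ∈ s, f i) = ∑ i ∈ s, tr (f i) := by
  apply tr_unique
  rw [trR_sum]; push_cast
  exact Finset.sum_congr rfl fun i _ => tr_spec _

theorem card_units' : Fintype.card (ZMod d)ˣ = d.totient := ZMod.card_units_eq_totient d

theorem tr_one : tr (1 : R d) = d.totient := by
  apply tr_unique
  simp only [trR, map_one, Finset.sum_const, Finset.card_univ, card_units']
  simp

theorem tr_int (a : ℤ) : tr (a : R d) = a * d.totient := by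
  have := tr_int_mul (d := d) a 1
  rwa [mul_one, tr_one] at this

/-- The trace vector. -/
noncomputable def TV (x : R d) (j : ℕ) : ℤ := tr (x * z d ^ (d - j))

theorem sum_TV (x : R d) : ∑ j ∈ range d, (TV x j : R d) * z d ^ j = (d : R d) * x := by
  have h0 := dpos (d := d)
  have h1 : ∀ j ∈ range d, (TV x j : R d) * z d ^ j = ∑ u : (ZMod d)ˣ,
      aut (u : ZMod d).val (ZMod.val_coe_unit_coprime u) x *
        (z d ^ ((u : ZMod d).val * (d - 1) + 1)) ^ j := by
    intro j hj
    rw [TV, ← tr_spec, trR, Finset.sum_mul]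
    refine Finset.sum_congr rfl fun u _ => ?_
    rw [map_mul, map_pow, aut_z, mul_assoc]
    congr 1
    rw [← pow_mul, ← pow_add, ← pow_mul]
    apply z_pow_congr
    have hj' := mem_range.1 hj
    have h2 : (u : ZMod d).val * (d - j) + j + d * ((u : ZMod d).val * j) =
        ((u : ZMod d).val * (d - 1) + 1) * j + d * (u : ZMod d).val := by
      obtain ⟨a, ha⟩ : ∃ a, d = j + a := ⟨d - j, by omega⟩
      obtain ⟨b, hb⟩ : ∃ b, d = b + 1 := ⟨d - 1, by omega⟩
      have e1 : d - j = a := by omega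
      have e2 : d - 1 = b := by omega
      rw [e1, e2]
      have e3 : (u : ZMod d).val * a + j + d * ((u : ZMod d).val * j) =
        (u : ZMod d).val * a + j + (b + 1) * ((u : ZMod d).val * j) := by rw [← hb]
      have e4 : ((u : ZMod d).val * b + 1) * j + d * (u : ZMod d).val =
        ((u : ZMod d).val * b + 1) * j + (j + a) * (u : ZMod d).val := by rw [← ha]
      rw [e3, e4]; ring
    have h3 : (u : ZMod d).val * (d - j) + j ≡ (u : ZMod d).val * (d - j) + j + d * ((u : ZMod d).val * j) [MOD d] := by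
      rw [Nat.ModEq, Nat.add_mul_mod_self_left]
    refine h3.trans ?_
    rw [h2, Nat.ModEq, Nat.add_mul_mod_self_left]
  rw [Finset.sum_congr rfl h1, Finset.sum_comm]
  rw [Finset.sum_eq_single (1 : (ZMod d)ˣ)]
  · rw [← Finset.mul_sum]
    have h2 : aut ((1 : (ZMod d)ˣ) : ZMod d).val (ZMod.val_coe_unit_coprime 1) x = x := by
      rw [aut_congr _ (Nat.coprime_one_left d), aut_one]
      rw [Units.val_one, ZMod.val_one_eq_one_mod, Nat.mod_mod]
    have h3 : z d ^ (((1 : (ZMod d)ˣ) : ZMod d).val * (d - 1) + 1) = 1 := by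
      have h4 : ((1 : (ZMod d)ˣ) : ZMod d).val * (d - 1) + 1 ≡ 0 [MOD d] := by
        rw [Units.val_one, ZMod.val_one_eq_one_mod]
        have h5 : 1 % d * (d - 1) + 1 ≡ 1 * (d - 1) + 1 [MOD d] :=
          Nat.ModEq.add_right 1 (Nat.ModEq.mul_right _ (Nat.mod_modEq 1 d))
        refine h5.trans ?_
        rw [one_mul, Nat.sub_add_cancel h0]
        simp [Nat.ModEq]
      rw [z_pow_congr h4, pow_zero]
    rw [h2, h3]
    simp only [one_pow, Finset.sum_const, card_range, nsmul_eq_mul, mul_one]
    ring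
  · intro u _ hu
    rw [← Finset.mul_sum]
    have h2 : z d ^ ((u : ZMod d).val * (d - 1) + 1) ≠ 1 := by
      intro h
      have h3 := isPrimitiveRoot_z.dvd_of_pow_eq_one _ h
      apply hu
      ext
      rw [Units.val_one]
      have h4 : (((u : ZMod d).val * (d - 1) + 1 : ℕ) : ZMod d) = 0 :=
        (ZMod.natCast_eq_zero_iff _ _).2 h3
      push_cast [Nat.cast_sub (show 1 ≤ d from h0)] at h4
      rw [ZMod.natCast_zmod_val, ZMod.natCast_self] at h4
      linear_combination -h4
    have h3 := geom_sum_mul (z d ^ ((u : ZMod d).val * (d - 1) + 1)) d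
    have h4 : (z d ^ ((u : ZMod d).val * (d - 1) + 1)) ^ d = 1 := by
      rw [← pow_mul, mul_comm, pow_mul, z_pow, one_pow]
    rw [h4, sub_self] at h3
    rw [(mul_eq_zero.1 h3).resolve_right (sub_ne_zero.2 h2), mul_zero]
  · intro h; exact absurd (mem_univ _) h

/-- The square norm. -/
noncomputable def qf (x : R d) : ℤ := tr (x * conj x)

theorem conj_z_pow_eq {j : ℕ} (hj : j ≤ d) : conj (z d ^ j) = z d ^ (d - j) := by
  have h1 := conj_z_pow (d := d) j
  have h2 : z d ^ (d - j) * z d ^ j = 1 := by rw [← pow_add, Nat.sub_add_cancel hj, z_pow]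
  have h3 : z d ^ j ≠ 0 := by
    intro h; rw [h, mul_zero] at h1; exact zero_ne_one h1
  exact mul_right_cancel₀ h3 (h1.trans h2.symm)

theorem sum_TV_sq (x : R d) : ∑ j ∈ range d, TV x j ^ 2 = d * qf x := by
  have h1 : ∑ j ∈ range d, (TV x j : R d) * z d ^ (d - j) = (d : R d) * conj x := by
    have h2 := congrArg conj (sum_TV x)
    rw [map_sum, map_mul, map_natCast] at h2
    rw [← h2]
    refine Finset.sum_congr rfl fun j hj => ?_
    rw [map_mul, map_intCast, conj_z_pow_eq (mem_range.1 hj).le]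
  have h3 : ∑ j ∈ range d, TV x j ^ 2 = tr (x * ∑ j ∈ range d, (TV x j : R d) * z d ^ (d - j)) := by
    rw [Finset.mul_sum, tr_sum]
    refine Finset.sum_congr rfl fun j _ => ?_
    rw [show x * ((TV x j : R d) * z d ^ (d - j)) = (TV x j : R d) * (x * z d ^ (d - j)) by ring,
      tr_int_mul, ← TV]
    ring
  rw [h3, h1, show x * ((d : R d) * conj x) = ((d : ℤ) : R d) * (x * conj x) by push_cast; ring,
    tr_int_mul, qf]

theorem qf_nonneg (x : R d) : 0 ≤ qf x := by
  have h1 := sum_TV_sq x
  have h2 : 0 ≤ ∑ j ∈ range d, TV x j ^ 2 := Finset.sum_nonneg fun j _ => sq_nonneg _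
  rw [h1] at h2
  have h3 : (0 : ℤ) < d := by exact_mod_cast dpos (d := d)
  exact nonneg_of_mul_nonneg_right h2 h3

/-- The square of the coordinate norm. -/
noncomputable def nsq (x : R d) : ℤ := ∑ i ∈ range d, co x i ^ 2

theorem nsq_nonneg (x : R d) : 0 ≤ nsq x := Finset.sum_nonneg fun i _ => sq_nonneg _

theorem co_sq_le (x : R d) (i : ℕ) : co x i ^ 2 ≤ nsq x := by
  rcases Nat.lt_or_ge i d with h | h
  · exact Finset.single_le_sum (f := fun i => co x i ^ 2) (fun i _ => sq_nonneg _) (mem_range.2 h)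
  · rw [co_eq_zero x h]
    simpa using nsq_nonneg x

theorem nf_TV (x : R d) : nf d (TV x) = L (((d : ℤ) : R d) * x) := by
  rw [nf_eq, sum_TV]; norm_cast

/-- The constant comparing the norms. -/
def C1 (d : ℕ) : ℕ := 4 ^ (d + 1)

theorem nsq_le_qf (x : R d) : nsq x ≤ C1 d * qf x := by
  have hd0 : (0 : ℤ) < d := by exact_mod_cast dpos (d := d)
  have hq := qf_nonneg x
  have key : ∀ i ∈ range d, (d : ℤ) * co x i ^ 2 ≤ 4 ^ (d + 1) * qf x := by
    intro i _
    -- the largest entry of the trace vector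
    set A : ℤ := (((range d).sup fun j => (TV x j).natAbs : ℕ) : ℤ) with hA
    have h1 : ∀ j < d, |TV x j| ≤ A := by
      intro j hj
      rw [Int.abs_eq_natAbs, hA]
      exact_mod_cast Finset.le_sup (f := fun j => (TV x j).natAbs) (mem_range.2 hj)
    have h2 := bound_nf dpos h1 (by positivity) i
    rw [nf_TV, getD_L, co_mul_int, abs_mul, abs_of_pos hd0] at h2
    have h3 : A ^ 2 ≤ d * qf x := by
      rw [← sum_TV_sq]
      obtain ⟨j, hj, hj2⟩ := Finset.exists_mem_eq_sup (range d) ⟨0, mem_range.2 dpos⟩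
        (fun j => (TV x j).natAbs)
      have : A ^ 2 = TV x j ^ 2 := by
        rw [hA, hj2, ← Int.abs_eq_natAbs, sq_abs]
      rw [this]
      exact Finset.single_le_sum (f := fun j => TV x j ^ 2) (fun j _ => sq_nonneg _) hj
    have h4 : ((d : ℤ) * |co x i|) ^ 2 ≤ (2 ^ (d + 1) * A) ^ 2 :=
      pow_le_pow_left₀ (by positivity) h2 2
    rw [mul_pow, sq_abs, mul_pow, ← pow_mul, mul_comm (d + 1) 2, pow_mul] at h4
    norm_num at h4
    have h5 : (d : ℤ) * ((d : ℤ) * co x i ^ 2) ≤ d * (4 ^ (d + 1) * qf x) := by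
      calc (d : ℤ) * ((d : ℤ) * co x i ^ 2) = (d : ℤ) ^ 2 * co x i ^ 2 := by ring
        _ ≤ 4 ^ (d + 1) * A ^ 2 := h4
        _ ≤ 4 ^ (d + 1) * (d * qf x) := mul_le_mul_of_nonneg_left h3 (by positivity)
        _ = _ := by ring
    exact le_of_mul_le_mul_left h5 hd0
  have h1 : (d : ℤ) * nsq x ≤ d * (C1 d * qf x) := by
    rw [nsq, Finset.mul_sum]
    refine (Finset.sum_le_sum key).trans ?_
    simp [C1]
  exact le_of_mul_le_mul_left h1 hd0

theorem totient_le_int : ((d.totient : ℕ) : ℤ) ≤ d := by exact_mod_cast Nat.totient_le d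

theorem tr_z_abs (k : ℕ) : |tr (z d ^ k)| ≤ d := by
  have hd0 : (0 : ℤ) < d := by exact_mod_cast dpos (d := d)
  have h1 := sum_TV_sq (z d ^ k)
  have h2 : qf (z d ^ k) = d.totient := by
    rw [qf, mul_comm, conj_z_pow, tr_one]
  have h3 : tr (z d ^ k) ^ 2 ≤ ∑ j ∈ range d, TV (z d ^ k) j ^ 2 := by
    have h4 : TV (z d ^ k) 0 = tr (z d ^ k) := by rw [TV, Nat.sub_zero, z_pow, mul_one]
    rw [← h4]
    exact Finset.single_le_sum (f := fun j => TV (z d ^ k) j ^ 2) (fun j _ => sq_nonneg _)
      (mem_range.2 dpos)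
  rw [h1, h2] at h3
  have h4 : tr (z d ^ k) ^ 2 ≤ (d : ℤ) ^ 2 := by
    refine h3.trans ?_
    rw [sq]
    exact mul_le_mul_of_nonneg_left totient_le_int hd0.le
  exact abs_le_of_sq_le_sq h4 hd0.le

/-- The constant comparing the norms. -/
def C2 (d : ℕ) : ℕ := d ^ 3

theorem qf_le_nsq (x : R d) : qf x ≤ C2 d * nsq x := by
  have hd0 : (0 : ℤ) < d := by exact_mod_cast dpos (d := d)
  have h1 : ∀ j ∈ range d, TV x j ^ 2 ≤ (d : ℤ) ^ 3 * nsq x := by
    intro j _
    have h2 : TV x j = ∑ i ∈ range d, co x i * tr (z d ^ (i + (d - j))) := by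
      rw [TV]
      conv_lhs => rw [← sum_co x, Finset.sum_mul, tr_sum]
      refine Finset.sum_congr rfl fun i _ => ?_
      rw [mul_assoc, tr_int_mul, ← pow_add]
    have h3 : |TV x j| ≤ d * ∑ i ∈ range d, |co x i| := by
      rw [h2, Finset.mul_sum]
      refine (Finset.abs_sum_le_sum_abs _ _).trans (Finset.sum_le_sum fun i _ => ?_)
      rw [abs_mul, mul_comm]
      exact mul_le_mul_of_nonneg_right (tr_z_abs _) (abs_nonneg _)
    have h4 : (∑ i ∈ range d, |co x i|) ^ 2 ≤ d * nsq x := by
      have := sq_sum_le_card_mul_sum_sq (s := range d) (f := fun i => |co x i|)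
      simp only [sq_abs, card_range] at this
      exact this
    calc TV x j ^ 2 = |TV x j| ^ 2 := (sq_abs _).symm
      _ ≤ (d * ∑ i ∈ range d, |co x i|) ^ 2 := pow_le_pow_left₀ (abs_nonneg _) h3 2
      _ = (d : ℤ) ^ 2 * (∑ i ∈ range d, |co x i|) ^ 2 := by ring
      _ ≤ (d : ℤ) ^ 2 * (d * nsq x) := mul_le_mul_of_nonneg_left h4 (by positivity)
      _ = _ := by ring
  have h2 : (d : ℤ) * qf x ≤ d * (C2 d * nsq x) := by
    rw [← sum_TV_sq]
    refine (Finset.sum_le_sum h1).trans ?_
    simp [C2]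
  exact le_of_mul_le_mul_left h2 hd0

/-- An element fixed by all automorphisms is an integer. -/
theorem eq_int_of_fixed {y : R d} (h : ∀ (c : ℕ) (hc : c.Coprime d), aut c hc y = y) :
    y = (co y 0 : R d) := by
  have h1 : trR y = ((d.totient : ℤ) : R d) * y := by
    simp only [trR, h, Finset.sum_const, Finset.card_univ, card_units']
    simp
  rw [tr_spec] at h1
  have h0 : ((d.totient : ℕ) : ℤ) ≠ 0 := by exact_mod_cast (totient_pos' (d := d)).ne'
  apply ext_co
  intro i _
  have h2 : (d.totient : ℤ) * co y i = if i = 0 then tr y else 0 := by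
    rw [← co_mul_int, ← h1, co_int]
  rw [co_int]
  split_ifs with h3
  · subst h3; rfl
  · rw [if_neg h3] at h2
    exact (mul_eq_zero.1 h2).resolve_left h0

/-- the norm of a multiple of a root of unity -/
theorem qf_mul_z {g : R d} {E : ℤ} (hg : g * conj g = (E : R d)) (i : ℕ) :
    qf (g * z d ^ i) = E * d.totient := by
  rw [qf, map_mul, show g * z d ^ i * (conj g * conj (z d ^ i)) =
    (g * conj g) * (conj (z d ^ i) * z d ^ i) by ring, conj_z_pow, mul_one, hg, tr_int]

theorem qf_mul {g x : R d} {E : ℤ} (hg : g * conj g = (E : R d)) : qf (g * x) = E * qf x := by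
  rw [qf, map_mul, show g * x * (conj g * conj x) = (g * conj g) * (x * conj x) by ring, hg,
    tr_int_mul, qf]

end

end R

end Run7.h700.G
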