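import Pool.Agent.Run7.h700.G.Chain

/-!
# Powers and roots of elements near one
-/

set_option linter.unusedSectionVars false
set_option linter.style.haveILetI false
set_option linter.unusedVariables false

namespace Run7.h700.G

open Finset Polynomial

section Abs

variable {S : Type*} [CommRing S] [IsDomain S] {l : ℕ} {lam : S} {f : ℕ}

theorem pow_cong (hl : l.Prime) (h0 : lam ∣ (l : S)) {x y : S} (h : lam ∣ x - y) (m : ℕ) :
    lam ^ (m + 1) ∣ x ^ (l ^ m) - y ^ (l ^ m) := by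
  induction m with
  | zero => simpa using h
  | succ m ih =>
    -- `X ^ l - Y ^ l` from `X - Y`
    have h1 : lam ∣ x ^ (l ^ m) - y ^ (l ^ m) := dvd_trans (dvd_pow_self _ (Nat.succ_ne_zero m)) ih
    have h2 : lam ∣ ∑ i ∈ range l, (x ^ (l ^ m)) ^ i * (y ^ (l ^ m)) ^ (l - 1 - i) := by
      have h3 : lam ∣ ∑ i ∈ range l, ((x ^ (l ^ m)) ^ i * (y ^ (l ^ m)) ^ (l - 1 - i) -
          (y ^ (l ^ m)) ^ (l - 1)) := by
        refine Finset.dvd_sum fun i hi => ?_
        have hi' := mem_range.1 hi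
        have h4 : (y ^ (l ^ m)) ^ (l - 1) = (y ^ (l ^ m)) ^ i * (y ^ (l ^ m)) ^ (l - 1 - i) := by
          rw [← pow_add]; congr 1; omega
        rw [h4, ← sub_mul]
        exact Dvd.dvd.mul_right (dvd_trans h1 (sub_dvd_pow_sub_pow _ _ i)) _
      rw [Finset.sum_sub_distrib, Finset.sum_const, card_range, nsmul_eq_mul] at h3
      have h5 := dvd_add h3 (Dvd.dvd.mul_right h0 ((y ^ (l ^ m)) ^ (l - 1)))
      rwa [sub_add_cancel] at h5
    have h3 := (Commute.all (x ^ (l ^ m)) (y ^ (l ^ m))).geom_sum₂_mul l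
    rw [pow_succ l m, pow_mul, pow_mul, ← h3, pow_succ' lam (m + 1)]
    exact mul_dvd_mul h2 ih

theorem root_step (hl : l.Prime) (h2 : (l : S) ∣ lam ^ f) {e : S} {j : ℕ}
    (hj : f + 1 ≤ (l - 1) * j) (he : lam ^ j ∣ e) :
    ∃ e', lam ^ (j + 1) ∣ e' ∧ (1 + e) ^ l = 1 + l * (e + e') := by
  have hl2 := hl.two_le
  have hj1 : 1 ≤ j := by
    rcases Nat.eq_zero_or_pos j with h | h
    · subst h; omega
    · exact h
  -- the binomial part
  have h1 : (l : S) * lam ^ (j + 1) ∣ ∑ i ∈ Finset.Ico 2 l, (l.choose i : S) * e ^ i := by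
    refine Finset.dvd_sum fun i hi => ?_
    rw [Finset.mem_Ico] at hi
    refine mul_dvd_mul ?_ ?_
    · have := hl.dvd_choose_self (by omega : i ≠ 0) hi.2
      exact_mod_cast (Nat.cast_dvd_cast this : ((l : ℕ) : S) ∣ _)
    · refine dvd_trans ?_ (pow_dvd_pow_of_dvd he i)
      rw [← pow_mul]
      exact pow_dvd_pow _ (by nlinarith [hi.1])
  have h2 : (l : S) * lam ^ (j + 1) ∣ e ^ l := by
    refine dvd_trans ?_ (pow_dvd_pow_of_dvd he l)
    rw [← pow_mul]
    have h3 : j * l = f + (j + 1) + (j * l - f - (j + 1)) := by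
      have : f + (j + 1) ≤ j * l := by
        obtain ⟨q, rfl⟩ : ∃ q, l = q + 1 := ⟨l - 1, by omega⟩
        have e1 : q + 1 - 1 = q := by omega
        rw [e1] at hj
        have : j * (q + 1) = q * j + j := by ring
        omega
      omega
    rw [h3, pow_add _ (f + (j + 1)), pow_add _ f (j + 1)]
    exact Dvd.dvd.mul_right (mul_dvd_mul h2 (dvd_refl _)) _
  obtain ⟨t, ht⟩ := dvd_add h1 h2
  refine ⟨lam ^ (j + 1) * t, Dvd.intro _ rfl, ?_⟩
  have h4 : (1 + e) ^ l = 1 + l * e + (∑ i ∈ Finset.Ico 2 l, (l.choose i : S) * e ^ i + e ^ l) := by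
    rw [add_comm 1 e, add_pow]
    simp only [one_pow, mul_one]
    rw [Finset.sum_range_succ, Finset.range_eq_Ico, ← Finset.sum_Ico_consecutive _ (show 0 ≤ 2 by norm_num) hl2]
    have h5 : ∑ i ∈ Finset.Ico 0 2, e ^ i * (l.choose i : S) = 1 + l * e := by
      rw [← Finset.range_eq_Ico, Finset.sum_range_succ, Finset.sum_range_one]
      simp; ring
    rw [h5]
    simp only [Nat.choose_self, Nat.cast_one, mul_one]
    have h6 : ∑ i ∈ Finset.Ico 2 l, e ^ i * (l.choose i : S) =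
        ∑ i ∈ Finset.Ico 2 l, (l.choose i : S) * e ^ i :=
      Finset.sum_congr rfl fun i _ => mul_comm _ _
    rw [h6]; ring
  rw [h4, ht]; ring

theorem root_iter (hl : l.Prime) (h1 : lam ^ f ∣ (l : S)) (h2 : (l : S) ∣ lam ^ f) {e : S} {j : ℕ}
    (hj : f + 1 ≤ (l - 1) * j) (he : lam ^ j ∣ e) (m : ℕ) :
    ∃ e', lam ^ (j + 1) ∣ e' ∧ (1 + e) ^ (l ^ m) = 1 + (l : S) ^ m * (e + e') := by
  induction m with
  | zero => exact ⟨0, dvd_zero _, by simp⟩
  | succ m ih =>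
    obtain ⟨e', h3, h4⟩ := ih
    -- level of the new error
    have h5 : lam ^ (j + f * m) ∣ (l : S) ^ m * (e + e') := by
      rw [add_comm j, pow_add, pow_mul]
      refine mul_dvd_mul (pow_dvd_pow_of_dvd h1 m) (dvd_add he ?_)
      exact dvd_trans (pow_dvd_pow _ (Nat.le_succ j)) h3
    obtain ⟨e'', h6, h7⟩ := root_step hl h2 (hj.trans (Nat.mul_le_mul_left _ (Nat.le_add_right _ _))) h5
    have h8 : (l : S) ^ m * lam ^ (j + 1) ∣ e'' := by
      refine dvd_trans ?_ h6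
      have : j + f * m + 1 = f * m + (j + 1) := by ring
      rw [this, pow_add _ (f * m), pow_mul]
      exact mul_dvd_mul (pow_dvd_pow_of_dvd h2 m) (dvd_refl _)
    obtain ⟨t, rfl⟩ := h8
    refine ⟨e' + lam ^ (j + 1) * t, dvd_add h3 (Dvd.intro _ rfl), ?_⟩
    rw [pow_succ, pow_mul, h4, h7]
    ring

theorem l_pow_dvd_of_lam (h2 : (l : S) ∣ lam ^ f) {x : S} {M : ℕ} (h : lam ^ (f * M) ∣ x) :
    (l : S) ^ M ∣ x := by
  refine dvd_trans ?_ h
  rw [pow_mul]
  exact pow_dvd_pow_of_dvd h2 M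

/-- One step of the root extraction. -/
theorem newton_step (hl : l.Prime) (h1 : lam ^ f ∣ (l : S)) (h2 : (l : S) ∣ lam ^ f)
    (hl0 : (l : S) ≠ 0) {u y y' B w E : S} {m M j : ℕ} (hj : f + 1 ≤ (l - 1) * j)
    (hB : (l : S) ^ (M + m) ∣ B - u ^ (l ^ m)) (hy : lam ^ j ∣ y * u - 1)
    (hw : (l : S) ^ (M + m) ∣ B * y ^ (l ^ m) - w) (hE : w - 1 = (l : S) ^ m * E)
    (hy' : (l : S) ^ (M + m) ∣ (y - y * E) - y') :
    lam ^ (min (j + 1) (f * M)) ∣ y' * u - 1 := by
  have hj1 : 1 ≤ j := by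
    rcases Nat.eq_zero_or_pos j with h | h
    · subst h; omega
    · exact h
  set e := y * u - 1 with he
  obtain ⟨e', h3, h4⟩ := root_iter hl h1 h2 hj hy m
  have h5 : (1 + e) ^ (l ^ m) = y ^ (l ^ m) * u ^ (l ^ m) := by rw [he, ← mul_pow]; ring
  obtain ⟨t1, ht1⟩ := hB
  obtain ⟨t2, ht2⟩ := hw
  obtain ⟨t3, ht3⟩ := hy'
  have hl0' : ((l : S) ^ m) ≠ 0 := pow_ne_zero _ hl0
  have h6 : E = e + e' + (l : S) ^ M * (t1 * y ^ (l ^ m) - t2) := by
    apply mul_left_cancel₀ hl0'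
    rw [pow_add] at ht1 ht2
    linear_combination -hE - ht2 + y ^ (l ^ m) * ht1 - h5 + h4
  have h7 : y' * u - 1 = -(e * e) - (1 + e) * e' -
      (l : S) ^ M * ((1 + e) * (t1 * y ^ (l ^ m) - t2) + (l : S) ^ m * t3 * u) := by
    have h8 : y' = y - y * E - (l : S) ^ (M + m) * t3 := by linear_combination -ht3
    rw [h8, h6, pow_add]
    linear_combination (-(1 - (e + e' + (l : S) ^ M * (t1 * y ^ (l ^ m) - t2)))) * he
  have hlm : lam ^ (min (j + 1) (f * M)) ∣ (l : S) ^ M :=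
    dvd_trans (pow_dvd_pow _ (min_le_right _ _)) (by rw [pow_mul]; exact pow_dvd_pow_of_dvd h1 M)
  have hj2 : lam ^ (min (j + 1) (f * M)) ∣ lam ^ (j + 1) := pow_dvd_pow _ (min_le_left _ _)
  rw [h7]
  refine dvd_sub (dvd_sub ?_ ?_) (Dvd.dvd.mul_right hlm _)
  · rw [dvd_neg]
    refine dvd_trans hj2 (dvd_trans (pow_dvd_pow _ (show j + 1 ≤ j + j by omega)) ?_)
    rw [pow_add]
    exact mul_dvd_mul hy hy
  · exact Dvd.dvd.mul_left (dvd_trans hj2 h3) _

end Abs

namespace R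

variable {d : ℕ} [hd : NeZero d]

/-- The generator of the radical of `l`. -/
noncomputable def lam (d l : ℕ) : R d := 1 - z d ^ (d / pw d l)

section Lam

variable {l : ℕ} (hl : l.Prime) (hld : l ∣ d)

include hl hld in
theorem prim_lam : IsPrimitiveRoot (z d ^ (d / pw d l)) (pw d l) := by
  have h1 : pw d l ∣ d := by rw [pw_eq dpos hl]; exact Nat.ordProj_dvd d l
  exact isPrimitiveRoot_z.pow dpos (Nat.div_mul_cancel h1).symm

/-- The ramification index. -/
def fi (d l : ℕ) : ℕ := (pw d l).totient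

include hl hld in
theorem pw_form : ∃ k, pw d l = l ^ (k + 1) ∧ fi d l = l ^ k * (l - 1) := by
  have h1 := fac_pos dpos hl hld
  obtain ⟨k, hk⟩ : ∃ k, d.factorization l = k + 1 := ⟨d.factorization l - 1, by omega⟩
  refine ⟨k, by rw [pw_eq dpos hl, hk], ?_⟩
  rw [fi, pw_eq dpos hl, hk, Nat.totient_prime_pow_succ hl]

include hl hld in
theorem lam_pow_dvd_l : lam d l ^ fi d l ∣ (l : R d) := by
  obtain ⟨k, hk, hf⟩ := pw_form hl hld
  haveI : Fact l.Prime := ⟨hl⟩
  have hprim := prim_lam hl hld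
  have h1 := congrArg (eval 1) (cyclotomic_eq_prod_X_sub_primitiveRoots hprim)
  have h0 : eval (1 : R d) (cyclotomic (pw d l) (R d)) = l := by
    rw [hk]; exact eval_one_cyclotomic_prime_pow k
  rw [h0, eval_prod] at h1
  rw [h1]
  have h2 : (primitiveRoots (pw d l) (R d)).card = fi d l := by
    rw [hprim.card_primitiveRoots, fi]
  rw [← h2, ← Finset.prod_const]
  refine Finset.prod_dvd_prod_of_dvd _ _ fun μ hμ => ?_
  rw [mem_primitiveRoots (by rw [hk]; exact pow_pos hl.pos _)] at hμ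
  haveI : NeZero (pw d l) := ⟨by rw [hk]; exact (pow_pos hl.pos _).ne'⟩
  obtain ⟨i, _, hi⟩ := hprim.eq_pow_of_pow_eq_one hμ.pow_eq_one
  rw [eval_sub, eval_X, eval_C, ← hi, lam]
  have := sub_dvd_pow_sub_pow (1 : R d) (z d ^ (d / pw d l)) i
  rwa [one_pow] at this

include hl hld in
theorem l_dvd_lam_pow : (l : R d) ∣ lam d l ^ fi d l := by
  obtain ⟨k, hk, hf⟩ := pw_form hl hld
  haveI : Fact l.Prime := ⟨hl⟩
  have h1 : ((X - 1 : (ZMod l)[X])) ^ (fi d l) = cyclotomic (pw d l) (ZMod l) := by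
    have h2 := cyclotomic_mul_prime_pow_eq (ZMod l) (p := l) (m := 1) (k := k + 1)
      (by simpa using hl.one_lt.ne') (Nat.succ_pos k)
    rw [mul_one, cyclotomic_one, Nat.add_sub_cancel] at h2
    rw [hk, h2, hf]
    congr 1
    rw [pow_succ, Nat.mul_sub, mul_one]
  have h2 : (C (l : ℤ) : ℤ[X]) ∣ (X - 1) ^ (fi d l) - cyclotomic (pw d l) ℤ := by
    rw [C_dvd_iff_dvd_coeff]
    intro i
    rw [← ZMod.intCast_zmod_eq_zero_iff_dvd]
    have h3 : ((X - 1 : ℤ[X]) ^ (fi d l) - cyclotomic (pw d l) ℤ).map (Int.castRingHom (ZMod l)) = 0 := by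
      rw [Polynomial.map_sub, Polynomial.map_pow, Polynomial.map_sub, Polynomial.map_X,
        Polynomial.map_one, h1, map_cyclotomic_int, sub_self]
    have h4 := congrArg (fun f => coeff f i) h3
    rw [coeff_map] at h4
    simpa using h4
  obtain ⟨g, hg⟩ := h2
  set w := z d ^ (d / pw d l) with hw
  have h3 := congrArg (eval₂ (Int.castRingHom (R d)) w) hg
  have h4 : eval₂ (Int.castRingHom (R d)) w (cyclotomic (pw d l) ℤ) = 0 := by
    have h5 := (prim_lam hl hld).isRoot_cyclotomic (by rw [hk]; exact pow_pos hl.pos _)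
    rwa [IsRoot.def, ← map_cyclotomic_int, eval_map] at h5
  rw [eval₂_sub, h4, sub_zero, eval₂_pow, eval₂_sub, eval₂_X, eval₂_one, eval₂_mul, eval₂_C] at h3
  have h6 : lam d l ^ fi d l = (-1) ^ fi d l * (w - 1) ^ fi d l := by
    rw [← mul_pow, lam]
    congr 1
    ring
  rw [h6, h3]
  refine ⟨(-1) ^ fi d l * eval₂ (Int.castRingHom (R d)) w g, ?_⟩
  simp only [eq_intCast, Int.cast_natCast]
  ring

include hl hld in
theorem fi_pos : 0 < fi d l := by
  obtain ⟨k, hk, hf⟩ := pw_form hl hld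
  rw [hf]
  have := hl.two_le
  have : 0 < l - 1 := by omega
  have := pow_pos hl.pos k
  positivity

include hl hld in
theorem lam_dvd_l : lam d l ∣ (l : R d) :=
  dvd_trans (dvd_pow_self _ (fi_pos hl hld).ne') (lam_pow_dvd_l hl hld)

include hl hld in
theorem fi_le : fi d l ≤ d := by
  have h1 : pw d l ∣ d := by rw [pw_eq dpos hl]; exact Nat.ordProj_dvd d l
  exact (Nat.totient_le _).trans (Nat.le_of_dvd dpos h1)

include hl hld in
/-- powers of congruent elements -/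
theorem pow_cong_l {x y : R d} (h : lam d l ∣ x - y) {M m : ℕ} (hm : d * M ≤ m + 1) :
    (l : R d) ^ M ∣ x ^ (l ^ m) - y ^ (l ^ m) := by
  apply l_pow_dvd_of_lam (l_dvd_lam_pow hl hld)
  refine dvd_trans (pow_dvd_pow _ ?_) (pow_cong hl (lam_dvd_l hl hld) h m)
  exact (Nat.mul_le_mul_right _ (fi_le hl hld)).trans hm

end Lam

end R

end Run7.h700.G
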