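import Pool.Agent.Run7.h700.G.Final
import Pool.Agent.Run7.h700.G.Char

/-!
# The table of all Jacobi sums of order dividing `d`
-/

set_option linter.unusedSectionVars false
set_option linter.style.haveILetI false
set_option linter.unusedVariables false

namespace Run7.h700.G

open Finset

/-- The order of the pair. -/
def oo (d a b : ℕ) : ℕ :=
  (((List.range d).filter fun e => decide ((e + 1) * a % d = 0) && decide ((e + 1) * b % d = 0)).head?).getD 0 + 1

/-- The idempotent exponent removing the part at `l`. -/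
def eps (d l : ℕ) : ℕ :=
  (((List.range d).filter fun e => decide (e % pw d l = 0) &&
    decide (e % (d / pw d l) = 1 % (d / pw d l))).head?).getD 0

/-- The sum of a list. -/
def sumL (d : ℕ) (xs : List (List ℤ)) : List ℤ := xs.foldl (addL d) (intL d 0)

/-- Entry of the table. -/
def tget (d : ℕ) (tab : List (List ℤ)) (a b : ℕ) : List ℤ := tab.getD ((a % d) * d + b % d) []

/-- The weights in the Fourier expansion. -/
def WL (d N a i : ℕ) : List ℤ :=
  sumL d ((List.range N).map fun u => zL d ((a + (d - d / N * i)) * u))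

/-- The approximation of the Jacobi sum. -/
def kapL (d N : ℕ) (tab : List (List ℤ)) (a b : ℕ) : List ℤ :=
  divL (sumL d ((List.range N).flatMap fun i => (List.range N).map fun j =>
    mulL d (mulL d (WL d N a i) (WL d N b j)) (tget d tab (d / N * i) (d / N * j)))) ((N * N : ℕ) : ℤ)

/-- The approximation modulo the prime `l`. -/
def bL (d l : ℕ) (tab : List (List ℤ)) (a b : ℕ) : List ℤ :=
  tget d tab (a * eps d l) (b * eps d l)

/-- The main case. -/
def jmain (d K n : ℕ) (sg : List (List (List ℤ))) (tab : List (List ℤ)) (a b : ℕ) : List ℤ :=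
  if (prs (oo d a b)).length ≤ 1 then
    oneP d K n (sg.getD (a * d + b) []) ((prs (oo d a b)).getD 0 1)
      (kapL d (oo d a b / (prs (oo d a b)).getD 0 1) tab a b)
  else
    twoP d K n (sg.getD (a * d + b) []) ((prs (oo d a b)).getD 0 1) ((prs (oo d a b)).getD 1 1)
      (bL d ((prs (oo d a b)).getD 0 1) tab a b) (bL d ((prs (oo d a b)).getD 1 1) tab a b)

/-- A Jacobi sum from those of smaller order. -/
def jac1 (d K n ι : ℕ) (sg : List (List (List ℤ))) (tab : List (List ℤ)) (a b : ℕ) : List ℤ :=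
  if a % d = 0 ∧ b % d = 0 then intL d ((n : ℤ) - 2)
  else if a % d = 0 ∨ b % d = 0 then intL d (-1)
  else if (a + b) % d = 0 then smulL (-1) (zL d (a * ι))
  else jmain d K n sg tab a b

/-- One round. -/
def jround (d K n ι : ℕ) (sg : List (List (List ℤ))) (tab : List (List ℤ)) (E : ℕ) : List (List ℤ) :=
  (List.range (d * d)).map fun i =>
    if oo d (i / d) (i % d) = E + 1 then jac1 d K n ι sg tab (i / d) (i % d) else tab.getD i []

/-- The table of Jacobi sums. -/
def jtab (d K n ι : ℕ) (sg : List (List (List ℤ))) : List (List ℤ) :=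
  (List.range d).foldl (jround d K n ι sg) []

/-! ### Orders -/

theorem find_head (n : ℕ) (P : ℕ → Bool) (h : ∃ e < n, P e = true) :
    ∃ e < n, (((List.range n).filter P).head?).getD 0 = e ∧ P e = true ∧ ∀ e' < e, P e' = false := by
  classical
  have hex : ∃ e, e < n ∧ P e = true := h
  have h1 := Nat.find_spec hex
  have h2 : (List.range n).find? P = some (Nat.find hex) := by
    rw [List.find?_range_eq_some]
    refine ⟨h1.2, List.mem_range.2 h1.1, fun j hj => ?_⟩
    have h3 := Nat.find_min hex hj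
    by_contra h4
    apply h3
    refine ⟨lt_trans hj h1.1, ?_⟩
    simpa using h4
  refine ⟨Nat.find hex, h1.1, by rw [List.head?_filter, h2]; rfl, h1.2, fun e' he' => ?_⟩
  have h3 := Nat.find_min hex he'
  by_contra h4
  apply h3
  exact ⟨lt_trans he' h1.1, by simpa using h4⟩

theorem oo_spec {d : ℕ} (hd : 0 < d) (a b : ℕ) : 0 < oo d a b ∧ oo d a b ≤ d ∧ d ∣ oo d a b * a ∧
    d ∣ oo d a b * b ∧ ∀ e, 0 < e → d ∣ e * a → d ∣ e * b → oo d a b ≤ e := by
  obtain ⟨e, h1, h2, h3, h4⟩ := find_head d (fun e => decide ((e + 1) * a % d = 0) &&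
    decide ((e + 1) * b % d = 0)) ⟨d - 1, by omega, by
      rw [Nat.sub_add_cancel hd]; simp⟩
  rw [oo, h2]
  simp only [Bool.and_eq_true, decide_eq_true_eq] at h3
  refine ⟨Nat.succ_pos e, by omega, Nat.dvd_of_mod_eq_zero h3.1, Nat.dvd_of_mod_eq_zero h3.2, ?_⟩
  intro e' he' h5 h6
  by_contra h7
  push Not at h7
  have h8 := h4 (e' - 1) (by omega)
  rw [Nat.sub_add_cancel he', Nat.mod_eq_zero_of_dvd h5, Nat.mod_eq_zero_of_dvd h6] at h8
  simp at h8

theorem oo_dvd {d : ℕ} (hd : 0 < d) (a b : ℕ) : oo d a b ∣ d := by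
  obtain ⟨h1, h2, h3, h4, h5⟩ := oo_spec hd a b
  by_contra h
  have h6 : 0 < d % oo d a b := Nat.pos_of_ne_zero fun h7 => h (Nat.dvd_of_mod_eq_zero h7)
  have key : ∀ c, d ∣ oo d a b * c → d ∣ d % oo d a b * c := by
    intro c hc
    have h7 : d * c = oo d a b * c * (d / oo d a b) + d % oo d a b * c := by
      conv_lhs => rw [← Nat.div_add_mod d (oo d a b)]
      ring
    have h8 : d ∣ oo d a b * c * (d / oo d a b) + d % oo d a b * c := by
      rw [← h7]; exact Dvd.intro _ rfl
    exact (Nat.dvd_add_right (Dvd.dvd.mul_right hc _)).1 h8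
  have h7 := h5 _ h6 (key a h3) (key b h4)
  have h8 := Nat.mod_lt d h1
  omega

theorem oo_mod {d : ℕ} (hd : 0 < d) (a b : ℕ) : oo d (a % d) (b % d) = oo d a b := by
  rw [oo, oo]
  have key : ∀ e c : ℕ, (e + 1) * (c % d) % d = (e + 1) * c % d := by
    intro e c
    rw [Nat.mul_mod, Nat.mod_mod, ← Nat.mul_mod]
  simp only [key]

theorem eps_spec {d l : ℕ} (hd : 0 < d) (hl : l.Prime) : pw d l ∣ eps d l ∧
    eps d l ≡ 1 [MOD d / pw d l] := by
  have h1 : pw d l ∣ d := by rw [pw_eq hd hl]; exact Nat.ordProj_dvd d l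
  have h2 : Nat.Coprime (pw d l) (d / pw d l) := by
    rw [pw_eq hd hl]
    have := Nat.coprime_ordCompl hl hd.ne'
    exact Nat.Coprime.pow_left _ this
  have hpos : 0 < pw d l := by rw [pw_eq hd hl]; exact pow_pos hl.pos _
  have h3 : 0 < d / pw d l := Nat.div_pos (Nat.le_of_dvd hd h1) hpos
  obtain ⟨x, hx1, hx2⟩ := Nat.chineseRemainder h2 0 1
  obtain ⟨e, g1, g2, g3, g4⟩ := find_head d (fun e => decide (e % pw d l = 0) &&
    decide (e % (d / pw d l) = 1 % (d / pw d l))) ⟨x % d, Nat.mod_lt _ hd, by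
      simp only [Bool.and_eq_true, decide_eq_true_eq]
      constructor
      · rw [Nat.mod_mod_of_dvd _ h1]; simpa [Nat.ModEq] using hx1
      · rw [Nat.mod_mod_of_dvd _ (Nat.div_dvd_of_dvd h1)]; exact hx2⟩
  rw [eps, g2]
  simp only [Bool.and_eq_true, decide_eq_true_eq] at g3
  exact ⟨Nat.dvd_of_mod_eq_zero g3.1, g3.2⟩

theorem oo_eps {d l : ℕ} (hd : 0 < d) (hl : l.Prime) (a b : ℕ) (h : l ∣ oo d a b) :
    oo d (a * eps d l) (b * eps d l) < oo d a b := by
  obtain ⟨h1, h2, h3, h4, h5⟩ := oo_spec hd a b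
  obtain ⟨e1, e2⟩ := eps_spec hd hl
  obtain ⟨e, he⟩ := h
  have hpd : pw d l ∣ d := by rw [pw_eq hd hl]; exact Nat.ordProj_dvd d l
  have he0 : 0 < e := by
    rcases Nat.eq_zero_or_pos e with h0 | h0
    · subst h0; omega
    · exact h0
  have key : ∀ c, d ∣ oo d a b * c → d ∣ e * (c * eps d l) := by
    intro c hc
    have h6 : (d / pw d l).Coprime l := by
      rw [pw_eq hd hl]
      exact (Nat.coprime_ordCompl hl hd.ne').symm
    have h7 : d / pw d l ∣ e * c := by
      apply h6.dvd_of_dvd_mul_left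
      have : l * (e * c) = oo d a b * c := by rw [he]; ring
      rw [this]
      exact dvd_trans (Nat.div_dvd_of_dvd hpd) hc
    have h8 := Nat.mul_dvd_mul h7 e1
    rw [Nat.div_mul_cancel hpd] at h8
    rwa [mul_assoc] at h8
  obtain ⟨_, _, _, _, h6⟩ := oo_spec hd (a * eps d l) (b * eps d l)
  refine lt_of_le_of_lt (h6 e he0 (key a h3) (key b h4)) ?_
  rw [he]
  have := hl.two_le
  nlinarith

theorem prs_nodup (d : ℕ) : (prs d).Nodup := List.Nodup.filter _ List.nodup_range

theorem pow_of_prs {e l : ℕ} (he : 0 < e) (h1 : prs e = [l]) : ∃ v, e = l ^ v := by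
  refine ⟨e.primeFactorsList.length, ?_⟩
  have h2 : ∀ p ∈ e.primeFactorsList, p = l := by
    intro p hp
    have h3 := (Nat.mem_primeFactorsList he.ne').1 hp
    have h4 := (mem_prs he).2 h3
    rw [h1] at h4
    simpa using h4
  conv_lhs => rw [← Nat.prod_primeFactorsList he.ne']
  rw [List.eq_replicate_of_mem h2, List.prod_replicate, List.length_replicate]

namespace R

variable {F : Type*} [Field F] [Fintype F] [DecidableEq F] {d : ℕ} [hd : NeZero d]
  {χ : MulChar F (R d)}

theorem sumL_eq (xs : List (R d)) : sumL d (xs.map L) = L xs.sum := by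
  have key : ∀ (xs : List (R d)) (w : R d), (xs.map L).foldl (addL d) (L w) = L (w + xs.sum) := by
    intro xs
    induction xs with
    | nil => intro w; simp
    | cons a xs ih =>
      intro w
      rw [List.map_cons, List.foldl_cons, addL_eq, ih, List.sum_cons, add_assoc]
  rw [sumL, intL_eq, key]; simp

theorem list_sum_range' {M : Type*} [AddCommMonoid M] (n : ℕ) (f : ℕ → M) :
    ((List.range n).map f).sum = ∑ i ∈ range n, f i := by
  induction n with
  | zero => simp
  | succ n ih => rw [List.range_succ, List.map_append, List.sum_append, ih, Finset.sum_range_succ]; simp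

theorem sum_flatMap' {α M : Type*} [AddCommMonoid M] (l : List α) (f : α → List M) :
    (l.flatMap f).sum = (l.map fun x => (f x).sum).sum := by
  induction l with
  | nil => simp
  | cons a l ih => rw [List.flatMap_cons, List.sum_append, ih, List.map_cons, List.sum_cons]

theorem WL_eq (N a i : ℕ) : WL d N a i = L (∑ u ∈ range N, z d ^ ((a + (d - d / N * i)) * u)) := by
  rw [WL, ← list_sum_range', ← sumL_eq, List.map_map]
  congr 1
  exact List.map_congr_left fun u _ => zL_eq _

/-- The norms of all Jacobi sums are integers prime to `d`. -/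
theorem JJ_norm_int (h : CH χ) (a b : ℕ) : ∃ N : ℤ, JJ χ a b * conj (JJ χ a b) = (N : R d) ∧
    ∀ l : ℕ, l.Prime → l ∣ d → ¬ (l : ℤ) ∣ N := by
  have hq := d_dvd h
  have hq1 : 1 ≤ Fintype.card F := Fintype.card_pos
  have hlq : ∀ l : ℕ, l.Prime → l ∣ d → (l : ℤ) ∣ (Fintype.card F : ℤ) - 1 := by
    intro l hl hld
    have := dvd_trans hld hq
    have h2 : (l : ℤ) ∣ ((Fintype.card F - 1 : ℕ) : ℤ) := by exact_mod_cast this
    rwa [Nat.cast_sub hq1, Nat.cast_one] at h2
  have hone : ∀ l : ℕ, l.Prime → ¬ (l : ℤ) ∣ 1 := by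
    intro l hl h1
    have := Int.eq_one_of_dvd_one (by positivity) h1
    exact hl.one_lt.ne' (by exact_mod_cast this)
  by_cases ha : d ∣ a
  · have e0 : JJ χ a b = JJ χ 0 b := JJ_congr h ((Nat.modEq_zero_iff_dvd).2 ha) rfl
    by_cases hb : d ∣ b
    · have e1 : JJ χ a b = ((Fintype.card F : ℕ) : R d) - 2 := by
        rw [e0, JJ_congr h (b' := 0) rfl ((Nat.modEq_zero_iff_dvd).2 hb), JJ_zero_zero]
      refine ⟨((Fintype.card F : ℤ) - 2) * ((Fintype.card F : ℤ) - 2), ?_, ?_⟩
      · rw [e1, map_sub, map_natCast, map_ofNat]; push_cast; ring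
      · intro l hl hld h1
        have h2 := hlq l hl hld
        apply hone l hl
        have e2 : (1 : ℤ) = ((Fintype.card F : ℤ) - 2) * ((Fintype.card F : ℤ) - 2) -
            ((Fintype.card F : ℤ) - 1) * ((Fintype.card F : ℤ) - 3) := by ring
        rw [e2]
        exact dvd_sub h1 (Dvd.dvd.mul_right h2 _)
    · refine ⟨1, ?_, fun l hl _ => hone l hl⟩
      rw [e0, JJ_zero h hb]; simp
  · by_cases hb : d ∣ b
    · refine ⟨1, ?_, fun l hl _ => hone l hl⟩
      rw [JJ_comm, JJ_congr h (a' := 0) (b' := a) ((Nat.modEq_zero_iff_dvd).2 hb) rfl, JJ_zero h ha]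
      simp
    · by_cases hab : d ∣ a + b
      · refine ⟨1, ?_, fun l hl _ => hone l hl⟩
        rw [JJ_neg h ha hab, map_neg, neg_mul_neg, mul_comm, conj_z_pow]; simp
      · refine ⟨(Fintype.card F : ℤ), ?_, ?_⟩
        · rw [JJ_norm h ha hb hab]; simp
        · intro l hl hld h1
          apply hone l hl
          have h2 := dvd_sub h1 (hlq l hl hld)
          simpa using h2

theorem two_le_Mx {K n : ℕ} {α : R d} {S0 : List (List ℤ)} (h : Hyp K n α S0) : 2 ≤ Mx d K n := by
  have hd0 := dpos (d := d)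
  have h2 := one_le_BD d K
  have h3 := h.n0
  have h4 : 2 ≤ Gb d K n := by
    rw [Gb]
    have : 1 ≤ C1 d * (d * (BD d K * BD d K * n)) := by
      have : 0 < C1 d := by rw [C1]; positivity
      have h5 : 0 < BD d K := h2
      exact Nat.succ_le_of_lt (by positivity)
    omega
  rw [Mx]
  have h5 : Nat.size 2 ≤ (Gb d K n).size := Nat.size_le_size h4
  have h6 : Nat.size 2 = 2 := by decide
  omega

theorem tget_eq {tab : List (List ℤ)} {E : ℕ} (h : CH χ)
    (htab : ∀ i < d * d, oo d (i / d) (i % d) ≤ E → tab.getD i [] = L (JJ χ (i / d) (i % d)))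
    {a b : ℕ} (hab : oo d a b ≤ E) : tget d tab a b = L (JJ χ a b) := by
  have hd0 := dpos (d := d)
  have ha := Nat.mod_lt a hd0
  have hb := Nat.mod_lt b hd0
  have e1 : (a % d * d + b % d) / d = a % d := by
    rw [Nat.mul_comm, Nat.mul_add_div hd0, Nat.div_eq_of_lt hb, add_zero]
  have e2 : (a % d * d + b % d) % d = b % d := by
    rw [Nat.mul_comm, Nat.mul_add_mod, Nat.mod_mod]
  rw [tget, htab, e1, e2]
  · congr 1
    exact JJ_congr h (Nat.mod_modEq _ _) (Nat.mod_modEq _ _)
  · calc a % d * d + b % d < a % d * d + d := by omega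
      _ = (a % d + 1) * d := by ring
      _ ≤ d * d := Nat.mul_le_mul_right _ ha
  · rw [e1, e2, oo_mod hd0]; exact hab

/-- The hypothesis on the generators of the ideals. -/
def GenHyp (χ : MulChar F (R d)) (K : ℕ) (sg : List (List (List ℤ))) : Prop :=
  ∀ a < d, ∀ b < d, ¬ d ∣ a → ¬ d ∣ b → ¬ d ∣ a + b →
    Hyp K (Fintype.card F) (JJ χ a b) (sg.getD (a * d + b) [])

theorem kapL_eq (h : CH χ) {tab : List (List ℤ)} {E N : ℕ}
    (htab : ∀ i < d * d, oo d (i / d) (i % d) ≤ E → tab.getD i [] = L (JJ χ (i / d) (i % d)))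
    (hN : 0 < N) (hNd : N ∣ d) (hNE : N ≤ E) (a b : ℕ) : kapL d N tab a b = L (KK χ N a b) := by
  have hd0 := dpos (d := d)
  have hc : d / N * N = d := Nat.div_mul_cancel hNd
  have h1 : ((List.range N).flatMap fun i => (List.range N).map fun j =>
      mulL d (mulL d (WL d N a i) (WL d N b j)) (tget d tab (d / N * i) (d / N * j))) =
      ((List.range N).flatMap fun i => (List.range N).map fun j =>
        (∑ u ∈ range N, z d ^ ((a + (d - d / N * i)) * u)) *
        (∑ u ∈ range N, z d ^ ((b + (d - d / N * j)) * u)) * JJ χ (d / N * i) (d / N * j)).map L := by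
    rw [List.map_flatMap]
    refine List.flatMap_congr fun i _ => ?_
    rw [List.map_map]
    refine List.map_congr_left fun j _ => ?_
    simp only [Function.comp]
    rw [WL_eq, WL_eq, mulL_eq, tget_eq h htab, mulL_eq]
    obtain ⟨_, _, _, _, h5⟩ := oo_spec hd0 (d / N * i) (d / N * j)
    refine (h5 N hN ?_ ?_).trans hNE
    · rw [show N * (d / N * i) = d / N * N * i by ring, hc]; exact Dvd.intro _ rfl
    · rw [show N * (d / N * j) = d / N * N * j by ring, hc]; exact Dvd.intro _ rfl
  rw [kapL, h1, sumL_eq]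
  have h2 : ((List.range N).flatMap fun i => (List.range N).map fun j =>
        (∑ u ∈ range N, z d ^ ((a + (d - d / N * i)) * u)) *
        (∑ u ∈ range N, z d ^ ((b + (d - d / N * j)) * u)) * JJ χ (d / N * i) (d / N * j)).sum =
      ((N * N : ℕ) : R d) * KK χ N a b := by
    rw [KK_fourier h hN hc a b, sum_flatMap', list_sum_range']
    refine Finset.sum_congr rfl fun i _ => ?_
    rw [list_sum_range']
  rw [h2]
  have h3 : ((N * N : ℕ) : R d) = (((N * N : ℕ) : ℤ) : R d) := by push_cast; rfl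
  rw [h3]
  exact divL_eq (by have := hN.ne'; positivity) _

/-- The main case is correct. -/
theorem jmain_eq (h : CH χ) {K : ℕ} {sg : List (List (List ℤ))} (hs : GenHyp χ K sg)
    {tab : List (List ℤ)} {E a b : ℕ}
    (htab : ∀ i < d * d, oo d (i / d) (i % d) ≤ E → tab.getD i [] = L (JJ χ (i / d) (i % d)))
    (ha : a < d) (hb : b < d) (ha0 : ¬ d ∣ a) (hb0 : ¬ d ∣ b) (hab : ¬ d ∣ a + b)
    (ho : oo d a b = E + 1) : jmain d K (Fintype.card F) sg tab a b = L (JJ χ a b) := by
  have hd0 := dpos (d := d)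
  have hyp := hs a ha b hb ha0 hb0 hab
  obtain ⟨o1, o2, o3, o4, o5⟩ := oo_spec hd0 a b
  have hod := oo_dvd hd0 a b
  have hne1 : oo d a b ≠ 1 := by
    intro h1
    rw [h1, one_mul] at o3
    exact ha0 o3
  have hps : prs (oo d a b) ≠ [] := by
    intro h1
    obtain ⟨l, hl, hlo⟩ := Nat.exists_prime_and_dvd hne1
    have := (mem_prs o1).2 ⟨hl, hlo⟩
    rw [h1] at this; simp at this
  have hln : ∀ l : ℕ, l.Prime → l ∣ d → ¬ (l : ℤ) ∣ (Fintype.card F : ℤ) := by
    intro l hl hld h1
    have hq1 : 1 ≤ Fintype.card F := Fintype.card_pos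
    have h2 : (l : ℤ) ∣ ((Fintype.card F - 1 : ℕ) : ℤ) := by
      exact_mod_cast dvd_trans hld (d_dvd h)
    rw [Nat.cast_sub hq1, Nat.cast_one] at h2
    have h3 := dvd_sub h1 h2
    have h4 : (l : ℤ) ∣ 1 := by simpa using h3
    have := Int.eq_one_of_dvd_one (by positivity) h4
    exact hl.one_lt.ne' (by exact_mod_cast this)
  rw [jmain]
  split_ifs with hlen
  · -- one prime
    obtain ⟨l, hl1⟩ : ∃ l, prs (oo d a b) = [l] := by
      cases hp : prs (oo d a b) with
      | nil => exact absurd hp hps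
      | cons x xs =>
        rw [hp, List.length_cons] at hlen
        have : xs = [] := List.length_eq_zero_iff.1 (by omega)
        exact ⟨x, by rw [this]⟩
    have hlm := (mem_prs o1).1 (show l ∈ prs (oo d a b) by rw [hl1]; simp)
    obtain ⟨hl, hlo⟩ := hlm
    have hld := dvd_trans hlo hod
    rw [hl1]
    simp only [List.getD_cons_zero]
    obtain ⟨v, hv⟩ := pow_of_prs o1 hl1
    set N := oo d a b / l with hN
    have hNl : N * l = oo d a b := Nat.div_mul_cancel hlo
    have hN0 : 0 < N := Nat.div_pos (Nat.le_of_dvd o1 hlo) hl.pos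
    have hNd : N ∣ d := dvd_trans (Dvd.intro _ hNl) hod
    have hNE : N ≤ E := by
      have h1 : N < oo d a b := Nat.div_lt_self o1 hl.one_lt
      omega
    rw [kapL_eq h htab hN0 hNd hNE]
    obtain ⟨k, hk, hf⟩ := pw_form hl hld
    set D := d / oo d a b with hD
    have hDd : d = D * (N * l) := by rw [hNl, hD, Nat.div_mul_cancel hod]
    have hD0 : 0 < D := Nat.div_pos (Nat.le_of_dvd hd0 hod) o1
    have hdiv : ∀ c, d ∣ oo d a b * c → ∃ c', c = D * c' := by
      intro c hc
      have h1 : D * oo d a b ∣ c * oo d a b := by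
        rw [hD, Nat.div_mul_cancel hod, mul_comm]; exact hc
      exact Nat.dvd_of_mul_dvd_mul_right o1 h1
    obtain ⟨a1, ha1⟩ := hdiv a o3
    obtain ⟨b1, hb1⟩ := hdiv b o4
    have hpow : N * l ∣ l ^ (k + 1) := by
      rw [hNl, hv]
      have h1 : l ^ v ∣ d := by rw [← hv]; exact hod
      have h2 : v ≤ d.factorization l := (hl.pow_dvd_iff_le_factorization hd0.ne').1 h1
      have h3 : l ^ (k + 1) = l ^ d.factorization l := by rw [← hk, pw_eq hd0 hl]
      rw [h3]
      exact pow_dvd_pow _ h2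
    have h2N : l = 2 → 2 ∣ N := by
      intro h2
      subst h2
      by_contra h3
      have hv0 : v ≠ 0 := by rintro rfl; rw [pow_zero] at hv; exact hne1 hv
      obtain ⟨v', rfl⟩ : ∃ v', v = v' + 1 := ⟨v - 1, by omega⟩
      have hN1 : N = 2 ^ v' := by
        have : N * 2 = 2 ^ v' * 2 := by rw [hNl, hv, pow_succ]
        omega
      have hv'0 : v' = 0 := by
        by_contra h4
        apply h3
        rw [hN1]
        exact dvd_pow_self 2 h4
      subst hv'0
      rw [pow_zero] at hN1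
      rw [hN1, one_mul] at hDd
      have par : ∀ c c', c = D * c' → ¬ d ∣ c → c' % 2 = 1 := by
        intro c c' hc hc2
        by_contra h4
        have h5 : 2 ∣ c' := by omega
        obtain ⟨e, rfl⟩ := h5
        apply hc2
        rw [hc, hDd]
        exact ⟨e, by ring⟩
      have p1 := par a a1 ha1 ha0
      have p2 := par b b1 hb1 hb0
      apply hab
      obtain ⟨e, he⟩ : 2 ∣ a1 + b1 := by omega
      rw [ha1, hb1, ← mul_add, he, hDd]
      exact ⟨e, by ring⟩
    have hc := cong_KK h hl hld hk hN0 hDd hpow h2N (a := a1) (b := b1)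
    rw [← ha1, ← hb1] at hc
    have hDdiv : d / pw d l ∣ D := by
      have h3 : pw d l ∣ d := by rw [pw_eq hd0 hl]; exact Nat.ordProj_dvd d l
      obtain ⟨m, hm⟩ := hpow
      refine ⟨m, ?_⟩
      have h5 : d / pw d l * pw d l = D * (N * l) := by rw [Nat.div_mul_cancel h3]; exact hDd
      rw [hk, hm] at h5
      have h6 : 0 < N * l := Nat.mul_pos hN0 hl.pos
      have h7 : d / pw d l * m * (N * l) = D * (N * l) := by
        rw [← h5, hk, hm]; ring
      exact (Nat.eq_of_mul_eq_mul_right h6 h7).symm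
    refine oneP_spec hyp hl hld (hln l hl hld) ?_ (j0 := l ^ k + 1) ?_ ?_ hc
    · apply cong_neg_one h hl hld
      · rw [Nat.modEq_zero_iff_dvd, ha1]; exact Dvd.dvd.mul_right hDdiv _
      · rw [Nat.modEq_zero_iff_dvd, hb1]; exact Dvd.dvd.mul_right hDdiv _
    · rw [hf, Nat.mul_add, mul_one, mul_comm]
      have := hl.two_le
      omega
    · rw [hf]
      have h1 := two_le_Mx hyp
      have h2 := hl.two_le
      have h3 : 1 ≤ l ^ k := Nat.one_le_pow _ _ hl.pos
      calc l ^ k + 1 ≤ l ^ k + l ^ k := by omega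
        _ = l ^ k * 1 * 2 := by ring
        _ ≤ l ^ k * (l - 1) * Mx d K (Fintype.card F) :=
          Nat.mul_le_mul (Nat.mul_le_mul_left _ (by omega)) h1
  · -- two primes
    push Not at hlen
    set l1 := (prs (oo d a b)).getD 0 1 with hl1
    set l2 := (prs (oo d a b)).getD 1 1 with hl2
    have hm1 : l1 ∈ prs (oo d a b) := by
      rw [hl1, List.getD_eq_getElem _ _ (by omega)]; exact List.getElem_mem _
    have hm2 : l2 ∈ prs (oo d a b) := by
      rw [hl2, List.getD_eq_getElem _ _ (by omega)]; exact List.getElem_mem _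
    have hne : l1 ≠ l2 := by
      rw [hl1, hl2, List.getD_eq_getElem _ _ (by omega), List.getD_eq_getElem _ _ (by omega)]
      intro h1
      have := (List.Nodup.getElem_inj_iff (prs_nodup (oo d a b))).1 h1
      omega
    obtain ⟨q1, q1'⟩ := (mem_prs o1).1 hm1
    obtain ⟨q2, q2'⟩ := (mem_prs o1).1 hm2
    have hb' : ∀ l : ℕ, l.Prime → l ∣ oo d a b → bL d l tab a b =
        L (JJ χ (a * eps d l) (b * eps d l)) := by
      intro l hl hlo
      rw [bL]
      refine tget_eq h htab ?_
      have := oo_eps hd0 hl a b hlo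
      omega
    rw [hb' l1 q1 q1', hb' l2 q2 q2']
    obtain ⟨N1, n1, n1'⟩ := JJ_norm_int h (a * eps d l1) (b * eps d l1)
    obtain ⟨N2, n2, n2'⟩ := JJ_norm_int h (a * eps d l2) (b * eps d l2)
    have hcong : ∀ l : ℕ, l.Prime → l ∣ d →
        lam d l ∣ JJ χ a b - JJ χ (a * eps d l) (b * eps d l) := by
      intro l hl hld
      obtain ⟨_, e2⟩ := eps_spec hd0 hl
      have key : ∀ c : ℕ, c ≡ c * eps d l [MOD d / pw d l] := by
        intro c
        have := Nat.ModEq.mul_left c e2
        rw [mul_one] at this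
        exact this.symm
      exact cong_JJ h hl hld (key a) (key b)
    have d1 := dvd_trans q1' hod
    have d2 := dvd_trans q2' hod
    exact twoP_spec hyp q1 q2 hne d1 d2 (hcong l1 q1 d1) (hcong l2 q2 d2) n1 n2 (n1' l1 q1 d1)
      (n2' l2 q2 d2)

theorem jac1_eq (h : CH χ) {K ι : ℕ} (hι : χ (-1) = z d ^ ι) {sg : List (List (List ℤ))}
    (hs : GenHyp χ K sg) {tab : List (List ℤ)} {E a b : ℕ}
    (htab : ∀ i < d * d, oo d (i / d) (i % d) ≤ E → tab.getD i [] = L (JJ χ (i / d) (i % d)))
    (ha : a < d) (hb : b < d) (ho : oo d a b = E + 1) :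
    jac1 d K (Fintype.card F) ι sg tab a b = L (JJ χ a b) := by
  rw [jac1]
  split_ifs with h1 h2 h3
  · have ha0 := Nat.dvd_of_mod_eq_zero h1.1
    have hb0 := Nat.dvd_of_mod_eq_zero h1.2
    rw [JJ_congr h (a' := 0) (b' := 0) ((Nat.modEq_zero_iff_dvd).2 ha0)
      ((Nat.modEq_zero_iff_dvd).2 hb0), JJ_zero_zero, intL_eq]
    push_cast; rfl
  · rcases h2 with h2 | h2
    · have hb0 : ¬ d ∣ b := fun h3 => h1 ⟨h2, Nat.mod_eq_zero_of_dvd h3⟩
      rw [JJ_congr h (a' := 0) (b' := b) ((Nat.modEq_zero_iff_dvd).2 (Nat.dvd_of_mod_eq_zero h2)) rfl,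
        JJ_zero h hb0, intL_eq]
      push_cast; rfl
    · have ha0 : ¬ d ∣ a := fun h3 => h1 ⟨Nat.mod_eq_zero_of_dvd h3, h2⟩
      rw [JJ_comm, JJ_congr h (a' := 0) (b' := a)
        ((Nat.modEq_zero_iff_dvd).2 (Nat.dvd_of_mod_eq_zero h2)) rfl, JJ_zero h ha0, intL_eq]
      push_cast; rfl
  · push Not at h2
    have ha0 : ¬ d ∣ a := fun h4 => h2.1 (Nat.mod_eq_zero_of_dvd h4)
    have h5 : z d ^ (a * ind χ (-1)) = z d ^ (a * ι) := by
      rw [mul_comm, pow_mul, ind_spec h (neg_ne_zero.2 one_ne_zero), hι, ← pow_mul, mul_comm]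
    rw [JJ_neg h ha0 (Nat.dvd_of_mod_eq_zero h3), h5, zL_eq, smulL_eq]
    push_cast; ring_nf
  · push Not at h2
    exact jmain_eq h hs htab ha hb (fun h4 => h2.1 (Nat.mod_eq_zero_of_dvd h4))
      (fun h4 => h2.2 (Nat.mod_eq_zero_of_dvd h4)) (fun h4 => h3 (Nat.mod_eq_zero_of_dvd h4)) ho

/-- The table is correct. -/
theorem jtab_spec (h : CH χ) {K ι : ℕ} (hι : χ (-1) = z d ^ ι) {sg : List (List (List ℤ))}
    (hs : GenHyp χ K sg) (a b : ℕ) :
    tget d (jtab d K (Fintype.card F) ι sg) a b = L (JJ χ a b) := by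
  have hd0 := dpos (d := d)
  have key : ∀ E, ∀ i < d * d, oo d (i / d) (i % d) ≤ E →
      ((List.range E).foldl (jround d K (Fintype.card F) ι sg) []).getD i [] =
        L (JJ χ (i / d) (i % d)) := by
    intro E
    induction E with
    | zero =>
      intro i _ h1
      have := (oo_spec hd0 (i / d) (i % d)).1
      omega
    | succ E ih =>
      intro i hi h1
      rw [List.range_succ, List.foldl_append, List.foldl_cons, List.foldl_nil, jround,
        getD_range_map _ _ hi]
      have hi1 : i / d < d := Nat.div_lt_of_lt_mul hi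
      have hi2 : i % d < d := Nat.mod_lt _ hd0
      split_ifs with h2
      · exact jac1_eq h hι hs ih hi1 hi2 h2
      · exact ih i hi (by omega)
  refine tget_eq h (E := d) (key d) (oo_spec hd0 a b).2.1

end R

end Run7.h700.G
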