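import Pool.Agent.Run7.h700.G.CountA
import Pool.Agent.Run7.h700.G.IdealP

/-!
# The algorithm for diagonal equations over prime fields
-/

set_option linter.unusedSectionVars false
set_option linter.style.haveILetI false
set_option linter.unusedVariables false

namespace Run7.h700.G

open Finset

/-- The greatest common divisor of a small number and a large number. -/
def cgcd (D Q : ℕ) : ℕ :=
  D - (((List.range D).filter fun e => decide (D % (D - e) = 0) && decide (Q % (D - e) = 0)).head?).getD 0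

/-- Modular power. -/
def powm (p a k : ℕ) : ℕ :=
  k.bits.foldr (fun b acc => if b then (acc * acc % p) * a % p else acc * acc % p) (1 % p)

/-- Is `w` a primitive root of unity of order `d` modulo `p`? -/
def goodW (p d w : ℕ) : Bool :=
  decide (powm p w d = 1 % p) &&
    decide (((prs d).filter fun l => decide (powm p w (d / l) = 1 % p)).length = 0)

/-- Search for a primitive root of unity. -/
def findW (p d : ℕ) (rs : List ℕ) : Option ℕ :=
  ((rs.map fun r => powm p r ((p - 1) / d)).filter fun w => goodW p d w).head?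

/-- The index. -/
def indW (p w d a : ℕ) : ℕ :=
  (((List.range d).filter fun i => decide (powm p w i = powm p a ((p - 1) / d))).head?).getD 0

/-- The function attached to a term. -/
def fnA (d p w : ℕ) (t : ℕ × ℕ) : Fn :=
  if t.1 % p = 0 then cstF d p else powF d t.2 (indW p w d t.1)

/-- Reading off the number of solutions. -/
def readN (d p w Q b : ℕ) (G : Fn) : ℕ :=
  if b % p = 0 then readL Q G.2 else readL Q (valF d G (indW p w d b))

/-- The table of Jacobi sums. -/
def tabP (d p w : ℕ) : List (List ℤ) := jtab d (KP d) p (indW p w d (p - 1)) (sgP d p w)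

/-- The number of solutions. -/
def mainN (d p w : ℕ) (ts : List (ℕ × ℕ)) (b : ℕ) : ℕ :=
  readN d p w (p ^ ts.length + 1) b
    (convs d (p ^ ts.length + 1) p (indW p w d (p - 1)) (tabP d p w) (ts.map (fnA d p w)))

/-- The algorithm. -/
def mainA (D p : ℕ) (rs : List ℕ) (ts : List (ℕ × ℕ)) (b : ℕ) : Option ℕ :=
  (findW p (cgcd D (p - 1)) rs).map fun w => mainN (cgcd D (p - 1)) p w ts b

theorem cgcd_eq {D Q : ℕ} (hD : 0 < D) : cgcd D Q = Nat.gcd D Q := by
  have g0 : 0 < Nat.gcd D Q := Nat.gcd_pos_of_pos_left _ hD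
  have g1 : Nat.gcd D Q ≤ D := Nat.le_of_dvd hD (Nat.gcd_dvd_left D Q)
  obtain ⟨e, h1, h2, h3, h4⟩ := find_head D (fun e => decide (D % (D - e) = 0) &&
    decide (Q % (D - e) = 0)) ⟨D - Nat.gcd D Q, by omega, by
      rw [Nat.sub_sub_self g1, Nat.mod_eq_zero_of_dvd (Nat.gcd_dvd_left D Q),
        Nat.mod_eq_zero_of_dvd (Nat.gcd_dvd_right D Q)]
      simp⟩
  rw [cgcd, h2]
  simp only [Bool.and_eq_true, decide_eq_true_eq] at h3
  have h5 : D - e ∣ Nat.gcd D Q := Nat.dvd_gcd (Nat.dvd_of_mod_eq_zero h3.1)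
    (Nat.dvd_of_mod_eq_zero h3.2)
  have h6 := Nat.le_of_dvd g0 h5
  have h7 : e ≤ D - Nat.gcd D Q := by
    by_contra h8
    push Not at h8
    have h9 := h4 _ h8
    rw [Nat.sub_sub_self g1, Nat.mod_eq_zero_of_dvd (Nat.gcd_dvd_left D Q),
      Nat.mod_eq_zero_of_dvd (Nat.gcd_dvd_right D Q)] at h9
    simp at h9
  omega

theorem powm_eq (p a k : ℕ) : powm p a k = a ^ k % p := by
  have key : ∀ l : List Bool, l.foldr (fun b acc => if b then (acc * acc % p) * a % p
      else acc * acc % p) (1 % p) = a ^ Pool.Agent.NPC.valB l % p := by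
    intro l
    induction l with
    | nil => simp
    | cons b l ih =>
      rw [List.foldr_cons, ih, Pool.Agent.NPC.valB_cons]
      have h1 : (a ^ Pool.Agent.NPC.valB l % p) * (a ^ Pool.Agent.NPC.valB l % p) % p =
          a ^ (2 * Pool.Agent.NPC.valB l) % p := by
        rw [← Nat.mul_mod, two_mul, pow_add]
      rw [h1]
      cases b
      · simp
      · simp only [if_true]
        rw [pow_add, pow_one, mul_comm a, Nat.mod_mul_mod]
  rw [powm, key, Pool.Agent.NPC.valB_bits]

theorem powm_eq_iff {p a k b l : ℕ} :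
    powm p a k = powm p b l ↔ ((a : ZMod p)) ^ k = (b : ZMod p) ^ l := by
  rw [powm_eq, powm_eq]
  have := ZMod.natCast_eq_natCast_iff (a ^ k) (b ^ l) p
  push_cast at this
  exact this.symm

theorem powm_eq_one_iff {p a k : ℕ} : powm p a k = 1 % p ↔ ((a : ZMod p)) ^ k = 1 := by
  rw [powm_eq]
  have := ZMod.natCast_eq_natCast_iff (a ^ k) 1 p
  push_cast at this
  exact this.symm

theorem goodW_iff {p d w : ℕ} (hd : 0 < d) :
    goodW p d w = true ↔ IsPrimitiveRoot ((w : ℕ) : ZMod p) d := by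
  rw [goodW, Bool.and_eq_true, decide_eq_true_eq, decide_eq_true_eq, powm_eq_one_iff,
    List.length_eq_zero_iff, List.filter_eq_nil_iff]
  constructor
  · rintro ⟨h1, h2⟩
    rw [IsPrimitiveRoot.iff_orderOf]
    apply orderOf_eq_of_pow_and_pow_div_prime hd h1
    intro l hl hl2 h3
    have h4 := h2 l ((mem_prs hd).2 ⟨hl, hl2⟩)
    rw [decide_eq_true_eq, powm_eq_one_iff] at h4
    exact h4 h3
  · intro h
    refine ⟨h.pow_eq_one, ?_⟩
    intro l hl
    rw [decide_eq_true_eq, powm_eq_one_iff]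
    intro h3
    obtain ⟨h4, h5⟩ := (mem_prs hd).1 hl
    have h6 := h.dvd_of_pow_eq_one _ h3
    have h7 := Nat.div_lt_self hd h4.one_lt
    have h8 : 0 < d / l := Nat.div_pos (Nat.le_of_dvd hd h5) h4.pos
    exact absurd (Nat.le_of_dvd h8 h6) (by omega)

theorem findW_some {p d w : ℕ} {rs : List ℕ} (hd : 0 < d) (h : findW p d rs = some w) :
    IsPrimitiveRoot ((w : ℕ) : ZMod p) d := by
  rw [findW] at h
  have h1 := List.mem_of_head? h
  exact (goodW_iff hd).1 (List.mem_filter.1 h1).2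

theorem findW_none {p d : ℕ} {rs : List ℕ} (hd : 0 < d) (h : findW p d rs = none) :
    ∀ r ∈ rs, ¬ IsPrimitiveRoot ((r : ZMod p) ^ ((p - 1) / d)) d := by
  intro r hr h1
  rw [findW, List.head?_eq_none_iff, List.filter_eq_nil_iff] at h
  apply h _ (List.mem_map_of_mem hr)
  rw [goodW_iff hd, powm_eq, ZMod.natCast_mod]
  push_cast
  exact h1

namespace R

variable {d : ℕ} [hd : NeZero d] {p : ℕ} [hp : Fact p.Prime] {ω : ZMod p}

theorem indW_spec {w : ℕ} (hω : IsPrimitiveRoot ((w : ℕ) : ZMod p) d) {χ : MulChar (ZMod p) (R d)}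
    (hχ : CH χ) (hr : ∀ x, x ≠ 0 → red hω 1 (Nat.coprime_one_left d) (χ x) = x ^ ((p - 1) / d))
    {a : ℕ} (ha : ((a : ℕ) : ZMod p) ≠ 0) : χ (a : ZMod p) = z d ^ indW p w d a := by
  have h1 := ind_spec hχ ha
  have h2 := ind_lt (χ := χ) ((a : ℕ) : ZMod p)
  have h3 := hr _ ha
  rw [← h1, map_pow, red_z, pow_one] at h3
  obtain ⟨e, g1, g2, g3, g4⟩ := find_head d (fun i => decide (powm p w i = powm p a ((p - 1) / d)))
    ⟨_, h2, by rw [decide_eq_true_eq, powm_eq_iff]; exact h3⟩
  rw [decide_eq_true_eq, powm_eq_iff] at g3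
  rw [indW, g2, ← h1]
  congr 1
  exact hω.pow_inj h2 g1 (h3.trans g3.symm)

theorem neg_one_eq : (((p - 1 : ℕ) : ℕ) : ZMod p) = -1 := by
  rw [Nat.cast_sub hp.out.one_lt.le]; simp

theorem mainN_spec {w : ℕ} (hω : IsPrimitiveRoot ((w : ℕ) : ZMod p) d) (hdvd : d ∣ p - 1)
    (ts : List (ℕ × ℕ)) (hts : ∀ t ∈ ts, 0 < t.2 ∧ Nat.gcd (p - 1) t.2 ∣ d) (b : ℕ) :
    mainN d p w ts b = cntL (ts.map fun t => ((t.1 : ZMod p), t.2)) (b : ZMod p) := by
  obtain ⟨χ, hχ, hr⟩ := exists_char hω hdvd
  have hcard : Fintype.card (ZMod p) = p := ZMod.card p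
  have hne1 : (((p - 1 : ℕ) : ℕ) : ZMod p) ≠ 0 := by
    rw [neg_one_eq]; exact neg_ne_zero.2 one_ne_zero
  have hι : χ (-1) = z d ^ indW p w d (p - 1) := by
    rw [← neg_one_eq]; exact indW_spec hω hχ hr hne1
  have htab : ∀ a b, tget d (tabP d p w) a b = L (JJ χ a b) := by
    intro a b
    have := jtab_spec hχ hι (genHyp_P hω hχ hr) a b
    rwa [hcard] at this
  set Q := p ^ ts.length + 1 with hQ
  have hF : List.Forall₂ (RL χ Q) (ts.map (fnA d p w))
      ((ts.map fun t => ((t.1 : ZMod p), t.2)).map (dist (d := d))) := by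
    rw [List.map_map, List.forall₂_map_left_iff, List.forall₂_map_right_iff, List.forall₂_same]
    intro t ht
    obtain ⟨h1, h2⟩ := hts t ht
    rw [fnA, Function.comp_apply]
    split_ifs with h3
    · have h4 : ((t.1 : ℕ) : ZMod p) = 0 :=
        (ZMod.natCast_eq_zero_iff _ _).2 (Nat.dvd_of_mod_eq_zero h3)
      have h5 := RL_cst (F := ZMod p) (χ := χ) (Q := Q) (p : ℤ)
      have h6 : dist (d := d) (((t.1 : ℕ) : ZMod p), t.2) =
          fun y => if y = 0 then (((p : ℕ) : ℤ) : R d) else 0 := by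
        funext y
        rw [dist]
        simp only [h4, zero_mul]
        by_cases h7 : y = 0
        · subst h7
          rw [if_pos rfl, Finset.filter_true_of_mem (fun _ _ => rfl), Finset.card_univ, hcard]
          simp
        · rw [if_neg h7, Finset.filter_false_of_mem (fun _ _ h8 => h7 h8.symm)]
          simp
      rw [h6]; exact h5
    · have h4 : ((t.1 : ℕ) : ZMod p) ≠ 0 := fun h5 => h3
        (Nat.mod_eq_zero_of_dvd ((ZMod.natCast_eq_zero_iff _ _).1 h5))
      exact RL_pow hχ (by rw [hcard]; exact h2) h1 h4 (indW_spec hω hχ hr h4)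
  have hG := RL_convs hχ htab hι hF
  rw [hcard] at hG
  have hlt : cntL (ts.map fun t => ((t.1 : ZMod p), t.2)) (b : ZMod p) < Q := by
    have := cntL_le (ts.map fun t => ((t.1 : ZMod p), t.2)) (b : ZMod p)
    rw [hcard, List.length_map] at this
    omega
  rw [mainN, readN]
  split_ifs with h3
  · have h4 : ((b : ℕ) : ZMod p) = 0 :=
      (ZMod.natCast_eq_zero_iff _ _).2 (Nat.dvd_of_mod_eq_zero h3)
    refine readL_eq (d := d) ?_ hlt
    rw [← cvs_eq, h4]
    exact RL_zero hG
  · have h4 : ((b : ℕ) : ZMod p) ≠ 0 := fun h5 => h3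
      (Nat.mod_eq_zero_of_dvd ((ZMod.natCast_eq_zero_iff _ _).1 h5))
    refine readL_eq (d := d) ?_ hlt
    rw [← cvs_eq]
    exact RL_val hχ hG h4 (indW_spec hω hχ hr h4)

open Classical in
/-- Many elements are good. -/
theorem good_count (hdvd : d ∣ p - 1) :
    p - 1 ≤ d * ((Finset.range p).filter fun r =>
      IsPrimitiveRoot (((r : ℕ) : ZMod p) ^ ((p - 1) / d)) d).card := by
  classical
  have hp1 : 0 < p - 1 := by have := hp.out.one_lt; omega
  obtain ⟨g, hg⟩ := IsCyclic.exists_generator (α := (ZMod p)ˣ)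
  have h5 : orderOf g = p - 1 := by
    rw [orderOf_eq_card_of_forall_mem_zpowers hg, Nat.card_eq_fintype_card, ZMod.card_units]
  have hm : 0 < (p - 1) / d := Nat.div_pos (Nat.le_of_dvd hp1 hdvd) dpos
  have hmd : (p - 1) / d * d = p - 1 := Nat.div_mul_cancel hdvd
  set f : ℕ → ℕ := fun i => (((g ^ (d * i + 1) : (ZMod p)ˣ) : ZMod p)).val with hf
  have h1 : (Finset.range ((p - 1) / d)).image f ⊆ (Finset.range p).filter fun r =>
      IsPrimitiveRoot (((r : ℕ) : ZMod p) ^ ((p - 1) / d)) d := by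
    intro r hr
    obtain ⟨i, hi, rfl⟩ := Finset.mem_image.1 hr
    rw [Finset.mem_filter, Finset.mem_range]
    refine ⟨ZMod.val_lt _, ?_⟩
    rw [hf]
    simp only
    rw [ZMod.natCast_val, ZMod.cast_id]
    rw [← Units.val_pow_eq_pow_val, IsPrimitiveRoot.coe_units_iff, IsPrimitiveRoot.iff_orderOf,
      ← pow_mul]
    rw [orderOf_pow, h5]
    have h6 : Nat.gcd (p - 1) ((d * i + 1) * ((p - 1) / d)) = (p - 1) / d := by
      have e1 : Nat.gcd ((p - 1) / d * d) ((p - 1) / d * (d * i + 1)) = (p - 1) / d := by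
        rw [Nat.gcd_mul_left]
        have : Nat.gcd d (d * i + 1) = 1 := by
          rw [Nat.gcd_comm]; simp
        rw [this, mul_one]
      rwa [hmd, mul_comm ((p - 1) / d)] at e1
    rw [h6]
    exact Nat.div_eq_of_eq_mul_right hm (by rw [hmd])
  have h2 : ((Finset.range ((p - 1) / d)).image f).card = (p - 1) / d := by
    rw [Finset.card_image_of_injOn, Finset.card_range]
    intro i hi j hj hij
    rw [hf] at hij
    simp only at hij
    have h6 := ZMod.val_injective p hij
    have h7 := Units.ext h6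
    rw [Finset.coe_range, Set.mem_Iio] at hi hj
    have h8 := pow_inj_mod.1 h7
    have hlt : ∀ k, k < (p - 1) / d → d * k + 1 ≤ p - 1 := by
      intro k hk
      have e1 : d * (k + 1) ≤ d * ((p - 1) / d) := Nat.mul_le_mul_left _ hk
      rw [mul_comm d ((p - 1) / d), hmd] at e1
      have := dpos (d := d)
      rw [mul_add, mul_one] at e1
      omega
    rw [h5] at h8
    have h9 : d * i ≡ d * j [MOD p - 1] := Nat.ModEq.add_right_cancel' 1 h8
    have e2 := hlt i hi
    have e3 := hlt j hj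
    have h10 := Nat.ModEq.eq_of_lt_of_lt h9 (by omega) (by omega)
    exact Nat.eq_of_mul_eq_mul_left dpos h10
  have h3 := Finset.card_le_card h1
  rw [h2] at h3
  calc p - 1 = d * ((p - 1) / d) := by rw [mul_comm, hmd]
    _ ≤ _ := Nat.mul_le_mul_left _ h3

end R

end Run7.h700.G
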